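import Pool.Agent.TRN.SgA

set_option autoImplicit false

/-!
# TRN-SgB: the series Ph

PLAN. `θ = arg q = π α` (`0 < α < 1`, even `< 1 / 2`), `ψ = arg (mo d q)` (`mo d q ≠ 0` by `sgn 1`). `re (mo / q ^ k) = ‖mo‖ / ‖q‖ ^ k * cos (ψ - k θ)` (`Complex.polar`/`Complex.norm_mul_cos_add_sin_mul_I`).
`sgn_cos`: if `cos (π t) ≠ 0` then `cos (π t)` and `sg ⌊t + 1 / 2⌋` have the same sign: write `t = m + f` with `m = ⌊t + 1/2⌋`, `-1/2 ≤ f < 1/2`, `cos (π t) = (-1) ^ m cos (π f)` (`Real.cos_int_mul_pi..`, `Real.cos_nonneg_of_neg_pi_div_two_le_of_le`).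
`re_mo`: `∑_{k ≥ 0} d_k re (conj w q^k) = 0` (`w = mo d q`; real part of `conj w * f(q)`), the terms `k ≥ 1` are positive (`re (conj w q ^ k) = ‖q‖ ^ (2k) re (w / q ^ k)`), so `re w < 0`.
`ext_ph`: `x0 = 1/2 - ψ/π`, `x = fract x0`, `sg ⌊k α + x0⌋ = d k` for `k ≥ 1`, `= -1` for `k = 0` (`cos ψ < 0`), so `∑ sg ⌊k α + x0⌋ q^k = f(q) - 2 = -2`; `x0 = x + ⌊x0⌋`, `ph_int`; the term `k = 0`: `sg ⌊x0⌋ = -1`, so `Ph α q x = 2`.
-/

namespace Pool.Agent.TRN

open Polynomial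

private theorem SgB_re (w q : ℂ) (k : ℕ) :
    (w / q ^ k).re = ‖w‖ / ‖q‖ ^ k * Real.cos (k * q.arg - w.arg) := by
  have h1 : w / q ^ k = ((‖w‖ / ‖q‖ ^ k : ℝ) : ℂ) *
      Complex.exp (((w.arg - k * q.arg : ℝ) : ℂ) * Complex.I) := by
    have hw := Complex.norm_mul_exp_arg_mul_I w
    have hq := Complex.norm_mul_exp_arg_mul_I q
    have h2 : q ^ k = ((‖q‖ ^ k : ℝ) : ℂ) * Complex.exp (((k * q.arg : ℝ) : ℂ) * Complex.I) := by
      conv_lhs => rw [← hq]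
      rw [mul_pow, ← Complex.exp_nat_mul]
      push_cast
      ring_nf
    have h3 : ((w.arg - k * q.arg : ℝ) : ℂ) * Complex.I =
        (w.arg : ℂ) * Complex.I - ((k * q.arg : ℝ) : ℂ) * Complex.I := by
      push_cast
      ring
    rw [h3, Complex.exp_sub, h2]
    conv_lhs => rw [← hw]
    push_cast
    rw [mul_div_mul_comm]
  rw [h1, Complex.re_ofReal_mul, Complex.exp_ofReal_mul_I_re, ← Real.cos_neg]
  congr 2
  ring

private theorem SgB_sg (m : ℤ) : sg m = 1 ∨ sg m = -1 := by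
  unfold sg
  by_cases h : Even m
  · left
    rw [if_pos h]
  · right
    rw [if_neg h]

theorem ext_ph {q : ℂ} {d : ℕ → ℤ} (h : Ext q d) :
    ∃ x : ℝ, 0 ≤ x ∧ x < 1 ∧ Ph (q.arg / Real.pi) q x = (2 : ℤ) := by
  have hre := re_mo h
  obtain ⟨w, hw⟩ : ∃ w : ℂ, w = mo d q := ⟨_, rfl⟩
  rw [← hw] at hre
  have hpi := Real.pi_pos
  have hw0 : w ≠ 0 := by
    intro h0
    rw [h0, Complex.zero_re] at hre
    exact lt_irrefl _ hre
  have hq0 : q ≠ 0 := by
    intro h0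
    have := h.re
    rw [h0, Complex.zero_re] at this
    exact lt_irrefl _ this
  have hwn : 0 < ‖w‖ := norm_pos_iff.mpr hw0
  have hqn : 0 < ‖q‖ := norm_pos_iff.mpr hq0
  obtain ⟨x0, hx0⟩ : ∃ x0 : ℝ, x0 = 1 / 2 - w.arg / Real.pi := ⟨_, rfl⟩
  obtain ⟨α, hα⟩ : ∃ α : ℝ, α = q.arg / Real.pi := ⟨_, rfl⟩
  rw [← hα]
  have hang : ∀ k : ℕ, Real.pi * (k * α + x0 - 1 / 2) = k * q.arg - w.arg := by
    intro k
    rw [hα, hx0]
    field_simp
    ring
  have hdk : ∀ k : ℕ, 1 ≤ k → sg ⌊(k : ℝ) * α + x0⌋ = d k := by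
    intro k hk
    have h1 := h.sgn k hk
    rw [← hw, SgB_re, ← hang] at h1
    have h2 : 0 < ‖w‖ / ‖q‖ ^ k := by positivity
    have h3 : 0 < (d k : ℝ) * Real.cos (Real.pi * (k * α + x0 - 1 / 2)) := by
      have h4 : (d k : ℝ) * (‖w‖ / ‖q‖ ^ k * Real.cos (Real.pi * (k * α + x0 - 1 / 2))) =
          (‖w‖ / ‖q‖ ^ k) * ((d k : ℝ) * Real.cos (Real.pi * (k * α + x0 - 1 / 2))) := by ring
      rw [h4] at h1
      exact (mul_pos_iff_of_pos_left h2).mp h1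
    have h5 : Real.cos (Real.pi * (k * α + x0 - 1 / 2)) ≠ 0 := by
      intro h0
      rw [h0, mul_zero] at h3
      exact lt_irrefl _ h3
    have h6 := sgn_cos h5
    rw [sub_add_cancel] at h6
    rcases h.pm k with h7 | h7 <;> rcases SgB_sg ⌊(k : ℝ) * α + x0⌋ with h8 | h8
    · rw [h7, h8]
    · exfalso
      rw [h7] at h3
      rw [h8] at h6
      push_cast at h3 h6
      linarith
    · exfalso
      rw [h7] at h3
      rw [h8] at h6
      push_cast at h3 h6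
      linarith
    · rw [h7, h8]
  have h0k : sg ⌊((0 : ℕ) : ℝ) * α + x0⌋ = -1 := by
    have h1 : w.re = ‖w‖ * Real.cos (Real.pi * (((0 : ℕ) : ℝ) * α + x0 - 1 / 2)) := by
      have h2 := SgB_re w q 0
      rw [← hang, pow_zero, pow_zero, div_one, div_one] at h2
      exact h2
    have h3 : Real.cos (Real.pi * (((0 : ℕ) : ℝ) * α + x0 - 1 / 2)) < 0 := by
      by_contra h4
      push Not at h4
      have := mul_nonneg hwn.le h4
      rw [← h1] at this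
      linarith
    have h6 := sgn_cos h3.ne
    rw [sub_add_cancel] at h6
    rcases SgB_sg ⌊((0 : ℕ) : ℝ) * α + x0⌋ with h8 | h8
    · exfalso
      rw [h8] at h6
      push_cast at h6 h3
      linarith
    · exact h8
  have hsum : HasSum (fun k : ℕ => (sg ⌊(k : ℝ) * α + x0⌋ : ℂ) * q ^ k) (-2) := by
    have h1 : HasSum (fun k : ℕ => if k = 0 then (-2 : ℂ) else 0) (-2) := hasSum_ite_eq 0 (-2)
    have h2 := h.van.add h1
    rw [zero_add] at h2
    refine (congrArg (fun f => HasSum f (-2 : ℂ)) (funext fun k => ?_)).mp h2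
    by_cases hk : k = 0
    · subst hk
      rw [h0k, if_pos rfl, h.d0]
      push_cast
      ring
    · rw [if_neg hk, hdk k (by omega), add_zero]
  have hph : Ph α q x0 = -2 := hsum.tsum_eq
  refine ⟨Int.fract x0, Int.fract_nonneg _, Int.fract_lt_one _, ?_⟩
  have h1 := ph_int α q (Int.fract x0) ⌊x0⌋
  rw [Int.fract_add_floor, hph] at h1
  have h2 : sg ⌊x0⌋ = -1 := by
    rw [Nat.cast_zero, zero_mul, zero_add] at h0k
    exact h0k
  rw [h2] at h1
  push_cast at h1 ⊢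
  linear_combination h1

end Pool.Agent.TRN
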