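import Pool.Agent.TRN.Defs

set_option autoImplicit false

/-!
# TRN-Fld: the complex conjugate lies in `ℚ(x)`

The minimal polynomial of `conj x` over `ℚ(x)` divides `Q` and `X ^ n - x ^ n`, so its only roots in `ℂ` are `x` and
`conj x`, and `x` is not a root since `conj x ≠ x`; being separable it has degree one.
-/

namespace Pool.Agent.TRN

open Polynomial
open scoped ComplexConjugate

private theorem Fld_conj {x : ℂ} {Q : ℤ[X]} (hQx : aeval x Q = 0) : aeval (conj x) Q = 0 := by
  have h1 := Polynomial.hom_eval₂ Q (algebraMap ℤ ℂ) (starRingEnd ℂ) x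
  rw [show (starRingEnd ℂ).comp (algebraMap ℤ ℂ) = algebraMap ℤ ℂ from RingHom.ext_int _ _, ← aeval_def,
    ← aeval_def, hQx, map_zero] at h1
  exact h1.symm

private theorem Fld_deg (K : IntermediateField ℚ ℂ) {y : ℂ} (hy : IsIntegral K y)
    (h : ∀ w : ℂ, aeval w (minpoly K y) = 0 → w = y) : y ∈ K := by
  set g := minpoly K y with hg
  have hirr : Irreducible g := minpoly.irreducible hy
  have hsep : g.Separable := hirr.separable
  have hg0 : g ≠ 0 := minpoly.ne_zero hy
  have hsplit : (g.map (algebraMap K ℂ)).Splits := IsAlgClosed.splits _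
  have hnd : (g.map (algebraMap K ℂ)).roots.Nodup := nodup_roots hsep.map
  have hcard : (g.map (algebraMap K ℂ)).roots.card = g.natDegree := by
    rw [← hsplit.natDegree_eq_card_roots, natDegree_map]
  have hall : ∀ w ∈ (g.map (algebraMap K ℂ)).roots, w = y := by
    intro w hw
    refine h w ?_
    have h2 := (mem_roots'.1 hw).2
    rw [IsRoot.def, eval_map, ← aeval_def] at h2
    exact h2
  have hle : (g.map (algebraMap K ℂ)).roots.card ≤ 1 := by
    by_contra hc
    have h3 := Multiset.eq_replicate.2 ⟨rfl, hall⟩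
    rw [h3] at hnd
    have h4 := Multiset.nodup_iff_count_le_one.1 hnd y
    rw [Multiset.count_replicate_self] at h4
    exact hc h4
  have hdeg : g.natDegree = 1 := by
    have h5 : 0 < g.natDegree := minpoly.natDegree_pos hy
    omega
  have hdeg' : g.degree = 1 := by
    rw [degree_eq_natDegree hg0, hdeg]
    rfl
  obtain ⟨b, hb⟩ := minpoly.mem_range_of_degree_eq_one K y hdeg'
  rw [← hb]
  exact b.2

theorem conj_mem {x : ℂ} {n : ℕ} {Q : ℤ[X]} (hn : 0 < n) (hQm : Q.Monic) (hQx : aeval x Q = 0) (hxi : x.im ≠ 0)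
    (hreal : (x ^ n).im = 0) (hcon : ∀ w : ℂ, aeval w Q = 0 → w ^ n = x ^ n → w = x ∨ w = conj x) :
    conj x ∈ IntermediateField.adjoin ℚ {x} := by
  set K := IntermediateField.adjoin ℚ {x} with hK
  have hxK : x ∈ K := IntermediateField.mem_adjoin_simple_self ℚ x
  have hyn : (conj x) ^ n = x ^ n := by
    rw [← map_pow]
    exact Complex.conj_eq_iff_im.2 hreal
  have hQy : aeval (conj x) Q = 0 := Fld_conj hQx
  have hy : IsIntegral K (conj x) := by
    have h1 : IsIntegral ℤ (conj x) := ⟨Q, hQm, by rw [← aeval_def]; exact hQy⟩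
    exact h1.tower_top
  refine Fld_deg K hy fun w hw => ?_
  have h1 : aeval w Q = 0 := by
    have h2 : minpoly K (conj x) ∣ Q.map (algebraMap ℤ K) := by
      refine minpoly.dvd K _ ?_
      rw [aeval_map_algebraMap]
      exact hQy
    obtain ⟨r, hr⟩ := h2
    rw [← aeval_map_algebraMap K w Q, hr, map_mul, hw, zero_mul]
  have h2 : w ^ n = x ^ n := by
    have h3 : minpoly K (conj x) ∣ X ^ n - C ((⟨x, hxK⟩ : K) ^ n) := by
      refine minpoly.dvd K _ ?_
      rw [map_sub, map_pow, aeval_X, aeval_C, map_pow, hyn]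
      exact sub_self _
    obtain ⟨r, hr⟩ := h3
    have h4 : aeval w (X ^ n - C ((⟨x, hxK⟩ : K) ^ n)) = 0 := by
      rw [hr, map_mul, hw, zero_mul]
    rw [map_sub, map_pow, aeval_X, aeval_C, map_pow, sub_eq_zero] at h4
    exact h4
  rcases hcon w h1 h2 with h5 | h5
  · exfalso
    rw [h5] at hw
    have h6 := minpoly.eq_of_irreducible_of_monic (minpoly.irreducible hy) hw (minpoly.monic hy)
    have h7 : minpoly K x = X - C (⟨x, hxK⟩ : K) := minpoly.eq_X_sub_C ℂ (⟨x, hxK⟩ : K)
    have h8 := minpoly.aeval K (conj x)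
    rw [h6, h7, map_sub, aeval_X, aeval_C, sub_eq_zero] at h8
    apply hxi
    exact Complex.conj_eq_iff_im.1 h8
  · exact h5

end Pool.Agent.TRN
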