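import Pool.Agent.TRN.AlgK
import Pool.Agent.TRN.Fld

set_option autoImplicit false

/-!
# TRN-AlgM: the main inequality for a complex number

`algK` applied to the field `ℚ⟮x⟯` over its subfield generated by the primitive `n`-th root of unity `conj x / x`.
-/

namespace Pool.Agent.TRN

open Polynomial
open scoped ComplexConjugate

private theorem AlgM_prim {K : IntermediateField ℚ ℂ} {x : ℂ} {n : ℕ} {ζ : K} (hζ : (ζ : ℂ) = conj x / x)
    (hx : x ≠ 0) (hn : 0 < n) (hreal : (x ^ n).im = 0) (hmin : ∀ k, 0 < k → k < n → (x ^ k).im ≠ 0) :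
    IsPrimitiveRoot ζ n := by
  have key : ∀ k : ℕ, ζ ^ k = 1 ↔ (x ^ k).im = 0 := by
    intro k
    rw [← Complex.conj_eq_iff_im, map_pow]
    constructor
    · intro h
      have h1 : ((ζ ^ k : K) : ℂ) = 1 := by rw [h]; rfl
      have h2 : ((ζ ^ k : K) : ℂ) = (ζ : ℂ) ^ k := rfl
      rw [h2, hζ, div_pow, div_eq_one_iff_eq (pow_ne_zero k hx)] at h1
      exact h1
    · intro h
      apply Subtype.ext
      have h2 : ((ζ ^ k : K) : ℂ) = (ζ : ℂ) ^ k := rfl
      rw [h2, hζ, div_pow, h, div_self (pow_ne_zero k hx)]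
      rfl
  refine IsPrimitiveRoot.mk_of_lt ζ hn ((key n).2 hreal) fun l h0 h1 h2 => hmin l h0 h1 ((key l).1 h2)

theorem algM {x : ℂ} {n : ℕ} {Q : ℤ[X]} (hn : 0 < n) (hQm : Q.Monic) (hQd : Q.natDegree = n) (hQx : aeval x Q = 0)
    (hx1 : 1 < ‖x‖) (hxi : x.im ≠ 0) (hreal : (x ^ n).im = 0) (hmin : ∀ k, 0 < k → k < n → (x ^ k).im ≠ 0)
    (hcon : ∀ w : ℂ, aeval w Q = 0 → w ^ n = x ^ n → w = x ∨ w = conj x)
    (hM : (Q.map (Int.castRingHom ℂ)).mahlerMeasure ^ 2 ≤ (n : ℝ) + 4) :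
    ∃ e0 : ℕ, e0 * n.totient ≤ n ∧ ∀ p : ℕ, p.Prime → ¬ p ∣ n →
      (p : ℝ) ^ (2 * n.totient) ≤ 2 ^ (2 * n.totient * e0) * ((n : ℝ) + 4) ^ (p + 1) := by
  have hx0 : x ≠ 0 := by
    intro h
    rw [h, norm_zero] at hx1
    linarith
  have hn0 : NeZero n := ⟨hn.ne'⟩
  have hintZ : IsIntegral ℤ x := ⟨Q, hQm, hQx⟩
  have hint : IsIntegral ℚ x := hintZ.tower_top
  let K : IntermediateField ℚ ℂ := IntermediateField.adjoin ℚ {x}
  have hfd : FiniteDimensional ℚ K := IntermediateField.adjoin.finiteDimensional hint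
  have hNK : NumberField K := { to_charZero := inferInstance, to_finiteDimensional := hfd }
  let xK : K := IntermediateField.AdjoinSimple.gen ℚ x
  have hxK : (xK : ℂ) = x := rfl
  let cK : K := ⟨conj x, conj_mem hn hQm hQx hxi hreal hcon⟩
  have hcK : (cK : ℂ) = conj x := rfl
  let ζ : K := cK / xK
  have hζ : (ζ : ℂ) = conj x / x := rfl
  have hprim : IsPrimitiveRoot ζ n := AlgM_prim hζ hx0 hn hreal hmin
  let F : IntermediateField ℚ K := IntermediateField.adjoin ℚ {ζ}
  have hcyc : IsCyclotomicExtension {n} ℚ F := hprim.intermediateField_adjoin_isCyclotomicExtension ℚ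
  have hmp : minpoly ℚ xK = minpoly ℚ x := IntermediateField.minpoly_gen ℚ x
  have hdeg : (minpoly ℚ x).natDegree = Module.finrank ℚ K := (IntermediateField.adjoin.finrank hint).symm
  have htop : IntermediateField.adjoin ℚ {xK} = ⊤ := by
    rw [Field.primitive_element_iff_minpoly_natDegree_eq, hmp, hdeg]
  have hdle : Module.finrank ℚ K ≤ n := by
    have h1 : minpoly ℚ x ∣ Q.map (algebraMap ℤ ℚ) := by
      apply minpoly.dvd
      rw [aeval_map_algebraMap, hQx]
    have h2 : (Q.map (algebraMap ℤ ℚ)).natDegree = n := by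
      rw [hQm.natDegree_map, hQd]
    rw [← hdeg, ← h2]
    exact natDegree_le_of_dvd h1 (hQm.map _).ne_zero
  have hmul : Module.finrank ℚ F * Module.finrank F K = Module.finrank ℚ K := Module.finrank_mul_finrank ℚ F K
  have hphi : Module.finrank ℚ F = n.totient :=
    IsCyclotomicExtension.finrank F (cyclotomic.irreducible_rat hn)
  refine ⟨Module.finrank F K, ?_, ?_⟩
  · rw [mul_comm, ← hphi, hmul]
    exact hdle
  · intro p hp hpn
    have hQxK : aeval xK Q = 0 := by
      apply Subtype.ext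
      have h1 : ((aeval xK Q : K) : ℂ) = aeval (xK : ℂ) Q := by
        have := (aeval_algebraMap_apply ℂ xK Q)
        exact this.symm
      rw [h1, hxK, hQx]
      rfl
    exact algK htop ⟨algebraMap K ℂ, hx1⟩ hQm hQxK hM hp hpn

end Pool.Agent.TRN
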