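import Mathlib

set_option autoImplicit false

/-!
# TRN-NumN: the numerical contradiction

If `2 ^ K ≤ n` and `(K + 2) E < 2 ^ (K + 1)`, then `(n + 4) ^ E < 4 ^ n`; this is applied with `K = 39` for `w ≤ 13`, `K = 40`
for `w = 14` and `K = 4 w - 16` for `w ≥ 15`.
-/

namespace Pool.Agent.TRN

private theorem NumN_core {n K E : ℕ} (hn : 4 ≤ n) (hK : 2 ^ K ≤ n) (hE : (K + 2) * E < 2 ^ (K + 1)) :
    (n + 4) ^ E < 4 ^ n := by
  have hn0 : n ≠ 0 := by omega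
  obtain ⟨d, hd⟩ : ∃ d, Nat.log 2 n = K + d := by
    have h1 : K ≤ Nat.log 2 n := Nat.le_log_of_pow_le (by norm_num) hK
    exact ⟨Nat.log 2 n - K, by omega⟩
  have h2 : 2 ^ (K + d) ≤ n := by
    rw [← hd]
    exact Nat.pow_log_le_self 2 hn0
  have h3 : n < 2 ^ (K + d + 1) := by
    rw [← hd]
    exact Nat.lt_pow_succ_log_self (by norm_num) n
  have h4 : n + 4 ≤ 2 ^ (K + d + 2) := by
    have h5 : 2 ^ (K + d + 2) = 2 * 2 ^ (K + d + 1) := by ring
    omega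
  have h6 : (K + d + 2) * 2 ^ K ≤ (K + 2) * n := by
    have h7 : d + 1 ≤ 2 ^ d := Nat.lt_two_pow_self
    have h8 : K + d + 2 ≤ (K + 2) * 2 ^ d := by
      calc K + d + 2 ≤ (K + 2) * (d + 1) := by nlinarith
        _ ≤ (K + 2) * 2 ^ d := Nat.mul_le_mul_left _ h7
    calc (K + d + 2) * 2 ^ K ≤ ((K + 2) * 2 ^ d) * 2 ^ K := Nat.mul_le_mul_right _ h8
      _ = (K + 2) * 2 ^ (K + d) := by ring
      _ ≤ (K + 2) * n := Nat.mul_le_mul_left _ h2
  have h9 : (K + d + 2) * E < 2 * n := by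
    have hp : 0 < 2 ^ K := by positivity
    have h10 : ((K + d + 2) * E) * 2 ^ K < (2 * n) * 2 ^ K := by
      calc ((K + d + 2) * E) * 2 ^ K = ((K + d + 2) * 2 ^ K) * E := by ring
        _ ≤ ((K + 2) * n) * E := Nat.mul_le_mul_right _ h6
        _ = n * ((K + 2) * E) := by ring
        _ < n * 2 ^ (K + 1) := Nat.mul_lt_mul_of_pos_left hE (by omega)
        _ = (2 * n) * 2 ^ K := by ring
    exact lt_of_mul_lt_mul_right h10 hp.le
  calc (n + 4) ^ E ≤ (2 ^ (K + d + 2)) ^ E := Nat.pow_le_pow_left h4 E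
    _ = 2 ^ ((K + d + 2) * E) := by rw [← pow_mul]
    _ < 2 ^ (2 * n) := Nat.pow_lt_pow_right (by norm_num) h9
    _ = 4 ^ n := by rw [pow_mul]; norm_num

private theorem NumN_fac (v : ℕ) : 2 ^ (44 + 4 * v) ≤ (15 + v + 1).factorial := by
  induction v with
  | zero => decide +kernel
  | succ v ih =>
    have h1 : (15 + (v + 1) + 1).factorial = (15 + v + 1 + 1) * (15 + v + 1).factorial := by
      rw [show 15 + (v + 1) + 1 = (15 + v + 1) + 1 from by ring, Nat.factorial_succ]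
    rw [h1]
    calc 2 ^ (44 + 4 * (v + 1)) = 16 * 2 ^ (44 + 4 * v) := by ring
      _ ≤ (15 + v + 1 + 1) * (15 + v + 1).factorial := Nat.mul_le_mul (by omega) ih

private theorem NumN_pol (v : ℕ) : (46 + 4 * v) * (16 + v) ≤ 2 ^ (10 + v) := by
  induction v with
  | zero => norm_num
  | succ v ih =>
    calc (46 + 4 * (v + 1)) * (16 + (v + 1)) ≤ 2 * ((46 + 4 * v) * (16 + v)) := by nlinarith
      _ ≤ 2 * 2 ^ (10 + v) := Nat.mul_le_mul_left _ ih
      _ = 2 ^ (10 + (v + 1)) := by ring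

private theorem NumN_big (v : ℕ) :
    (44 + 4 * v + 2) * ((15 + v + 1) * (2 ^ (2 * (15 + v) + 3) + 1)) < 2 ^ (44 + 4 * v + 1) := by
  have h1 := NumN_pol v
  have h2 : 2 ^ (2 * (15 + v) + 3) + 1 ≤ 2 ^ (34 + 2 * v) := by
    have h3 : 2 ^ (34 + 2 * v) = 2 ^ (2 * (15 + v) + 3) + 2 ^ (2 * (15 + v) + 3) := by ring
    have h4 : 1 ≤ 2 ^ (2 * (15 + v) + 3) := Nat.one_le_two_pow
    omega
  calc (44 + 4 * v + 2) * ((15 + v + 1) * (2 ^ (2 * (15 + v) + 3) + 1))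
      = ((46 + 4 * v) * (16 + v)) * (2 ^ (2 * (15 + v) + 3) + 1) := by ring
    _ ≤ 2 ^ (10 + v) * 2 ^ (34 + 2 * v) := Nat.mul_le_mul h1 h2
    _ = 2 ^ (44 + 3 * v) := by rw [← pow_add]; congr 1; ring
    _ < 2 ^ (44 + 4 * v + 1) := Nat.pow_lt_pow_right (by norm_num) (by omega)

theorem numN {n w : ℕ} (hn : 10 ^ 12 ≤ n) (hw : (w + 1).factorial ≤ n) :
    (n + 4) ^ ((w + 1) * (2 ^ (2 * w + 3) + 1)) < 4 ^ n := by
  have hn4 : 4 ≤ n := le_trans (by norm_num) hn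
  rcases le_or_gt w 13 with h | h
  · refine NumN_core (K := 39) hn4 (le_trans (by norm_num) hn) ?_
    have h1 : (w + 1) * (2 ^ (2 * w + 3) + 1) ≤ 14 * (2 ^ 29 + 1) := by
      refine Nat.mul_le_mul (by omega) ?_
      have h2 : 2 ^ (2 * w + 3) ≤ 2 ^ 29 := Nat.pow_le_pow_right (by norm_num) (by omega)
      omega
    calc (39 + 2) * ((w + 1) * (2 ^ (2 * w + 3) + 1)) ≤ (39 + 2) * (14 * (2 ^ 29 + 1)) := Nat.mul_le_mul_left _ h1
      _ < 2 ^ (39 + 1) := by norm_num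
  · rcases Nat.lt_or_ge w 15 with h' | h'
    · have h3 : w = 14 := by omega
      subst h3
      refine NumN_core (K := 40) hn4 (le_trans ?_ hw) (by norm_num)
      decide +kernel
    · obtain ⟨v, rfl⟩ : ∃ v, w = 15 + v := ⟨w - 15, by omega⟩
      exact NumN_core (K := 44 + 4 * v) hn4 (le_trans (NumN_fac v) hw) (NumN_big v)

end Pool.Agent.TRN
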