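import Pool.Agent.TRN.Phb

set_option autoImplicit false

/-!
# TRN-PerB: the rational function

`(1 - s w ^ n) * ∑ d_k w^k`: the coefficient of `w^k` is `d k` for `k < n`, `d n - s = -2 s` for `k = n`, and `0` for `k > n`.
-/

namespace Pool.Agent.TRN

open Polynomial

theorem per_poly {d : ℕ → ℤ} {s : ℤ} {n : ℕ} (hn : 1 ≤ n) (hd0 : d 0 = 1) (hpm : ∀ k, d k = 1 ∨ d k = -1)
    (hp : ∀ k, 1 ≤ k → d (k + n) = s * d k) (hdn : d n = -s) {w : ℂ} (hw : ‖w‖ < 1) :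
    (1 - s * w ^ n) * ∑' k : ℕ, (d k : ℂ) * w ^ k = aeval w (Pn d n s) := by
  have hsum : Summable fun k : ℕ => (d k : ℂ) * w ^ k := by
    refine Summable.of_norm_bounded (g := fun k : ℕ => ‖w‖ ^ k)
      (summable_geometric_of_lt_one (norm_nonneg w) hw) fun k => ?_
    have h1 : ‖(d k : ℂ)‖ = 1 := by
      rcases hpm k with h | h <;> rw [h] <;> simp
    rw [norm_mul, h1, one_mul, norm_pow]
  have h1 : ∑' k : ℕ, (d k : ℂ) * w ^ k =
      ∑ k ∈ Finset.range (n + 1), (d k : ℂ) * w ^ k + ∑' k : ℕ, (d (k + (n + 1)) : ℂ) * w ^ (k + (n + 1)) :=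
    (hsum.sum_add_tsum_nat_add (n + 1)).symm
  have h2 : ∑' k : ℕ, (d k : ℂ) * w ^ k = (d 0 : ℂ) * w ^ 0 + ∑' k : ℕ, (d (k + 1) : ℂ) * w ^ (k + 1) :=
    hsum.tsum_eq_zero_add
  have h3 : (s : ℂ) * w ^ n * ∑' k : ℕ, (d k : ℂ) * w ^ k =
      s * w ^ n + ∑' k : ℕ, (d (k + (n + 1)) : ℂ) * w ^ (k + (n + 1)) := by
    rw [h2, hd0, mul_add, ← tsum_mul_left]
    congr 1
    · push_cast
      ring
    · refine tsum_congr fun k => ?_
      have h4 : d (k + (n + 1)) = s * d (k + 1) := by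
        rw [← hp (k + 1) (by omega)]
        congr 1
        ring
      rw [h4]
      push_cast
      ring
  have h5 : ∑ k ∈ Finset.range (n + 1), (d k : ℂ) * w ^ k =
      1 + ∑ k ∈ Finset.Ico 1 n, (d k : ℂ) * w ^ k - s * w ^ n := by
    rw [Finset.sum_range_succ, hdn, Finset.range_eq_Ico, Finset.sum_eq_sum_Ico_succ_bot (by omega : 0 < n), hd0]
    push_cast
    ring
  have h6 : aeval w (Pn d n s) = 1 + ∑ k ∈ Finset.Ico 1 n, (d k : ℂ) * w ^ k - 2 * s * w ^ n := by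
    have h7 : (aeval w) (2 : ℤ[X]) = (2 : ℂ) := map_ofNat _ 2
    unfold Pn
    simp [map_sum, h7]
  rw [h6, sub_mul, one_mul, h3]
  conv_lhs => rw [h1, h5]
  ring

end Pool.Agent.TRN
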