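import Pool.Agent.TRN.Defs

set_option autoImplicit false

/-!
# TRN-PerM: its Mahler measure

PLAN. `per_data`: `q ^ n` is real and nonzero: `q ^ n = s ‖q‖ ^ n`, `s = ± 1`. `sgn` for `k` and `k + n`: `mo / q ^ (k + n) = (mo / q ^ k) / (s ‖q‖ ^ n)`; signs `± 1` (`pm`). `d n`: `sgn n` and `re_mo`.
`per_poly`: `(1 - s w ^ n) * ∑ d_k w^k`: the coefficient of `w^k` is `d k` for `k < n`, `d n - s = -2 s` for `k = n`, `d k - s d (k - n) = 0` for `k > n` (`Summable.sum_add_tsum_nat_add`).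
`qn_*`: leading term `X ^ n`, all other terms have degree `< n` (`1 ≤ k`, constant). `qn_mahler`: `Polynomial.mahlerMeasure_le_sqrt_sum_sq_norm_coeff`, coefficients: `1` at `n`, `± 1` at `1 .. n - 1`, `± 2` at `0`.
-/

namespace Pool.Agent.TRN

open Polynomial

private theorem PerM_coeff (d : ℕ → ℤ) {n : ℕ} (hn : 1 ≤ n) (s : ℤ) (i : ℕ) :
    (Qn d n s).coeff i = if i = 0 then -(2 * s) else if i < n then d (n - i) else if i = n then 1 else 0 := by
  unfold Qn
  rw [coeff_sub, coeff_add, coeff_X_pow, finsetSum_coeff, coeff_C]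
  simp only [coeff_C_mul, coeff_X_pow]
  have h : ∑ k ∈ Finset.Ico 1 n, d k * (if i = n - k then (1 : ℤ) else 0) =
      if 1 ≤ i ∧ i < n then d (n - i) else 0 := by
    split_ifs with h1
    · rw [Finset.sum_eq_single (n - i)]
      · rw [if_pos (by omega), mul_one]
      · intro k hk hne
        rw [Finset.mem_Ico] at hk
        rw [if_neg (by omega), mul_zero]
      · intro h2
        exact absurd (Finset.mem_Ico.mpr (by omega)) h2
    · refine Finset.sum_eq_zero fun k hk => ?_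
      rw [Finset.mem_Ico] at hk
      rw [if_neg (by omega), mul_zero]
  rw [h]
  by_cases h0 : i = 0
  · subst h0
    simp
    omega
  · by_cases h1 : i < n
    · have h2 : 1 ≤ i ∧ i < n := ⟨by omega, h1⟩
      have h3 : ¬ i = n := by omega
      simp [h0, h1, h2, h3]
    · have h2 : ¬ (1 ≤ i ∧ i < n) := by omega
      by_cases h3 : i = n
      · simp [h3]
        omega
      · simp [h0, h1, h3]

private theorem PerM_sq {d : ℕ → ℤ} (hpm : ∀ k, d k = 1 ∨ d k = -1) {n : ℕ} (hn : 1 ≤ n) {s : ℤ}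
    (hs : s = 1 ∨ s = -1) (i : ℕ) :
    ‖((Qn d n s).map (Int.castRingHom ℂ)).coeff i‖ ^ 2 =
      if i = 0 then (4 : ℝ) else if i ≤ n then 1 else 0 := by
  rw [coeff_map, PerM_coeff d hn s i]
  by_cases h0 : i = 0
  · rcases hs with rfl | rfl <;> simp [h0] <;> norm_num
  · by_cases h1 : i < n
    · have h2 : i ≤ n := h1.le
      rcases hpm (n - i) with h | h <;> simp [h0, h1, h2, h]
    · by_cases h3 : i = n
      · subst h3
        simp [h0]
      · have h2 : ¬ i ≤ n := by omega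
        simp [h0, h1, h2, h3]

theorem qn_mahler {d : ℕ → ℤ} (hpm : ∀ k, d k = 1 ∨ d k = -1) {n : ℕ} (hn : 1 ≤ n) {s : ℤ} (hs : s = 1 ∨ s = -1) :
    ((Qn d n s).map (Int.castRingHom ℂ)).mahlerMeasure ^ 2 ≤ (n : ℝ) + 4 := by
  set P := (Qn d n s).map (Int.castRingHom ℂ) with hP
  have h1 := P.mahlerMeasure_le_sqrt_sum_sq_norm_coeff
  have hdeg : P.natDegree ≤ n := by
    rw [natDegree_le_iff_coeff_eq_zero]
    intro i hi
    have h2 := PerM_sq hpm hn hs i
    rw [if_neg (by omega), if_neg (by omega), ← hP] at h2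
    exact norm_eq_zero.mp (pow_eq_zero_iff (two_ne_zero) |>.mp h2)
  have h3 : P.sum (fun _ a => ‖a‖ ^ 2) ≤ (n : ℝ) + 4 := by
    have h4 : P.sum (fun _ a => ‖a‖ ^ 2) = ∑ i ∈ Finset.range (n + 1), ‖P.coeff i‖ ^ 2 :=
      P.sum_over_range' (fun _ => by simp) (n + 1) (by omega)
    rw [h4, Finset.sum_range_succ']
    have h5 : ∑ i ∈ Finset.range n, ‖P.coeff (i + 1)‖ ^ 2 = (n : ℝ) := by
      have h6 : ∀ i ∈ Finset.range n, ‖P.coeff (i + 1)‖ ^ 2 = (1 : ℝ) := by
        intro i hi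
        rw [Finset.mem_range] at hi
        rw [hP, PerM_sq hpm hn hs, if_neg (by omega), if_pos (by omega)]
      rw [Finset.sum_congr rfl h6]
      simp
    rw [h5, hP, PerM_sq hpm hn hs 0, if_pos rfl]
  calc P.mahlerMeasure ^ 2 ≤ Real.sqrt (P.sum (fun _ a => ‖a‖ ^ 2)) ^ 2 :=
        pow_le_pow_left₀ P.mahlerMeasure_nonneg h1 2
    _ = P.sum (fun _ a => ‖a‖ ^ 2) := Real.sq_sqrt (by
        unfold Polynomial.sum
        exact Finset.sum_nonneg fun i _ => by positivity)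
    _ ≤ (n : ℝ) + 4 := h3

end Pool.Agent.TRN
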