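import Pool.Agent.TRN.Defs

set_option autoImplicit false

/-!
# TRN-PerQ: the reciprocal polynomial

PLAN. `per_data`: `q ^ n` is real and nonzero: `q ^ n = s ‖q‖ ^ n`, `s = ± 1`. `sgn` for `k` and `k + n`: `mo / q ^ (k + n) = (mo / q ^ k) / (s ‖q‖ ^ n)`; signs `± 1` (`pm`). `d n`: `sgn n` and `re_mo`.
`per_poly`: `(1 - s w ^ n) * ∑ d_k w^k`: the coefficient of `w^k` is `d k` for `k < n`, `d n - s = -2 s` for `k = n`, `d k - s d (k - n) = 0` for `k > n` (`Summable.sum_add_tsum_nat_add`).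
`qn_*`: leading term `X ^ n`, all other terms have degree `< n` (`1 ≤ k`, constant). `qn_mahler`: `Polynomial.mahlerMeasure_le_sqrt_sum_sq_norm_coeff`, coefficients: `1` at `n`, `± 1` at `1 .. n - 1`, `± 2` at `0`.
-/

namespace Pool.Agent.TRN

open Polynomial

private lemma PerQ_deg (d : ℕ → ℤ) {n : ℕ} (hn : 1 ≤ n) (s : ℤ) :
    degree (∑ k ∈ Finset.Ico 1 n, C (d k) * X ^ (n - k) - C (2 * s) : ℤ[X]) < (n : WithBot ℕ) := by
  have hb : (⊥ : WithBot ℕ) < (n : WithBot ℕ) := WithBot.bot_lt_coe n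
  refine lt_of_le_of_lt (degree_sub_le _ _) (max_lt ?_ ?_)
  · refine lt_of_le_of_lt (degree_sum_le _ _) ((Finset.sup_lt_iff hb).2 fun k hk => ?_)
    rw [Finset.mem_Ico] at hk
    refine lt_of_le_of_lt (degree_C_mul_X_pow_le _ _) ?_
    exact_mod_cast (by omega : n - k < n)
  · refine lt_of_le_of_lt degree_C_le ?_
    exact_mod_cast (by omega : 0 < n)

private lemma PerQ_eq (d : ℕ → ℤ) (n : ℕ) (s : ℤ) :
    Qn d n s = X ^ n + (∑ k ∈ Finset.Ico 1 n, C (d k) * X ^ (n - k) - C (2 * s)) := by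
  unfold Qn
  ring

theorem qn_monic (d : ℕ → ℤ) {n : ℕ} (hn : 1 ≤ n) (s : ℤ) : (Qn d n s).Monic := by
  rw [PerQ_eq]
  exact monic_X_pow_add (PerQ_deg d hn s)

theorem qn_deg (d : ℕ → ℤ) {n : ℕ} (hn : 1 ≤ n) (s : ℤ) : (Qn d n s).natDegree = n := by
  rw [PerQ_eq]
  rw [natDegree_add_eq_left_of_degree_lt, natDegree_X_pow]
  rw [degree_X_pow]
  exact PerQ_deg d hn s

theorem qn_eval (d : ℕ → ℤ) (n : ℕ) (s : ℤ) {w : ℂ} (hw : w ≠ 0) :
    aeval w⁻¹ (Qn d n s) * w ^ n = aeval w (Pn d n s) := by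
  have h1 : (w⁻¹) ^ n * w ^ n = 1 := by
    rw [← mul_pow, inv_mul_cancel₀ hw, one_pow]
  unfold Qn Pn
  simp only [map_add, map_sub, map_sum, map_mul, map_pow, aeval_X, map_one, aeval_C]
  rw [sub_mul, add_mul, h1, Finset.sum_mul]
  congr 2
  refine Finset.sum_congr rfl fun k hk => ?_
  rw [Finset.mem_Ico] at hk
  have h2 : w ^ n = w ^ (n - k) * w ^ k := by
    rw [← pow_add]
    congr 1
    omega
  have h3 : (w⁻¹) ^ (n - k) * w ^ (n - k) = 1 := by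
    rw [← mul_pow, inv_mul_cancel₀ hw, one_pow]
  rw [h2]
  linear_combination ((algebraMap ℤ ℂ) (d k) * w ^ k) * h3

end Pool.Agent.TRN
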