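import Mathlib

set_option autoImplicit false

/-!
# TRN-Pri: totient, number of prime factors, a prime not dividing `n`

PLAN. `tot_lower`: `φ(n) = n ∏ (1 - 1/p)` (`Nat.totient_eq_mul_prod_factors`), and for a finite set `S` of integers `≥ 2`: `∏_{s ∈ S} (1 - 1/s) ≥ 1 / (|S| + 1)` (induction on `|S|`, removing the maximum, which is `≥ |S| + 1`).
`pri_ex`: for `i = 0, .., ω` a prime in `(2 ^ (ω + 2 + i), 2 ^ (ω + 3 + i)]` (`Nat.exists_prime_lt_and_le_two_mul`, Bertrand); these `ω + 1` primes are distinct; if all divided `n`, `n.primeFactors` would have more than `ω` elements.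
`fact_le`: `∏ p ∈ n.primeFactors, p ∣ n`, and a finite set `S` of integers `≥ 2` has product `≥ (|S| + 1)!` (induction, removing the maximum).
-/

namespace Pool.Agent.TRN

private theorem Pri_max {S : Finset ℕ} {m : ℕ} (hS : ∀ s ∈ S, 2 ≤ s) (hm : ∀ s ∈ S, s < m) (hm2 : 2 ≤ m) :
    S.card + 2 ≤ m := by
  have h1 : S ⊆ Finset.Ico 2 m := fun s hs => Finset.mem_Ico.2 ⟨hS s hs, hm s hs⟩
  have h2 := Finset.card_le_card h1
  rw [Nat.card_Ico] at h2
  omega

private theorem Pri_prod (S : Finset ℕ) : (∀ s ∈ S, 2 ≤ s) →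
    ∏ s ∈ S, s ≤ (S.card + 1) * ∏ s ∈ S, (s - 1) ∧ (S.card + 1).factorial ≤ ∏ s ∈ S, s := by
  induction S using Finset.induction_on_max with
  | empty => intro _; simp
  | insert m S hm ih =>
    intro hS
    have hS' : ∀ s ∈ S, 2 ≤ s := fun s hs => hS s (Finset.mem_insert_of_mem hs)
    have hm2 : 2 ≤ m := hS m (Finset.mem_insert_self m S)
    have hnot : m ∉ S := fun h => lt_irrefl m (hm m h)
    obtain ⟨h1, h2⟩ := ih hS'
    have h3 := Pri_max hS' hm hm2
    rw [Finset.prod_insert hnot, Finset.prod_insert hnot, Finset.card_insert_of_notMem hnot]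
    constructor
    · obtain ⟨k, rfl⟩ : ∃ k, m = S.card + 2 + k := ⟨m - (S.card + 2), by omega⟩
      have h4 : S.card + 2 + k - 1 = S.card + 1 + k := by omega
      rw [h4]
      calc (S.card + 2 + k) * ∏ s ∈ S, s ≤ (S.card + 2 + k) * ((S.card + 1) * ∏ s ∈ S, (s - 1)) :=
            Nat.mul_le_mul_left _ h1
        _ = (S.card + 2 + k) * (S.card + 1) * ∏ s ∈ S, (s - 1) := by ring
        _ ≤ (S.card + 1 + 1) * (S.card + 1 + k) * ∏ s ∈ S, (s - 1) := by
            refine Nat.mul_le_mul_right _ ?_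
            nlinarith
        _ = (S.card + 1 + 1) * ((S.card + 1 + k) * ∏ s ∈ S, (s - 1)) := by ring
    · rw [Nat.factorial_succ]
      exact Nat.mul_le_mul h3 h2

private theorem Pri_two {n : ℕ} : ∀ s ∈ n.primeFactors, 2 ≤ s := fun _ hs =>
  (Nat.prime_of_mem_primeFactors hs).two_le

theorem tot_lower {n : ℕ} (hn : 0 < n) : n ≤ (n.primeFactors.card + 1) * n.totient := by
  have h1 := Nat.totient_mul_prod_primeFactors n
  have h2 := (Pri_prod n.primeFactors Pri_two).1
  have h3 : 0 < ∏ p ∈ n.primeFactors, p := Finset.prod_pos fun p hp => by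
    have := Pri_two p hp
    omega
  refine Nat.le_of_mul_le_mul_right ?_ h3
  calc n * ∏ p ∈ n.primeFactors, p ≤ n * ((n.primeFactors.card + 1) * ∏ p ∈ n.primeFactors, (p - 1)) :=
        Nat.mul_le_mul_left _ h2
    _ = (n.primeFactors.card + 1) * (n * ∏ p ∈ n.primeFactors, (p - 1)) := by ring
    _ = (n.primeFactors.card + 1) * n.totient * ∏ p ∈ n.primeFactors, p := by rw [← h1]; ring

theorem pri_ex {n : ℕ} (hn : 0 < n) : ∃ p : ℕ, p.Prime ∧ ¬ p ∣ n ∧ 2 ^ (n.primeFactors.card + 2) < p ∧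
    p ≤ 2 ^ (2 * n.primeFactors.card + 3) := by
  obtain ⟨w, hw⟩ : ∃ w, w = n.primeFactors.card := ⟨_, rfl⟩
  rw [← hw]
  have hb : ∀ i : ℕ, ∃ p : ℕ, p.Prime ∧ 2 ^ (w + 2 + i) < p ∧ p ≤ 2 ^ (w + 3 + i) := by
    intro i
    obtain ⟨p, hp, h1, h2⟩ := Nat.exists_prime_lt_and_le_two_mul (2 ^ (w + 2 + i)) (by positivity)
    refine ⟨p, hp, h1, h2.trans (le_of_eq ?_)⟩
    rw [show w + 3 + i = (w + 2 + i) + 1 by ring, pow_succ]
    ring
  choose p hp hlo hhi using hb
  by_contra hcon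
  push Not at hcon
  have hlt : ∀ i j : ℕ, i < j → p i < p j := fun i j hij =>
    ((hhi i).trans (Nat.pow_le_pow_right (by norm_num) (by omega))).trans_lt (hlo j)
  have hmono : StrictMono p := fun i j hij => hlt i j hij
  have hdvd : ∀ i ∈ Finset.range (w + 1), p i ∈ n.primeFactors := by
    intro i hi
    rw [Finset.mem_range] at hi
    refine Nat.mem_primeFactors.2 ⟨hp i, ?_, hn.ne'⟩
    by_contra hnd
    have h1 : 2 ^ (w + 2) < p i := lt_of_le_of_lt (Nat.pow_le_pow_right (by norm_num) (by omega)) (hlo i)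
    have h2 := hcon (p i) (hp i) hnd h1
    have h3 : p i ≤ 2 ^ (2 * w + 3) := (hhi i).trans (Nat.pow_le_pow_right (by norm_num) (by omega))
    omega
  have hcard := Finset.card_le_card_of_injOn p hdvd (hmono.injective.injOn)
  rw [Finset.card_range, ← hw] at hcard
  omega

theorem fact_le {n : ℕ} (hn : 0 < n) : (n.primeFactors.card + 1).factorial ≤ n :=
  ((Pri_prod n.primeFactors Pri_two).2).trans (Nat.le_of_dvd hn (Nat.prod_primeFactors_dvd n))

end Pool.Agent.TRN
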