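import Pool.Agent.TRN.Defs

set_option autoImplicit false

/-!
# TRN-SqrA: a power close to one

With `ξ = q / conj q` and `ξ0 = z0 / conj z0`, `z0 = X0 + I Y0`, we have `‖ξ - ξ0‖ ≤ 10 ^ (-27)`, and `ξ0 ^ N` for
`N = 72068823782` is computed by binary powering with integers (a certified chain of 55 steps): its distance to
`(AN + I BN) / 10 ^ 40` is at most `5 N / 10 ^ 40`, and `‖(AN + I BN) / 10 ^ 40 - 1‖ ≈ 1.0449e-13`.
-/

namespace Pool.Agent.TRN

private def SqrA_T : ℤ := 10 ^ 40

private def SqrA_mul (p q : ℤ × ℤ) : ℤ × ℤ :=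
  ((p.1 * q.1 - p.2 * q.2) / SqrA_T, (p.1 * q.2 + p.2 * q.1) / SqrA_T)

private noncomputable def SqrA_cx (p : ℤ × ℤ) : ℂ := ⟨(p.1 : ℝ) / 10 ^ 40, (p.2 : ℝ) / 10 ^ 40⟩

private noncomputable def SqrA_z : ℂ := ⟨X0, Y0⟩

private noncomputable def SqrA_x : ℂ := SqrA_z / (starRingEnd ℂ) SqrA_z

private def SqrA_p0 : ℤ × ℤ := (-2897342784342070780101753809331184295236, 9571071245687231678094177943380464325760)

private def SqrA_cl (k : ℕ) (p : ℤ × ℤ) : Prop := ‖SqrA_x ^ k - SqrA_cx p‖ ≤ (5 * k - 3) / 10 ^ 40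

private theorem SqrA_rd (x : ℤ) : |(x : ℝ) / 10 ^ 40 - ((x / SqrA_T : ℤ) : ℝ)| ≤ 1 := by
  have hT : (0 : ℤ) < SqrA_T := by unfold SqrA_T; norm_num
  have h1 := Int.emod_add_mul_ediv x SqrA_T
  have h2 := Int.emod_nonneg x hT.ne'
  have h3 := Int.emod_lt_of_pos x hT
  have hTr : (SqrA_T : ℝ) = 10 ^ 40 := by unfold SqrA_T; norm_num
  have h4 : (x : ℝ) = ((x % SqrA_T : ℤ) : ℝ) + 10 ^ 40 * ((x / SqrA_T : ℤ) : ℝ) := by
    rw [← hTr]
    exact_mod_cast h1.symm
  have h5 : (0 : ℝ) ≤ ((x % SqrA_T : ℤ) : ℝ) := by exact_mod_cast h2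
  have h6 : ((x % SqrA_T : ℤ) : ℝ) < 10 ^ 40 := by
    rw [← hTr]
    exact_mod_cast h3
  have h7 : (x : ℝ) / 10 ^ 40 - ((x / SqrA_T : ℤ) : ℝ) = ((x % SqrA_T : ℤ) : ℝ) / 10 ^ 40 := by
    rw [h4]
    have : (((x % SqrA_T : ℤ) : ℝ) + 10 ^ 40 * ((x / SqrA_T : ℤ) : ℝ)) / 10 ^ 40
        = ((x % SqrA_T : ℤ) : ℝ) / 10 ^ 40 + ((x / SqrA_T : ℤ) : ℝ) := by
      rw [add_div, mul_div_cancel_left₀ _ (by positivity)]
    rw [← h4, h4, this]
    ring
  rw [h7, abs_of_nonneg (by positivity), div_le_one (by positivity)]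
  exact h6.le

private theorem SqrA_norm_le (a b : ℝ) : ‖(⟨a, b⟩ : ℂ)‖ ≤ |a| + |b| := Complex.norm_le_abs_re_add_abs_im ⟨a, b⟩

private theorem SqrA_mul_err (p q : ℤ × ℤ) :
    ‖SqrA_cx p * SqrA_cx q - SqrA_cx (SqrA_mul p q)‖ ≤ 2 / 10 ^ 40 := by
  have h1 := SqrA_rd (p.1 * q.1 - p.2 * q.2)
  have h2 := SqrA_rd (p.1 * q.2 + p.2 * q.1)
  have h3 : SqrA_cx p * SqrA_cx q - SqrA_cx (SqrA_mul p q)
      = ⟨(((p.1 * q.1 - p.2 * q.2 : ℤ) : ℝ) / 10 ^ 40 - (((p.1 * q.1 - p.2 * q.2) / SqrA_T : ℤ) : ℝ)) / 10 ^ 40,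
        (((p.1 * q.2 + p.2 * q.1 : ℤ) : ℝ) / 10 ^ 40 - (((p.1 * q.2 + p.2 * q.1) / SqrA_T : ℤ) : ℝ)) / 10 ^ 40⟩ := by
    apply Complex.ext
    · simp only [SqrA_cx, SqrA_mul, Complex.sub_re, Complex.mul_re]
      push_cast
      ring
    · simp only [SqrA_cx, SqrA_mul, Complex.sub_im, Complex.mul_im]
      push_cast
      ring
  rw [h3]
  refine (SqrA_norm_le _ _).trans ?_
  rw [abs_div, abs_div, abs_of_pos (show (0 : ℝ) < 10 ^ 40 by positivity), ← add_div]
  exact div_le_div_of_nonneg_right (by linarith) (by positivity)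

private theorem SqrA_z_ne : SqrA_z ≠ 0 := by
  intro h
  have h1 := congrArg Complex.re h
  simp only [SqrA_z, Complex.zero_re, X0] at h1
  norm_num at h1

private theorem SqrA_unit {z : ℂ} (hz : z ≠ 0) : ‖z / (starRingEnd ℂ) z‖ = 1 := by
  rw [norm_div, Complex.norm_conj, div_self (norm_ne_zero_iff.2 hz)]

private theorem SqrA_xn : ‖SqrA_x‖ = 1 := SqrA_unit SqrA_z_ne

private theorem SqrA_xk (k : ℕ) : ‖SqrA_x ^ k‖ = 1 := by rw [norm_pow, SqrA_xn, one_pow]

private theorem SqrA_base : SqrA_cl 1 SqrA_p0 := by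
  unfold SqrA_cl
  have hz : SqrA_x - SqrA_cx SqrA_p0
      = ⟨(X0 ^ 2 - Y0 ^ 2) / (X0 ^ 2 + Y0 ^ 2) - (-2897342784342070780101753809331184295236 : ℝ) / 10 ^ 40,
        2 * X0 * Y0 / (X0 ^ 2 + Y0 ^ 2) - (9571071245687231678094177943380464325760 : ℝ) / 10 ^ 40⟩ := by
    apply Complex.ext
    · simp only [SqrA_x, SqrA_z, SqrA_cx, SqrA_p0, Complex.sub_re, Complex.div_re, Complex.conj_re,
        Complex.conj_im, Complex.normSq_apply]
      push_cast
      ring
    · simp only [SqrA_x, SqrA_z, SqrA_cx, SqrA_p0, Complex.sub_im, Complex.div_im, Complex.conj_re,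
        Complex.conj_im, Complex.normSq_apply]
      push_cast
      ring
  rw [pow_one, hz]
  refine (SqrA_norm_le _ _).trans ?_
  have h1 : |(X0 ^ 2 - Y0 ^ 2) / (X0 ^ 2 + Y0 ^ 2) - (-2897342784342070780101753809331184295236 : ℝ) / 10 ^ 40| ≤ 1 / 10 ^ 40 := by
    unfold X0 Y0
    rw [abs_le]
    constructor <;> norm_num
  have h2 : |2 * X0 * Y0 / (X0 ^ 2 + Y0 ^ 2) - (9571071245687231678094177943380464325760 : ℝ) / 10 ^ 40| ≤ 1 / 10 ^ 40 := by
    unfold X0 Y0
    rw [abs_le]
    constructor <;> norm_num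
  have h3 : (5 * ((1 : ℕ) : ℝ) - 3) / 10 ^ 40 = 1 / 10 ^ 40 + 1 / 10 ^ 40 := by norm_num
  rw [h3]
  exact add_le_add h1 h2

private theorem SqrA_dbl {k : ℕ} {p p' : ℤ × ℤ} {k' : ℕ} (h : SqrA_cl k p) (hk : 1 ≤ k) (hk2 : k ≤ 10 ^ 11)
    (hkk : k' = 2 * k) (hp : SqrA_mul p p = p') : SqrA_cl k' p' := by
  unfold SqrA_cl at h ⊢
  subst hkk
  have h1 := SqrA_mul_err p p
  rw [hp] at h1
  have hk1r : (1 : ℝ) ≤ k := by exact_mod_cast hk
  have hk2r : (k : ℝ) ≤ 10 ^ 11 := by exact_mod_cast hk2
  set e : ℝ := (5 * (k : ℝ) - 3) / 10 ^ 40 with he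
  have he0 : 0 ≤ e := by
    rw [he]
    apply div_nonneg (by linarith) (by positivity)
  have he1 : e ≤ 1 / 10 ^ 28 := by
    rw [he, div_le_div_iff₀ (by positivity) (by positivity)]
    nlinarith
  have h2 : ‖SqrA_x ^ k * SqrA_x ^ k - SqrA_cx p * SqrA_cx p‖ ≤ e * (2 + e) := by
    have h3 : SqrA_x ^ k * SqrA_x ^ k - SqrA_cx p * SqrA_cx p
        = (SqrA_x ^ k - SqrA_cx p) * (2 * SqrA_x ^ k - (SqrA_x ^ k - SqrA_cx p)) := by ring
    rw [h3, norm_mul]
    apply mul_le_mul h _ (norm_nonneg _) he0
    refine (norm_sub_le _ _).trans ?_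
    rw [norm_mul, SqrA_xk, Complex.norm_ofNat]
    linarith
  have h4 : SqrA_x ^ (2 * k) - SqrA_cx p'
      = (SqrA_x ^ k * SqrA_x ^ k - SqrA_cx p * SqrA_cx p) + (SqrA_cx p * SqrA_cx p - SqrA_cx p') := by
    rw [two_mul, pow_add]
    ring
  rw [h4]
  refine (norm_add_le _ _).trans ?_
  have h5 : e * e ≤ 1 / 10 ^ 40 := by
    calc e * e ≤ (1 / 10 ^ 28) * (1 / 10 ^ 28) := mul_le_mul he1 he1 he0 (by positivity)
      _ ≤ 1 / 10 ^ 40 := by norm_num
  have h6 : (5 * ((2 * k : ℕ) : ℝ) - 3) / 10 ^ 40 = 2 * e + 3 / 10 ^ 40 := by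
    rw [he]
    push_cast
    ring
  rw [h6]
  have h7 : (3 : ℝ) / 10 ^ 40 = 1 / 10 ^ 40 + 2 / 10 ^ 40 := by norm_num
  rw [h7]
  calc ‖SqrA_x ^ k * SqrA_x ^ k - SqrA_cx p * SqrA_cx p‖ + ‖SqrA_cx p * SqrA_cx p - SqrA_cx p'‖
      ≤ e * (2 + e) + 2 / 10 ^ 40 := add_le_add h2 h1
    _ = 2 * e + (e * e + 2 / 10 ^ 40) := by ring
    _ ≤ 2 * e + (1 / 10 ^ 40 + 2 / 10 ^ 40) := by linarith

private theorem SqrA_inc {k : ℕ} {p p' : ℤ × ℤ} {k' : ℕ} (h : SqrA_cl k p) (hk : 1 ≤ k ∧ k ≤ 10 ^ 11)
    (hkk : k' = k + 1) (hp : SqrA_mul p SqrA_p0 = p') : SqrA_cl k' p' := by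
  have hb := SqrA_base
  unfold SqrA_cl at h hb ⊢
  subst hkk
  rw [pow_one] at hb
  have h1 := SqrA_mul_err p SqrA_p0
  rw [hp] at h1
  have hk1r : (1 : ℝ) ≤ k := by exact_mod_cast hk.1
  have hk2r : (k : ℝ) ≤ 10 ^ 11 := by exact_mod_cast hk.2
  set e : ℝ := (5 * (k : ℝ) - 3) / 10 ^ 40 with he
  have he0 : 0 ≤ e := by
    rw [he]
    apply div_nonneg (by linarith) (by positivity)
  have he1 : e ≤ 1 / 10 ^ 28 := by
    rw [he, div_le_div_iff₀ (by positivity) (by positivity)]
    nlinarith
  have hb1 : ‖SqrA_x - SqrA_cx SqrA_p0‖ ≤ 2 / 10 ^ 40 := by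
    refine hb.trans (le_of_eq ?_)
    norm_num
  have h2 : ‖SqrA_x ^ k * SqrA_x - SqrA_cx p * SqrA_cx SqrA_p0‖ ≤ e * (1 + 2 / 10 ^ 40) + 2 / 10 ^ 40 := by
    have h3 : SqrA_x ^ k * SqrA_x - SqrA_cx p * SqrA_cx SqrA_p0
        = (SqrA_x ^ k - SqrA_cx p) * (SqrA_x - (SqrA_x - SqrA_cx SqrA_p0))
          + SqrA_x ^ k * (SqrA_x - SqrA_cx SqrA_p0) := by ring
    rw [h3]
    refine (norm_add_le _ _).trans ?_
    rw [norm_mul, norm_mul, SqrA_xk, one_mul]
    apply add_le_add _ hb1
    apply mul_le_mul h _ (norm_nonneg _) he0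
    refine (norm_sub_le _ _).trans ?_
    rw [SqrA_xn]
    linarith
  have h4 : SqrA_x ^ (k + 1) - SqrA_cx p'
      = (SqrA_x ^ k * SqrA_x - SqrA_cx p * SqrA_cx SqrA_p0) + (SqrA_cx p * SqrA_cx SqrA_p0 - SqrA_cx p') := by
    rw [pow_succ]
    ring
  rw [h4]
  refine (norm_add_le _ _).trans ?_
  have h5 : e * (2 / 10 ^ 40) ≤ 1 / 10 ^ 40 := by
    calc e * (2 / 10 ^ 40) ≤ (1 / 10 ^ 28) * (2 / 10 ^ 40) := mul_le_mul_of_nonneg_right he1 (by positivity)
      _ ≤ 1 / 10 ^ 40 := by norm_num
  have h6 : (5 * ((k + 1 : ℕ) : ℝ) - 3) / 10 ^ 40 = e + (1 / 10 ^ 40 + (2 / 10 ^ 40 + 2 / 10 ^ 40)) := by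
    rw [he]
    push_cast
    ring
  rw [h6]
  calc ‖SqrA_x ^ k * SqrA_x - SqrA_cx p * SqrA_cx SqrA_p0‖ + ‖SqrA_cx p * SqrA_cx SqrA_p0 - SqrA_cx p'‖
      ≤ (e * (1 + 2 / 10 ^ 40) + 2 / 10 ^ 40) + 2 / 10 ^ 40 := add_le_add h2 h1
    _ = e + (e * (2 / 10 ^ 40) + (2 / 10 ^ 40 + 2 / 10 ^ 40)) := by ring
    _ ≤ e + (1 / 10 ^ 40 + (2 / 10 ^ 40 + 2 / 10 ^ 40)) := by linarith

private theorem SqrA_chain : SqrA_cl 72068823782 (9999999999999999999999999945430678926336, 1044932428643341195609287434) := by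
  have h0 : SqrA_cl 1 (-2897342784342070780101753809331184295236, 9571071245687231678094177943380464325760) := SqrA_base
  have h1 : SqrA_cl 2 (-8321080958004187346238570642196028044438, -5546134842423155126176814654292114474886) := SqrA_dbl h0 (by norm_num) (by norm_num) (by norm_num) (by decide +kernel)
  have h2 : SqrA_cl 4 (3848077661931976851620132745139784439862, 9229967405562174057116201188182620325626) := SqrA_dbl h1 (by norm_num) (by norm_num) (by norm_num) (by decide +kernel)
  have h3 : SqrA_cl 8 (-7038459661548026094310866039838040684364, 7103526278740809019794974352130850975573) := SqrA_dbl h2 (by norm_num) (by norm_num) (by norm_num) (by decide +kernel)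
  have h4 : SqrA_cl 16 (-92017118552249192546968593840928220089, -9999576633532708784540960671335684338375) := SqrA_dbl h3 (by norm_num) (by norm_num) (by norm_num) (by decide +kernel)
  have h5 : SqrA_cl 32 (-9998306569978668263492604514009542335448, 184026445712016028553343011201938205692) := SqrA_dbl h4 (by norm_num) (by norm_num) (by norm_num) (by decide +kernel)
  have h6 : SqrA_cl 33 (2720719117316731509028282558725490398617, -9622769221210039253456006360187866170123) := SqrA_inc h5 (by norm_num) (by norm_num) (by decide +kernel)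
  have h7 : SqrA_cl 66 (-8519537496933453073552133649756886639734, -5236170436334637977132586379386756800707) := SqrA_dbl h6 (by norm_num) (by norm_num) (by norm_num) (by decide +kernel)
  have h8 : SqrA_cl 67 (7479978079339186616470910721060110271359, -6637011973215450878323535931403781971839) := SqrA_inc h7 (by norm_num) (by norm_num) (by decide +kernel)
  have h9 : SqrA_cl 134 (1190014413478949430580046526036880325199, -9928940814392658669726643310598679600991) := SqrA_dbl h8 (by norm_num) (by norm_num) (by norm_num) (by decide +kernel)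
  have h10 : SqrA_cl 268 (-9716773139142470395958762162111622896201, -2363116535941336441536091920477370696154) := SqrA_dbl h9 (by norm_num) (by norm_num) (by norm_num) (by decide +kernel)
  have h11 : SqrA_cl 536 (8883136047512123670825977294143241645577, 4592373456219636032690400498180765080812) := SqrA_dbl h10 (by norm_num) (by norm_num) (by norm_num) (by decide +kernel)
  have h12 : SqrA_cl 1072 (5782021207721862938186934597086995526353, 8158935638516497668683029517689100331843) := SqrA_dbl h11 (by norm_num) (by norm_num) (by norm_num) (by decide +kernel)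
  have h13 : SqrA_cl 1073 (-9484225171032380949324502209816959752743, 3170090362301334199889206590905958177628) := SqrA_inc h12 (by norm_num) (by norm_num) (by decide +kernel)
  have h14 : SqrA_cl 2146 (7990105418968839134057937427332284391146, -6013170161717094768169626182786837191295) := SqrA_dbl h13 (by norm_num) (by norm_num) (by norm_num) (by decide +kernel)
  have h15 : SqrA_cl 2147 (3440240574845308220178943393368747522266, 9389608340457445472634354014377953484764) := SqrA_inc h14 (by norm_num) (by norm_num) (by decide +kernel)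
  have h16 : SqrA_cl 4294 (-7632948957437604650018960161653018285078, 6460502318949524549959751388721473745538) := SqrA_dbl h15 (by norm_num) (by norm_num) (by norm_num) (by decide +kernel)
  have h17 : SqrA_cl 4295 (-3971865839251029910919952265495310952968, -9177378806336301155145079590779650661262) := SqrA_inc h16 (by norm_num) (by norm_num) (by decide +kernel)
  have h18 : SqrA_cl 8590 (-6844856350998142364687328210032110573520, 7290263474950709577594048049692098409229) := SqrA_dbl h17 (by norm_num) (by norm_num) (by norm_num) (by decide +kernel)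
  have h19 : SqrA_cl 8591 (-4994373596016214990269365335177495640478, -8663500007699893881583075025744430209456) := SqrA_inc h18 (by norm_num) (by norm_num) (by decide +kernel)
  have h20 : SqrA_cl 17182 (-5011246476683212269095661351742843203345, 8653751137508525052500792174948050241081) := SqrA_dbl h19 (by norm_num) (by norm_num) (by norm_num) (by decide +kernel)
  have h21 : SqrA_cl 34364 (-4977481749986018254360405536747143751591, -8673215979586587308029733942667887019262) := SqrA_dbl h20 (by norm_num) (by norm_num) (by norm_num) (by decide +kernel)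
  have h22 : SqrA_cl 34365 (9743343890237253469901323142862072596308, -2251055271772859780584589443591005048419) := SqrA_inc h21 (by norm_num) (by norm_num) (by decide +kernel)
  have h23 : SqrA_cl 68730 (8986550032684723278549000140564352443169, -4386561125762890697030675431735148468248) := SqrA_dbl h22 (by norm_num) (by norm_num) (by norm_num) (by decide +kernel)
  have h24 : SqrA_cl 137460 (6151616297989160205196034044340012658264, -7884010205619608386680295609901122463788) := SqrA_dbl h23 (by norm_num) (by norm_num) (by norm_num) (by decide +kernel)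
  have h25 : SqrA_cl 274920 (-2431523384462827942553197574919771068556, -9699881134880490617403740518531849321463) := SqrA_dbl h24 (by norm_num) (by norm_num) (by norm_num) (by decide +kernel)
  have h26 : SqrA_cl 549840 (-8817538806162086922722474632162588887970, 4717097561194349402055421009821536761393) := SqrA_dbl h25 (by norm_num) (by norm_num) (by norm_num) (by decide +kernel)
  have h27 : SqrA_cl 549841 (-1960024439535868463327705134154756126005, -9806034070735329884987273978173992767167) := SqrA_inc h26 (by norm_num) (by norm_num) (by decide +kernel)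
  have h28 : SqrA_cl 1099682 (-9231660839284420942057898066510522920989, 3844013286712529136825235683430461260370) := SqrA_dbl h27 (by norm_num) (by norm_num) (by norm_num) (by decide +kernel)
  have h29 : SqrA_cl 2199364 (7044712370315507853251133314959824415380, -7097325384926610432673171120582017329193) := SqrA_dbl h28 (by norm_num) (by norm_num) (by norm_num) (by decide +kernel)
  have h30 : SqrA_cl 2199365 (4751806035905818164371991551121890684601, 8798882849380882303350889815268403585034) := SqrA_inc h29 (by norm_num) (by norm_num) (by decide +kernel)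
  have h31 : SqrA_cl 4398730 (-5484067879425806866805718115582748186768, 8362116926583252090767569674162965002483) := SqrA_dbl h30 (by norm_num) (by norm_num) (by norm_num) (by decide +kernel)
  have h32 : SqrA_cl 4398731 (-6414519236979896886584380118586125161758, -7671632352922997146618467486708304275301) := SqrA_inc h31 (by norm_num) (by norm_num) (by decide +kernel)
  have h33 : SqrA_cl 8797462 (-1770788591682968289291153775209786343873, 9841966661372382936281303874447921857287) := SqrA_dbl h32 (by norm_num) (by norm_num) (by norm_num) (by decide +kernel)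
  have h34 : SqrA_cl 8797463 (-8906758256496567219938172360518644018768, -4546389486211034041620418777530074192356) := SqrA_inc h33 (by norm_num) (by norm_num) (by decide +kernel)
  have h35 : SqrA_cl 17594926 (5866068527933953981586629593423595399535, 8098718418711862719284732308444189637182) := SqrA_dbl h34 (by norm_num) (by norm_num) (by norm_num) (by decide +kernel)
  have h36 : SqrA_cl 17594927 (-9450942230611622969685599339351131754923, 3267979644006645337835309959502722143219) := SqrA_inc h35 (by norm_num) (by norm_num) (by decide +kernel)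
  have h37 : SqrA_cl 35189854 (7864061809271639921290672779062878931490, -6177097365264308447743955968720921919291) := SqrA_dbl h36 (by norm_num) (by norm_num) (by norm_num) (by decide +kernel)
  have h38 : SqrA_cl 35189855 (3633655623577834541743065994015769454717, 9316466433645386048680294974112031432284) := SqrA_inc h37 (by norm_num) (by norm_num) (by decide +kernel)
  have h39 : SqrA_cl 70379710 (-7359309361848235681425893460307546457840, 6770566129697937903228608711483812754261) := SqrA_dbl h38 (by norm_num) (by norm_num) (by norm_num) (by decide +kernel)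
  have h40 : SqrA_cl 140759420 (831886856677417180604617382340764828209, -9965338140659722057658083346457585914141) := SqrA_dbl h39 (by norm_num) (by norm_num) (by norm_num) (by decide +kernel)
  have h41 : SqrA_cl 140759421 (9296869995003520609892255653720950497801, 3683504892897963651360724912843015556862) := SqrA_inc h40 (by norm_num) (by norm_num) (by decide +kernel)
  have h42 : SqrA_cl 281518842 (7286358340799352265988567186917671463605, 6849013223046347010140054607353773442517) := SqrA_dbl h41 (by norm_num) (by norm_num) (by norm_num) (by decide +kernel)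
  have h43 : SqrA_cl 563037684 (618203574107257940081270755847182877226, 9980872924797760996699161774789576934200) := SqrA_dbl h42 (by norm_num) (by norm_num) (by norm_num) (by decide +kernel)
  have h44 : SqrA_cl 563037685 (-9731879352208421217842113465773183728968, -2300113969797888037487767461228918781534) := SqrA_inc h43 (by norm_num) (by norm_num) (by decide +kernel)
  have h45 : SqrA_cl 1126075370 (8941895145188120039383231094248651560508, 4476886330080442151999188024818786578665) := SqrA_dbl h44 (by norm_num) (by norm_num) (by norm_num) (by decide +kernel)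
  have h46 : SqrA_cl 1126075371 (-6875633340129734948967880163390097976246, 7261244120128204622253715217110593770374) := SqrA_inc h45 (by norm_num) (by norm_num) (by decide +kernel)
  have h47 : SqrA_cl 2252150742 (-545133234419284903801931592392195400779, -9985130432634897182095580562207491457651) := SqrA_dbl h46 (by norm_num) (by norm_num) (by norm_num) (by decide +kernel)
  have h48 : SqrA_cl 2252150743 (9714783261147814164352332304262541326011, 2371283658469024396991961544640329185185) := SqrA_inc h47 (by norm_num) (by norm_num) (by decide +kernel)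
  have h49 : SqrA_cl 4504301486 (8875402762215551852039866115738799583785, 4607301358545645682263413392402609115734) := SqrA_dbl h48 (by norm_num) (by norm_num) (by norm_num) (by decide +kernel)
  have h50 : SqrA_cl 9008602972 (5754554838308689529988829743275796171945, 8178331040799097666434875759405779667989) := SqrA_dbl h49 (by norm_num) (by norm_num) (by norm_num) (by decide +kernel)
  have h51 : SqrA_cl 18017205944 (-3377019722579610419886075640770859731657, 9412530892024117605498930947798416191003) := SqrA_dbl h50 (by norm_num) (by norm_num) (by norm_num) (by decide +kernel)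
  have h52 : SqrA_cl 18017205945 (-8030362004399792537401814890337510971737, -5959302482530329352720574853410300897015) := SqrA_inc h51 (by norm_num) (by norm_num) (by decide +kernel)
  have h53 : SqrA_cl 36034411890 (2897342784341570723965680084983112275015, 9571071245687383054465790671347931560124) := SqrA_dbl h52 (by norm_num) (by norm_num) (by norm_num) (by decide +kernel)
  have h54 : SqrA_cl 36034411891 (-9999999999999999999999999986363886718549, -522466214321670597804643718) := SqrA_inc h53 (by norm_num) (by norm_num) (by decide +kernel)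
  have h55 : SqrA_cl 72068823782 (9999999999999999999999999945430678926336, 1044932428643341195609287434) := SqrA_dbl h54 (by norm_num) (by norm_num) (by norm_num) (by decide +kernel)
  exact h55

private theorem SqrA_pow {a b : ℂ} (ha : ‖a‖ = 1) (hb : ‖b‖ = 1) (n : ℕ) : ‖a ^ n - b ^ n‖ ≤ n * ‖a - b‖ := by
  induction n with
  | zero => simp
  | succ n ih =>
    have h1 : a ^ (n + 1) - b ^ (n + 1) = a ^ n * (a - b) + (a ^ n - b ^ n) * b := by ring
    rw [h1]
    refine (norm_add_le _ _).trans ?_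
    rw [norm_mul, norm_mul, norm_pow, ha, hb, one_pow, one_mul, mul_one]
    push_cast
    linarith

private theorem SqrA_near {q : ℂ} (h1 : |q.re - X0| < 1 / 10 ^ 28) (h2 : |q.im - Y0| < 1 / 10 ^ 28) :
    q ≠ 0 ∧ ‖q / (starRingEnd ℂ) q - SqrA_x‖ ≤ 1 / 10 ^ 27 := by
  have hX : (37 : ℝ) / 100 < X0 := by unfold X0; norm_num
  have hre : (36 : ℝ) / 100 < q.re := by
    have := (abs_lt.1 h1).1
    have h3 : (1 : ℝ) / 10 ^ 28 ≤ 1 / 100 := by norm_num
    linarith
  have hY : (51 : ℝ) / 100 < Y0 := by unfold Y0; norm_num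
  have him : (50 : ℝ) / 100 < q.im := by
    have := (abs_lt.1 h2).1
    have h3 : (1 : ℝ) / 10 ^ 28 ≤ 1 / 100 := by norm_num
    linarith
  have hq : q ≠ 0 := by
    intro h
    rw [h, Complex.zero_re] at hre
    norm_num at hre
  refine ⟨hq, ?_⟩
  have hqn : (1 : ℝ) / 2 ≤ ‖q‖ := by
    have := Complex.abs_im_le_norm q
    have h4 := le_abs_self q.im
    linarith
  have hd : ‖q - SqrA_z‖ ≤ 2 / 10 ^ 28 := by
    refine (Complex.norm_le_abs_re_add_abs_im _).trans ?_
    have h5 : (q - SqrA_z).re = q.re - X0 := by simp [SqrA_z]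
    have h6 : (q - SqrA_z).im = q.im - Y0 := by simp [SqrA_z]
    rw [h5, h6]
    have h7 : (2 : ℝ) / 10 ^ 28 = 1 / 10 ^ 28 + 1 / 10 ^ 28 := by norm_num
    rw [h7]
    exact add_le_add h1.le h2.le
  have hzc : (starRingEnd ℂ) SqrA_z ≠ 0 := by
    rw [Ne, map_eq_zero]
    exact SqrA_z_ne
  have hqc : (starRingEnd ℂ) q ≠ 0 := by
    rw [Ne, map_eq_zero]
    exact hq
  have h8 : q / (starRingEnd ℂ) q - SqrA_x
      = (q - SqrA_z) / (starRingEnd ℂ) q
        - (SqrA_z / (starRingEnd ℂ) SqrA_z) * ((starRingEnd ℂ) (q - SqrA_z) / (starRingEnd ℂ) q) := by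
    unfold SqrA_x
    rw [map_sub]
    field_simp
    ring
  rw [h8]
  refine (norm_sub_le _ _).trans ?_
  rw [norm_mul, SqrA_unit SqrA_z_ne, one_mul, norm_div, norm_div, Complex.norm_conj, Complex.norm_conj]
  have h9 : ‖q - SqrA_z‖ / ‖q‖ ≤ 4 / 10 ^ 28 := by
    rw [div_le_iff₀ (by linarith)]
    calc ‖q - SqrA_z‖ ≤ 2 / 10 ^ 28 := hd
      _ = 4 / 10 ^ 28 * (1 / 2) := by norm_num
      _ ≤ 4 / 10 ^ 28 * ‖q‖ := mul_le_mul_of_nonneg_left hqn (by positivity)
  have h10 : (4 : ℝ) / 10 ^ 28 + 4 / 10 ^ 28 ≤ 1 / 10 ^ 27 := by norm_num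
  linarith

private theorem SqrA_fin {q : ℂ} (h1 : |q.re - X0| < 1 / 10 ^ 28) (h2 : |q.im - Y0| < 1 / 10 ^ 28) {n : ℕ}
    (hn : (n : ℝ) ≤ 10 ^ 11) (hc : SqrA_cl n (9999999999999999999999999945430678926336, 1044932428643341195609287434)) :
    1 / 10 ^ 14 < ‖(q / (starRingEnd ℂ) q) ^ n - 1‖ ∧ ‖(q / (starRingEnd ℂ) q) ^ n - 1‖ < 4 / 10 ^ 12 := by
  obtain ⟨hq, h3⟩ := SqrA_near h1 h2
  have h4 := SqrA_pow (SqrA_unit hq) SqrA_xn n
  have hn0 : (0 : ℝ) ≤ n := Nat.cast_nonneg n
  have h5 : ‖(q / (starRingEnd ℂ) q) ^ n - SqrA_x ^ n‖ ≤ 1 / 10 ^ 16 := by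
    refine h4.trans ?_
    calc (n : ℝ) * ‖q / (starRingEnd ℂ) q - SqrA_x‖
        ≤ 10 ^ 11 * (1 / 10 ^ 27) := mul_le_mul hn h3 (norm_nonneg _) (by positivity)
      _ ≤ 1 / 10 ^ 16 := by norm_num
  have h6 : ‖SqrA_x ^ n - SqrA_cx (9999999999999999999999999945430678926336, 1044932428643341195609287434)‖ ≤ 1 / 10 ^ 16 := by
    unfold SqrA_cl at hc
    refine hc.trans ?_
    rw [div_le_div_iff₀ (by positivity) (by positivity)]
    nlinarith
  have h7 : ‖SqrA_cx (9999999999999999999999999945430678926336, 1044932428643341195609287434) - 1‖ ≤ 2 / 10 ^ 13 := by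
    refine (Complex.norm_le_abs_re_add_abs_im _).trans ?_
    simp only [SqrA_cx, Complex.sub_re, Complex.sub_im, Complex.one_re, Complex.one_im]
    norm_num [abs_of_nonneg, abs_of_nonpos]
  have h8 : 1 / 10 ^ 13 ≤ ‖SqrA_cx (9999999999999999999999999945430678926336, 1044932428643341195609287434) - 1‖ := by
    refine le_trans ?_ (Complex.abs_im_le_norm _)
    simp only [SqrA_cx, Complex.sub_im, Complex.one_im]
    norm_num [abs_of_nonneg]
  generalize (q / (starRingEnd ℂ) q) ^ n = u at *
  generalize SqrA_x ^ n = v at *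
  generalize SqrA_cx (9999999999999999999999999945430678926336, 1044932428643341195609287434) = w at *
  have h9 : u - 1 = ((u - v) + (v - w)) + (w - 1) := by ring
  constructor
  · have h10 : w - 1 = (u - 1) - ((u - v) + (v - w)) := by ring
    have h11 : ‖w - 1‖ ≤ ‖u - 1‖ + (1 / 10 ^ 16 + 1 / 10 ^ 16) := by
      rw [h10]
      refine (norm_sub_le _ _).trans ?_
      exact add_le_add le_rfl ((norm_add_le _ _).trans (add_le_add h5 h6))
    have h12 : (1 : ℝ) / 10 ^ 14 < 1 / 10 ^ 13 - (1 / 10 ^ 16 + 1 / 10 ^ 16) := by norm_num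
    linarith
  · have h11 : ‖u - 1‖ ≤ (1 / 10 ^ 16 + 1 / 10 ^ 16) + 2 / 10 ^ 13 := by
      rw [h9]
      refine (norm_add_le _ _).trans ?_
      exact add_le_add ((norm_add_le _ _).trans (add_le_add h5 h6)) h7
    have h12 : ((1 : ℝ) / 10 ^ 16 + 1 / 10 ^ 16) + 2 / 10 ^ 13 < 4 / 10 ^ 12 := by norm_num
    linarith

theorem sqr {q : ℂ} (h1 : |q.re - X0| < 1 / 10 ^ 28) (h2 : |q.im - Y0| < 1 / 10 ^ 28) :
    1 / 10 ^ 14 < ‖(q / (starRingEnd ℂ) q) ^ 72068823782 - 1‖ ∧
      ‖(q / (starRingEnd ℂ) q) ^ 72068823782 - 1‖ < 4 / 10 ^ 12 :=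
  SqrA_fin h1 h2 (by norm_num) SqrA_chain

end Pool.Agent.TRN
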