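import Pool.Agent.TRN.Rtf
import Pool.Agent.TRN.SqrA

set_option autoImplicit false

/-!
# TRN-SqrB: small denominators

PLAN. Put `ξ = q / conj q` (norm 1), `ξ0 = z0 / conj z0`, `z0 = X0 + I Y0`; `‖ξ - ξ0‖ ≤ 2 ‖q - z0‖ / ‖z0‖.. ≤ 10 ^ (-27)`. With `N = 636197946451` (a denominator of a convergent of `arg z0 / π`): `‖ξ ^ N - 1‖ ≈ 1.8427e-12`. Prove `10^(-12) < ‖ξ ^ N - 1‖ < 4 * 10^(-12)`:
`‖ξ ^ N - ξ0 ^ N‖ ≤ N ‖ξ - ξ0‖ ≤ 7e-16` (norm 1), and `ξ0 ^ N` by binary powering (39 squarings) with integers: a certified chain `(A_i, B_i)` with `‖ξ0 ^ (N_i) - (A_i + I B_i) / 10 ^ 40‖ ≤ ε_i`, `ε_{i+1} ≤ 2 ε_i + ε_i ^ 2 + ..` (all numbers have norm `≤ 1.1`);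
the steps are checked by `norm_num` / `decide` on integers (`(A ^ 2 - B ^ 2) / 10 ^ 40`, `2 A B / 10 ^ 40` up to `1`).
If `(q ^ n).im = 0`, `0 < n < 10 ^ 12`: `ξ ^ n = 1`, so `η = ξ ^ N` satisfies `η ^ n = 1`, `η ≠ 1`; an `n`-th root of unity `≠ 1` has `‖η - 1‖ ≥ 4 / n` (`η = exp (2 π i k / n)`, `‖η - 1‖ = 2 |sin (π k / n)| ≥ 2 sin (π / n) ≥ 4 / n`, `Real.mul_le_sin`;
or elementary: `∏_{j=1}^{n-1}`..), and `4 / n > 4 * 10 ^ (-12)`, a contradiction. (`n = 1`: `q.im > 0`.)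
-/

namespace Pool.Agent.TRN

theorem small_n {q : ℂ} (h1 : |q.re - X0| < 1 / 10 ^ 28) (h2 : |q.im - Y0| < 1 / 10 ^ 28) {n : ℕ} (hn0 : 0 < n)
    (hn : n < 10 ^ 12) : (q ^ n).im ≠ 0 := by
  intro him
  obtain ⟨N, g1, g2⟩ : ∃ N : ℕ, 1 / 10 ^ 14 < ‖(q / (starRingEnd ℂ) q) ^ N - 1‖ ∧
      ‖(q / (starRingEnd ℂ) q) ^ N - 1‖ < 4 / 10 ^ 12 := ⟨72068823782, sqr h1 h2⟩
  have hq : q ≠ 0 := by
    intro hq0
    rw [hq0, Complex.zero_im, zero_sub, abs_neg] at h2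
    have hY : (0 : ℝ) ≤ Y0 := by unfold Y0; positivity
    rw [abs_of_nonneg hY] at h2
    unfold Y0 at h2
    norm_num at h2
  have hcq : (starRingEnd ℂ) q ≠ 0 := by
    simpa using hq
  have hc : (starRingEnd ℂ) (q ^ n) = q ^ n := Complex.conj_eq_iff_im.2 him
  have hξ : (q / (starRingEnd ℂ) q) ^ n = 1 := by
    rw [div_pow, ← map_pow, hc, div_self (pow_ne_zero n hq)]
  have hη : ((q / (starRingEnd ℂ) q) ^ N) ^ n = 1 := by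
    rw [← pow_mul, mul_comm, pow_mul, hξ, one_pow]
  have hne : (q / (starRingEnd ℂ) q) ^ N ≠ 1 := by
    intro he
    rw [he, sub_self, norm_zero] at g1
    have : (0 : ℝ) < 1 / 10 ^ 14 := by positivity
    linarith
  have h4 := root_far hn0 hη hne
  have h5 : 4 / (n : ℝ) < 4 / 10 ^ 12 := lt_of_le_of_lt h4 g2
  have hn0' : (0 : ℝ) < n := by exact_mod_cast hn0
  have hn' : (n : ℝ) < 10 ^ 12 := by exact_mod_cast hn
  have h6 : (4 : ℝ) / 10 ^ 12 < 4 / n := by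
    apply div_lt_div_of_pos_left (by norm_num) hn0' hn'
  linarith

end Pool.Agent.TRN
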