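import Pool.Agent.TRN.Defs

set_option autoImplicit false

/-!
# TRN-ZerI: the zero near the centre is unique

If `w ≠ q`, then `0 = ∑_{k ≥ 1} d_k S_k` with `S_k = (w ^ k - q ^ k) / (w - q) = ∑_{i + j = k - 1} w ^ i q ^ j`. The terms `k ≥ 8`
contribute at most `1.19`; for `k < 8` the sum is close to `∑ d_k k z ^ (k - 1)`, `z = 0.379 + 0.51 I`, which has
imaginary part `> 3.8`.
-/

namespace Pool.Agent.TRN

open Polynomial

private theorem ZerI_pow {x z : ℂ} (hx : ‖x‖ ≤ 1) (hz : ‖z‖ ≤ 1) {δ : ℝ} (h : ‖x - z‖ ≤ δ) (n : ℕ) :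
    ‖x ^ n - z ^ n‖ ≤ n * δ := by
  have hδ : 0 ≤ δ := (norm_nonneg _).trans h
  induction n with
  | zero => simp
  | succ n ih =>
    have h1 : x ^ (n + 1) - z ^ (n + 1) = x ^ n * (x - z) + (x ^ n - z ^ n) * z := by ring
    rw [h1]
    have h2 : ‖x ^ n * (x - z)‖ ≤ δ := by
      rw [norm_mul, norm_pow]
      calc ‖x‖ ^ n * ‖x - z‖ ≤ 1 * δ :=
            mul_le_mul (pow_le_one₀ (norm_nonneg _) hx) h (norm_nonneg _) zero_le_one
        _ = δ := one_mul _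
    have h3 : ‖(x ^ n - z ^ n) * z‖ ≤ n * δ := by
      rw [norm_mul]
      calc ‖x ^ n - z ^ n‖ * ‖z‖ ≤ n * δ * 1 :=
            mul_le_mul ih hz (norm_nonneg _) (by positivity)
        _ = n * δ := mul_one _
    refine (norm_add_le _ _).trans ?_
    push_cast
    linarith

private theorem ZerI_pair {x y z : ℂ} (hx : ‖x‖ ≤ 1) (hy : ‖y‖ ≤ 1) (hz : ‖z‖ ≤ 1) {δ : ℝ} (h1 : ‖x - z‖ ≤ δ)
    (h2 : ‖y - z‖ ≤ δ) (i j : ℕ) : ‖x ^ i * y ^ j - z ^ (i + j)‖ ≤ (i + j : ℝ) * δ := by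
  have hδ : 0 ≤ δ := (norm_nonneg _).trans h1
  have h3 : x ^ i * y ^ j - z ^ (i + j) = (x ^ i - z ^ i) * y ^ j + z ^ i * (y ^ j - z ^ j) := by
    rw [pow_add]
    ring
  rw [h3]
  have h4 : ‖(x ^ i - z ^ i) * y ^ j‖ ≤ i * δ := by
    rw [norm_mul, norm_pow]
    calc ‖x ^ i - z ^ i‖ * ‖y‖ ^ j ≤ i * δ * 1 :=
          mul_le_mul (ZerI_pow hx hz h1 i) (pow_le_one₀ (norm_nonneg _) hy) (by positivity) (by positivity)
      _ = i * δ := mul_one _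
  have h5 : ‖z ^ i * (y ^ j - z ^ j)‖ ≤ j * δ := by
    rw [norm_mul, norm_pow]
    calc ‖z‖ ^ i * ‖y ^ j - z ^ j‖ ≤ 1 * (j * δ) :=
          mul_le_mul (pow_le_one₀ (norm_nonneg _) hz) (ZerI_pow hy hz h2 j) (by positivity) zero_le_one
      _ = j * δ := one_mul _
  refine (norm_add_le _ _).trans ?_
  linarith

/-- `(x ^ k - y ^ k) / (x - y)` -/
private noncomputable def ZerI_S (x y : ℂ) (k : ℕ) : ℂ := ∑ i ∈ Finset.range k, x ^ i * y ^ (k - 1 - i)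

private theorem ZerI_Sdiff {x y z : ℂ} (hx : ‖x‖ ≤ 1) (hy : ‖y‖ ≤ 1) (hz : ‖z‖ ≤ 1) {δ : ℝ} (h1 : ‖x - z‖ ≤ δ)
    (h2 : ‖y - z‖ ≤ δ) (k : ℕ) : ‖ZerI_S x y k - k * z ^ (k - 1)‖ ≤ (k : ℝ) ^ 2 * δ := by
  have hδ : 0 ≤ δ := (norm_nonneg _).trans h1
  have h3 : ZerI_S x y k - k * z ^ (k - 1) =
      ∑ i ∈ Finset.range k, (x ^ i * y ^ (k - 1 - i) - z ^ (k - 1)) := by
    rw [Finset.sum_sub_distrib, Finset.sum_const, Finset.card_range, nsmul_eq_mul]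
    rfl
  rw [h3]
  have h4 : ∀ i ∈ Finset.range k, ‖x ^ i * y ^ (k - 1 - i) - z ^ (k - 1)‖ ≤ k * δ := by
    intro i hi
    have hi' := Finset.mem_range.1 hi
    have h5 := ZerI_pair hx hy hz h1 h2 i (k - 1 - i)
    have h6 : i + (k - 1 - i) = k - 1 := by omega
    rw [h6] at h5
    refine h5.trans (mul_le_mul_of_nonneg_right ?_ hδ)
    have h7 : ((i + (k - 1 - i) : ℕ) : ℝ) ≤ (k : ℝ) := by
      rw [h6]
      exact_mod_cast Nat.sub_le k 1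
    push_cast at h7
    exact_mod_cast h7
  refine (norm_sum_le_of_le _ h4).trans (le_of_eq ?_)
  rw [Finset.sum_const, Finset.card_range, nsmul_eq_mul]
  ring

private theorem ZerI_Snorm {x y : ℂ} {ρ : ℝ} (hρ : 0 ≤ ρ) (hx : ‖x‖ ≤ ρ) (hy : ‖y‖ ≤ ρ) (k : ℕ) :
    ‖ZerI_S x y k‖ ≤ k * ρ ^ (k - 1) := by
  have h4 : ∀ i ∈ Finset.range k, ‖x ^ i * y ^ (k - 1 - i)‖ ≤ ρ ^ (k - 1) := by
    intro i hi
    have hi' := Finset.mem_range.1 hi
    have h6 : i + (k - 1 - i) = k - 1 := by omega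
    rw [norm_mul, norm_pow, norm_pow, ← h6, pow_add, h6]
    exact mul_le_mul (pow_le_pow_left₀ (norm_nonneg _) hx _) (pow_le_pow_left₀ (norm_nonneg _) hy _)
      (by positivity) (by positivity)
  refine (norm_sum_le_of_le _ h4).trans (le_of_eq ?_)
  rw [Finset.sum_const, Finset.card_range, nsmul_eq_mul]

private theorem ZerI_tail {x y : ℂ} (hx : ‖x‖ ≤ 636 / 1000) (hy : ‖y‖ ≤ 636 / 1000) {d : ℕ → ℤ}
    (hd : ∀ k, d k = 1 ∨ d k = -1) {s : ℂ} (hs : HasSum (fun j => (d (j + 8) : ℂ) * ZerI_S x y (j + 8)) s) :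
    ‖s‖ ≤ 119 / 100 := by
  have h1 : ∀ j : ℕ, ‖(d (j + 8) : ℂ) * ZerI_S x y (j + 8)‖ ≤
      8 * (636 / 1000 : ℝ) ^ 7 * (7155 / 10000 : ℝ) ^ j := by
    intro j
    have h2 : ‖((d (j + 8) : ℤ) : ℂ)‖ = 1 := by
      rcases hd (j + 8) with h | h <;> rw [h] <;> simp
    have h3 := ZerI_Snorm (by norm_num) hx hy (j + 8)
    rw [norm_mul, h2, one_mul]
    refine h3.trans ?_
    have h4 := one_add_mul_le_pow (show (-2 : ℝ) ≤ 1 / 8 by norm_num) j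
    have h5 : (j : ℝ) + 8 ≤ 8 * (9 / 8 : ℝ) ^ j := by
      have h6 : (1 + 1 / 8 : ℝ) = 9 / 8 := by norm_num
      rw [h6] at h4
      linarith
    have h6 : j + 8 - 1 = 7 + j := by omega
    rw [h6, pow_add]
    have h7 : (7155 / 10000 : ℝ) ^ j = (9 / 8 : ℝ) ^ j * (636 / 1000 : ℝ) ^ j := by
      rw [← mul_pow]
      norm_num
    rw [h7]
    push_cast
    have h8 : (0 : ℝ) ≤ (636 / 1000 : ℝ) ^ 7 * (636 / 1000 : ℝ) ^ j := by positivity
    calc ((j : ℝ) + 8) * ((636 / 1000 : ℝ) ^ 7 * (636 / 1000 : ℝ) ^ j) ≤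
        8 * (9 / 8 : ℝ) ^ j * ((636 / 1000 : ℝ) ^ 7 * (636 / 1000 : ℝ) ^ j) :=
          mul_le_mul_of_nonneg_right h5 h8
      _ = _ := by ring
  have h2 : HasSum (fun j : ℕ => 8 * (636 / 1000 : ℝ) ^ 7 * (7155 / 10000 : ℝ) ^ j)
      (8 * (636 / 1000 : ℝ) ^ 7 * (1 - 7155 / 10000)⁻¹) :=
    (hasSum_geometric_of_lt_one (by norm_num) (by norm_num)).mul_left _
  refine (hs.norm_le_of_bounded h2 h1).trans ?_
  norm_num

private theorem ZerI_val : ∃ z : ℂ, z.re = 379 / 1000 ∧ z.im = 51 / 100 ∧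
    (38 : ℝ) / 10 < (-1 + 2 * z + 3 * z ^ 2 + 4 * z ^ 3 - 5 * z ^ 4 - 6 * z ^ 5 - 7 * z ^ 6 : ℂ).im := by
  obtain ⟨z, hz⟩ : ∃ z : ℂ, z = ⟨379 / 1000, 51 / 100⟩ := ⟨_, rfl⟩
  have hre : z.re = 379 / 1000 := by rw [hz]
  have him : z.im = 51 / 100 := by rw [hz]
  refine ⟨z, hre, him, ?_⟩
  have h : ∀ n : ℕ, (z ^ (n + 1)).re = (z ^ n).re * (379 / 1000) - (z ^ n).im * (51 / 100) ∧
      (z ^ (n + 1)).im = (z ^ n).re * (51 / 100) + (z ^ n).im * (379 / 1000) := by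
    intro n
    rw [pow_succ, Complex.mul_re, Complex.mul_im, hre, him]
    exact ⟨rfl, rfl⟩
  have r1 : (z ^ 1).re = 379 / 1000 := by rw [pow_one, hre]
  have i1 : (z ^ 1).im = 51 / 100 := by rw [pow_one, him]
  obtain ⟨r2, i2⟩ := h 1
  obtain ⟨r3, i3⟩ := h 2
  obtain ⟨r4, i4⟩ := h 3
  obtain ⟨r5, i5⟩ := h 4
  obtain ⟨-, i6⟩ := h 5
  norm_num only at r1 i1 r2 i2 r3 i3 r4 i4 r5 i5 i6
  rw [r1, i1] at r2 i2
  norm_num only at r2 i2
  rw [r2, i2] at r3 i3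
  norm_num only at r3 i3
  rw [r3, i3] at r4 i4
  norm_num only at r4 i4
  rw [r4, i4] at r5 i5
  norm_num only at r5 i5
  rw [r5, i5] at i6
  norm_num only at i6
  have h2 : ((2 : ℂ) * z).im = 2 * (51 / 100) := by
    rw [Complex.mul_im, him]
    simp
  have h3 : ∀ (c : ℝ) (x : ℂ), ((c : ℂ) * x).im = c * x.im := fun c x => by simp
  have e3 := h3 3 (z ^ 2)
  have e4 := h3 4 (z ^ 3)
  have e5 := h3 5 (z ^ 4)
  have e6 := h3 6 (z ^ 5)
  have e7 := h3 7 (z ^ 6)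
  norm_num only [Complex.ofReal_ofNat] at e3 e4 e5 e6 e7
  rw [Complex.sub_im, Complex.sub_im, Complex.sub_im, Complex.add_im, Complex.add_im, Complex.add_im, h2]
  have e1 : ((-1 : ℂ)).im = 0 := by simp
  rw [e1]
  rw [e3, e4, e5, e6, e7, i2, i3, i4, i5, i6]
  norm_num

private theorem ZerI_term {w q : ℂ} (hwq : w - q ≠ 0) (c : ℂ) (k : ℕ) :
    (c * w ^ k - c * q ^ k) * (w - q)⁻¹ = c * ZerI_S w q k := by
  have h2 : ZerI_S w q k * (w - q) = w ^ k - q ^ k := geom_sum₂_mul w q k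
  rw [← mul_sub, ← h2, mul_assoc, mul_assoc, mul_inv_cancel₀ hwq, mul_one]

private theorem ZerI_close {z : ℂ} (hre : z.re = 379 / 1000) (him : z.im = 51 / 100) (u : ℂ)
    (h1 : |u.re - X0| < 1 / 10 ^ 28) (h2 : |u.im - Y0| < 1 / 10 ^ 28) :
    ‖u‖ ≤ 636 / 1000 ∧ ‖u - z‖ ≤ 7 / 10000 := by
  have hX1 : X0 < 378778 / 1000000 := by unfold X0; norm_num
  have hX2 : 378777 / 1000000 < X0 := by unfold X0; norm_num
  have hY1 : Y0 < 510415 / 1000000 := by unfold Y0; norm_num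
  have hY2 : 510414 / 1000000 < Y0 := by unfold Y0; norm_num
  have h0 : (1 : ℝ) / 10 ^ 28 < 1 / 1000000 := by norm_num
  replace h1 := h1.trans h0
  replace h2 := h2.trans h0
  clear h0
  rw [abs_lt] at h1 h2
  obtain ⟨h1a, h1b⟩ := h1
  obtain ⟨h2a, h2b⟩ := h2
  have ra : 378776 / 1000000 < u.re := by linarith
  have rb : u.re < 378779 / 1000000 := by linarith
  have ia : 510413 / 1000000 < u.im := by linarith
  have ib : u.im < 510416 / 1000000 := by linarith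
  constructor
  · have h3 : ‖u‖ ^ 2 ≤ (636 / 1000 : ℝ) ^ 2 := by
      rw [Complex.sq_norm, Complex.normSq_apply]
      have r2 : u.re * u.re ≤ 378779 / 1000000 * (378779 / 1000000) :=
        mul_le_mul rb.le rb.le (by linarith) (by norm_num)
      have i2 : u.im * u.im ≤ 510416 / 1000000 * (510416 / 1000000) :=
        mul_le_mul ib.le ib.le (by linarith) (by norm_num)
      have h4 : (378779 / 1000000 * (378779 / 1000000) + 510416 / 1000000 * (510416 / 1000000) : ℝ) ≤ (636 / 1000) ^ 2 := by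
        norm_num
      linarith
    exact (sq_le_sq₀ (norm_nonneg _) (by norm_num)).1 h3
  · have h5 := Complex.norm_le_abs_re_add_abs_im (u - z)
    rw [Complex.sub_re, Complex.sub_im, hre, him] at h5
    have h3 : |u.re - 379 / 1000| ≤ 25 / 100000 := by
      rw [abs_le]
      constructor <;> linarith
    have h4 : |u.im - 51 / 100| ≤ 45 / 100000 := by
      rw [abs_le]
      constructor <;> linarith
    linarith

theorem zer_inj {q : ℂ} {d : ℕ → ℤ} (h : Ext q d) {w : ℂ} (hw1 : |w.re - X0| < 1 / 10 ^ 28)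
    (hw2 : |w.im - Y0| < 1 / 10 ^ 28) (hw : HasSum (fun k => (d k : ℂ) * w ^ k) 0) : w = q := by
  by_contra hne
  have hwq : w - q ≠ 0 := sub_ne_zero.2 hne
  obtain ⟨z, hre, him, hval⟩ := ZerI_val
  obtain ⟨hwn, hwz⟩ := ZerI_close hre him w hw1 hw2
  obtain ⟨hqn, hqz⟩ := ZerI_close hre him q h.loc.1 h.loc.2
  have hz1 : ‖z‖ ≤ 1 := by
    have h3 : ‖z‖ ^ 2 ≤ (1 : ℝ) ^ 2 := by
      rw [Complex.sq_norm, Complex.normSq_apply, hre, him]
      norm_num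
    exact (sq_le_sq₀ (norm_nonneg _) (by norm_num)).1 h3
  have hsum : HasSum (fun k => (d k : ℂ) * ZerI_S w q k) 0 := by
    have h1 := (hw.sub h.van).mul_right (w - q)⁻¹
    rw [sub_zero, zero_mul] at h1
    have h4 : (fun k => ((d k : ℂ) * w ^ k - (d k : ℂ) * q ^ k) * (w - q)⁻¹) =
        fun k => (d k : ℂ) * ZerI_S w q k := by
      funext k
      exact ZerI_term hwq (d k) k
    rw [h4] at h1
    exact h1
  have hs8 : HasSum (fun j => (d (j + 8) : ℂ) * ZerI_S w q (j + 8))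
      (0 - ∑ i ∈ Finset.range 8, (d i : ℂ) * ZerI_S w q i) :=
    (hasSum_nat_add_iff' (f := fun k => (d k : ℂ) * ZerI_S w q k) 8).2 hsum
  have htail := ZerI_tail hwn hqn h.pm hs8
  rw [zero_sub, norm_neg] at htail
  have d1 : d 1 = -1 := by rw [h.fst 1 (by norm_num)]; rfl
  have d2 : d 2 = 1 := by rw [h.fst 2 (by norm_num)]; rfl
  have d3 : d 3 = 1 := by rw [h.fst 3 (by norm_num)]; rfl
  have d4 : d 4 = 1 := by rw [h.fst 4 (by norm_num)]; rfl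
  have d5 : d 5 = -1 := by rw [h.fst 5 (by norm_num)]; rfl
  have d6 : d 6 = -1 := by rw [h.fst 6 (by norm_num)]; rfl
  have d7 : d 7 = -1 := by rw [h.fst 7 (by norm_num)]; rfl
  have hP : (-1 + 2 * z + 3 * z ^ 2 + 4 * z ^ 3 - 5 * z ^ 4 - 6 * z ^ 5 - 7 * z ^ 6 : ℂ) =
      ∑ k ∈ Finset.range 8, (d k : ℂ) * ((k : ℂ) * z ^ (k - 1)) := by
    simp only [Finset.sum_range_succ, Finset.sum_range_zero, d1, d2, d3, d4, d5, d6, d7]
    push_cast
    norm_num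
    ring
  have hdiff : ‖(∑ k ∈ Finset.range 8, (d k : ℂ) * ZerI_S w q k) -
      ∑ k ∈ Finset.range 8, (d k : ℂ) * ((k : ℂ) * z ^ (k - 1))‖ ≤ 1 / 10 := by
    rw [← Finset.sum_sub_distrib]
    have h1 : ∀ k ∈ Finset.range 8, ‖(d k : ℂ) * ZerI_S w q k - (d k : ℂ) * ((k : ℂ) * z ^ (k - 1))‖ ≤
        (k : ℝ) ^ 2 * (7 / 10000) := by
      intro k _
      have h2 : ‖((d k : ℤ) : ℂ)‖ = 1 := by
        rcases h.pm k with h | h <;> rw [h] <;> simp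
      rw [← mul_sub, norm_mul, h2, one_mul]
      exact ZerI_Sdiff (hwn.trans (by norm_num)) (hqn.trans (by norm_num)) hz1 hwz hqz k
    have h3 := norm_sum_le_of_le (Finset.range 8) h1
    have h4 : ∑ k ∈ Finset.range 8, (k : ℝ) ^ 2 * (7 / 10000) ≤ 1 / 10 := by
      simp only [Finset.sum_range_succ, Finset.sum_range_zero]
      norm_num
    exact le_trans h3 h4
  have h1 : (38 : ℝ) / 10 < ‖∑ k ∈ Finset.range 8, (d k : ℂ) * ((k : ℂ) * z ^ (k - 1))‖ := by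
    rw [← hP]
    exact hval.trans_le ((le_abs_self _).trans (Complex.abs_im_le_norm _))
  have h2 := norm_sub_norm_le (∑ k ∈ Finset.range 8, (d k : ℂ) * ((k : ℂ) * z ^ (k - 1)))
    (∑ k ∈ Finset.range 8, (d k : ℂ) * ZerI_S w q k)
  rw [norm_sub_rev] at h2
  linarith

end Pool.Agent.TRN
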