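import Pool.Agent.TRN.ZerR
import Pool.Agent.TRN.ZerI

set_option autoImplicit false

/-!
# TRN-ZerC: the zeros on the circle are `q` and its conjugate

A real zero is excluded by `zer_real`; for a non-real zero `w` the localisation `oth` and `zer_inj` apply to `w` or to its
conjugate.
-/

namespace Pool.Agent.TRN

open Polynomial
open scoped ComplexConjugate

theorem zer {q : ℂ} {d : ℕ → ℤ} (h : Ext q d) {w : ℂ} (hn : ‖w‖ = ‖q‖) (hw : HasSum (fun k => (d k : ℂ) * w ^ k) 0) :
    w = q ∨ w = conj q := by
  rcases lt_trichotomy w.im 0 with h0 | h0 | h0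
  · right
    obtain ⟨h1, h2⟩ := h.oth w h0.ne hn hw
    have hc : HasSum (fun k => (d k : ℂ) * (conj w) ^ k) 0 := by
      have h3 := hw.map (starRingEnd ℂ) Complex.continuous_conj
      rw [map_zero] at h3
      refine h3.congr_fun ?_
      intro k
      simp
    have h4 := zer_inj h (w := conj w) (by rw [Complex.conj_re]; exact h1)
      (by rw [Complex.conj_im, ← abs_of_neg h0]; exact h2) hc
    rw [← h4, Complex.conj_conj]
  · exfalso
    have h1 : w = (w.re : ℂ) := Complex.ext (by simp) (by simp [h0])
    have h2 : |w.re| = ‖q‖ := by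
      rw [← hn]
      conv_rhs => rw [h1]
      rw [Complex.norm_real, Real.norm_eq_abs]
    rw [h1] at hw
    exact zer_real h h2 hw
  · left
    obtain ⟨h1, h2⟩ := h.oth w h0.ne' hn hw
    exact zer_inj h h1 (by rw [abs_of_pos h0] at h2; exact h2) hw

end Pool.Agent.TRN
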