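import Pool.Agent.TRN.PerA
import Pool.Agent.TRN.PerB
import Pool.Agent.TRN.PerQ
import Pool.Agent.TRN.PerM
import Pool.Agent.TRN.ZerC
import Pool.Agent.TRN.AlgM
import Pool.Agent.TRN.Pri
import Pool.Agent.TRN.NumN
import Pool.Agent.TRN.SqrB

set_option autoImplicit false

/-!
# TRN-Rat: the angle is not rational

PLAN. Suppose `(q ^ n).im = 0` for some `n > 0`, take the least one (`Nat.find`); `n ≥ 10 ^ 12` (`small_n`). `per_data`: `s`; `x = q⁻¹`, `Q = Qn d n s` (`qn_monic`, `qn_deg`, `qn_eval`, `per_poly` for `w = q`: `aeval q Pn = 0`). `‖x‖ > 1`.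
`hcon`: `aeval w Q = 0`, `w ^ n = x ^ n`: `w ≠ 0`, `w⁻¹ ^ n = q ^ n`, so `‖w⁻¹‖ = ‖q‖`, `aeval w⁻¹ Pn = 0` (`qn_eval`), `1 - s w⁻¹ ^ n = 1 - ‖q‖ ^ n ≠ 0`, so `∑' d k w⁻¹ ^ k = 0` (`per_poly`), `zer`. `algM` gives `e0`.
`e0 ≤ ω + 1` by `tot_lower` and `e0 φ ≤ n`, `φ > 0`. Prime `p` from `pri_ex`: `2 ^ (2 φ (ω + 2)) ≤ p ^ (2 φ) ≤ 2 ^ (2 φ (ω + 1)) (n + 4) ^ (p + 1)`, so `4 ^ φ ≤ (n + 4) ^ (2 ^ (2 ω + 3) + 1)`, and `4 ^ n ≤ 4 ^ ((ω + 1) φ) ≤ (n + 4) ^ ((ω + 1) (2 ^ (2 ω + 3) + 1))`,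
against `numN` (`fact_le`).
`irr_arg`: if `arg q = π a / b` then `q ^ b = ‖q‖ ^ b exp(i π a)` is real.
-/

namespace Pool.Agent.TRN

open Polynomial

private lemma Rat_num {n e0 : ℕ} (hn : 10 ^ 12 ≤ n) (he : e0 * n.totient ≤ n)
    (hp : ∀ p : ℕ, p.Prime → ¬ p ∣ n →
      (p : ℝ) ^ (2 * n.totient) ≤ 2 ^ (2 * n.totient * e0) * ((n : ℝ) + 4) ^ (p + 1)) : False := by
  have hn0 : 0 < n := lt_of_lt_of_le (by norm_num) hn
  have hphi : 0 < n.totient := Nat.totient_pos.2 hn0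
  have he1 : e0 ≤ n.primeFactors.card + 1 := by
    have h1 : e0 * n.totient ≤ (n.primeFactors.card + 1) * n.totient := he.trans (tot_lower hn0)
    exact Nat.le_of_mul_le_mul_right h1 hphi
  obtain ⟨p, hpp, hpn, hlo, hhi⟩ := pri_ex hn0
  have h1 := hp p hpp hpn
  have h2 : p ^ (2 * n.totient) ≤ 2 ^ (2 * n.totient * e0) * (n + 4) ^ (p + 1) := by
    exact_mod_cast h1
  have hn4 : 1 ≤ n + 4 := by omega
  have h3 : (2 ^ (n.primeFactors.card + 2)) ^ (2 * n.totient) ≤ p ^ (2 * n.totient) :=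
    Nat.pow_le_pow_left hlo.le _
  have h4 : 2 ^ (2 * n.totient * e0) ≤ 2 ^ (2 * n.totient * (n.primeFactors.card + 1)) :=
    Nat.pow_le_pow_right (by norm_num) (Nat.mul_le_mul_left _ he1)
  have h5 : (n + 4) ^ (p + 1) ≤ (n + 4) ^ (2 ^ (2 * n.primeFactors.card + 3) + 1) :=
    Nat.pow_le_pow_right hn4 (by omega)
  have h6 : (2 ^ (n.primeFactors.card + 2)) ^ (2 * n.totient) =
      2 ^ (2 * n.totient * (n.primeFactors.card + 1)) * 4 ^ n.totient := by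
    rw [show (4 : ℕ) = 2 ^ 2 by norm_num, ← pow_mul, ← pow_mul, ← pow_add]
    congr 1
    ring
  have h7 : 4 ^ n.totient ≤ (n + 4) ^ (2 ^ (2 * n.primeFactors.card + 3) + 1) := by
    have h8 : 2 ^ (2 * n.totient * (n.primeFactors.card + 1)) * 4 ^ n.totient ≤
        2 ^ (2 * n.totient * (n.primeFactors.card + 1)) *
          (n + 4) ^ (2 ^ (2 * n.primeFactors.card + 3) + 1) := by
      rw [← h6]
      exact h3.trans (h2.trans (Nat.mul_le_mul h4 h5))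
    exact Nat.le_of_mul_le_mul_left h8 (by positivity)
  have h9 : 4 ^ n ≤ (n + 4) ^ ((n.primeFactors.card + 1) * (2 ^ (2 * n.primeFactors.card + 3) + 1)) := by
    calc 4 ^ n ≤ 4 ^ ((n.primeFactors.card + 1) * n.totient) :=
          Nat.pow_le_pow_right (by norm_num) (tot_lower hn0)
      _ = (4 ^ n.totient) ^ (n.primeFactors.card + 1) := by
          rw [← pow_mul, mul_comm]
      _ ≤ ((n + 4) ^ (2 ^ (2 * n.primeFactors.card + 3) + 1)) ^ (n.primeFactors.card + 1) :=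
          Nat.pow_le_pow_left h7 _
      _ = (n + 4) ^ ((n.primeFactors.card + 1) * (2 ^ (2 * n.primeFactors.card + 3) + 1)) := by
          rw [← pow_mul, mul_comm]
  exact absurd h9 (not_le.2 (numN hn (fact_le hn0)))

private lemma Rat_inv_im (z : ℂ) (hz : z ≠ 0) : (z⁻¹).im = 0 ↔ z.im = 0 := by
  rw [Complex.inv_im, div_eq_zero_iff, neg_eq_zero]
  constructor
  · rintro (h | h)
    · exact h
    · exact absurd (Complex.normSq_eq_zero.1 h) hz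
  · exact Or.inl

theorem rat {q : ℂ} {d : ℕ → ℤ} (h : Ext q d) {n : ℕ} (hn : 0 < n) : (q ^ n).im ≠ 0 := by
  intro him0
  classical
  have hex : ∃ n : ℕ, 0 < n ∧ (q ^ n).im = 0 := ⟨n, hn, him0⟩
  obtain ⟨m, hm0, hmi, hmin⟩ : ∃ m : ℕ, 0 < m ∧ (q ^ m).im = 0 ∧ ∀ k, 0 < k → k < m → (q ^ k).im ≠ 0 :=
    ⟨Nat.find hex, (Nat.find_spec hex).1, (Nat.find_spec hex).2, fun k hk hkm hk0 =>
      Nat.find_min hex hkm ⟨hk, hk0⟩⟩
  have hqn : 0 < ‖q‖ := lt_trans (by norm_num) h.lo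
  have hq0 : q ≠ 0 := norm_pos_iff.1 hqn
  have hq1 : ‖q‖ < 1 := lt_trans h.up (by norm_num)
  have hm12 : 10 ^ 12 ≤ m := by
    by_contra hlt
    exact small_n h.loc.1 h.loc.2 hm0 (not_le.1 hlt) hmi
  obtain ⟨s, hs, hqm, hper, hdm⟩ := per_data h hm0 hmi
  have hss : (s : ℂ) * s = 1 := by
    rcases hs with h1 | h1 <;> rw [h1] <;> norm_num
  have hPq : aeval q (Pn d m s) = 0 := by
    rw [← per_poly hm0 h.d0 h.pm hper hdm hq1, h.van.tsum_eq, mul_zero]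
  have hQx : aeval q⁻¹ (Qn d m s) = 0 := by
    have h1 := qn_eval d m s hq0
    rw [hPq] at h1
    exact (mul_eq_zero.1 h1).resolve_right (pow_ne_zero _ hq0)
  have hx1 : 1 < ‖q⁻¹‖ := by
    rw [norm_inv]
    exact (one_lt_inv₀ hqn).2 hq1
  have hxi : (q⁻¹).im ≠ 0 := by
    rw [Ne, Rat_inv_im q hq0]
    exact h.im.ne'
  have hreal : ((q⁻¹) ^ m).im = 0 := by
    rw [inv_pow, Rat_inv_im _ (pow_ne_zero _ hq0)]
    exact hmi
  have hmin' : ∀ k, 0 < k → k < m → ((q⁻¹) ^ k).im ≠ 0 := by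
    intro k hk hkm
    rw [inv_pow, Ne, Rat_inv_im _ (pow_ne_zero _ hq0)]
    exact hmin k hk hkm
  have hcon : ∀ w : ℂ, aeval w (Qn d m s) = 0 → w ^ m = (q⁻¹) ^ m → w = q⁻¹ ∨ w = (starRingEnd ℂ) q⁻¹ := by
    intro w hw hwm
    have hw0 : w ≠ 0 := by
      rintro rfl
      rw [zero_pow hm0.ne'] at hwm
      exact pow_ne_zero m (inv_ne_zero hq0) hwm.symm
    have hv0 : w⁻¹ ≠ 0 := inv_ne_zero hw0
    have hvm : (w⁻¹) ^ m = q ^ m := by
      rw [inv_pow, hwm, inv_pow, inv_inv]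
    have hvn : ‖w⁻¹‖ = ‖q‖ := by
      have h1 : ‖w⁻¹‖ ^ m = ‖q‖ ^ m := by rw [← norm_pow, hvm, norm_pow]
      exact (pow_left_inj₀ (norm_nonneg _) (norm_nonneg _) hm0.ne').1 h1
    have hPv : aeval w⁻¹ (Pn d m s) = 0 := by
      rw [← qn_eval d m s hv0, inv_inv, hw, zero_mul]
    have hv1 : ‖w⁻¹‖ < 1 := hvn ▸ hq1
    have h2 := per_poly hm0 h.d0 h.pm hper hdm hv1
    rw [hPv] at h2
    have h3 : (1 : ℂ) - s * (w⁻¹) ^ m ≠ 0 := by
      rw [hvm, hqm, ← mul_assoc, hss, one_mul]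
      intro h4
      have h5 : ((‖q‖ ^ m : ℝ) : ℂ) = ((1 : ℝ) : ℂ) := by
        push_cast
        exact (sub_eq_zero.1 h4).symm
      have h6 : ‖q‖ ^ m = 1 := Complex.ofReal_injective h5
      have h7 : ‖q‖ ^ m < 1 := pow_lt_one₀ hqn.le hq1 hm0.ne'
      linarith
    have h4 : ∑' k : ℕ, (d k : ℂ) * (w⁻¹) ^ k = 0 := (mul_eq_zero.1 h2).resolve_left h3
    have hsum : Summable fun k : ℕ => (d k : ℂ) * (w⁻¹) ^ k := by
      refine Summable.of_norm_bounded (g := fun k : ℕ => ‖w⁻¹‖ ^ k)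
        (summable_geometric_of_lt_one (norm_nonneg _) hv1) fun k => ?_
      have h1 : ‖(d k : ℂ)‖ = 1 := by
        rcases h.pm k with h | h <;> rw [h] <;> simp
      rw [norm_mul, h1, one_mul, norm_pow]
    have h5 : HasSum (fun k : ℕ => (d k : ℂ) * (w⁻¹) ^ k) 0 := h4 ▸ hsum.hasSum
    rcases zer h hvn h5 with h6 | h6
    · left
      rw [← h6, inv_inv]
    · right
      rw [map_inv₀, ← h6, inv_inv]
  obtain ⟨e0, he, hp⟩ := algM (x := q⁻¹) hm0 (qn_monic d hm0 s) (qn_deg d hm0 s) hQx hx1 hxi hreal hmin' hcon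
    (qn_mahler h.pm hm0 hs)
  exact Rat_num hm12 he hp

theorem irr_arg {q : ℂ} {d : ℕ → ℤ} (h : Ext q d) : Irrational (q.arg / Real.pi) := by
  rintro ⟨r, hr⟩
  have hpi : Real.pi ≠ 0 := Real.pi_ne_zero
  have h1 : (r.den : ℝ) * q.arg = r.num * Real.pi := by
    have h2 : q.arg = r * Real.pi := by
      rw [hr]
      field_simp
    have h3 : (r.den : ℝ) * (r : ℝ) = r.num := by
      exact_mod_cast Rat.den_mul_eq_num r
    rw [h2, ← mul_assoc, h3]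
  refine rat h r.pos ?_
  have h4 : q ^ r.den = ((‖q‖ ^ r.den : ℝ) : ℂ) * Complex.exp (((r.num * Real.pi : ℝ) : ℂ) * Complex.I) := by
    conv_lhs => rw [← Complex.norm_mul_exp_arg_mul_I q]
    rw [mul_pow, ← Complex.exp_nat_mul, ← h1]
    push_cast
    ring_nf
  rw [h4, Complex.im_ofReal_mul, Complex.exp_ofReal_mul_I_im, Real.sin_int_mul_pi, mul_zero]

end Pool.Agent.TRN
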