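import Pool.Agent.TRN.MisA

set_option autoImplicit false

/-!
# TRN-MisB: infinitely many mismatches

PLAN. `δ = |Q α - P| > 0` (`α` irrational). `mm_cases`: both signs are `± 1`. `mm_floor`: if `⌊(k + Q) α + x⌋ = ⌊k α + x⌋ + P` then `Mm = 0` (`sg_add`). Otherwise, with `f = k α + x`, `(k + Q) α + x = f + P + (Q α - P)`:
if `Q α - P = δ > 0` there is an integer `m` with `f < m ≤ f + δ`; if `Q α - P = - δ` there is an integer `m` with `f - δ < m ≤ f`... (so `m` is within `δ` of `f`, on a fixed side, half-open).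
`mm_gap`: for `k < k'` both nonzero: with `h = k' - k` and the difference `m'` of the two integers, `|h α - m'| < δ`. If `Q m' ≠ h P`, `1 ≤ |Q m' - h P| = |Q (m' - h α) + h (Q α - P)| ≤ Q δ + h δ`. If `Q m' = h P` then
`Q ∣ h` (`IsCoprime`), `h = j Q`, `m' = j P`, `j ≥ 1`, `|h α - m'| = j δ ≥ δ`, a contradiction.
`mm_inf`: the fractional parts of `k α + x`, `k ≥ K`, are dense: there is `k ≥ K` with `Int.fract (k α + x)` in `(1 - δ, 1)` (if `Q α - P > 0`), resp. in `(0, δ)`; for these the floor changes (`δ < 1` is needed: if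
`δ ≥ 1` use `hδ`). Density: e.g. the pigeonhole argument, or `AddCircle` results (`dense_addSubgroupClosure_pair_iff`, `AddCircle.denseRange_zsmul..`, `Irrational`); a forward orbit of a compact group rotation is dense since the closure
of a sub-semigroup of a compact group is a group.
`mm_id`: split the sum `∑_{k} s_k z^k` at `Q` (`Summable.sum_add_tsum_nat_add`), `tsum_mul_left`, `Summable.tsum_sub`.
-/

namespace Pool.Agent.TRN

open Polynomial

private theorem MisB_sg_add (a b : ℤ) : sg (a + b) = sg a * sg b := by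
  unfold sg
  by_cases ha : Even a <;> by_cases hb : Even b <;> simp [Int.even_add, ha, hb]

private theorem MisB_sg_ne (a : ℤ) : sg a ≠ 0 := by
  unfold sg
  split_ifs <;> simp

private theorem MisB_one : sg (-1) = -1 := by
  unfold sg
  rw [if_neg (by decide)]

private theorem MisB_dense {α : ℝ} (hα : Irrational α) (x : ℝ) {ε : ℝ} (hε : 0 < ε) (K : ℕ) :
    ∃ (k : ℕ) (m : ℤ), K ≤ k ∧ 0 < (k : ℝ) * α + x - m ∧ (k : ℝ) * α + x - m < ε := by
  obtain ⟨N, hN⟩ := exists_nat_gt (1 / ε)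
  have hN0 : (0 : ℝ) < N := lt_trans (by positivity) hN
  have hNp : 0 < N := by exact_mod_cast hN0
  obtain ⟨m₀, n, hn0, -, hn⟩ := Real.exists_int_int_abs_mul_sub_le α hNp
  obtain ⟨n', rfl⟩ : ∃ n' : ℕ, n = (n' : ℤ) := ⟨n.toNat, (Int.toNat_of_nonneg hn0.le).symm⟩
  have hn1 : 0 < n' := by exact_mod_cast hn0
  have hlt : |(n' : ℝ) * α - m₀| < ε := by
    have h1 : (1 : ℝ) / (N + 1) < ε := by
      rw [div_lt_iff₀ (by positivity)]
      have h2 : 1 < ε * N := by
        rw [div_lt_iff₀ hε] at hN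
        linarith
      nlinarith
    have h3 : |((n' : ℤ) : ℝ) * α - m₀| ≤ 1 / (N + 1) := hn
    rw [Int.cast_natCast] at h3
    linarith
  have hne : (n' : ℝ) * α - m₀ ≠ 0 := by
    intro h
    have h1 : Irrational ((n' : ℝ) * α) := hα.natCast_mul hn1.ne'
    exact h1 ⟨(m₀ : ℚ), by
      rw [Rat.cast_intCast]
      linarith⟩
  set η : ℝ := (n' : ℝ) * α - m₀ with hη
  set y : ℝ := (K : ℝ) * α + x with hy
  have key : ∀ (j : ℕ) (M : ℤ), ((K + j * n' : ℕ) : ℝ) * α + x - ((M + j * m₀ : ℤ) : ℝ) = y + j * η - M := by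
    intro j M
    rw [hη, hy]
    push_cast
    ring
  rcases lt_or_gt_of_ne hne with h | h
  · have habs : -η < ε := by
      rw [abs_of_neg h] at hlt
      exact hlt
    have hη0 : 0 < -η := by linarith
    obtain ⟨M, hM⟩ : ∃ M : ℤ, (M : ℝ) < y := ⟨⌊y⌋ - 1, by
      have := Int.floor_le y
      push_cast
      linarith⟩
    have hq : 0 < (y - M) / (-η) := div_pos (by linarith) hη0
    obtain ⟨j, hj⟩ : ∃ j : ℕ, ⌈(y - M) / (-η)⌉₊ = j + 1 := by
      have : 0 < ⌈(y - M) / (-η)⌉₊ := Nat.ceil_pos.2 hq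
      exact ⟨⌈(y - M) / (-η)⌉₊ - 1, by omega⟩
    have h1 : (y - M) / (-η) ≤ j + 1 := by
      have := Nat.le_ceil ((y - M) / (-η))
      rw [hj] at this
      exact_mod_cast this
    have h2 : (j : ℝ) < (y - M) / (-η) := by
      have : (j : ℕ) < ⌈(y - M) / (-η)⌉₊ := by omega
      exact Nat.lt_ceil.1 this
    rw [div_le_iff₀ hη0] at h1
    rw [lt_div_iff₀ hη0] at h2
    refine ⟨K + j * n', M + j * m₀, Nat.le_add_right _ _, ?_, ?_⟩
    · rw [key]
      linarith
    · rw [key]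
      linarith
  · have habs : η < ε := by
      rw [abs_of_pos h] at hlt
      exact hlt
    obtain ⟨M, hM⟩ : ∃ M : ℤ, y < (M : ℝ) := ⟨⌊y⌋ + 1, by
      push_cast
      exact Int.lt_floor_add_one y⟩
    have hq : 0 ≤ (M - y) / η := div_nonneg (by linarith) h.le
    have h1 : (⌊(M - y) / η⌋₊ : ℝ) ≤ (M - y) / η := Nat.floor_le hq
    have h2 : (M - y) / η < ⌊(M - y) / η⌋₊ + 1 := Nat.lt_floor_add_one _
    rw [le_div_iff₀ h] at h1
    rw [div_lt_iff₀ h] at h2
    refine ⟨K + (⌊(M - y) / η⌋₊ + 1) * n', M + ((⌊(M - y) / η⌋₊ + 1 : ℕ) : ℤ) * m₀, Nat.le_add_right _ _, ?_, ?_⟩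
    · rw [key]
      push_cast
      linarith
    · rw [key]
      push_cast
      linarith

theorem mm_inf {α x : ℝ} (hα : Irrational α) {Q : ℕ} {P : ℤ} (hQ : 1 ≤ Q) (hδ : |(Q : ℝ) * α - P| < 1) (K : ℕ) :
    ∃ k, K ≤ k ∧ Mm α x Q P k ≠ 0 := by
  have hne : (Q : ℝ) * α - P ≠ 0 := by
    intro h
    have h1 : Irrational ((Q : ℝ) * α) := hα.natCast_mul (by omega)
    exact h1 ⟨(P : ℚ), by
      rw [Rat.cast_intCast]
      linarith⟩
  rw [abs_lt] at hδ
  have hfl : ∀ k : ℕ, ((k + Q : ℕ) : ℝ) * α + x = (k : ℝ) * α + x + (Q * α - P) + P := by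
    intro k
    push_cast
    ring
  rcases lt_or_gt_of_ne hne with h | h
  · obtain ⟨k, m, hk, h1, h2⟩ := MisB_dense hα x (ε := -((Q : ℝ) * α - P)) (by linarith) K
    refine ⟨k, hk, ?_⟩
    have f1 : ⌊(k : ℝ) * α + x⌋ = m := by
      rw [Int.floor_eq_iff]
      constructor <;> linarith
    have f2 : ⌊((k + Q : ℕ) : ℝ) * α + x⌋ = m + (-1) + P := by
      rw [hfl, Int.floor_add_intCast, add_left_inj, Int.floor_eq_iff]
      push_cast
      constructor <;> linarith
    unfold Mm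
    rw [f1, f2, MisB_sg_add, MisB_sg_add, MisB_one]
    have e : sg m * -1 * sg P - sg P * sg m = -2 * (sg m * sg P) := by ring
    rw [e]
    exact mul_ne_zero (by norm_num) (mul_ne_zero (MisB_sg_ne _) (MisB_sg_ne _))
  · obtain ⟨k, m, hk, h1, h2⟩ := MisB_dense hα.neg (-x) (ε := (Q : ℝ) * α - P) h K
    refine ⟨k, hk, ?_⟩
    have f1 : ⌊(k : ℝ) * α + x⌋ = -m + -1 := by
      rw [Int.floor_eq_iff]
      push_cast
      constructor <;> linarith
    have f2 : ⌊((k + Q : ℕ) : ℝ) * α + x⌋ = -m + P := by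
      rw [hfl, Int.floor_add_intCast, add_left_inj, Int.floor_eq_iff]
      push_cast
      constructor <;> linarith
    unfold Mm
    rw [f1, f2, MisB_sg_add, MisB_sg_add, MisB_one]
    have e : sg (-m) * sg P - sg P * (sg (-m) * -1) = 2 * (sg (-m) * sg P) := by ring
    rw [e]
    exact mul_ne_zero (by norm_num) (mul_ne_zero (MisB_sg_ne _) (MisB_sg_ne _))

end Pool.Agent.TRN
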