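import Pool.Agent.TRN.MisA

set_option autoImplicit false

/-!
# TRN-MisC: the identity

`mm_id`: the sum `∑_{k} s_k z^k` is split at `Q` and `(-1)^P z^Q` times the whole sum is subtracted from the tail.
-/

namespace Pool.Agent.TRN

open Polynomial

theorem mm_id {α x : ℝ} {z : ℂ} (hz : ‖z‖ < 1) (Q : ℕ) (P : ℤ) :
    (1 - sg P * z ^ Q) * Ph α z x = aeval z (Rq α x Q) + ∑' k : ℕ, (Mm α x Q P k : ℂ) * z ^ (k + Q) := by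
  have hs := ph_summable (α := α) hz x
  have h1 : ∑ k ∈ Finset.range Q, (sg ⌊(k : ℝ) * α + x⌋ : ℂ) * z ^ k +
      ∑' k : ℕ, (sg ⌊((k + Q : ℕ) : ℝ) * α + x⌋ : ℂ) * z ^ (k + Q) = Ph α z x :=
    hs.sum_add_tsum_nat_add Q
  have hs1 : Summable fun k : ℕ => (sg ⌊((k + Q : ℕ) : ℝ) * α + x⌋ : ℂ) * z ^ (k + Q) :=
    (summable_nat_add_iff Q).2 hs
  have hs2 : Summable fun k : ℕ => (sg P * z ^ Q : ℂ) * ((sg ⌊(k : ℝ) * α + x⌋ : ℂ) * z ^ k) :=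
    hs.mul_left _
  have h2 : (sg P * z ^ Q : ℂ) * Ph α z x =
      ∑' k : ℕ, (sg P * z ^ Q : ℂ) * ((sg ⌊(k : ℝ) * α + x⌋ : ℂ) * z ^ k) := by
    rw [tsum_mul_left]
    rfl
  have h3 : ∑' k : ℕ, (Mm α x Q P k : ℂ) * z ^ (k + Q) =
      ∑' k : ℕ, (sg ⌊((k + Q : ℕ) : ℝ) * α + x⌋ : ℂ) * z ^ (k + Q) -
        ∑' k : ℕ, (sg P * z ^ Q : ℂ) * ((sg ⌊(k : ℝ) * α + x⌋ : ℂ) * z ^ k) := by
    rw [← hs1.tsum_sub hs2]
    refine tsum_congr fun k => ?_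
    rw [Mm, pow_add]
    push_cast
    ring
  have h4 : aeval z (Rq α x Q) = ∑ k ∈ Finset.range Q, (sg ⌊(k : ℝ) * α + x⌋ : ℂ) * z ^ k := by
    rw [Rq, map_sum]
    refine Finset.sum_congr rfl fun k _ => ?_
    simp
  rw [sub_mul, one_mul, h2, h3, h4, ← h1]
  ring

end Pool.Agent.TRN
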