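import Pool.Agent.TRN.Defs

set_option autoImplicit false

/-!
# TRN-Tai: lacunary tails

PLAN. `t k = 0` or `|t k| = 2`. Let `k1` be the least index with `t k1 ≠ 0` (`Nat.find`); then `∑ t_k z^k = t_{k1} z^{k1} + ∑_{k ≥ k1 + G} t_k z^k` (all `k` strictly between `k1` and `k1 + G` have `t k = 0` by the gap), and
`‖∑_{k ≥ k1 + G} ..‖ ≤ 2 ρ ^ (k1 + G) / (1 - ρ) < 2 ρ ^ k1`. The upper bound: `‖∑_{k ≥ k1}‖ ≤ 2 ρ ^ k1 / (1 - ρ)`.
-/

namespace Pool.Agent.TRN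

private theorem Tai_nm {t : ℕ → ℤ} (ht : ∀ k, t k = 0 ∨ t k = 2 ∨ t k = -2) (z : ℂ) (k : ℕ) :
    ‖(t k : ℂ) * z ^ k‖ ≤ 2 * ‖z‖ ^ k := by
  rw [norm_mul, norm_pow]
  have h : ‖(t k : ℂ)‖ ≤ 2 := by
    rcases ht k with h | h | h <;> rw [h] <;> norm_num
  exact mul_le_mul_of_nonneg_right h (pow_nonneg (norm_nonneg _) _)

private theorem Tai_sm {t : ℕ → ℤ} (ht : ∀ k, t k = 0 ∨ t k = 2 ∨ t k = -2) {z : ℂ} (hz : ‖z‖ < 1) :
    Summable (fun k : ℕ => (t k : ℂ) * z ^ k) :=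
  Summable.of_norm_bounded ((summable_geometric_of_lt_one (norm_nonneg _) hz).mul_left 2)
    (fun k => Tai_nm ht z k)

private theorem Tai_tl {t : ℕ → ℤ} (ht : ∀ k, t k = 0 ∨ t k = 2 ∨ t k = -2) {z : ℂ} (hz : ‖z‖ < 1) (n : ℕ) :
    ‖∑' k : ℕ, (t (k + n) : ℂ) * z ^ (k + n)‖ ≤ 2 * ‖z‖ ^ n / (1 - ‖z‖) := by
  have h2 : HasSum (fun k : ℕ => 2 * ‖z‖ ^ (k + n)) (2 * ‖z‖ ^ n / (1 - ‖z‖)) := by
    have h3 := (hasSum_geometric_of_lt_one (norm_nonneg z) hz).mul_left (2 * ‖z‖ ^ n)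
    rw [← div_eq_mul_inv] at h3
    have he : (fun k : ℕ => 2 * ‖z‖ ^ (k + n)) = fun k : ℕ => 2 * ‖z‖ ^ n * ‖z‖ ^ k := by
      funext k
      rw [pow_add]; ring
    rw [he]
    exact h3
  exact tsum_of_norm_bounded h2 (fun k => Tai_nm ht z (k + n))

theorem tai {z : ℂ} (hz0 : z ≠ 0) (hz : ‖z‖ < 1) {t : ℕ → ℤ} (ht : ∀ k, t k = 0 ∨ t k = 2 ∨ t k = -2) {G : ℕ}
    (hG : ‖z‖ ^ G < 1 - ‖z‖) (hgap : ∀ k k', k < k' → t k ≠ 0 → t k' ≠ 0 → k + G ≤ k') {k1 : ℕ} (h1 : t k1 ≠ 0)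
    (hmin : ∀ k, k < k1 → t k = 0) :
    ∑' k : ℕ, (t k : ℂ) * z ^ k ≠ 0 ∧ ‖∑' k : ℕ, (t k : ℂ) * z ^ k‖ ≤ 2 * ‖z‖ ^ k1 / (1 - ‖z‖) := by
  have hr : 0 < ‖z‖ := norm_pos_iff.mpr hz0
  have h1r : 0 < 1 - ‖z‖ := by linarith
  have hG1 : 1 ≤ G := by
    rcases Nat.eq_zero_or_pos G with h | h
    · rw [h, pow_zero] at hG; linarith
    · exact h
  constructor
  · intro h0
    have h2 := (Tai_sm ht hz).sum_add_tsum_nat_add (k1 + G)
    rw [h0, Finset.sum_eq_single k1] at h2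
    · have h3 := Tai_tl ht hz (k1 + G)
      have h4 : ‖(t k1 : ℂ) * z ^ k1‖ = 2 * ‖z‖ ^ k1 := by
        rw [norm_mul, norm_pow]
        congr 1
        rcases ht k1 with h | h | h
        · exact absurd h h1
        · rw [h]; norm_num
        · rw [h]; norm_num
      have h5 : ‖(t k1 : ℂ) * z ^ k1‖ = ‖∑' k : ℕ, (t (k + (k1 + G)) : ℂ) * z ^ (k + (k1 + G))‖ := by
        rw [← norm_neg, neg_eq_of_add_eq_zero_right h2]
      rw [h4] at h5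
      have h6 : 2 * ‖z‖ ^ (k1 + G) / (1 - ‖z‖) < 2 * ‖z‖ ^ k1 := by
        rw [div_lt_iff₀ h1r, pow_add]
        have h7 : 0 < 2 * ‖z‖ ^ k1 := by positivity
        nlinarith
      linarith
    · intro k hk hne
      have hz' : t k = 0 := by
        by_contra hc
        rw [Finset.mem_range] at hk
        rcases lt_or_gt_of_ne hne with h | h
        · exact hc (hmin k h)
        · have := hgap k1 k h h1 hc
          omega
      rw [hz']; simp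
    · intro h
      exact absurd (Finset.mem_range.mpr (by omega)) h
  · have h2 := (Tai_sm ht hz).sum_add_tsum_nat_add k1
    rw [Finset.sum_eq_zero, zero_add] at h2
    · rw [← h2]
      exact Tai_tl ht hz k1
    · intro k hk
      rw [hmin k (Finset.mem_range.mp hk)]; simp

end Pool.Agent.TRN
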