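import Pool.Agent.TRN.Liou
import Pool.Agent.TRN.MisB
import Pool.Agent.TRN.MisC
import Pool.Agent.TRN.Tai

set_option autoImplicit false

/-!
# TRN-CaseII: slopes which are not badly approximable

PLAN (part I, case II). Suppose `Ph α z x = κ`, `ρ = ‖z‖`, `C, d0` from `liou`. Polynomials used: `N1 = (1 - C (sg P) X^Q) * C κ - Rq` of degree `≤ Q`, length `≤ 2|κ| + Q`, and
`N2 = N1 - C (Mm k1) * X^(k1 + Q)` of degree `≤ k1 + Q`, length `≤ 2|κ| + Q + 2`.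
By `mm_id` (multiplied out) `aeval z N1 = ∑' Mm k z^(k + Q)`, `aeval z N2 = ` the same sum without the first nonzero term. Liouville for degree `≤ H Q` (`H ≥ 1`, `Q ≥ 1`):
`1 ≤ ‖value‖ * A ^ (H * Q)` for a constant `A ≥ 1` depending on `C, d0, κ` only (`(2|κ| + Q + 2)^{d0} C^{HQ+1} ≤ A^{HQ}`).
Choose `C1` with `2 / (1 - ρ) * ρ ^ (C1 Q) * A ^ Q < 1` for all `Q ≥ 1`, and then `c` (`c ≤ 1`, `c > 0`) so small that gaps `G ≥ Q (1 / c - 1)` satisfy `ρ ^ G < 1 - ρ`, `2 / (1 - ρ) * ρ ^ G * A ^ ((C1 + 1) Q) < 1`. `hB` for this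
`c`: there are `Q ≥ 1`, `P` with `Q |Q α - P| < c`; divide by the gcd to get coprime ones (`Q' |Q' α - P'| = Q |Q α - P| / g^2`). Apply `mm_gap` (gap: `k' - k ≥ 1/δ - Q ≥ Q (1/c - 1)`), `mm_inf`, `tai` for the sequence `t (k + Q) = Mm k` (`t j = 0` for `j < Q`), and if
`k1 < C1 Q` for the sequence without the first nonzero term (next nonzero index `≥ k1 + G`, exists by `mm_inf`).
-/

namespace Pool.Agent.TRN

open Polynomial

private theorem CaseII_lnN {κ : ℤ} (α x : ℝ) (Q : ℕ) (P : ℤ) :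
    ln ((1 - C (sg P) * X ^ Q) * C κ - Rq α x Q) ≤ 2 * |κ| + Q := by
  have h1 : ln (1 - C (sg P) * X ^ Q : ℤ[X]) ≤ 2 := by
    refine (ln_sub_le _ _).trans ?_
    have h2 : ln (C (sg P) * X ^ Q : ℤ[X]) ≤ 1 := by
      refine (ln_mul_le _ _).trans ?_
      rw [ln_C, ln_X_pow, mul_one]
      rcases sg_cases P with h | h <;> rw [h] <;> norm_num
    rw [ln_one]
    linarith
  refine (ln_sub_le _ _).trans ?_
  refine add_le_add ?_ (rq_ln α x Q)
  refine (ln_mul_le _ _).trans ?_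
  rw [ln_C]
  exact mul_le_mul_of_nonneg_right h1 (abs_nonneg _)

private theorem CaseII_dN {κ : ℤ} (α x : ℝ) (Q : ℕ) (P : ℤ) :
    ((1 - C (sg P) * X ^ Q) * C κ - Rq α x Q).natDegree ≤ Q := by
  refine (natDegree_sub_le _ _).trans (max_le ?_ (rq_deg α x Q))
  refine (natDegree_mul_C_le _ _).trans ?_
  refine (natDegree_sub_le _ _).trans (max_le ?_ (natDegree_C_mul_X_pow_le _ _))
  rw [natDegree_one]
  exact Nat.zero_le _

private theorem CaseII_pow {ρ : ℝ} (hρ0 : 0 ≤ ρ) (hρ1 : ρ < 1) {A : ℝ} (hA : 0 < A) {e : ℝ} (he : 0 < e) :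
    ∃ n : ℕ, 1 ≤ n ∧ ρ ^ n * A < e := by
  obtain ⟨n, hn⟩ := exists_pow_lt_of_lt_one (div_pos he hA) hρ1
  refine ⟨n + 1, Nat.le_add_left _ _, ?_⟩
  rw [lt_div_iff₀ hA] at hn
  refine lt_of_le_of_lt ?_ hn
  exact mul_le_mul_of_nonneg_right (pow_le_pow_of_le_one hρ0 hρ1.le (Nat.le_succ n)) hA.le

private theorem CaseII_cop {α c : ℝ} (hB : ¬ BA α c) (hc0 : 0 < c) (hc1 : c ≤ 1) :
    ∃ (Q : ℕ) (P : ℤ), 1 ≤ Q ∧ IsCoprime (Q : ℤ) P ∧ (Q : ℝ) * |Q * α - P| < c := by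
  have h : ∃ (Q : ℕ) (P : ℤ), 1 ≤ Q ∧ (Q : ℝ) * |Q * α - P| < c := by
    by_contra hcon
    push Not at hcon
    exact hB ⟨hc0, hc1, fun Q P hQ => hcon Q P hQ⟩
  obtain ⟨Q, P, hQ, hlt⟩ := h
  have hg : 0 < Int.gcd (Q : ℤ) P := Int.gcd_pos_of_ne_zero_left _ (by exact_mod_cast (by omega : Q ≠ 0))
  obtain ⟨a, b, hcop, ha, hb⟩ := Int.exists_gcd_one hg
  set g : ℕ := Int.gcd (Q : ℤ) P with hgdef
  have ha0 : 0 < a := by
    by_contra hcon
    push Not at hcon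
    have h1 : (Q : ℤ) ≤ 0 := by
      rw [ha]
      exact mul_nonpos_of_nonpos_of_nonneg hcon (by positivity)
    omega
  obtain ⟨a', rfl⟩ : ∃ a' : ℕ, a = (a' : ℤ) := ⟨a.toNat, (Int.toNat_of_nonneg ha0.le).symm⟩
  refine ⟨a', b, by exact_mod_cast ha0, Int.isCoprime_iff_gcd_eq_one.2 hcop, lt_of_le_of_lt ?_ hlt⟩
  have hQ' : (Q : ℝ) = a' * g := by exact_mod_cast ha
  have hP' : (P : ℝ) = b * g := by exact_mod_cast hb
  have hg1 : (1 : ℝ) ≤ g := by exact_mod_cast hg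
  rw [hQ', hP']
  have e : (a' : ℝ) * g * α - b * g = g * (a' * α - b) := by ring
  rw [e, abs_mul, abs_of_nonneg (by linarith : (0 : ℝ) ≤ g)]
  have h0 : 0 ≤ (a' : ℝ) * |(a' : ℝ) * α - b| := by positivity
  have e2 : (a' : ℝ) * g * (g * |(a' : ℝ) * α - b|) = (g * g) * (a' * |(a' : ℝ) * α - b|) := by ring
  rw [e2]
  have hgg : (1 : ℝ) ≤ g * g := by nlinarith
  exact le_mul_of_one_le_left h0 hgg

theorem caseII {α : ℝ} {z : ℂ} {x : ℝ} (hα : Irrational α) (hz0 : z ≠ 0) (hz : ‖z‖ < 1) (hza : IsAlgebraic ℚ z)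
    (hB : ∀ c : ℝ, ¬ BA α c) (κ : ℤ) : Ph α z x ≠ κ := by
  intro hκ
  obtain ⟨C0, d0, hC, hL⟩ := liou hza
  have hr : 0 < ‖z‖ := norm_pos_iff.mpr hz0
  set ρ := ‖z‖ with hρ
  have h1r : 0 < 1 - ρ := by linarith
  set B : ℝ := 2 * |(κ : ℝ)| + 4 with hBdef
  have hB1 : 1 ≤ B := by
    have := abs_nonneg (κ : ℝ)
    linarith
  set A : ℝ := C0 ^ 2 * B ^ d0 with hA
  have hA1 : 1 ≤ A := one_le_mul_of_one_le_of_one_le (one_le_pow₀ hC) (one_le_pow₀ hB1)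
  have hA0 : 0 < A := by linarith
  -- Liouville for our polynomials
  have hLio : ∀ (H Q : ℕ) (R : ℤ[X]), 1 ≤ H → 1 ≤ Q → R.natDegree ≤ H * Q → (ln R : ℝ) ≤ 2 * |(κ : ℝ)| + Q + 2 →
      aeval z R ≠ 0 → 1 ≤ ‖aeval z R‖ * A ^ (H * Q) := by
    intro H Q R hH hQ hd hl hne
    refine (hL (H * Q) R hd hne).trans (mul_le_mul_of_nonneg_left ?_ (norm_nonneg _))
    have hln0 : (0 : ℝ) ≤ ln R := by exact_mod_cast ln_nonneg R
    have hHQ : 1 ≤ H * Q := Nat.one_le_iff_ne_zero.2 (Nat.mul_ne_zero (by omega) (by omega))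
    have e1 : C0 ^ (H * Q + 1) ≤ (C0 ^ 2) ^ (H * Q) := by
      rw [← pow_mul]
      exact pow_le_pow_right₀ hC (by omega)
    have e2 : (ln R : ℝ) ≤ B ^ Q := by
      refine hl.trans ?_
      have hbe := one_add_mul_le_pow (a := B - 1) (by linarith) Q
      have e3 : (1 + (B - 1)) = B := by ring
      rw [e3] at hbe
      refine le_trans ?_ hbe
      have hQ1 : (1 : ℝ) ≤ Q := by exact_mod_cast hQ
      have hk0 := abs_nonneg (κ : ℝ)
      rw [hBdef]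
      nlinarith
    have e4 : (ln R : ℝ) ^ d0 ≤ (B ^ d0) ^ (H * Q) := by
      calc (ln R : ℝ) ^ d0 ≤ (B ^ Q) ^ d0 := pow_le_pow_left₀ hln0 e2 d0
        _ = (B ^ d0) ^ Q := by rw [← pow_mul, ← pow_mul, mul_comm]
        _ ≤ (B ^ d0) ^ (H * Q) := pow_le_pow_right₀ (one_le_pow₀ hB1) (Nat.le_mul_of_pos_left Q (by omega))
    rw [hA, mul_pow]
    exact mul_le_mul e1 e4 (pow_nonneg hln0 _) (by positivity)
  obtain ⟨C1, hC1, hC1'⟩ := CaseII_pow hr.le hz hA0 (e := (1 - ρ) / 2) (by linarith)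
  obtain ⟨G0, hG0, hG0'⟩ := CaseII_pow hr.le hz (A := A ^ (C1 + 1)) (by positivity) (e := (1 - ρ) / 2) (by linarith)
  have hc1 : (1 : ℝ) / (G0 + 1) ≤ 1 := by
    rw [div_le_one (by positivity)]
    have : (0 : ℝ) ≤ G0 := Nat.cast_nonneg _
    linarith
  obtain ⟨Q, P, hQ, hcop, hlt⟩ := CaseII_cop (hB (1 / ((G0 : ℝ) + 1))) (by positivity) hc1
  have hQ1 : (1 : ℝ) ≤ Q := by exact_mod_cast hQ
  have hδ1 : |(Q : ℝ) * α - P| < 1 := by
    have h0 := abs_nonneg ((Q : ℝ) * α - P)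
    nlinarith
  have hδ0 := abs_nonneg ((Q : ℝ) * α - P)
  set G := Q * G0 with hG
  have hgap : ∀ k k', k < k' → Mm α x Q P k ≠ 0 → Mm α x Q P k' ≠ 0 → k + G ≤ k' := by
    intro k k' hk h1 h2
    have h3 := mm_gap hα hQ hcop hk h1 h2
    have hkk : (0 : ℝ) ≤ (k' : ℝ) - k := by
      have : (k : ℝ) ≤ k' := by exact_mod_cast hk.le
      linarith
    have h4 : (Q : ℝ) * |(Q : ℝ) * α - P| * (G0 + 1) < 1 := by
      rw [lt_div_iff₀ (by positivity)] at hlt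
      linarith
    have h5 : (Q : ℝ) * G0 < (k' : ℝ) - k := by
      by_contra hcon
      push Not at hcon
      have h6 : ((Q : ℝ) + ((k' : ℝ) - k)) * |Q * α - P| ≤ ((Q : ℝ) + Q * G0) * |Q * α - P| :=
        mul_le_mul_of_nonneg_right (by linarith) hδ0
      nlinarith
    have h7 : ((k + G : ℕ) : ℝ) ≤ k' := by
      rw [hG]
      push_cast
      linarith
    exact_mod_cast h7
  have hρG0 : ρ ^ G0 < (1 - ρ) / 2 := by
    refine lt_of_le_of_lt ?_ hG0'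
    have := one_le_pow₀ hA1 (n := C1 + 1)
    have h0 : 0 ≤ ρ ^ G0 := pow_nonneg hr.le _
    nlinarith
  have hρG : ρ ^ G < 1 - ρ := by
    have h1 : ρ ^ G ≤ ρ ^ G0 := pow_le_pow_of_le_one hr.le hz.le (by rw [hG]; exact Nat.le_mul_of_pos_left G0 (by omega))
    linarith
  -- the value
  have hid := mm_id (α := α) (x := x) hz Q P
  rw [hκ] at hid
  have hfac : ∑' k : ℕ, (Mm α x Q P k : ℂ) * z ^ (k + Q) = z ^ Q * ∑' k : ℕ, (Mm α x Q P k : ℂ) * z ^ k := by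
    rw [← tsum_mul_left]
    refine tsum_congr fun k => ?_
    rw [pow_add]
    ring
  rw [hfac] at hid
  have hex : ∃ k, Mm α x Q P k ≠ 0 := by
    obtain ⟨k, -, hk⟩ := mm_inf (x := x) hα hQ hδ1 0
    exact ⟨k, hk⟩
  classical
  set k1 := Nat.find hex with hk1
  have hk1s : Mm α x Q P k1 ≠ 0 := Nat.find_spec hex
  have hk1m : ∀ k, k < k1 → Mm α x Q P k = 0 := fun k hk => not_not.1 (Nat.find_min hex hk)
  have hN1 : aeval z ((1 - C (sg P) * X ^ Q) * C κ - Rq α x Q) = z ^ Q * ∑' k : ℕ, (Mm α x Q P k : ℂ) * z ^ k := by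
    have e : aeval z ((1 - C (sg P) * X ^ Q) * C κ - Rq α x Q) =
        (1 - (sg P : ℂ) * z ^ Q) * κ - aeval z (Rq α x Q) := by
      simp
    rw [e, hid]
    ring
  have hzQ : ‖z ^ Q‖ ≤ 1 := by
    rw [norm_pow]
    exact pow_le_one₀ hr.le hz.le
  have hlnN : (ln ((1 - C (sg P) * X ^ Q) * C κ - Rq α x Q) : ℝ) ≤ 2 * |(κ : ℝ)| + Q := by
    have h := CaseII_lnN (κ := κ) α x Q P
    exact_mod_cast h
  rcases le_or_gt (C1 * Q) k1 with hcase | hcase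
  · obtain ⟨hne, hle⟩ := tai hz0 hz (mm_cases α x Q P) hρG hgap hk1s hk1m
    have hv := hLio 1 Q ((1 - C (sg P) * X ^ Q) * C κ - Rq α x Q) le_rfl hQ
      (by rw [one_mul]; exact CaseII_dN α x Q P) (by linarith)
      (by rw [hN1]; exact mul_ne_zero (pow_ne_zero _ hz0) hne)
    rw [hN1, one_mul, norm_mul] at hv
    have h2 : ‖z ^ Q‖ * ‖∑' k : ℕ, (Mm α x Q P k : ℂ) * z ^ k‖ ≤ 2 * ρ ^ k1 / (1 - ρ) :=
      (mul_le_of_le_one_left (norm_nonneg _) hzQ).trans hle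
    have h3 : ρ ^ k1 ≤ (ρ ^ C1) ^ Q := by
      rw [← pow_mul]
      exact pow_le_pow_of_le_one hr.le hz.le hcase
    have h4 : (ρ ^ C1 * A) ^ Q ≤ ρ ^ C1 * A :=
      pow_le_of_le_one (by positivity) (by linarith) (by omega)
    have h5 : 1 ≤ 2 * ρ ^ k1 / (1 - ρ) * A ^ Q := hv.trans (mul_le_mul_of_nonneg_right h2 (by positivity))
    rw [div_mul_eq_mul_div, le_div_iff₀ h1r, one_mul] at h5
    have h6 : ρ ^ k1 * A ^ Q ≤ (ρ ^ C1 * A) ^ Q := by
      rw [mul_pow (ρ ^ C1) A Q]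
      exact mul_le_mul_of_nonneg_right h3 (by positivity)
    nlinarith
  · set t : ℕ → ℤ := fun k => if k = k1 then 0 else Mm α x Q P k with ht
    have htc : ∀ k, t k = 0 ∨ t k = 2 ∨ t k = -2 := by
      intro k
      simp only [ht]
      split_ifs
      · exact Or.inl rfl
      · exact mm_cases α x Q P k
    have htne : ∀ k, t k ≠ 0 → k ≠ k1 ∧ Mm α x Q P k ≠ 0 := by
      intro k hk
      simp only [ht] at hk
      split_ifs at hk with h
      · exact absurd rfl hk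
      · exact ⟨h, hk⟩
    have htgap : ∀ k k', k < k' → t k ≠ 0 → t k' ≠ 0 → k + G ≤ k' :=
      fun k k' hk h1 h2 => hgap k k' hk (htne k h1).2 (htne k' h2).2
    have hext : ∃ k, t k ≠ 0 := by
      obtain ⟨k, hk, hk'⟩ := mm_inf (x := x) hα hQ hδ1 (k1 + 1)
      refine ⟨k, ?_⟩
      simp only [ht]
      rw [if_neg (by omega)]
      exact hk'
    set k2 := Nat.find hext with hk2
    have hk2s : t k2 ≠ 0 := Nat.find_spec hext
    have hk2m : ∀ k, k < k2 → t k = 0 := fun k hk => not_not.1 (Nat.find_min hext hk)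
    have hk12 : k1 < k2 := by
      have h := htne k2 hk2s
      rcases lt_trichotomy k1 k2 with h1 | h1 | h1
      · exact h1
      · exact absurd h1.symm h.1
      · exact absurd (hk1m k2 h1) h.2
    have hGk : G ≤ k2 := by
      have := hgap k1 k2 hk12 hk1s (htne k2 hk2s).2
      omega
    obtain ⟨hne, hle⟩ := tai hz0 hz htc hρG htgap hk2s hk2m
    have hsumM : Summable fun k : ℕ => (Mm α x Q P k : ℂ) * z ^ k := by
      refine Summable.of_norm_bounded ((summable_geometric_of_lt_one (norm_nonneg _) hz).mul_left 2) fun k => ?_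
      rw [norm_mul, norm_pow]
      have h : ‖(Mm α x Q P k : ℂ)‖ ≤ 2 := by
        rcases mm_cases α x Q P k with h | h | h <;> rw [h] <;> norm_num
      exact mul_le_mul_of_nonneg_right h (pow_nonneg (norm_nonneg _) _)
    have hsplit : ∑' k : ℕ, (Mm α x Q P k : ℂ) * z ^ k = (Mm α x Q P k1 : ℂ) * z ^ k1 + ∑' k : ℕ, (t k : ℂ) * z ^ k := by
      rw [hsumM.tsum_eq_add_tsum_ite k1]
      congr 1
      refine tsum_congr fun k => ?_
      simp only [ht]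
      split_ifs <;> simp
    have hN2 : aeval z ((1 - C (sg P) * X ^ Q) * C κ - Rq α x Q - C (Mm α x Q P k1) * X ^ (k1 + Q)) =
        z ^ Q * ∑' k : ℕ, (t k : ℂ) * z ^ k := by
      have e1 : aeval z (C (Mm α x Q P k1) * X ^ (k1 + Q) : ℤ[X]) = (Mm α x Q P k1 : ℂ) * z ^ (k1 + Q) := by
        simp
      rw [map_sub, hN1, hsplit, e1, pow_add]
      ring
    have hdeg : ((1 - C (sg P) * X ^ Q) * C κ - Rq α x Q - C (Mm α x Q P k1) * X ^ (k1 + Q)).natDegree ≤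
        (C1 + 1) * Q := by
      refine (natDegree_sub_le _ _).trans (max_le ((CaseII_dN α x Q P).trans ?_) ((natDegree_C_mul_X_pow_le _ _).trans ?_))
      · exact Nat.le_mul_of_pos_left Q (by omega)
      · rw [add_mul, one_mul]
        omega
    have hln2 : (ln ((1 - C (sg P) * X ^ Q) * C κ - Rq α x Q - C (Mm α x Q P k1) * X ^ (k1 + Q)) : ℝ) ≤
        2 * |(κ : ℝ)| + Q + 2 := by
      have h1 := ln_sub_le ((1 - C (sg P) * X ^ Q) * C κ - Rq α x Q) (C (Mm α x Q P k1) * X ^ (k1 + Q))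
      have h2 : ln (C (Mm α x Q P k1) * X ^ (k1 + Q) : ℤ[X]) ≤ 2 := by
        refine (ln_mul_le _ _).trans ?_
        rw [ln_C, ln_X_pow, mul_one]
        rcases mm_cases α x Q P k1 with h | h | h <;> rw [h] <;> norm_num
      have h3 := CaseII_lnN (κ := κ) α x Q P
      have h4 : ln ((1 - C (sg P) * X ^ Q) * C κ - Rq α x Q - C (Mm α x Q P k1) * X ^ (k1 + Q)) ≤ 2 * |κ| + Q + 2 := by
        linarith
      exact_mod_cast h4
    have hv := hLio (C1 + 1) Q _ (by omega) hQ hdeg hln2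
      (by rw [hN2]; exact mul_ne_zero (pow_ne_zero _ hz0) hne)
    rw [hN2, norm_mul] at hv
    have h2 : ‖z ^ Q‖ * ‖∑' k : ℕ, (t k : ℂ) * z ^ k‖ ≤ 2 * ρ ^ k2 / (1 - ρ) :=
      (mul_le_of_le_one_left (norm_nonneg _) hzQ).trans hle
    have h3 : ρ ^ k2 ≤ (ρ ^ G0) ^ Q := by
      rw [← pow_mul, mul_comm G0 Q]
      exact pow_le_pow_of_le_one hr.le hz.le hGk
    have h4 : (ρ ^ G0 * A ^ (C1 + 1)) ^ Q ≤ ρ ^ G0 * A ^ (C1 + 1) :=
      pow_le_of_le_one (by positivity) (by linarith) (by omega)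
    have h5 : 1 ≤ 2 * ρ ^ k2 / (1 - ρ) * A ^ ((C1 + 1) * Q) := hv.trans (mul_le_mul_of_nonneg_right h2 (by positivity))
    rw [div_mul_eq_mul_div, le_div_iff₀ h1r, one_mul] at h5
    have h6 : ρ ^ k2 * A ^ ((C1 + 1) * Q) ≤ (ρ ^ G0 * A ^ (C1 + 1)) ^ Q := by
      rw [mul_pow (ρ ^ G0) (A ^ (C1 + 1)) Q, ← pow_mul A (C1 + 1) Q]
      exact mul_le_mul_of_nonneg_right h3 (by positivity)
    nlinarith

end Pool.Agent.TRN
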