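import Pool.Agent.TRN.CaseI
import Pool.Agent.TRN.CaseII

set_option autoImplicit false

/-!
# TRN-ThmI: the values of the series are not integers at algebraic points
-/

namespace Pool.Agent.TRN

theorem thmI {α : ℝ} {z : ℂ} {x : ℝ} (hα : Irrational α) (hα0 : 0 < α) (hα1 : α < 1) (hx0 : 0 ≤ x) (hx1 : x < 1)
    (hz0 : z ≠ 0) (hz : ‖z‖ < 1) (hza : IsAlgebraic ℚ z) (κ : ℤ) : Ph α z x ≠ κ := by
  by_cases h : ∃ c, BA α c
  · obtain ⟨c, hc⟩ := h
    exact caseI hα hα0 hα1 hx0 hx1 hz0 hz hza hc κ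
  · exact caseII hα hz0 hz hza (fun c hc => h ⟨c, hc⟩) κ

end Pool.Agent.TRN
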