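import Pool.Agent.TRN.Base
import Pool.Agent.TRN.Rat
import Pool.Agent.TRN.SgB
import Pool.Agent.TRN.ThmI

set_option autoImplicit false

/-!
# TRN-Main: assembly

PLAN. `ext_main`: `irr_arg`, `ext_ph`, `thmI` (`0 < arg q / π < 1` in the first quadrant). `main`: `base`; `Transcendental ℚ` is invariant under `-` and `conj` (`IsAlgebraic.neg`, the conjugate of an algebraic number is algebraic: `IsAlgebraic.map`/`algHom` `Complex.conjAe` restricted to `ℚ`),
`arg (-q) = arg q ± π`, `arg (conj q) = - arg q`.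
`no_period`: if `c (k + T) = c k` for `k ≥ N` then `(1 - q ^ T) q ^ N`.. gives an integer polynomial with constant term `1`.. killing `q`: `(1 - q^T) ∑ c_k q^k = (polynomial of degree < N + T with constant coefficient c 0 = 1)`, so `q` is algebraic.
-/

namespace Pool.Agent.TRN

open scoped ComplexConjugate

theorem ext_main {q : ℂ} {d : ℕ → ℤ} (h : Ext q d) : Transcendental ℚ q ∧ Irrational (q.arg / Real.pi) := by
  have hirr := irr_arg h
  refine ⟨?_, hirr⟩
  intro ha
  obtain ⟨x, hx0, hx1, hx⟩ := ext_ph h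
  have hpi := Real.pi_pos
  have hq0 : q ≠ 0 := by
    intro h0
    have h1 := h.im
    rw [h0, Complex.zero_im] at h1
    exact lt_irrefl _ h1
  have h0 : 0 ≤ q.arg / Real.pi := div_nonneg (Complex.arg_nonneg_iff.2 h.im.le) hpi.le
  have h1 : q.arg / Real.pi ≤ 1 := (div_le_one hpi).2 (Complex.arg_le_pi q)
  have hn : ‖q‖ < 1 := lt_trans h.up (by norm_num)
  have h0' : 0 < q.arg / Real.pi := lt_of_le_of_ne h0 (fun e => hirr ⟨0, by rw [← e]; norm_num⟩)
  have h1' : q.arg / Real.pi < 1 := lt_of_le_of_ne h1 (fun e => hirr ⟨1, by rw [e]; norm_num⟩)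
  exact thmI hirr h0' h1' hx0 hx1 hq0 hn ha 2 hx

private theorem Main_conj {q : ℂ} (h : IsAlgebraic ℚ q) : IsAlgebraic ℚ (conj q) := by
  have h1 := h.algHom ((Complex.conjAe : ℂ ≃ₐ[ℝ] ℂ).toAlgHom.restrictScalars ℚ)
  exact h1

private theorem Main_irr {x : ℝ} (h : Irrational x) : Irrational (-x) ∧ Irrational (x - 1) ∧ Irrational (-x + 1) := by
  refine ⟨h.neg, ?_, ?_⟩
  · rintro ⟨r, hr⟩
    exact h ⟨r + 1, by push_cast; rw [hr]; ring⟩
  · rintro ⟨r, hr⟩
    exact h ⟨1 - r, by push_cast; rw [hr]; ring⟩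

theorem main {q : ℂ} (hq : q ∈ Pool.Agent.Helper62.Mandel.mandelbrot) (him : q.im ≠ 0)
    (hmin : ∀ w ∈ Pool.Agent.Helper62.Mandel.mandelbrot, w.im ≠ 0 → ‖q‖ ≤ ‖w‖) :
    Transcendental ℚ q ∧ Irrational (q.arg / Real.pi) := by
  obtain ⟨p, d, hE, hc⟩ := base hq him hmin
  obtain ⟨ht, hi⟩ := ext_main hE
  have hpi := Real.pi_pos
  have hpi0 : Real.pi ≠ 0 := hpi.ne'
  obtain ⟨i1, i2, i3⟩ := Main_irr hi
  have hconj : (conj p).arg = -p.arg := by
    rw [Complex.arg_conj, if_neg]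
    intro e
    exact hi ⟨1, by rw [e, div_self hpi0]; norm_num⟩
  rcases hc with h | h | h | h
  · rw [← h]
    exact ⟨ht, hi⟩
  · have hq' : q = -p := by rw [h, neg_neg]
    refine ⟨fun ha => ht (by rw [h]; exact ha.neg), ?_⟩
    rw [hq', Complex.arg_neg_eq_arg_sub_pi_of_im_pos hE.im, sub_div, div_self hpi0]
    exact i2
  · have hq' : q = conj p := by rw [h, Complex.conj_conj]
    refine ⟨fun ha => ht (by rw [h]; exact Main_conj ha), ?_⟩
    rw [hq', hconj, neg_div]
    exact i1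
  · have hq' : q = -conj p := by rw [h, map_neg, Complex.conj_conj, neg_neg]
    refine ⟨fun ha => ht (by rw [h]; exact (Main_conj ha).neg), ?_⟩
    have him' : (conj p).im < 0 := by
      rw [Complex.conj_im]
      linarith [hE.im]
    rw [hq', Complex.arg_neg_eq_arg_add_pi_of_im_neg him', hconj, add_div, div_self hpi0, neg_div]
    exact i3

theorem no_period {q : ℂ} (hq : Transcendental ℚ q) {c : ℕ → ℤ} (h0 : c 0 = 1) (hq1 : ‖q‖ < 1)
    (hpm : ∀ k, c k = 1 ∨ c k = -1) (hs : HasSum (fun k => (c k : ℂ) * q ^ k) 0) :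
    ¬ ∃ N T : ℕ, 0 < T ∧ ∀ k, N ≤ k → c (k + T) = c k := by
  rintro ⟨N, T, hT, hper⟩
  have hA : HasSum (fun n => (c (n + (N + T)) : ℂ) * q ^ (n + (N + T)))
      (-∑ i ∈ Finset.range (N + T), (c i : ℂ) * q ^ i) :=
    (hasSum_nat_add_iff (f := fun k => (c k : ℂ) * q ^ k) (N + T)).2 (by rw [neg_add_cancel]; exact hs)
  have hB : HasSum (fun n => (c (n + N) : ℂ) * q ^ (n + N))
      (-∑ i ∈ Finset.range N, (c i : ℂ) * q ^ i) :=
    (hasSum_nat_add_iff (f := fun k => (c k : ℂ) * q ^ k) N).2 (by rw [neg_add_cancel]; exact hs)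
  have hB' := hB.mul_left (q ^ T)
  have hfun : (fun n => q ^ T * ((c (n + N) : ℂ) * q ^ (n + N))) =
      fun n => (c (n + (N + T)) : ℂ) * q ^ (n + (N + T)) := by
    funext n
    rw [← add_assoc n N T, hper (n + N) (Nat.le_add_left N n), pow_add q (n + N) T]
    ring
  rw [hfun] at hB'
  have he := hA.unique hB'
  apply hq
  refine ⟨∑ i ∈ Finset.range (N + T), Polynomial.C (c i : ℚ) * Polynomial.X ^ i -
    Polynomial.X ^ T * ∑ i ∈ Finset.range N, Polynomial.C (c i : ℚ) * Polynomial.X ^ i, ?_, ?_⟩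
  · intro h
    have h1 := congrArg (Polynomial.eval 0) h
    rw [Polynomial.eval_sub, Polynomial.eval_mul, Polynomial.eval_pow, Polynomial.eval_X, zero_pow hT.ne',
      zero_mul, sub_zero, Polynomial.eval_finsetSum, Finset.sum_eq_single 0, Polynomial.eval_zero] at h1
    · rw [h0] at h1
      simp at h1
    · intro b _ hb
      rw [Polynomial.eval_mul, Polynomial.eval_pow, Polynomial.eval_X, zero_pow hb, mul_zero]
    · intro h2
      exact absurd (Finset.mem_range.2 (by omega)) h2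
  · have h1 : ∀ M : ℕ, Polynomial.aeval q (∑ i ∈ Finset.range M, Polynomial.C (c i : ℚ) * Polynomial.X ^ i) =
        ∑ i ∈ Finset.range M, (c i : ℂ) * q ^ i := by
      intro M
      rw [map_sum]
      refine Finset.sum_congr rfl fun i _ => ?_
      rw [map_mul, map_pow, Polynomial.aeval_X, Polynomial.aeval_C]
      norm_num
    rw [map_sub, map_mul, map_pow, Polynomial.aeval_X, h1, h1]
    linear_combination -he

end Pool.Agent.TRN
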