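import Pool.Agent.TRN.Defs

set_option autoImplicit false

/-!
# TRN-FrbA: Frobenius in cyclotomic fields

For a prime `p` not dividing `n` the cyclotomic field `F` has an automorphism `τ` with `τ c ≡ c ^ p` modulo `p` for
every algebraic integer `c` of `F`: it sends a primitive `n`-th root of unity `ζ` to `ζ ^ p`, and the integral `c` with
this property contain `ζ` and `ℤ` and are closed under sums and products.
-/

namespace Pool.Agent.TRN

open Polynomial

/-- the property proved by induction over the ring `ℤ[ζ]` -/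
private def FrbA_Q {F : Type} [Field F] (p : ℕ) (τ : F → F) (c : F) : Prop :=
  IsIntegral ℤ c ∧ ∃ e : F, IsIntegral ℤ e ∧ τ c = c ^ p + p * e

private lemma FrbA_int {F : Type} [Field F] [CharZero F] {p : ℕ} (hp : p.Prime) (τ : F ≃ₐ[ℚ] F) (r : ℤ) :
    FrbA_Q p τ (r : F) := by
  have : Fact p.Prime := ⟨hp⟩
  refine ⟨isIntegral_algebraMap (R := ℤ) (A := F) (x := r), ?_⟩
  have h1 : ((r - r ^ p : ℤ) : ZMod p) = 0 := by
    push_cast
    rw [ZMod.pow_card, sub_self]
  have h2 : (p : ℤ) ∣ r - r ^ p := (ZMod.intCast_zmod_eq_zero_iff_dvd _ _).1 h1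
  obtain ⟨k, hk⟩ := h2
  refine ⟨(k : F), isIntegral_algebraMap (R := ℤ) (A := F) (x := k), ?_⟩
  rw [map_intCast]
  have h3 : ((r - r ^ p : ℤ) : F) = ((p * k : ℤ) : F) := by rw [hk]
  push_cast at h3
  linear_combination h3

private lemma FrbA_add {F : Type} [Field F] [CharZero F] {p : ℕ} (hp : p.Prime) (τ : F ≃ₐ[ℚ] F) (x y : F)
    (hx : FrbA_Q p τ x) (hy : FrbA_Q p τ y) : FrbA_Q p τ (x + y) := by
  obtain ⟨ix, e, ie, he⟩ := hx
  obtain ⟨iy, f, iF, hf⟩ := hy
  refine ⟨ix.add iy, ?_⟩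
  obtain ⟨r, hr⟩ := exists_add_pow_prime_eq hp
    (⟨x, ix⟩ : integralClosure ℤ F) (⟨y, iy⟩ : integralClosure ℤ F)
  have hr2 := congrArg (fun t : integralClosure ℤ F => (t : F)) hr
  have hpc : ((p : integralClosure ℤ F) : F) = (p : F) := map_natCast (integralClosure ℤ F).val p
  simp only [Subalgebra.coe_add, Subalgebra.coe_pow, Subalgebra.coe_mul, hpc] at hr2
  refine ⟨e + f - x * y * (r : F), (ie.add iF).sub ((ix.mul iy).mul r.2), ?_⟩
  rw [map_add, he, hf, hr2]
  ring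

private lemma FrbA_mul {F : Type} [Field F] [CharZero F] {p : ℕ} (τ : F ≃ₐ[ℚ] F) (x y : F)
    (hx : FrbA_Q p τ x) (hy : FrbA_Q p τ y) : FrbA_Q p τ (x * y) := by
  obtain ⟨ix, e, ie, he⟩ := hx
  obtain ⟨iy, f, iF, hf⟩ := hy
  refine ⟨ix.mul iy, e * y ^ p + x ^ p * f + p * e * f, ?_, ?_⟩
  · have hpI : IsIntegral ℤ (p : F) := by
      have := isIntegral_algebraMap (R := ℤ) (A := F) (x := (p : ℤ))
      simpa using this
    exact ((ie.mul (iy.pow p)).add ((ix.pow p).mul iF)).add ((hpI.mul ie).mul iF)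
  · rw [map_mul, he, hf]
    ring

theorem frob {n p : ℕ} [NeZero n] (hp : p.Prime) (hpn : ¬ p ∣ n) (F : Type) [Field F] [NumberField F]
    [IsCyclotomicExtension {n} ℚ F] :
    ∃ τ : F ≃ₐ[ℚ] F, ∀ c : F, IsIntegral ℤ c → ∃ e : F, IsIntegral ℤ e ∧ τ c = c ^ p + p * e := by
  have hζ := IsCyclotomicExtension.zeta_spec n ℚ F
  set ζ : F := IsCyclotomicExtension.zeta n ℚ F with hζd
  have hco : p.Coprime n := (Nat.Prime.coprime_iff_not_dvd hp).2 hpn
  have hμ : IsPrimitiveRoot (ζ ^ p) n := hζ.pow_of_coprime p hco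
  have hirr : Irreducible (cyclotomic n ℚ) := cyclotomic.irreducible_rat (NeZero.pos n)
  have hspec : IsCyclotomicExtension.fromZetaAut hμ hirr ζ = ζ ^ p :=
    IsCyclotomicExtension.fromZetaAut_spec hμ hirr
  refine ⟨IsCyclotomicExtension.fromZetaAut hμ hirr, ?_⟩
  intro c hc
  have hcl := IsCyclotomicExtension.Rat.isIntegralClosure_adjoin_singleton hζ
  obtain ⟨y, hy⟩ := hcl.isIntegral_iff.1 hc
  have hmem : c ∈ Algebra.adjoin ℤ ({ζ} : Set F) := by
    rw [← hy]
    exact y.2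
  have key : ∀ d ∈ Algebra.adjoin ℤ ({ζ} : Set F),
      FrbA_Q p (IsCyclotomicExtension.fromZetaAut hμ hirr) d := by
    intro d hd
    induction hd using Algebra.adjoin_induction with
    | mem x hx =>
      rw [Set.mem_singleton_iff] at hx
      subst hx
      exact ⟨hζ.isIntegral (NeZero.pos n), 0, isIntegral_zero, by rw [hspec]; ring⟩
    | algebraMap r => exact FrbA_int hp _ r
    | add x y _ _ hx hy => exact FrbA_add hp _ x y hx hy
    | mul x y _ _ hx hy => exact FrbA_mul _ x y hx hy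
  exact (key c hmem).2

end Pool.Agent.TRN
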