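import Pool.Agent.TRN.Defs

set_option autoImplicit false

/-!
# TRN-FrbB: divisibility of the relative value

If `τ c ≡ c ^ p` modulo `p` for the integers `c` of `F` and `f` is the minimal polynomial over `F` of an integer `x` of `K`,
then `f ^ τ (x ^ p)` is divisible by `p`.
-/

namespace Pool.Agent.TRN

open Polynomial

private theorem FrbB_sum {R : Type} [CommRing R] {p : ℕ} (hp : p.Prime) {ι : Type} (s : Finset ι)
    (y : ι → R) : ∃ r, (∑ i ∈ s, y i) ^ p = ∑ i ∈ s, y i ^ p + p * r := by
  classical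
  induction s using Finset.induction with
  | empty => exact ⟨0, by simp [hp.ne_zero]⟩
  | insert a s ha ih =>
    obtain ⟨r, hr⟩ := ih
    obtain ⟨t, ht⟩ := exists_add_pow_prime_eq hp (y a) (∑ i ∈ s, y i)
    refine ⟨r + y a * (∑ i ∈ s, y i) * t, ?_⟩
    rw [Finset.sum_insert ha, Finset.sum_insert ha, ht, hr]
    ring

theorem divp {p : ℕ} (hp : p.Prime) {F K : Type} [Field F] [NumberField F] [Field K] [NumberField K] [Algebra F K]
    (τ : F ≃ₐ[ℚ] F) (hτ : ∀ c : F, IsIntegral ℤ c → ∃ e : F, IsIntegral ℤ e ∧ τ c = c ^ p + p * e) {x : K}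
    (hx : IsIntegral ℤ x) :
    ∃ h : K, IsIntegral ℤ h ∧ aeval (x ^ p) ((minpoly F x).map (τ : F →+* F)) = p * h := by
  have hxF : IsIntegral F x := hx.tower_top
  have hb : ∀ i, IsIntegral ℤ ((minpoly F x).coeff i) := by
    refine isIntegral_coeff_of_dvd (minpoly ℤ x) (minpoly F x) (minpoly.monic hx) (minpoly.monic hxF) ?_
    refine minpoly.dvd F x ?_
    rw [aeval_map_algebraMap]
    exact minpoly.aeval ℤ x
  choose e he1 he2 using fun i => hτ _ (hb i)
  have hy : ∀ i, IsIntegral ℤ (algebraMap F K ((minpoly F x).coeff i) * x ^ i) := fun i =>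
    ((hb i).algebraMap).mul (hx.pow i)
  obtain ⟨r, hr⟩ := FrbB_sum hp (Finset.range ((minpoly F x).natDegree + 1))
    (fun i => (⟨algebraMap F K ((minpoly F x).coeff i) * x ^ i, hy i⟩ : integralClosure ℤ K))
  have hr' := congrArg (fun t : integralClosure ℤ K => (t : K)) hr
  have h0 : ∑ i ∈ Finset.range ((minpoly F x).natDegree + 1),
      algebraMap F K ((minpoly F x).coeff i) * x ^ i = 0 := by
    have h1 := minpoly.aeval F x
    rw [aeval_eq_sum_range] at h1
    rw [← h1]
    refine Finset.sum_congr rfl fun i _ => ?_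
    rw [Algebra.smul_def]
  simp only [AddSubmonoidClass.coe_finsetSum, SubmonoidClass.coe_pow, MulMemClass.coe_mul, AddMemClass.coe_add,
    h0, zero_pow hp.ne_zero] at hr'
  have hpc : (((p : ℕ) : integralClosure ℤ K) : K) = (p : K) := by norm_cast
  rw [hpc] at hr'
  refine ⟨∑ i ∈ Finset.range ((minpoly F x).natDegree + 1), algebraMap F K (e i) * (x ^ p) ^ i - r, ?_, ?_⟩
  · refine IsIntegral.sub (IsIntegral.sum _ fun i _ => ?_) r.2
    exact ((he1 i).algebraMap).mul ((hx.pow p).pow i)
  · rw [aeval_eq_sum_range' (n := (minpoly F x).natDegree + 1)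
      (lt_of_le_of_lt natDegree_map_le (Nat.lt_succ_self _)), mul_sub, Finset.mul_sum]
    have h2 : ∀ i ∈ Finset.range ((minpoly F x).natDegree + 1),
        ((minpoly F x).map (τ : F →+* F)).coeff i • (x ^ p) ^ i =
          (algebraMap F K ((minpoly F x).coeff i) * x ^ i) ^ p +
            (p : K) * (algebraMap F K (e i) * (x ^ p) ^ i) := by
      intro i _
      rw [coeff_map, Algebra.smul_def]
      have h3 : (τ : F →+* F) ((minpoly F x).coeff i) = (minpoly F x).coeff i ^ p + p * e i := he2 i
      rw [h3, map_add, map_pow, map_mul, map_natCast, mul_pow]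
      ring
    rw [Finset.sum_congr rfl h2, Finset.sum_add_distrib]
    have h4 : ∑ i ∈ Finset.range ((minpoly F x).natDegree + 1),
        (algebraMap F K ((minpoly F x).coeff i) * x ^ i) ^ p = -((p : K) * r) := by
      linear_combination -hr'
    rw [h4]
    ring

end Pool.Agent.TRN
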