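import Pool.Agent.TRN.Defs

set_option autoImplicit false

/-!
# TRN-FrbC: norms

PLAN. `frob`: `ζ` primitive `n`-th root of unity of `F` (`IsCyclotomicExtension.zeta`), `ζ ^ p` is primitive (`p` prime to `n`: `IsPrimitiveRoot.pow_of_coprime`), `τ` with `τ ζ = ζ ^ p` (`IsCyclotomicExtension.autEquivPow`, `IsPrimitiveRoot.powerBasis`, ..).
An integral `c` is `∑ a_i ζ ^ i`, `a_i ∈ ℤ` (`IsCyclotomicExtension.Rat.isIntegralClosure_adjoin_singleton` / `IsPrimitiveRoot.integralPowerBasis`, Mathlib/NumberTheory/NumberField/Cyclotomic/Basic.lean: all `n`), so `τ c = ∑ a_i (ζ ^ i) ^ p`, and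
`a ≡ a ^ p`, `(∑ y_i) ^ p ≡ ∑ y_i ^ p` modulo `p` in the commutative ring `𝓞 F` (ring `𝓞 F ⧸ p` of characteristic `p`, `sum_pow_char`, or the set of the `c` with this property is a subring containing `ζ`: use `Algebra.adjoin_induction`).
`divp`: the coefficients `b_i` of `minpoly F x` are integral (`minpoly.isIntegrallyClosed_eq_field_fractions'` for `𝓞 F`, or `IsIntegral.coeff..`); `0 = (∑ b_i x ^ i) ^ p ≡ ∑ b_i ^ p x ^ (p i)` modulo `p 𝓞 K`, and `τ b_i = b_i ^ p + p e_i`.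
-/

namespace Pool.Agent.TRN

open Polynomial

theorem norm_ge {p : ℕ} {K : Type} [Field K] [NumberField K] {y h : K} (hh : IsIntegral ℤ h) (hy : y = p * h) (hy0 : y ≠ 0) :
    (p : ℝ) ^ Module.finrank ℚ K ≤ |((Algebra.norm ℚ y : ℚ) : ℝ)| := by
  have hh0 : h ≠ 0 := by
    rintro rfl
    exact hy0 (by rw [hy, mul_zero])
  obtain ⟨z, hz⟩ := IsIntegrallyClosed.isIntegral_iff.mp (Algebra.isIntegral_norm ℚ hh)
  have hN : Algebra.norm ℚ h ≠ 0 := Algebra.norm_ne_zero_iff.mpr hh0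
  have hz0 : z ≠ 0 := by
    rintro rfl
    apply hN
    rw [← hz, map_zero]
  have h1 : Algebra.norm ℚ y = (p : ℚ) ^ Module.finrank ℚ K * z := by
    rw [hy, map_mul, ← hz]
    have h2 : (p : K) = algebraMap ℚ K (p : ℚ) := by simp
    rw [h2, Algebra.norm_algebraMap]
    simp
  have h3 : (1 : ℝ) ≤ |(z : ℝ)| := by
    have h4 : (1 : ℤ) ≤ |z| := Int.one_le_abs hz0
    have h5 : ((1 : ℤ) : ℝ) ≤ ((|z| : ℤ) : ℝ) := Int.cast_le.mpr h4
    rwa [Int.cast_one, Int.cast_abs] at h5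
  rw [h1]
  push_cast
  rw [abs_mul, abs_of_nonneg (by positivity : (0 : ℝ) ≤ (p : ℝ) ^ Module.finrank ℚ K)]
  exact le_mul_of_one_le_right (by positivity) h3

end Pool.Agent.TRN
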