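import Pool.Agent.TRN.Defs

set_option autoImplicit false

/-!
# TRN-Nonz: the relative value does not vanish
-/

namespace Pool.Agent.TRN

open Polynomial

theorem nonz {p : ℕ} (hp : 2 ≤ p) {F K : Type} [Field F] [NumberField F] [Field K] [NumberField K] [Algebra F K]
    (τ : F ≃ₐ[ℚ] F) {x : K} (hbig : ∃ φ : K →+* ℂ, 1 < ‖φ x‖) :
    aeval (x ^ p) ((minpoly F x).map (τ : F →+* F)) ≠ 0 := by
  intro h0
  obtain ⟨φ₀, hφ₀⟩ := hbig
  have : Nonempty (K →+* ℂ) := ⟨φ₀⟩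
  obtain ⟨φ, hφ⟩ := Finite.exists_max (fun φ : K →+* ℂ => ‖φ x‖)
  have h1 : 1 < ‖φ x‖ := lt_of_lt_of_le hφ₀ (hφ φ₀)
  set ψ : F →+* ℂ := φ.comp (algebraMap F K) with hψ
  let _ : Algebra F ℂ := (ψ.comp (τ : F →+* F)).toAlgebra
  have : Algebra.IsAlgebraic F K := Algebra.IsAlgebraic.tower_top (K := ℚ) F
  have h2 : aeval (φ x ^ p) (minpoly F x) = 0 := by
    have h3 : φ (aeval (x ^ p) ((minpoly F x).map (τ : F →+* F))) = 0 := by rw [h0, map_zero]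
    rw [aeval_def, eval₂_map, hom_eval₂, map_pow] at h3
    rw [aeval_def]
    exact h3
  have hint : IsIntegral F x := Algebra.IsIntegral.isIntegral x
  have h4 : φ x ^ p ∈ (minpoly F x).rootSet ℂ := by
    rw [mem_rootSet]
    exact ⟨minpoly.ne_zero hint, h2⟩
  rw [← Algebra.IsAlgebraic.range_eval_eq_rootSet_minpoly ℂ x] at h4
  obtain ⟨ψ', hψ'⟩ := h4
  have h5 := hφ (ψ' : K →+* ℂ)
  have h6 : (ψ' : K →+* ℂ) x = φ x ^ p := hψ'
  simp only [h6, norm_pow] at h5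
  have h7 : ‖φ x‖ < ‖φ x‖ ^ p := lt_self_pow₀ h1 (by omega)
  exact absurd h5 (not_le.2 h7)

end Pool.Agent.TRN
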