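import Pool.Agent.TRN.NrmU
import Pool.Agent.TRN.FrbA
import Pool.Agent.TRN.FrbB
import Pool.Agent.TRN.FrbC
import Pool.Agent.TRN.Nonz

set_option autoImplicit false

/-!
# TRN-AlgK: the main inequality for number fields

PLAN. `frob`, `divp`, `nonz`, `norm_ge`, `norm_up`: with `d = finrank ℚ K = φ(n) e0` (`Module.finrank_mul_finrank`, `IsCyclotomicExtension.Rat.finrank`/`IsCyclotomicExtension.finrank`):
`p ^ d ≤ 2 ^ (e0 d) * M ^ ((p + 1) e0)`; square: `M ^ 2 ≤ m`, so `p ^ (2 φ e0) ≤ 2 ^ (2 φ e0 e0) * m ^ ((p + 1) e0)`, and take `e0`-th roots (`pow_le_pow_left_iff`, `e0 ≥ 1`).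
-/

namespace Pool.Agent.TRN

open Polynomial

theorem algK {n : ℕ} [NeZero n] {F K : Type} [Field F] [NumberField F] [IsCyclotomicExtension {n} ℚ F] [Field K]
    [NumberField K] [Algebra F K] [IsScalarTower ℚ F K] {x : K} (hx : IntermediateField.adjoin ℚ {x} = ⊤)
    (hbig : ∃ φ : K →+* ℂ, 1 < ‖φ x‖) {Q : ℤ[X]} (hQ : Q.Monic) (hQx : aeval x Q = 0) {m : ℝ}
    (hM : (Q.map (Int.castRingHom ℂ)).mahlerMeasure ^ 2 ≤ m) {p : ℕ} (hp : p.Prime) (hpn : ¬ p ∣ n) :
    (p : ℝ) ^ (2 * n.totient) ≤ 2 ^ (2 * n.totient * Module.finrank F K) * m ^ (p + 1) := by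
  classical
  obtain ⟨τ, hτ⟩ := frob hp hpn F
  have hxi : IsIntegral ℤ x := ⟨Q, hQ, by simpa [aeval_def] using hQx⟩
  obtain ⟨h, hh, hy⟩ := divp hp τ hτ hxi
  have hne := nonz hp.two_le τ hbig
  have h1 := norm_ge hh hy hne
  have h2 := norm_up τ p hx hQ hQx
  have h3 := h1.trans h2
  have hd : Module.finrank ℚ K = n.totient * Module.finrank F K := by
    rw [← Module.finrank_mul_finrank ℚ F K]
    congr 1
    exact IsCyclotomicExtension.finrank (K := ℚ) F (Polynomial.cyclotomic.irreducible_rat (NeZero.pos n))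
  have : Module.Finite F K := Module.Finite.of_restrictScalars_finite ℚ F K
  have he0 : Module.finrank F K ≠ 0 := Module.finrank_pos.ne'
  rw [hd] at h3
  generalize Module.finrank F K = e0 at *
  generalize n.totient = t at *
  set M := (Q.map (Int.castRingHom ℂ)).mahlerMeasure with hMdef
  have hM0 : 0 ≤ M := Polynomial.mahlerMeasure_nonneg _
  have hm0 : 0 ≤ m := (sq_nonneg M).trans hM
  have h4 : ((p : ℝ) ^ (2 * t)) ^ e0 ≤ (2 ^ (2 * t * e0) * m ^ (p + 1)) ^ e0 := by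
    calc ((p : ℝ) ^ (2 * t)) ^ e0 = ((p : ℝ) ^ (t * e0)) ^ 2 := by
          rw [← pow_mul, ← pow_mul]; congr 1; ring
      _ ≤ (2 ^ (e0 * (t * e0)) * M ^ ((p + 1) * e0)) ^ 2 := pow_le_pow_left₀ (by positivity) h3 2
      _ = (2 ^ (2 * t * e0) * (M ^ 2) ^ (p + 1)) ^ e0 := by
          rw [mul_pow, mul_pow, ← pow_mul, ← pow_mul, ← pow_mul, ← pow_mul, ← pow_mul]
          congr 2 <;> ring
      _ ≤ (2 ^ (2 * t * e0) * m ^ (p + 1)) ^ e0 := by
          refine pow_le_pow_left₀ (by positivity) ?_ _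
          exact mul_le_mul_of_nonneg_left (pow_le_pow_left₀ (by positivity) hM _) (by positivity)
  exact (pow_le_pow_iff_left₀ (by positivity) (by positivity) he0).1 h4

end Pool.Agent.TRN
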