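import Pool.Agent.TRN.Defs

set_option autoImplicit false

/-!
# TRN-BiB: stability of coefficients

PLAN. `ev2_C`, `ev2_X`: `eval₂_C`, `eval₂_X`. `ev2_GM`: `map_sum`. `ev2_RM`: `map_sum`, `map_mul`, `map_pow`. `ev2_sum`: `Polynomial.eval₂_eq_sum_range'` (or `as_sum_range'` and `map_sum`) twice.
`rm_coeff`: for `s ≤ M`, `s ≤ M'`: every coefficient (a polynomial in the inner variable) of `GM e M - GM e M'` is divisible by `X ^ (min M M' + 1)`; `C (X ^ (m + 1)) ∣ GM e M - GM e M'`, so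
`C (X ^ (m + 1)) ∣ GM e M ^ k - GM e M' ^ k` (`sub_dvd_pow_sub_pow`), hence it divides `RM e L E M - RM e L E M'` (`Finset.dvd_sum`), and the coefficient `s ≤ m` of a polynomial
divisible by `X ^ (m + 1)` is zero (`Polynomial.C_dvd_iff_dvd_coeff`, `Polynomial.X_pow_dvd_iff`).
-/

namespace Pool.Agent.TRN

open Polynomial

private theorem BiB_sub (e : ℕ → ℕ) {M M' m : ℕ} (hM : m ≤ M) (h : M ≤ M') :
    (C (X ^ (m + 1)) : Polynomial (Polynomial ℤ)) ∣ GM e M' - GM e M := by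
  have h1 : GM e M' - GM e M = ∑ i ∈ Finset.Ico (M + 1) (M' + 1), (C (X ^ i) * X ^ e i : Polynomial (Polynomial ℤ)) := by
    unfold GM
    exact (Finset.sum_Ico_eq_sub _ (by omega)).symm
  rw [h1]
  refine Finset.dvd_sum fun i hi => ?_
  rw [Finset.mem_Ico] at hi
  have h2 : (X : ℤ[X]) ^ (m + 1) ∣ X ^ i := pow_dvd_pow _ (by omega)
  exact Dvd.dvd.mul_right (_root_.map_dvd C h2) _

private theorem BiB_rm (e : ℕ → ℕ) (L : ℕ) (E : Ix L → ℤ) {M M' m : ℕ} (hM : m ≤ M) (h : M ≤ M') :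
    (C (X ^ (m + 1)) : Polynomial (Polynomial ℤ)) ∣ RM e L E M' - RM e L E M := by
  unfold RM
  rw [← Finset.sum_sub_distrib]
  refine Finset.dvd_sum fun t _ => ?_
  rw [← mul_sub]
  exact Dvd.dvd.mul_left ((BiB_sub e hM h).trans (sub_dvd_pow_sub_pow _ _ _)) _

private theorem BiB_aux (e : ℕ → ℕ) (L : ℕ) (E : Ix L → ℤ) {M M' s : ℕ} (hM : s ≤ M) (h : M ≤ M') (t : ℕ) :
    ((RM e L E M').coeff t).coeff s = ((RM e L E M).coeff t).coeff s := by
  have h1 := BiB_rm e L E hM h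
  rw [Polynomial.C_dvd_iff_dvd_coeff] at h1
  have h2 := h1 t
  rw [Polynomial.X_pow_dvd_iff] at h2
  have h3 := h2 s (Nat.lt_succ_self s)
  rw [Polynomial.coeff_sub, Polynomial.coeff_sub] at h3
  exact sub_eq_zero.mp h3

theorem rm_coeff (e : ℕ → ℕ) (L : ℕ) (E : Ix L → ℤ) {M M' s : ℕ} (hM : s ≤ M) (hM' : s ≤ M') (t : ℕ) :
    ((RM e L E M).coeff t).coeff s = ((RM e L E M').coeff t).coeff s := by
  rcases le_total M M' with h | h
  · exact (BiB_aux e L E hM h t).symm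
  · exact BiB_aux e L E hM' h t

end Pool.Agent.TRN
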