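import Pool.Agent.TRN.BiA
import Pool.Agent.TRN.BiB

set_option autoImplicit false

/-!
# TRN-AnaA: convergence

PLAN. Fix `y > 0` and `r0 = y ^ (-β)`. `y ^ e i ≤ K' * (y ^ β) ^ i` with `K' = max y y⁻¹ ^ K` (`hK`), so `g w = ∑' i, w ^ i * y ^ e i` converges on the ball `‖w‖ < r0` and is analytic there
(`summable_pow_mul ..`; e.g. `hasFPowerSeriesOnBall` or `differentiableOn_tsum_of_summable_norm` on smaller balls and `DifferentiableOn.analyticOnNhd`).
`F w = Ev L E w y (g w)` is analytic on the ball. Flat at `0`: for every `M`: `F w = (Ev (g w) - Ev (g_M w)) + ev2 w y (RM e L E M)` (`ev2_RM`); `g w - g_M w = w ^ (M + 1) * (analytic, bounded near 0)`, so the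
first part is `O(‖w‖ ^ (M + 1))` near `0` (polynomial in `g`), and the second is `∑ (coeff) w ^ s y ^ t` over `s > M` (`ev2_sum`, `rm_coeff` and the hypothesis `h`: for `s ≤ M` the coefficient of `RM e L E M` equals
that of `RM e L E s`, which is `0`). So `F w = O(w ^ (M + 1))` for every `M`; hence the order of `F` at `0` is infinite (`analyticOrderAt`; or: if `F` is not eventually zero,
`F w = w ^ n * G w`, `G 0 ≠ 0`: `AnalyticAt.exists_eventuallyEq_pow_smul_nonzero_iff`), `F` vanishes near `0`, and on the ball by the identity theorem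
(`AnalyticOnNhd.eqOn_zero_of_preconnected_of_eventuallyEq_zero`, `Metric.isPreconnected_ball` / `convex_ball`).
-/

namespace Pool.Agent.TRN

open Polynomial Filter Topology

private theorem AnaA_rpow {y δ K : ℝ} (hy : 0 < y) (h : |δ| ≤ K) : y ^ δ ≤ y ^ K + y ^ (-K) := by
  obtain ⟨h1, h2⟩ := abs_le.1 h
  rcases le_total 1 y with h3 | h3
  · exact (Real.rpow_le_rpow_of_exponent_le h3 h2).trans (le_add_of_nonneg_right (Real.rpow_nonneg hy.le _))
  · exact (Real.rpow_le_rpow_of_exponent_ge hy h3 h1).trans (le_add_of_nonneg_left (Real.rpow_nonneg hy.le _))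

theorem gs_summable {e : ℕ → ℕ} {β K : ℝ} (hK : ∀ i : ℕ, |(e i : ℝ) - i * β| ≤ K) {y : ℝ} (hy : 0 < y) {w : ℂ}
    (hw : ‖w‖ < y ^ (-β)) : Summable fun i : ℕ => w ^ i * (y : ℂ) ^ e i := by
  have hny : ‖(y : ℂ)‖ = y := by rw [Complex.norm_real, Real.norm_eq_abs, abs_of_pos hy]
  have hyb : 0 < y ^ β := Real.rpow_pos_of_pos hy β
  have hq0 : 0 ≤ ‖w‖ * y ^ β := mul_nonneg (norm_nonneg w) hyb.le
  have hq1 : ‖w‖ * y ^ β < 1 := by
    have h1 : ‖w‖ * y ^ β < y ^ (-β) * y ^ β := mul_lt_mul_of_pos_right hw hyb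
    rwa [← Real.rpow_add hy, neg_add_cancel, Real.rpow_zero] at h1
  have hs : Summable fun i : ℕ => (y ^ K + y ^ (-K)) * (‖w‖ * y ^ β) ^ i :=
    (summable_geometric_of_lt_one hq0 hq1).mul_left _
  refine Summable.of_norm_bounded hs fun i => ?_
  have h2 : y ^ e i = (y ^ β) ^ i * y ^ ((e i : ℝ) - i * β) := by
    rw [← Real.rpow_natCast (y ^ β) i, ← Real.rpow_mul hy.le, ← Real.rpow_add hy, ← Real.rpow_natCast y (e i)]
    congr 1
    ring
  rw [norm_mul, norm_pow, norm_pow, hny, h2, mul_pow]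
  calc ‖w‖ ^ i * ((y ^ β) ^ i * y ^ ((e i : ℝ) - i * β))
      ≤ ‖w‖ ^ i * ((y ^ β) ^ i * (y ^ K + y ^ (-K))) := by
        gcongr
        exact AnaA_rpow hy (hK i)
    _ = (y ^ K + y ^ (-K)) * (‖w‖ ^ i * (y ^ β) ^ i) := by ring

end Pool.Agent.TRN
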