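import Pool.Agent.TRN.AnaA

set_option autoImplicit false

/-!
# TRN-AnaB: formal identity, identity of functions

The partial sums `F_M w = ev2 w y (RM e L E M)` are divisible by `w ^ (M + 1)` and bounded on the circles `‖w‖ = r`, `r < y ^ (-β)`,
uniformly in `M`; by the maximum principle `‖F_M w‖ ≤ C (‖w‖ / r) ^ (M + 1)`, so their limit is `0`.
-/

namespace Pool.Agent.TRN

open Polynomial Filter Topology

private theorem AnaB_div {e : ℕ → ℕ} {L : ℕ} {E : Ix L → ℤ} (h : ∀ s t : ℕ, ((RM e L E s).coeff t).coeff s = 0)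
    (y : ℂ) (M : ℕ) : ∃ H : ℂ → ℂ, Differentiable ℂ H ∧
      ∀ w : ℂ, Ev L E w y (∑ i ∈ Finset.range (M + 1), w ^ i * y ^ e i) = w ^ (M + 1) * H w := by
  obtain ⟨N, -, hN⟩ := ev2_sum (RM e L E M)
  refine ⟨fun w => ∑ t ∈ Finset.range N, ∑ s ∈ Finset.range N,
    ((((RM e L E M).coeff t).coeff s : ℤ) : ℂ) * (w ^ (s - (M + 1)) * y ^ t), ?_, fun w => ?_⟩
  · fun_prop
  · rw [← ev2_RM, hN, Finset.mul_sum]
    refine Finset.sum_congr rfl fun t _ => ?_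
    rw [Finset.mul_sum]
    refine Finset.sum_congr rfl fun s _ => ?_
    by_cases hs : s ≤ M
    · rw [rm_coeff e L E hs le_rfl t, h s t]
      simp
    · have e1 : s = (M + 1) + (s - (M + 1)) := by omega
      have e2 : w ^ s = w ^ (M + 1) * w ^ (s - (M + 1)) := by
        rw [← pow_add, ← e1]
      rw [e2]
      ring

private theorem AnaB_bound {e : ℕ → ℕ} (L : ℕ) (E : Ix L → ℤ) {y r : ℝ} (hy : 0 < y) (hr : 0 < r)
    (hs : Summable fun i : ℕ => r ^ i * y ^ e i) (M : ℕ) {w : ℂ} (hw : ‖w‖ = r) :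
    ‖Ev L E w y (∑ i ∈ Finset.range (M + 1), w ^ i * (y : ℂ) ^ e i)‖ ≤
      ∑ t : Ix L, |(E t : ℝ)| * (r ^ (t.1 : ℕ) * y ^ (t.2.1 : ℕ)) * (∑' i : ℕ, r ^ i * y ^ e i) ^ (t.2.2 : ℕ) := by
  have hny : ‖(y : ℂ)‖ = y := by rw [Complex.norm_real, Real.norm_eq_abs, abs_of_pos hy]
  have h1 : ‖∑ i ∈ Finset.range (M + 1), w ^ i * (y : ℂ) ^ e i‖ ≤ ∑' i : ℕ, r ^ i * y ^ e i := by
    refine (norm_sum_le _ _).trans ?_
    have h2 : ∀ i ∈ Finset.range (M + 1), ‖w ^ i * (y : ℂ) ^ e i‖ = r ^ i * y ^ e i := by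
      intro i _
      rw [norm_mul, norm_pow, norm_pow, hw, hny]
    rw [Finset.sum_congr rfl h2]
    exact hs.sum_le_tsum _ fun i _ => by positivity
  unfold Ev
  refine (norm_sum_le _ _).trans (Finset.sum_le_sum fun t _ => ?_)
  rw [norm_mul, norm_mul, norm_mul, norm_pow, norm_pow, norm_pow, hw, hny, Complex.norm_intCast]
  gcongr

theorem ana {e : ℕ → ℕ} {β K : ℝ} (hK : ∀ i : ℕ, |(e i : ℝ) - i * β| ≤ K) {L : ℕ} {E : Ix L → ℤ}
    (h : ∀ s t : ℕ, ((RM e L E s).coeff t).coeff s = 0) {y : ℝ} (hy : 0 < y) {w : ℂ} (hw : ‖w‖ < y ^ (-β)) :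
    Ev L E w y (∑' i : ℕ, w ^ i * (y : ℂ) ^ e i) = 0 := by
  obtain ⟨r, hr1, hr2⟩ := exists_between hw
  have hr : 0 < r := (norm_nonneg w).trans_lt hr1
  have hny : ‖(y : ℂ)‖ = y := by rw [Complex.norm_real, Real.norm_eq_abs, abs_of_pos hy]
  have hnr : ‖(r : ℂ)‖ = r := by rw [Complex.norm_real, Real.norm_eq_abs, abs_of_pos hr]
  have hs : Summable fun i : ℕ => r ^ i * y ^ e i := by
    have h1 := (gs_summable hK hy (w := (r : ℂ)) (by rw [hnr]; exact hr2)).norm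
    refine h1.congr fun i => ?_
    rw [norm_mul, norm_pow, norm_pow, hnr, hny]
  obtain ⟨C, hC⟩ : ∃ C : ℝ, ∀ (M : ℕ) (z : ℂ), ‖z‖ = r →
      ‖Ev L E z y (∑ i ∈ Finset.range (M + 1), z ^ i * (y : ℂ) ^ e i)‖ ≤ C :=
    ⟨_, fun M z hz => AnaB_bound L E hy hr hs M hz⟩
  -- the maximum principle
  have hmax : ∀ M : ℕ, ‖Ev L E w y (∑ i ∈ Finset.range (M + 1), w ^ i * (y : ℂ) ^ e i)‖ ≤
      C * (‖w‖ / r) ^ (M + 1) := by
    intro M
    obtain ⟨H, hH1, hH2⟩ := AnaB_div h (y : ℂ) M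
    have h1 : ‖H w‖ ≤ C / r ^ (M + 1) := by
      refine Complex.norm_le_of_forall_mem_frontier_norm_le (U := Metric.ball (0 : ℂ) r) Metric.isBounded_ball
        hH1.diffContOnCl ?_ (subset_closure (by rw [mem_ball_zero_iff]; exact hr1))
      intro z hz
      rw [frontier_ball (0 : ℂ) hr.ne', mem_sphere_zero_iff_norm] at hz
      have h2 := hC M z hz
      rw [hH2, norm_mul, norm_pow, hz] at h2
      rw [le_div_iff₀ (by positivity), mul_comm]
      exact h2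
    rw [hH2, norm_mul, norm_pow, div_pow]
    calc ‖w‖ ^ (M + 1) * ‖H w‖ ≤ ‖w‖ ^ (M + 1) * (C / r ^ (M + 1)) := by gcongr
      _ = C * (‖w‖ ^ (M + 1) / r ^ (M + 1)) := by ring
  have hlim0 : Tendsto (fun M : ℕ => Ev L E w y (∑ i ∈ Finset.range (M + 1), w ^ i * (y : ℂ) ^ e i)) atTop (𝓝 0) := by
    refine squeeze_zero_norm hmax ?_
    have h1 : ‖w‖ / r < 1 := (div_lt_one hr).2 hr1
    have h2 : Tendsto (fun M : ℕ => (‖w‖ / r) ^ (M + 1)) atTop (𝓝 0) :=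
      (tendsto_pow_atTop_nhds_zero_of_lt_one (by positivity) h1).comp (tendsto_add_atTop_nat 1)
    have h3 := h2.const_mul C
    rwa [mul_zero] at h3
  have hcont : Continuous fun g : ℂ => Ev L E w y g := by
    unfold Ev
    fun_prop
  have hlim : Tendsto (fun M : ℕ => Ev L E w y (∑ i ∈ Finset.range (M + 1), w ^ i * (y : ℂ) ^ e i)) atTop
      (𝓝 (Ev L E w y (∑' i : ℕ, w ^ i * (y : ℂ) ^ e i))) := by
    have h1 := (gs_summable hK hy hw).hasSum.tendsto_sum_nat.comp (tendsto_add_atTop_nat 1)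
    exact (hcont.tendsto _).comp h1
  exact tendsto_nhds_unique hlim hlim0

end Pool.Agent.TRN
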