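import Pool.Agent.TRN.Defs

set_option autoImplicit false

/-!
# TRN-BiC: Lipschitz bound

`g ^ k - h ^ k` is bounded by `k 2 ^ k ‖g - h‖` on the disc of radius `2`, by induction on `k`.
-/

namespace Pool.Agent.TRN

open Polynomial

private theorem BiC_pow (g h : ℂ) (hg : ‖g‖ ≤ 2) (hh : ‖h‖ ≤ 2) (k : ℕ) :
    ‖g ^ k - h ^ k‖ ≤ (k * 2 ^ k) * ‖g - h‖ := by
  induction k with
  | zero => simp
  | succ k ih =>
    have h1 : g ^ (k + 1) - h ^ (k + 1) = g * (g ^ k - h ^ k) + (g - h) * h ^ k := by ring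
    have h2 : ‖h ^ k‖ ≤ 2 ^ k := by
      rw [norm_pow]
      exact pow_le_pow_left₀ (norm_nonneg h) hh k
    have h3 : ‖g * (g ^ k - h ^ k)‖ ≤ 2 * ((k * 2 ^ k) * ‖g - h‖) := by
      rw [norm_mul]
      exact mul_le_mul hg ih (norm_nonneg _) (by norm_num)
    have h4 : ‖(g - h) * h ^ k‖ ≤ ‖g - h‖ * 2 ^ k := by
      rw [norm_mul]
      exact mul_le_mul_of_nonneg_left h2 (norm_nonneg _)
    have h5 : (0 : ℝ) ≤ ‖g - h‖ * 2 ^ k := by positivity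
    rw [h1]
    refine (norm_add_le _ _).trans ((add_le_add h3 h4).trans ?_)
    push_cast
    have h6 : ((k : ℝ) + 1) * 2 ^ (k + 1) * ‖g - h‖ =
        2 * ((k * 2 ^ k) * ‖g - h‖) + ‖g - h‖ * 2 ^ k + ‖g - h‖ * 2 ^ k := by ring
    rw [h6]
    linarith

/-- `E(x, y, g)` is Lipschitz in `g` -/
theorem ev_lip (L : ℕ) (E : Ix L → ℤ) : ∃ K : ℝ, 0 ≤ K ∧ ∀ x y g h : ℂ, ‖x‖ ≤ 1 → ‖y‖ ≤ 1 → ‖g‖ ≤ 2 → ‖h‖ ≤ 2 →
    ‖Ev L E x y g - Ev L E x y h‖ ≤ K * ‖g - h‖ := by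
  refine ⟨∑ t : Ix L, ‖(E t : ℂ)‖ * (((t.2.2 : ℕ) : ℝ) * 2 ^ (t.2.2 : ℕ)),
    Finset.sum_nonneg fun t _ => by positivity, ?_⟩
  intro x y g h hx hy hg hh
  unfold Ev
  rw [← Finset.sum_sub_distrib, Finset.sum_mul]
  refine norm_sum_le_of_le _ fun t _ => ?_
  rw [← mul_sub, norm_mul, norm_mul, norm_mul, norm_pow, norm_pow]
  have h1 : ‖x‖ ^ (t.1 : ℕ) * ‖y‖ ^ (t.2.1 : ℕ) ≤ 1 :=
    mul_le_one₀ (pow_le_one₀ (norm_nonneg x) hx) (by positivity)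
      (pow_le_one₀ (norm_nonneg y) hy)
  have h2 := BiC_pow g h hg hh (t.2.2 : ℕ)
  have h3 : ‖(E t : ℂ)‖ * (‖x‖ ^ (t.1 : ℕ) * ‖y‖ ^ (t.2.1 : ℕ)) ≤ ‖(E t : ℂ)‖ :=
    mul_le_of_le_one_right (norm_nonneg _) h1
  refine (mul_le_mul h3 h2 (norm_nonneg _) (norm_nonneg _)).trans (le_of_eq ?_)
  ring

end Pool.Agent.TRN
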