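import Pool.Agent.TRN.BiA
import Pool.Agent.TRN.BiB
import Pool.Agent.TRN.BiC

set_option autoImplicit false

/-!
# TRN-App: approximation by the fixed polynomial, upper bound

PLAN. `app`: `g - g_M = ∑_{i > M} X ^ i Y ^ (e' i)` has norm `≤ ∑_{i > M} l ^ i ≤ 2 l ^ (M + 1)`, both `‖g‖, ‖g_M‖ ≤ 2`; `ev2_RM`, `ev_lip`.
`upp`: `app` with `M = T` (`l ^ (T + 1) ≤ l ^ T`) and `ev2_sum`: the nonzero coefficients `(s, t)` of `RM e L E T` have `T ≤ s` or `T ≤ t` (`s < T`, `t < T`: coefficient `0` by `hvan`), so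
`‖X ^ s * Y ^ t‖ ≤ l ^ T`.
-/

namespace Pool.Agent.TRN

open Polynomial

private theorem App_term (e' : ℕ → ℕ) {X Y : ℂ} {l : ℝ} (h0 : 0 ≤ l) (h1 : l ≤ 1 / 2) (hX : ‖X‖ ≤ l) (hY : ‖Y‖ ≤ l)
    (i : ℕ) : ‖X ^ i * Y ^ e' i‖ ≤ l ^ i := by
  rw [norm_mul, norm_pow, norm_pow]
  have h2 : ‖X‖ ^ i ≤ l ^ i := pow_le_pow_left₀ (norm_nonneg _) hX i
  have h3 : ‖Y‖ ^ e' i ≤ 1 := pow_le_one₀ (norm_nonneg _) (by linarith)
  calc ‖X‖ ^ i * ‖Y‖ ^ e' i ≤ l ^ i * 1 :=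
        mul_le_mul h2 h3 (pow_nonneg (norm_nonneg _) _) (pow_nonneg h0 _)
    _ = l ^ i := mul_one _

private theorem App_geom {l : ℝ} (h0 : 0 ≤ l) (h1 : l ≤ 1 / 2) (m : ℕ) :
    HasSum (fun i : ℕ => l ^ (i + m)) (l ^ m * (1 - l)⁻¹) := by
  have h := (hasSum_geometric_of_lt_one h0 (by linarith : l < 1)).mul_left (l ^ m)
  refine h.congr_fun ?_ |> fun h' => h'
  intro i
  rw [pow_add, mul_comm]

private theorem App_inv {l : ℝ} (_h0 : 0 ≤ l) (h1 : l ≤ 1 / 2) : (1 - l)⁻¹ ≤ 2 := by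
  rw [inv_le_comm₀ (by linarith) (by norm_num)]
  linarith

private theorem App_tail (e' : ℕ → ℕ) {X Y : ℂ} {l : ℝ} (h0 : 0 ≤ l) (h1 : l ≤ 1 / 2) (hX : ‖X‖ ≤ l) (hY : ‖Y‖ ≤ l)
    (m : ℕ) : ‖∑' i : ℕ, X ^ (i + m) * Y ^ e' (i + m)‖ ≤ 2 * l ^ m := by
  have hg := App_geom h0 h1 m
  have h2 : ‖∑' i : ℕ, X ^ (i + m) * Y ^ e' (i + m)‖ ≤ l ^ m * (1 - l)⁻¹ :=
    tsum_of_norm_bounded hg (fun i => App_term e' h0 h1 hX hY (i + m))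
  have h3 := App_inv h0 h1
  have h4 : 0 ≤ l ^ m := pow_nonneg h0 _
  nlinarith

theorem app (e : ℕ → ℕ) (L : ℕ) (E : Ix L → ℤ) (M : ℕ) : ∃ K : ℝ, 0 ≤ K ∧ ∀ (e' : ℕ → ℕ) (X Y : ℂ) (l : ℝ),
    (∀ i, i ≤ M → e' i = e i) → 0 ≤ l → l ≤ 1 / 2 → ‖X‖ ≤ l → ‖Y‖ ≤ l →
      ‖Ev L E X Y (∑' i : ℕ, X ^ i * Y ^ e' i) - ev2 X Y (RM e L E M)‖ ≤ K * l ^ (M + 1) := by
  obtain ⟨K, hK, hlip⟩ := ev_lip L E
  refine ⟨K * 2, by positivity, ?_⟩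
  intro e' X Y l he h0 h1 hX hY
  have hsum : Summable (fun i : ℕ => X ^ i * Y ^ e' i) := by
    have hg : Summable (fun i : ℕ => l ^ i) := summable_geometric_of_lt_one h0 (by linarith)
    exact Summable.of_norm_bounded hg (fun i => App_term e' h0 h1 hX hY i)
  have hg2 : ‖∑' i : ℕ, X ^ i * Y ^ e' i‖ ≤ 2 := by
    have h := App_tail e' h0 h1 hX hY 0
    simpa using h
  have hfin : ∑ i ∈ Finset.range (M + 1), X ^ i * Y ^ e i = ∑ i ∈ Finset.range (M + 1), X ^ i * Y ^ e' i := by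
    refine Finset.sum_congr rfl (fun i hi => ?_)
    rw [he i (Nat.lt_succ_iff.mp (Finset.mem_range.mp hi))]
  have hgM : ‖∑ i ∈ Finset.range (M + 1), X ^ i * Y ^ e i‖ ≤ 2 := by
    rw [hfin]
    have hs0 := App_geom h0 h1 0
    have h2 : ‖∑ i ∈ Finset.range (M + 1), X ^ i * Y ^ e' i‖ ≤ ∑ i ∈ Finset.range (M + 1), l ^ i :=
      norm_sum_le_of_le _ (fun i _ => App_term e' h0 h1 hX hY i)
    have h3 : ∑ i ∈ Finset.range (M + 1), l ^ i ≤ l ^ 0 * (1 - l)⁻¹ := by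
      have h4 : ∑ i ∈ Finset.range (M + 1), l ^ (i + 0) ≤ l ^ 0 * (1 - l)⁻¹ :=
        sum_le_hasSum _ (fun i _ => pow_nonneg h0 _) hs0
      simpa using h4
    have h4 := App_inv h0 h1
    have h5 : l ^ 0 * (1 - l)⁻¹ ≤ 2 := by simpa using h4
    linarith
  have hdiff : (∑' i : ℕ, X ^ i * Y ^ e' i) - ∑ i ∈ Finset.range (M + 1), X ^ i * Y ^ e i =
      ∑' i : ℕ, X ^ (i + (M + 1)) * Y ^ e' (i + (M + 1)) := by
    rw [hfin, ← hsum.sum_add_tsum_nat_add (M + 1)]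
    ring
  rw [ev2_RM]
  have h2 := hlip X Y (∑' i : ℕ, X ^ i * Y ^ e' i) (∑ i ∈ Finset.range (M + 1), X ^ i * Y ^ e i)
    (by linarith) (by linarith) hg2 hgM
  rw [hdiff] at h2
  have h3 := App_tail e' h0 h1 hX hY (M + 1)
  calc ‖Ev L E X Y (∑' i : ℕ, X ^ i * Y ^ e' i) - Ev L E X Y (∑ i ∈ Finset.range (M + 1), X ^ i * Y ^ e i)‖
      ≤ K * ‖∑' i : ℕ, X ^ (i + (M + 1)) * Y ^ e' (i + (M + 1))‖ := h2
    _ ≤ K * (2 * l ^ (M + 1)) := mul_le_mul_of_nonneg_left h3 hK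
    _ = K * 2 * l ^ (M + 1) := by ring

theorem upp (e : ℕ → ℕ) (L : ℕ) (E : Ix L → ℤ) (T : ℕ)
    (hvan : ∀ s t : ℕ, s < T → t < T → ((RM e L E T).coeff t).coeff s = 0) :
    ∃ K : ℝ, 0 ≤ K ∧ ∀ (e' : ℕ → ℕ) (X Y : ℂ) (l : ℝ), (∀ i, i ≤ T → e' i = e i) → 0 ≤ l → l ≤ 1 / 2 → ‖X‖ ≤ l →
      ‖Y‖ ≤ l → ‖Ev L E X Y (∑' i : ℕ, X ^ i * Y ^ e' i)‖ ≤ K * l ^ T := by
  obtain ⟨K1, hK1, happ⟩ := app e L E T
  obtain ⟨N, -, hev⟩ := ev2_sum (RM e L E T)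
  set K2 : ℝ := ∑ t ∈ Finset.range N, ∑ s ∈ Finset.range N, ‖((((RM e L E T).coeff t).coeff s : ℤ) : ℂ)‖ with hK2
  have hK2n : 0 ≤ K2 := Finset.sum_nonneg (fun t _ => Finset.sum_nonneg (fun s _ => norm_nonneg _))
  refine ⟨K1 + K2, by positivity, ?_⟩
  intro e' X Y l he h0 h1 hX hY
  have h2 := happ e' X Y l he h0 h1 hX hY
  have hl : l ^ (T + 1) ≤ l ^ T := pow_le_pow_of_le_one h0 (by linarith) (Nat.le_succ T)
  have h3 : ‖ev2 X Y (RM e L E T)‖ ≤ K2 * l ^ T := by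
    rw [hev X Y, hK2, Finset.sum_mul]
    refine norm_sum_le_of_le _ (fun t _ => ?_)
    rw [Finset.sum_mul]
    refine norm_sum_le_of_le _ (fun s _ => ?_)
    by_cases hst : s < T ∧ t < T
    · rw [hvan s t hst.1 hst.2]
      simp
    · have hge : T ≤ s + t := by
        by_contra hc
        exact hst ⟨by omega, by omega⟩
      rw [norm_mul]
      refine mul_le_mul_of_nonneg_left ?_ (norm_nonneg _)
      rw [norm_mul, norm_pow, norm_pow]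
      calc ‖X‖ ^ s * ‖Y‖ ^ t ≤ l ^ s * l ^ t :=
            mul_le_mul (pow_le_pow_left₀ (norm_nonneg _) hX s) (pow_le_pow_left₀ (norm_nonneg _) hY t)
              (pow_nonneg (norm_nonneg _) _) (pow_nonneg h0 _)
        _ = l ^ (s + t) := (pow_add l s t).symm
        _ ≤ l ^ T := pow_le_pow_of_le_one h0 (by linarith) hge
  have h4 : ‖Ev L E X Y (∑' i : ℕ, X ^ i * Y ^ e' i)‖ ≤
      ‖Ev L E X Y (∑' i : ℕ, X ^ i * Y ^ e' i) - ev2 X Y (RM e L E T)‖ + ‖ev2 X Y (RM e L E T)‖ := by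
    have h5 := norm_add_le (Ev L E X Y (∑' i : ℕ, X ^ i * Y ^ e' i) - ev2 X Y (RM e L E T)) (ev2 X Y (RM e L E T))
    rwa [sub_add_cancel] at h5
  have h6 : K1 * l ^ (T + 1) ≤ K1 * l ^ T := mul_le_mul_of_nonneg_left hl hK1
  calc ‖Ev L E X Y (∑' i : ℕ, X ^ i * Y ^ e' i)‖ ≤ K1 * l ^ T + K2 * l ^ T := by linarith
    _ = (K1 + K2) * l ^ T := by ring

end Pool.Agent.TRN
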