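import Pool.Agent.TRN.Lnb

set_option autoImplicit false

/-!
# TRN-BadA: bounds for the stages

PLAN. `av_bu`: `a v + b u = a (r - b α) + b (a α - p) = a r - b p = 1` (`S.det`). So `b u ≤ 1`, `a v ≤ 1`. `BA` with `(a, p)`: `c ≤ a |a α - p| = a u`; with `(b, r)`: `c ≤ b v`.
`c b ≤ a u b ≤ a`; `c a ≤ b v a ≤ b`; `c v ≤ c / a ≤ u`; `c u ≤ c / b ≤ v`.
`inf_min`: `n ≤ a + b ≤ min * (1 + 1 / c)`.
`inf_ab`: by contradiction: if `|i a_n + j b_n| ≤ C` frequently, put `s = i a + j b`, `t = i p + j r`: `s α - t = i u - j v` and `|i u - j v| ≤ (|i| + |j|) / min a b → 0`; if `s ≠ 0`,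
`BA` for `|s|` gives `c ≤ C |s α - t|`, false eventually; so `s = 0`, and `|t| < 1`, `t = 0`; with `det`: `i = i (a r - b p) = r (i a) - b (i p) = - j b r + b j r = 0`, and
`j = j (a r - b p) = a (j r) - p (j b) = - a i p + p i a = 0`.
-/

namespace Pool.Agent.TRN

open Polynomial Filter Topology

variable {α : ℝ} {z : ℂ} {x : ℝ}

theorem u_pos (S : Stg α z x) : 0 < S.u := S.hu

theorem v_pos (S : Stg α z x) : 0 < S.v := S.hv

theorem av_bu (S : Stg α z x) : S.a * S.v + S.b * S.u = 1 := by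
  have h : ((S.a : ℝ)) * (S.r : ℝ) - (S.b : ℝ) * (S.p : ℝ) = 1 := by
    have := S.det
    exact_mod_cast this
  unfold Stg.u Stg.v
  linear_combination h

theorem ba_bounds {c : ℝ} (hB : BA α c) (S : Stg α z x) :
    S.b * S.u ≤ 1 ∧ S.a * S.v ≤ 1 ∧ c ≤ S.a * S.u ∧ c ≤ S.b * S.v ∧ c * S.b ≤ S.a ∧ c * S.a ≤ S.b ∧
      c * S.v ≤ S.u ∧ c * S.u ≤ S.v := by
  obtain ⟨hc0, hc1, hB⟩ := hB
  have hu := u_pos S
  have hv := v_pos S
  have ha : (1 : ℝ) ≤ S.a := by exact_mod_cast S.ha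
  have hb : (1 : ℝ) ≤ S.b := by exact_mod_cast S.hb
  have hab := av_bu S
  have hav : 0 ≤ (S.a : ℝ) * S.v := by positivity
  have hbu : 0 ≤ (S.b : ℝ) * S.u := by positivity
  have h1 : (S.b : ℝ) * S.u ≤ 1 := by linarith
  have h2 : (S.a : ℝ) * S.v ≤ 1 := by linarith
  have h3 : c ≤ S.a * S.u := by
    have h := hB S.a S.p S.ha
    have e : |(S.a : ℝ) * α - S.p| = S.u := abs_of_pos S.hu
    rwa [e] at h
  have h4 : c ≤ S.b * S.v := by
    have h := hB S.b S.r S.hb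
    have e : |(S.b : ℝ) * α - S.r| = S.v := by
      rw [abs_sub_comm]
      exact abs_of_pos S.hv
    rwa [e] at h
  refine ⟨h1, h2, h3, h4, ?_, ?_, ?_, ?_⟩
  · calc c * S.b ≤ (S.a * S.u) * S.b := by
          apply mul_le_mul_of_nonneg_right h3
          linarith
      _ = S.a * (S.b * S.u) := by ring
      _ ≤ S.a * 1 := by
          apply mul_le_mul_of_nonneg_left h1
          linarith
      _ = S.a := by ring
  · calc c * S.a ≤ (S.b * S.v) * S.a := by
          apply mul_le_mul_of_nonneg_right h4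
          linarith
      _ = S.b * (S.a * S.v) := by ring
      _ ≤ S.b * 1 := by
          apply mul_le_mul_of_nonneg_left h2
          linarith
      _ = S.b := by ring
  · calc c * S.v ≤ (S.a * S.u) * S.v := mul_le_mul_of_nonneg_right h3 hv.le
      _ = S.u * (S.a * S.v) := by ring
      _ ≤ S.u * 1 := mul_le_mul_of_nonneg_left h2 hu.le
      _ = S.u := by ring
  · calc c * S.u ≤ (S.b * S.v) * S.u := mul_le_mul_of_nonneg_right h4 hu.le
      _ = S.v * (S.b * S.u) := by ring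
      _ ≤ S.v * 1 := mul_le_mul_of_nonneg_left h1 hv.le
      _ = S.v := by ring

theorem ba_min {c : ℝ} (hB : BA α c) (S : Stg α z x) : c / 2 * ((S.a : ℝ) + S.b) ≤ ((min S.a S.b : ℕ) : ℝ) := by
  obtain ⟨-, -, -, -, h5, h6, -, -⟩ := ba_bounds hB S
  have ha : (0 : ℝ) ≤ S.a := Nat.cast_nonneg _
  have hb : (0 : ℝ) ≤ S.b := Nat.cast_nonneg _
  have h7 : c * S.a ≤ S.a := by
    have := mul_le_mul_of_nonneg_right hB.2.1 ha
    linarith
  have h8 : c * S.b ≤ S.b := by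
    have := mul_le_mul_of_nonneg_right hB.2.1 hb
    linarith
  rw [Nat.cast_min]
  refine le_min ?_ ?_
  · linarith
  · linarith

end Pool.Agent.TRN
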