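import Pool.Agent.TRN.BadA

set_option autoImplicit false

/-!
# TRN-BadB: combinations tend to infinity

PLAN. `av_bu`: `a v + b u = a (r - b α) + b (a α - p) = a r - b p = 1` (`S.det`). So `b u ≤ 1`, `a v ≤ 1`. `BA` with `(a, p)`: `c ≤ a |a α - p| = a u`; with `(b, r)`: `c ≤ b v`.
`c b ≤ a u b ≤ a`; `c a ≤ b v a ≤ b`; `c v ≤ c / a ≤ u`; `c u ≤ c / b ≤ v`.
`inf_min`: `n ≤ a + b ≤ min * (1 + 1 / c)`.
`inf_ab`: by contradiction: if `|i a_n + j b_n| ≤ C` frequently, put `s = i a + j b`, `t = i p + j r`: `s α - t = i u - j v` and `|i u - j v| ≤ (|i| + |j|) / min a b → 0`; if `s ≠ 0`,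
`BA` for `|s|` gives `c ≤ C |s α - t|`, false eventually; so `s = 0`, and `|t| < 1`, `t = 0`; with `det`: `i = i (a r - b p) = r (i a) - b (i p) = - j b r + b j r = 0`, and
`j = j (a r - b p) = a (j r) - p (j b) = - a i p + p i a = 0`.
-/

namespace Pool.Agent.TRN

open Polynomial Filter Topology

variable {α : ℝ} {z : ℂ} {x : ℝ}

theorem inf_min {c : ℝ} (hB : BA α c) {S : ℕ → Stg α z x} (hS : ∀ n, n ≤ (S n).a + (S n).b) :
    Tendsto (fun n => min (S n).a (S n).b) atTop atTop := by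
  have h1 : Tendsto (fun n : ℕ => c / 2 * (n : ℝ)) atTop atTop :=
    tendsto_natCast_atTop_atTop.const_mul_atTop (by linarith [hB.1])
  have h2 : Tendsto (fun n : ℕ => ((min (S n).a (S n).b : ℕ) : ℝ)) atTop atTop := by
    refine tendsto_atTop_mono (fun n => ?_) h1
    refine le_trans ?_ (ba_min hB (S n))
    have h3 : (n : ℝ) ≤ ((S n).a : ℝ) + (S n).b := by exact_mod_cast hS n
    exact mul_le_mul_of_nonneg_left h3 (by linarith [hB.1])
  exact tendsto_natCast_atTop_iff.1 h2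

private theorem BadB_det (S : Stg α z x) {i j : ℤ} (h1 : i * S.a + j * S.b = 0) (h2 : i * S.p + j * S.r = 0) :
    i = 0 ∧ j = 0 := by
  have hd := S.det
  constructor
  · linear_combination (-i) * hd + S.r * h1 - (S.b : ℤ) * h2
  · linear_combination (-j) * hd - S.p * h1 + (S.a : ℤ) * h2

theorem inf_ab {c : ℝ} (hB : BA α c) {S : ℕ → Stg α z x} (hS : ∀ n, n ≤ (S n).a + (S n).b) {i j : ℤ}
    (hij : i ≠ 0 ∨ j ≠ 0) : Tendsto (fun n => |(i : ℝ) * (S n).a + j * (S n).b|) atTop atTop := by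
  obtain ⟨hc0, hc1, hBA⟩ := hB
  have hB : BA α c := ⟨hc0, hc1, hBA⟩
  rw [tendsto_atTop]
  intro C0
  set C : ℝ := max C0 1 with hC
  have hC1 : (1 : ℝ) ≤ C := le_max_right _ _
  have hm := inf_min hB hS
  rw [tendsto_atTop] at hm
  obtain ⟨N, hN⟩ := exists_nat_gt ((|(i : ℝ)| + |(j : ℝ)|) * (C / c + 1))
  filter_upwards [hm (N + 1)] with n hn
  by_contra hcon
  have hlt : |(i : ℝ) * (S n).a + j * (S n).b| < C := (not_le.1 hcon).trans_le (le_max_left _ _)
  have ha := (S n).ha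
  have hb := (S n).hb
  obtain ⟨h1, h2, h3, h4, h5, h6, h7, h8⟩ := ba_bounds hB (S n)
  set m : ℝ := ((min (S n).a (S n).b : ℕ) : ℝ) with hmdef
  have hmN : (N : ℝ) + 1 ≤ m := by
    rw [hmdef]
    exact_mod_cast hn
  have hm0 : 0 < m := by
    have : (0 : ℝ) ≤ N := Nat.cast_nonneg N
    linarith
  have hma : m ≤ (S n).a := by
    rw [hmdef]
    exact_mod_cast min_le_left _ _
  have hmb : m ≤ (S n).b := by
    rw [hmdef]
    exact_mod_cast min_le_right _ _
  have hu := u_pos (S n)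
  have hv := v_pos (S n)
  have hu1 : m * (S n).u ≤ 1 := (mul_le_mul_of_nonneg_right hmb hu.le).trans h1
  have hv1 : m * (S n).v ≤ 1 := (mul_le_mul_of_nonneg_right hma hv.le).trans h2
  have hsum : m * |(i : ℝ) * (S n).u - j * (S n).v| ≤ |(i : ℝ)| + |(j : ℝ)| := by
    have e1 : |(i : ℝ) * (S n).u - j * (S n).v| ≤ |(i : ℝ)| * (S n).u + |(j : ℝ)| * (S n).v := by
      refine (abs_sub _ _).trans ?_
      rw [abs_mul, abs_mul, abs_of_pos hu, abs_of_pos hv]
    calc m * |(i : ℝ) * (S n).u - j * (S n).v| ≤ m * (|(i : ℝ)| * (S n).u + |(j : ℝ)| * (S n).v) :=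
          mul_le_mul_of_nonneg_left e1 hm0.le
      _ = |(i : ℝ)| * (m * (S n).u) + |(j : ℝ)| * (m * (S n).v) := by ring
      _ ≤ |(i : ℝ)| * 1 + |(j : ℝ)| * 1 :=
          add_le_add (mul_le_mul_of_nonneg_left hu1 (abs_nonneg _)) (mul_le_mul_of_nonneg_left hv1 (abs_nonneg _))
      _ = _ := by ring
  set D : ℝ := |(i : ℝ) * (S n).u - j * (S n).v| with hD
  have hD0 : 0 ≤ D := abs_nonneg _
  have hNpos : (|(i : ℝ)| + |(j : ℝ)|) * (C / c + 1) < m := by linarith
  -- hence D * (C / c + 1) < 1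
  have hDlt : D * (C / c + 1) < 1 := by
    have hq : 0 < C / c + 1 := by positivity
    have e2 : m * (D * (C / c + 1)) ≤ (|(i : ℝ)| + |(j : ℝ)|) * (C / c + 1) := by
      calc m * (D * (C / c + 1)) = (m * D) * (C / c + 1) := by ring
        _ ≤ _ := mul_le_mul_of_nonneg_right hsum hq.le
    have e3 : m * (D * (C / c + 1)) < m * 1 := by linarith
    exact lt_of_mul_lt_mul_left e3 hm0.le
  have hDC : D * C < c := by
    have e4 : D * (C / c) < 1 := by nlinarith
    have e5 : D * (C / c) = D * C / c := by ring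
    rw [e5, div_lt_one hc0] at e4
    exact e4
  have hD1 : D < 1 := by
    have hq : 0 ≤ D * (C / c) := by positivity
    nlinarith
  have key : ((i * (S n).a + j * (S n).b : ℤ) : ℝ) * α - ((i * (S n).p + j * (S n).r : ℤ) : ℝ) =
      (i : ℝ) * (S n).u - j * (S n).v := by
    push_cast
    unfold Stg.u Stg.v
    ring
  have hs0 : i * (S n).a + j * (S n).b = 0 := by
    by_contra hs
    set s : ℤ := i * (S n).a + j * (S n).b with hsdef
    have hQ : 1 ≤ s.natAbs := Int.natAbs_pos.2 hs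
    have hle : ((s.natAbs : ℕ) : ℝ) ≤ C := by
      have e6 : ((s.natAbs : ℕ) : ℝ) = |(s : ℝ)| := by
        rw [Nat.cast_natAbs]
        push_cast
        rfl
      rw [e6, hsdef]
      push_cast
      exact hlt.le
    rcases abs_choice s with h | h
    · have e7 := hBA s.natAbs (i * (S n).p + j * (S n).r) hQ
      have e8 : ((s.natAbs : ℕ) : ℝ) = (s : ℝ) := by
        rw [Nat.cast_natAbs, h]
      rw [e8] at e7 hle
      rw [key, ← hD] at e7
      have e9 : (s : ℝ) * D ≤ C * D := mul_le_mul_of_nonneg_right hle hD0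
      linarith
    · have e7 := hBA s.natAbs (-(i * (S n).p + j * (S n).r)) hQ
      have e8 : ((s.natAbs : ℕ) : ℝ) = -(s : ℝ) := by
        rw [Nat.cast_natAbs, h]
        push_cast
        rfl
      rw [e8] at e7 hle
      have e10 : -(s : ℝ) * α - ((-(i * (S n).p + j * (S n).r) : ℤ) : ℝ) = -((i : ℝ) * (S n).u - j * (S n).v) := by
        rw [← key]
        push_cast
        ring
      rw [e10, abs_neg, ← hD] at e7
      have e9 : -(s : ℝ) * D ≤ C * D := mul_le_mul_of_nonneg_right hle hD0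
      linarith
  have ht0 : i * (S n).p + j * (S n).r = 0 := by
    rw [hs0] at key
    have e11 : |(((i * (S n).p + j * (S n).r : ℤ)) : ℝ)| < 1 := by
      have e12 : ((i * (S n).p + j * (S n).r : ℤ) : ℝ) = -((i : ℝ) * (S n).u - j * (S n).v) := by
        rw [← key]
        push_cast
        ring
      rw [e12, abs_neg]
      exact hD1
    have e13 : |i * (S n).p + j * (S n).r| < 1 := by exact_mod_cast e11
    exact Int.abs_lt_one_iff.1 e13
  obtain ⟨hi, hj⟩ := BadB_det (S n) hs0 ht0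
  rcases hij with h | h
  · exact h hi
  · exact h hj

end Pool.Agent.TRN
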