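import Pool.Agent.TRN.Defs
import Pool.Agent.Helper62.Mandel.Final

set_option autoImplicit false

/-!
# TRN-Base: reduction to the first quadrant

PLAN. Copy the argument of `Pool/Agent/Results/MP_5dd2d4_an/MinimumModulus.lean` (`localization_coords`, `sign_rule`, `series_unique`, `ident_exact`, `lower_bound`, `exists_isMin`, `isMin_of_norm_eq`, `realClass_of_mandelbrot`). Given `q` (non-real, in `mandelbrot`, of minimal modulus) replace it by the one of `q, -q, conj q, -conj q`
in the open first quadrant (`re ≠ 0` by the localisation); `d k` the integer signs of the series (`|c k| = 1`). `oth`: `w` non-real, `‖w‖ = ‖q‖`, a zero of the same `± 1` series: it is in `mandelbrot` (`mem_mandelbrot_iff`), so localised up to signs of the coordinates; if `w.re < 0` then `ident_exact` for `-w` and the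
coefficients `(-1)^k d k` would give `-d 1 = fc 1 = -1`, but `d 1 = fc 1 = -1`. (`w.re ≠ 0` by the localisation.)
The functions agree: `fc.getD` and `coefOf signs` (see `coeffs_eq` there); `X0`, `Y0`; `mo` is `mom 1`.
-/

namespace Pool.Agent.TRN

open scoped ComplexConjugate

private lemma Base_rup_eq : Pool.Agent.Helper62.Mandel.rup =
    (635606390391455492692046961204 : ℝ) / 10 ^ 30 := by
  norm_num [Pool.Agent.Helper62.Mandel.rup, Pool.Agent.Helper62.Mandel.rupN,
    Pool.Agent.Helper62.Mandel.den]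

private lemma Base_rlow_eq : Pool.Agent.Helper62.Mandel.rlow =
    (635606390391455492692046961203 : ℝ) / 10 ^ 30 := by
  norm_num [Pool.Agent.Helper62.Mandel.rlow, Pool.Agent.Helper62.Mandel.rlowN,
    Pool.Agent.Helper62.Mandel.den]

private lemma Base_neg_mem {q : ℂ} (h : q ∈ Pool.Agent.Helper62.Mandel.mandelbrot) :
    -q ∈ Pool.Agent.Helper62.Mandel.mandelbrot := by
  rw [Pool.Agent.Helper62.Mandel.mem_mandelbrot_iff] at *
  obtain ⟨h1, a, h0, ha, hv⟩ := h
  refine ⟨by simpa using h1, fun k => (-1) ^ k * a k, by simp [h0], fun k => ?_, hv.neg⟩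
  rcases neg_one_pow_eq_or ℝ k with h2 | h2 <;> rcases ha k with h3 | h3 | h3 <;>
    simp [h2, h3]

private lemma Base_conj_mem {q : ℂ} (h : q ∈ Pool.Agent.Helper62.Mandel.mandelbrot) :
    conj q ∈ Pool.Agent.Helper62.Mandel.mandelbrot := by
  rw [Pool.Agent.Helper62.Mandel.mem_mandelbrot_iff] at *
  obtain ⟨h1, a, h0, ha, hv⟩ := h
  exact ⟨by simpa using h1, a, h0, ha, hv.conj⟩

private lemma Base_coeffs_eq (k : ℕ) (hk : k ≤ 130) :
    Pool.Agent.Helper62.Mandel.coefOf Pool.Agent.Helper62.Mandel.signs k =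
      ((fc.getD k 0 : ℤ) : ℝ) := by
  interval_cases k <;>
    simp [Pool.Agent.Helper62.Mandel.coefOf, Pool.Agent.Helper62.Mandel.signs, fc]

private lemma Base_loc {q : ℂ} (hq : q ∈ Pool.Agent.Helper62.Mandel.mandelbrot)
    (him : q.im ≠ 0) (hup : ‖q‖ ≤ Pool.Agent.Helper62.Mandel.rup) :
    |(|q.re| - X0)| < 1 / 10 ^ 28 ∧ |(|q.im| - Y0)| < 1 / 10 ^ 28 := by
  have := Pool.Agent.Helper62.Mandel.localization_coords him
    (Pool.Agent.Helper62.Mandel.realClass_of_mandelbrot hq) hup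
  simpa [X0, Y0, Pool.Agent.Helper62.Mandel.x0, Pool.Agent.Helper62.Mandel.y0,
    Pool.Agent.Helper62.Mandel.q0re, Pool.Agent.Helper62.Mandel.q0im] using this

private lemma Base_re_ne {q : ℂ} (hq : q ∈ Pool.Agent.Helper62.Mandel.mandelbrot)
    (him : q.im ≠ 0) (hup : ‖q‖ ≤ Pool.Agent.Helper62.Mandel.rup) : q.re ≠ 0 := by
  intro h
  have h1 := (Base_loc hq him hup).1
  rw [h, abs_zero, zero_sub, abs_neg, abs_of_pos (by norm_num [X0])] at h1
  norm_num [X0] at h1

/-- the data of a minimal point in the open first quadrant -/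
private lemma Base_ext {q : ℂ} (hq : q ∈ Pool.Agent.Helper62.Mandel.mandelbrot)
    (hre : 0 < q.re) (him : 0 < q.im) (hlt : ‖q‖ < Pool.Agent.Helper62.Mandel.rup)
    (hmin : Pool.Agent.Helper62.Mandel.IsMin q) : ∃ d : ℕ → ℤ, Ext q d := by
  have him0 : q.im ≠ 0 := him.ne'
  have hup := hlt.le
  obtain ⟨c, h0, hc, hv⟩ := Pool.Agent.Helper62.Mandel.realClass_of_mandelbrot hq
  have hsign := fun k hk => Pool.Agent.Helper62.Mandel.sign_rule him0 hup hmin h0 hc hv k hk
  have habs : ∀ k, |c k| = 1 := by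
    intro k
    rcases Nat.eq_zero_or_pos k with rfl | hk
    · rw [h0]; simp
    · exact (hsign k hk).2
  have hpm : ∀ k, c k = 1 ∨ c k = -1 := by
    intro k
    have h1 := habs k
    rcases abs_choice (c k) with h | h
    · left; rw [← h, h1]
    · right; rw [h] at h1; linarith
  obtain ⟨d, hd⟩ : ∃ d : ℕ → ℤ, ∀ k, (d k = 1 ∨ d k = -1) ∧ ((d k : ℤ) : ℝ) = c k := by
    have : ∀ k, ∃ e : ℤ, (e = 1 ∨ e = -1) ∧ ((e : ℤ) : ℝ) = c k := by
      intro k
      rcases hpm k with h | h
      · exact ⟨1, Or.inl rfl, by rw [h]; simp⟩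
      · exact ⟨-1, Or.inr rfl, by rw [h]; simp⟩
    exact ⟨fun k => (this k).choose, fun k => (this k).choose_spec⟩
  have hdc : ∀ k, ((d k : ℤ) : ℂ) = ((c k : ℝ) : ℂ) := by
    intro k
    rw [← (hd k).2]
    simp
  have hmo : mo d q = Pool.Agent.Helper62.Mandel.mom 1 c q := by
    unfold mo Pool.Agent.Helper62.Mandel.mom
    refine tsum_congr fun k => ?_
    rw [hdc k, pow_one]
  have hcd : ∀ k, k ≤ 130 → c k = ((fc.getD k 0 : ℤ) : ℝ) := by
    intro k hk
    rw [← Base_coeffs_eq k hk]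
    exact Pool.Agent.Helper62.Mandel.ident_exact him0 hre.le hup h0 hc hv k hk (habs k)
  have hfst : ∀ k, k ≤ 130 → d k = fc.getD k 0 := by
    intro k hk
    have h1 := hcd k hk
    rw [← (hd k).2] at h1
    exact_mod_cast h1
  refine ⟨d, hre, him, ?_, ?_, ?_, fun k => (hd k).1, ?_, ?_, hfst, ?_, ?_⟩
  · rw [← Base_rlow_eq]
    exact Pool.Agent.Helper62.Mandel.lower_bound him0
      (Pool.Agent.Helper62.Mandel.realClass_of_mandelbrot hq)
  · rw [← Base_rup_eq]
    exact hlt
  · have h1 := (hd 0).2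
    rw [h0] at h1
    exact_mod_cast h1
  · have h1 : HasSum (fun k => ((c k : ℝ) : ℂ) * q ^ k) 0 := hv
    have h2 : (fun k => ((d k : ℤ) : ℂ) * q ^ k) = fun k => ((c k : ℝ) : ℂ) * q ^ k := by
      ext k
      rw [hdc k]
    rw [h2]
    exact h1
  · intro k hk
    rw [hmo, (hd k).2]
    exact (hsign k hk).1
  · have h1 := Base_loc hq him0 hup
    rw [abs_of_pos hre, abs_of_pos him] at h1
    exact h1
  · intro w hwim hwn hw
    have hv' : Pool.Agent.Helper62.Mandel.Vanish c w := by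
      show HasSum (fun k => ((c k : ℝ) : ℂ) * w ^ k) 0
      have h2 : (fun k => ((c k : ℝ) : ℂ) * w ^ k) = fun k => ((d k : ℤ) : ℂ) * w ^ k := by
        ext k
        rw [hdc k]
      rw [h2]
      exact hw
    have hwup : ‖w‖ ≤ Pool.Agent.Helper62.Mandel.rup := by rw [hwn]; exact hup
    have hwm : w ∈ Pool.Agent.Helper62.Mandel.mandelbrot := by
      rw [Pool.Agent.Helper62.Mandel.mem_mandelbrot_iff]
      refine ⟨?_, c, h0, fun k => Or.inr (hpm k), hv'⟩
      refine lt_of_le_of_lt hwup ?_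
      rw [Base_rup_eq]
      norm_num
    have hl := Base_loc hwm hwim hwup
    have hwre := Base_re_ne hwm hwim hwup
    rcases lt_or_gt_of_ne hwre with h | h
    · exfalso
      have h1 := Pool.Agent.Helper62.Mandel.ident_exact (q := -w)
        (c := fun k => (-1) ^ k * c k) (by simpa using hwim)
        (by
          rw [Complex.neg_re]
          linarith)
        (by simpa using hwup) (by simp [h0])
        (fun k => by
          rw [abs_mul, abs_pow, abs_neg, abs_one, one_pow, one_mul]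
          exact hc k) hv'.neg 1 (by norm_num)
        (by
          rw [abs_mul, abs_pow, abs_neg, abs_one, one_pow, one_mul]
          exact habs 1)
      rw [Base_coeffs_eq 1 (by norm_num), ← hcd 1 (by norm_num)] at h1
      rcases hpm 1 with h2 | h2 <;> norm_num [h2] at h1
    · rw [abs_of_pos h] at hl
      exact hl

theorem base {q : ℂ} (hq : q ∈ Pool.Agent.Helper62.Mandel.mandelbrot) (him : q.im ≠ 0)
    (hmin : ∀ w ∈ Pool.Agent.Helper62.Mandel.mandelbrot, w.im ≠ 0 → ‖q‖ ≤ ‖w‖) :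
    ∃ (q' : ℂ) (d : ℕ → ℤ), Ext q' d ∧ (q' = q ∨ q' = -q ∨ q' = conj q ∨ q' = -conj q) := by
  obtain ⟨q0, hq0M, hq0im, hq0lt, hq0min⟩ := Pool.Agent.Helper62.Mandel.exists_isMin
  have hn : ‖q‖ = ‖q0‖ := le_antisymm (hmin q0 hq0M hq0im)
    (hq0min q him (Pool.Agent.Helper62.Mandel.realClass_of_mandelbrot hq))
  have hlt : ‖q‖ < Pool.Agent.Helper62.Mandel.rup := by rw [hn]; exact hq0lt
  have hre := Base_re_ne hq him hlt.le
  have key : ∀ q' : ℂ, q' ∈ Pool.Agent.Helper62.Mandel.mandelbrot → 0 < q'.re → 0 < q'.im →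
      ‖q'‖ = ‖q‖ → ∃ d : ℕ → ℤ, Ext q' d := by
    intro q' h1 h2 h3 h4
    refine Base_ext h1 h2 h3 (by rw [h4]; exact hlt) ?_
    exact Pool.Agent.Helper62.Mandel.isMin_of_norm_eq hq0min (by rw [h4, hn])
  rcases lt_or_gt_of_ne hre with h | h <;> rcases lt_or_gt_of_ne him with h' | h'
  · obtain ⟨d, hd⟩ := key (-q) (Base_neg_mem hq) (by simpa using h) (by simpa using h')
      (by simp)
    exact ⟨-q, d, hd, Or.inr (Or.inl rfl)⟩
  · obtain ⟨d, hd⟩ := key (-conj q) (Base_neg_mem (Base_conj_mem hq)) (by simpa using h)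
      (by simpa using h') (by simp)
    exact ⟨-conj q, d, hd, Or.inr (Or.inr (Or.inr rfl))⟩
  · obtain ⟨d, hd⟩ := key (conj q) (Base_conj_mem hq) (by simpa using h) (by simpa using h')
      (by simp)
    exact ⟨conj q, d, hd, Or.inr (Or.inr (Or.inl rfl))⟩
  · obtain ⟨d, hd⟩ := key q hq h h' rfl
    exact ⟨q, d, hd, Or.inl rfl⟩

end Pool.Agent.TRN
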