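import Pool.Agent.TRN.Defs

set_option autoImplicit false

/-!
# TRN-BiA: evaluation

PLAN. `ev2_C`, `ev2_X`: `eval₂_C`, `eval₂_X`. `ev2_GM`: `map_sum`. `ev2_RM`: `map_sum`, `map_mul`, `map_pow`. `ev2_sum`: `Polynomial.eval₂_eq_sum_range'` (or `as_sum_range'` and `map_sum`) twice.
`rm_coeff`: for `s ≤ M`, `s ≤ M'`: every coefficient (a polynomial in the inner variable) of `GM e M - GM e M'` is divisible by `X ^ (min M M' + 1)`; `C (X ^ (m + 1)) ∣ GM e M - GM e M'`, so
`C (X ^ (m + 1)) ∣ GM e M ^ k - GM e M' ^ k` (`sub_dvd_pow_sub_pow`), hence it divides `RM e L E M - RM e L E M'` (`Finset.dvd_sum`), and the coefficient `s ≤ m` of a polynomial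
divisible by `X ^ (m + 1)` is zero (`Polynomial.C_dvd_iff_dvd_coeff`, `Polynomial.X_pow_dvd_iff`).
-/

namespace Pool.Agent.TRN

open Polynomial

theorem ev2_C (x y : ℂ) (R : ℤ[X]) : ev2 x y (C R) = aeval x R := by
  simp [ev2]

theorem ev2_X (x y : ℂ) : ev2 x y (X : Polynomial (Polynomial ℤ)) = y := by
  simp [ev2]

theorem ev2_GM (e : ℕ → ℕ) (M : ℕ) (x y : ℂ) : ev2 x y (GM e M) = ∑ i ∈ Finset.range (M + 1), x ^ i * y ^ e i := by
  unfold GM
  rw [map_sum]
  refine Finset.sum_congr rfl fun i _ => ?_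
  rw [map_mul, map_pow (ev2 x y) X (e i), ev2_X, ev2_C, map_pow, aeval_X]

theorem ev2_RM (e : ℕ → ℕ) (L : ℕ) (E : Ix L → ℤ) (M : ℕ) (x y : ℂ) :
    ev2 x y (RM e L E M) = Ev L E x y (∑ i ∈ Finset.range (M + 1), x ^ i * y ^ e i) := by
  unfold RM Ev
  rw [map_sum]
  refine Finset.sum_congr rfl fun t _ => ?_
  rw [map_mul, map_mul, map_mul, map_pow (ev2 x y) (GM e M), ev2_GM, map_pow (ev2 x y) X, ev2_X, ev2_C, ev2_C,
    map_pow, aeval_X, aeval_C]
  simp

/-- the expansion of a polynomial of two variables; all degrees are `< N` -/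
theorem ev2_sum (R : Polynomial (Polynomial ℤ)) : ∃ N : ℕ, (∀ s t : ℕ, N ≤ s ∨ N ≤ t → (R.coeff t).coeff s = 0) ∧
    ∀ x y : ℂ, ev2 x y R = ∑ t ∈ Finset.range N, ∑ s ∈ Finset.range N, (((R.coeff t).coeff s : ℤ) : ℂ) * (x ^ s * y ^ t) := by
  set N : ℕ := (R.natDegree + 1) + ∑ t ∈ Finset.range (R.natDegree + 1), ((R.coeff t).natDegree + 1) with hN
  have h1 : R.natDegree < N := by omega
  have h2 : ∀ t : ℕ, (R.coeff t).natDegree < N := by
    intro t
    by_cases ht : t < R.natDegree + 1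
    · have := Finset.single_le_sum (f := fun t => (R.coeff t).natDegree + 1) (fun i _ => Nat.zero_le _)
        (Finset.mem_range.2 ht)
      omega
    · rw [coeff_eq_zero_of_natDegree_lt (by omega)]
      simp only [natDegree_zero]
      omega
  refine ⟨N, ?_, ?_⟩
  · rintro s t (h | h)
    · exact coeff_eq_zero_of_natDegree_lt (lt_of_lt_of_le (h2 t) h)
    · rw [coeff_eq_zero_of_natDegree_lt (lt_of_lt_of_le h1 h), coeff_zero]
  · intro x y
    have h3 : ev2 x y R = ∑ t ∈ Finset.range N, aeval x (R.coeff t) * y ^ t := by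
      unfold ev2
      rw [coe_eval₂RingHom, eval₂_eq_sum_range' _ h1]
      rfl
    rw [h3]
    refine Finset.sum_congr rfl fun t _ => ?_
    rw [aeval_eq_sum_range' (h2 t), Finset.sum_mul]
    refine Finset.sum_congr rfl fun s _ => ?_
    rw [zsmul_eq_mul]
    ring

end Pool.Agent.TRN
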