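import Pool.Agent.TRN.Gfa

set_option autoImplicit false

/-!
# TRN-Gfp: the main formula

PLAN. `gf_lt`: `Summable.tsum_eq_zero_add`; `⌊y / v⌋₊ = 0`; `(y + (i + 1) u) / v = ((y + u) + i u) / v`. `gf_ge`: `⌊(y + i u) / v⌋₊ = ⌊(y - v + i u) / v⌋₊ + 1`
(`Nat.floor_add_one`, `(y - v + i u) / v ≥ 0`). `gf_bound`: terms of norm `≤ ‖X‖ ^ i`.
`gf_ph`: `D y = (1 - Y) Ph y - B + 2 Y G y` on `[0, u + v)`: `D y = X D (y + u)` if `y < v` (uses `idn`, `fA`, `gf_lt`), `D y = Y D (y - v)` if `v ≤ y` (`fB`, `gf_ge`).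
With `l = max ‖X‖ ‖Y‖ < 1` and a bound `‖D y‖ ≤ M` on `[0, u + v)` (`ph_bound`, `gf_bound`): by induction on `n`, `‖D y‖ ≤ l ^ n * M` for all `y` in `[0, u + v)`, so `D = 0`.
`nd_eq`: `fP`, `gf_ph` for `y0`, multiply `κ = Pr + ep z^k0 Ph y0` by `(1 - Y)` and by `ep` (`ep * ep = 1`).
-/

namespace Pool.Agent.TRN

open Polynomial

private noncomputable def Gfp_D {α : ℝ} {z : ℂ} {x : ℝ} (S : Stg α z x) (y : ℝ) : ℂ :=
  (1 - S.Y) * Ph α z y - aeval z S.B + 2 * S.Y * Gf S.u S.v y S.X S.Y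

private theorem Gfp_nX {α : ℝ} {z : ℂ} {x : ℝ} (hz : ‖z‖ < 1) (S : Stg α z x) : ‖S.X‖ ≤ ‖z‖ := by
  rw [norm_X]
  exact pow_le_of_le_one (norm_nonneg _) hz.le (by have := S.ha; omega)

private theorem Gfp_nY {α : ℝ} {z : ℂ} {x : ℝ} (hz : ‖z‖ < 1) (S : Stg α z x) : ‖S.Y‖ ≤ ‖z‖ := by
  rw [norm_Y]
  exact pow_le_of_le_one (norm_nonneg _) hz.le (by have := S.hb; omega)

private theorem Gfp_lt {α : ℝ} {z : ℂ} {x : ℝ} (hz : ‖z‖ < 1) (S : Stg α z x) {y : ℝ} (hy : 0 ≤ y) (hy1 : y < S.v) :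
    Gfp_D S y = S.X * Gfp_D S (y + S.u) := by
  have h1 := S.fA y hy hy1
  have h2 : Ph α z y = aeval z S.A + S.X * Ph α z (y + S.u) := h1
  have h3 := gf_lt (u := S.u) (X := S.X) (Y := S.Y) (lt_of_le_of_lt hy hy1) hy hy1
    (lt_of_le_of_lt (Gfp_nX hz S) hz) (le_trans (Gfp_nY hz S) hz.le)
  have h4 : aeval z S.A * (1 - S.Y) - aeval z S.B * (1 - S.X) = -2 * S.Y := S.idn
  simp only [Gfp_D]
  rw [h2, h3]
  linear_combination h4

private theorem Gfp_ge {α : ℝ} {z : ℂ} {x : ℝ} (S : Stg α z x) {y : ℝ} (hy : S.v ≤ y) (hy1 : y < S.u + S.v) :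
    Gfp_D S y = S.Y * Gfp_D S (y - S.v) := by
  have h1 := S.fB y hy hy1
  have h2 : Ph α z y = aeval z S.B + S.Y * Ph α z (y - S.v) := h1
  have hu : 0 < S.u := S.hu
  have hv : 0 < S.v := S.hv
  have h3 := gf_ge (X := S.X) (Y := S.Y) hu.le hv hy
  simp only [Gfp_D]
  rw [h2, h3]
  ring

private theorem Gfp_bound {α : ℝ} {z : ℂ} {x : ℝ} (hz : ‖z‖ < 1) (S : Stg α z x) : ∃ M : ℝ, 0 ≤ M ∧
    ∀ (n : ℕ) (y : ℝ), 0 ≤ y → y < S.u + S.v → ‖Gfp_D S y‖ ≤ ‖z‖ ^ n * M := by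
  have hX : ‖S.X‖ < 1 := lt_of_le_of_lt (Gfp_nX hz S) hz
  have hY : ‖S.Y‖ ≤ 1 := le_trans (Gfp_nY hz S) hz.le
  have hz1 : 0 < 1 - ‖z‖ := by linarith
  have hX1 : 0 < 1 - ‖S.X‖ := by linarith
  have hu : 0 < S.u := S.hu
  have hv : 0 < S.v := S.hv
  refine ⟨2 * (1 / (1 - ‖z‖)) + ‖aeval z S.B‖ + 2 * (1 / (1 - ‖S.X‖)), by positivity, fun n => ?_⟩
  induction n with
  | zero =>
    intro y _ _
    rw [pow_zero, one_mul]
    have h1 := ph_bound (α := α) hz y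
    have h2 := gf_bound (u := S.u) (v := S.v) (y := y) hX hY
    have h3 : ‖1 - S.Y‖ ≤ 2 := by
      have h4 := norm_sub_le (1 : ℂ) S.Y
      rw [norm_one] at h4
      linarith
    have h5 : ‖(1 - S.Y) * Ph α z y‖ ≤ 2 * (1 / (1 - ‖z‖)) := by
      rw [norm_mul]
      exact mul_le_mul h3 h1 (norm_nonneg _) (by norm_num)
    have h6 : ‖2 * S.Y * Gf S.u S.v y S.X S.Y‖ ≤ 2 * (1 / (1 - ‖S.X‖)) := by
      rw [norm_mul, norm_mul, Complex.norm_ofNat]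
      have h7 : 2 * ‖S.Y‖ ≤ 2 := by linarith
      exact mul_le_mul h7 h2 (norm_nonneg _) (by norm_num)
    simp only [Gfp_D]
    refine le_trans (norm_add_le _ _) (add_le_add (le_trans (norm_sub_le _ _) (add_le_add h5 le_rfl)) h6)
  | succ n ih =>
    intro y hy hy1
    rcases lt_or_ge y S.v with h | h
    · rw [Gfp_lt hz S hy h, norm_mul, pow_succ', mul_assoc]
      exact mul_le_mul (Gfp_nX hz S) (ih _ (by linarith) (by linarith)) (norm_nonneg _) (norm_nonneg _)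
    · rw [Gfp_ge S h hy1, norm_mul, pow_succ', mul_assoc]
      exact mul_le_mul (Gfp_nY hz S) (ih _ (by linarith) (by linarith)) (norm_nonneg _) (norm_nonneg _)

private theorem Gfp_zero {α : ℝ} {z : ℂ} {x : ℝ} (hz : ‖z‖ < 1) (S : Stg α z x) {y : ℝ} (hy : 0 ≤ y)
    (hy1 : y < S.u + S.v) : Gfp_D S y = 0 := by
  obtain ⟨M, _, hM⟩ := Gfp_bound hz S
  have h1 : Filter.Tendsto (fun n : ℕ => ‖z‖ ^ n * M) Filter.atTop (nhds (0 * M)) :=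
    (tendsto_pow_atTop_nhds_zero_of_lt_one (norm_nonneg _) hz).mul_const M
  rw [zero_mul] at h1
  have h2 : ‖Gfp_D S y‖ ≤ 0 := ge_of_tendsto' h1 fun n => hM n y hy hy1
  exact norm_le_zero_iff.1 h2

theorem gf_ph {α : ℝ} {z : ℂ} {x : ℝ} (hz : ‖z‖ < 1) (S : Stg α z x) {y : ℝ} (hy : 0 ≤ y) (hy1 : y < S.u + S.v) :
    (1 - S.Y) * Ph α z y = aeval z S.B - 2 * S.Y * Gf S.u S.v y S.X S.Y := by
  have h1 := Gfp_zero hz S hy hy1
  simp only [Gfp_D] at h1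
  linear_combination h1

theorem nd_eq {α : ℝ} {z : ℂ} {x : ℝ} (hz : ‖z‖ < 1) (S : Stg α z x) {κ : ℤ} (hκ : Ph α z x = κ) :
    aeval z (Dn S) * S.g = aeval z (Nn κ S) := by
  have h1 := gf_ph hz S S.hy0 S.hy1
  have h2 := S.fP
  have hg : S.g = Gf S.u S.v S.y0 S.X S.Y := rfl
  have hY : S.Y = (sg S.r : ℂ) * z ^ S.b := rfl
  have h3 : aeval z (Dn S) = 2 * (S.ep : ℂ) * z ^ S.k0 * S.Y := by
    rw [hY, Dn]
    simp only [map_mul, map_pow, aeval_X, eq_intCast, map_intCast, map_ofNat]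
    ring
  have h4 : aeval z (Nn κ S) = (S.ep : ℂ) * z ^ S.k0 * aeval z S.B - (1 - S.Y) * ((κ : ℂ) - aeval z S.Pr) := by
    rw [hY, Nn]
    simp only [map_mul, map_sub, map_pow, aeval_X, eq_intCast, map_intCast, map_one]
  rw [h3, h4, ← hκ, h2, hg]
  linear_combination ((S.ep : ℂ) * z ^ S.k0) * h1

end Pool.Agent.TRN
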