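import Pool.Agent.TRN.BadB

set_option autoImplicit false

/-!
# TRN-Limb: limits along an ultrafilter

PLAN. `U = Filter.hyperfilter ℕ` (`Nat.hyperfilter_le_atTop` or `hyperfilter_le_cofinite`, `Nat.cofinite_eq_atTop`). `u_n / v_n ∈ Icc c (1 / c)` (`ba_bounds`), compact: there is `β` in it
with `Tendsto (fun n => u_n / v_n) U (𝓝 β)` (`IsCompact.ultrafilter_le_nhds`, for `U.map ..`). For every `i` the number `⌊(y_n + i u_n) / v_n⌋₊` is `≤ (i + 1) / c + 1` (`y_n < u_n + v_n`), so it takes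
finitely many values and one value `e i` is taken `U`-eventually (`Ultrafilter.eventually_exists_mem_iff`, or `Filter.Eventually` with a finite union:
`Ultrafilter.finite_biUnion_mem_iff`). `|e_i - i β_n| ≤ 1 / c + 2` `U`-eventually, so in the limit `|e_i - i β| ≤ 1 / c + 3`.
`β` irrational: if `β = s / t` (`t ≥ 1`, `s ≥ 1` integers), then for all `n` `BA` for `Q = t a_n + s b_n`, `P = t p_n + s r_n` gives `c ≤ Q |t u_n - s v_n| = Q v_n |t β_n - s|`, and `v_n ≤ 1 / a_n`,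
`Q ≤ a_n (t + s / c)`, so `c ≤ (t + s / c) |t β_n - s| → 0`, a contradiction.
-/

namespace Pool.Agent.TRN

open Polynomial Filter Topology

private theorem Limb_w {α : ℝ} {z : ℂ} {x : ℝ} {c : ℝ} (hB : BA α c) (S : Stg α z x) :
    c ≤ S.u / S.v ∧ S.u / S.v ≤ 1 / c := by
  obtain ⟨-, -, -, -, -, -, h7, h8⟩ := ba_bounds hB S
  have hv := v_pos S
  have hc := hB.1
  constructor
  · rw [le_div_iff₀ hv]
    exact h7
  · rw [div_le_div_iff₀ hv hc]
    linarith

private theorem Limb_y {α : ℝ} {z : ℂ} {x : ℝ} {c : ℝ} (hB : BA α c) (S : Stg α z x) :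
    0 ≤ S.y0 / S.v ∧ S.y0 / S.v ≤ 1 / c + 1 := by
  have hv := v_pos S
  have hc := hB.1
  obtain ⟨h1, h2⟩ := Limb_w hB S
  refine ⟨div_nonneg S.hy0 hv.le, ?_⟩
  have h3 : S.y0 < S.u + S.v := S.hy1
  have h4 : S.y0 / S.v ≤ (S.u + S.v) / S.v := by
    gcongr
  rw [add_div, div_self hv.ne'] at h4
  linarith

private theorem Limb_fl {α : ℝ} {z : ℂ} {x : ℝ} {c : ℝ} (hB : BA α c) (S : Stg α z x) (i : ℕ) :
    |((⌊(S.y0 + i * S.u) / S.v⌋₊ : ℕ) : ℝ) - i * (S.u / S.v)| ≤ 1 / c + 2 := by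
  obtain ⟨h1, h2⟩ := Limb_y hB S
  obtain ⟨h3, h4⟩ := Limb_w hB S
  have hc := hB.1
  have hi : (0 : ℝ) ≤ i := Nat.cast_nonneg i
  have hE : (S.y0 + i * S.u) / S.v = S.y0 / S.v + i * (S.u / S.v) := by ring
  have h5 : 0 ≤ (S.y0 + i * S.u) / S.v := by
    rw [hE]
    have : 0 ≤ i * (S.u / S.v) := mul_nonneg hi (hc.le.trans h3)
    linarith
  have h6 := Nat.floor_le h5
  have h7 := Nat.lt_floor_add_one ((S.y0 + i * S.u) / S.v)
  rw [hE] at h6 h7 ⊢
  rw [abs_le]
  have hcc : 0 < 1 / c := by positivity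
  constructor <;> linarith

theorem lim_ex {α : ℝ} {z : ℂ} {x : ℝ} {c : ℝ} (hB : BA α c) (S : ℕ → Stg α z x) :
    ∃ (U : Ultrafilter ℕ) (e : ℕ → ℕ) (β : ℝ), Lim S U e β := by
  have hc := hB.1
  let U : Ultrafilter ℕ := Filter.hyperfilter ℕ
  have htop : (U : Filter ℕ) ≤ Filter.atTop := Nat.hyperfilter_le_atTop
  let w : ℕ → ℝ := fun n => (S n).u / (S n).v
  have hw : ∀ n, w n ∈ Set.Icc c (1 / c) := fun n => Limb_w hB (S n)
  have hmap : ((U.map w : Ultrafilter ℝ) : Filter ℝ) ≤ Filter.principal (Set.Icc c (1 / c)) := by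
    rw [Filter.le_principal_iff]
    exact Filter.mem_map.2 (Filter.univ_mem' hw)
  obtain ⟨β, hβ, hlim⟩ := isCompact_Icc.ultrafilter_le_nhds (U.map w) hmap
  have ht : Tendsto w (U : Filter ℕ) (𝓝 β) := hlim
  -- the eventual values of the floors
  have hex : ∀ i : ℕ, ∃ m : ℕ, ∀ᶠ n in (U : Filter ℕ), ⌊((S n).y0 + i * (S n).u) / (S n).v⌋₊ = m := by
    intro i
    obtain ⟨N, hN⟩ := exists_nat_gt ((i : ℝ) * (1 / c) + (1 / c + 2))
    have hfin : (Set.Iio N : Set ℕ).Finite := Set.finite_Iio N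
    have hall : ∀ᶠ n in (U : Filter ℕ), ∃ m ∈ (Set.Iio N : Set ℕ), ⌊((S n).y0 + i * (S n).u) / (S n).v⌋₊ = m := by
      refine Filter.Eventually.of_forall fun n => ⟨_, ?_, rfl⟩
      have h1 := Limb_fl hB (S n) i
      have h2 := (hw n).2
      have hi : (0 : ℝ) ≤ i := Nat.cast_nonneg i
      have h3 : (i : ℝ) * w n ≤ i * (1 / c) := mul_le_mul_of_nonneg_left h2 hi
      have h4 := (abs_le.1 h1).2
      have h5 : ((⌊((S n).y0 + i * (S n).u) / (S n).v⌋₊ : ℕ) : ℝ) < N := by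
        have h6 : (i : ℝ) * ((S n).u / (S n).v) ≤ i * (1 / c) := h3
        linarith
      exact_mod_cast h5
    obtain ⟨m, -, hm⟩ := (Ultrafilter.eventually_exists_mem_iff hfin).1 hall
    exact ⟨m, hm⟩
  choose e he using hex
  refine ⟨U, e, β, htop, ?_, hc.trans_le hβ.1, ⟨1 / c + 2, fun i => ?_⟩, he⟩
  · -- irrationality
    rintro ⟨q, hq⟩
    have hβ0 : 0 < β := hc.trans_le hβ.1
    have hq0 : 0 < q := by
      have : (0 : ℝ) < q := by rw [hq]; exact hβ0
      exact_mod_cast this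
    have hs : 0 < q.num := Rat.num_pos.2 hq0
    set t : ℕ := q.den with htd
    have ht1 : 1 ≤ t := q.den_pos
    obtain ⟨s, hsn⟩ : ∃ s : ℕ, q.num = s := ⟨q.num.toNat, by omega⟩
    have hs1 : 1 ≤ s := by omega
    have htβ : (t : ℝ) * β = s := by
      have h1 : (q : ℝ) * (q.den : ℝ) = (q.num : ℝ) := by
        exact_mod_cast Rat.mul_den_eq_num q
      rw [← hq, mul_comm, h1, hsn]
      push_cast
      rfl
    have key : ∀ n, c ≤ ((t : ℝ) + s / c) * |(t : ℝ) * w n - s| := by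
      intro n
      have ha : (1 : ℝ) ≤ (S n).a := by exact_mod_cast (S n).ha
      have hv := v_pos (S n)
      obtain ⟨b1, b2, b3, b4, b5, b6, b7, b8⟩ := ba_bounds hB (S n)
      have hQ : 1 ≤ t * (S n).a + s * (S n).b := by
        have h1 : 1 ≤ t * (S n).a := Nat.mul_pos ht1 (S n).ha
        omega
      have h1 := hB.2.2 (t * (S n).a + s * (S n).b) ((t : ℤ) * (S n).p + s * (S n).r) hQ
      have h2 : ((t * (S n).a + s * (S n).b : ℕ) : ℝ) * α - (((t : ℤ) * (S n).p + s * (S n).r : ℤ) : ℝ) =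
          (S n).v * ((t : ℝ) * w n - s) := by
        have h3 : (S n).v * w n = (S n).u := by
          show (S n).v * ((S n).u / (S n).v) = (S n).u
          field_simp
        have h4 : (S n).v * ((t : ℝ) * w n - s) = t * ((S n).v * w n) - s * (S n).v := by ring
        rw [h4, h3]
        unfold Stg.u Stg.v
        push_cast
        ring
      rw [h2, abs_mul, abs_of_pos hv, ← mul_assoc] at h1
      refine h1.trans (mul_le_mul_of_nonneg_right ?_ (abs_nonneg _))
      push_cast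
      have ht0 : (0 : ℝ) ≤ t := Nat.cast_nonneg t
      have hs0 : (0 : ℝ) ≤ s := Nat.cast_nonneg s
      have h5 : ((S n).b : ℝ) * (S n).v ≤ 1 / c := by
        rw [le_div_iff₀ hc]
        have h6 : c * (S n).b * (S n).v ≤ (S n).a * (S n).v := mul_le_mul_of_nonneg_right b5 hv.le
        linarith
      have h7 : (t : ℝ) * ((S n).a * (S n).v) ≤ t * 1 := mul_le_mul_of_nonneg_left b2 ht0
      have h8 : (s : ℝ) * ((S n).b * (S n).v) ≤ s * (1 / c) := mul_le_mul_of_nonneg_left h5 hs0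
      calc ((t : ℝ) * (S n).a + s * (S n).b) * (S n).v = t * ((S n).a * (S n).v) + s * ((S n).b * (S n).v) := by ring
        _ ≤ t * 1 + s * (1 / c) := add_le_add h7 h8
        _ = t + s / c := by ring
    have hT : Tendsto (fun n => ((t : ℝ) + s / c) * |(t : ℝ) * w n - s|) (U : Filter ℕ)
        (𝓝 (((t : ℝ) + s / c) * |(t : ℝ) * β - s|)) :=
      (((ht.const_mul (t : ℝ)).sub_const (s : ℝ)).abs).const_mul _
    have h9 := ge_of_tendsto hT (Filter.Eventually.of_forall key)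
    rw [htβ, sub_self, abs_zero, mul_zero] at h9
    linarith
  · have hT : Tendsto (fun n => |(e i : ℝ) - i * w n|) (U : Filter ℕ) (𝓝 |(e i : ℝ) - i * β|) :=
      ((ht.const_mul (i : ℝ)).const_sub (e i : ℝ)).abs
    refine le_of_tendsto hT ?_
    filter_upwards [he i] with n hn
    have h1 := Limb_fl hB (S n) i
    rw [hn] at h1
    exact h1

end Pool.Agent.TRN
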