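import Pool.Agent.TRN.NDa

set_option autoImplicit false

/-!
# TRN-NDr: the polynomial `Rn`

PLAN. `k0_le`: `S.ka`, `S.kb`. `natDegree_mul_le`, `natDegree_sub_le`, `natDegree_C_mul_le`, `natDegree_pow_le`, `natDegree_sum_le_of_forall_le`; `ln_mul_le`, `ln_sub_le`, `ln_C`,
`ln_X_pow`, `sg_abs`, `S.lB`, `S.lP`. With `K = (2 * |κ| + 3) * (a + b)`: `ln (Nn) ≤ b + 2 (|κ| + k0) ≤ K`, `ln Dn ≤ 2 ≤ K` (`a + b ≥ 2`).
`rn_ln`: each summand has length `≤ |E t| * 1 * 1 * K ^ k * K ^ (L - k)`. `rn_eq`: `aeval` of a sum; `D ^ L * g ^ k = (D g) ^ k * D ^ (L - k)`, `k ≤ L` (`Fin`).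
-/

namespace Pool.Agent.TRN

open Polynomial

variable {α : ℝ} {z : ℂ} {x : ℝ}

private theorem NDr_degX (c : ℤ) (a i L : ℕ) (hi : i ≤ L) :
    ((C c * (X : ℤ[X]) ^ a) ^ i).natDegree ≤ L * a := by
  refine natDegree_pow_le.trans (Nat.mul_le_mul hi ?_)
  have h := natDegree_C_mul_le c ((X : ℤ[X]) ^ a)
  rwa [natDegree_X_pow] at h

private theorem NDr_lnX (c : ℤ) (a i : ℕ) (hc : |c| = 1) :
    ln ((C c * (X : ℤ[X]) ^ a) ^ i) ≤ 1 := by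
  refine (ln_pow_le _ _).trans ?_
  refine pow_le_one₀ (ln_nonneg _) ?_
  refine (ln_mul_le _ _).trans ?_
  rw [ln_C, ln_X_pow, hc]
  norm_num

theorem rn_deg (κ : ℤ) (S : Stg α z x) (L : ℕ) (E : Ix L → ℤ) :
    (Rn κ S L E).natDegree ≤ 3 * L * (S.a + S.b) := by
  unfold Rn
  refine natDegree_sum_le_of_forall_le _ _ (fun t _ => ?_)
  have hi : (t.1 : ℕ) ≤ L := Nat.lt_succ_iff.1 t.1.2
  have hj : (t.2.1 : ℕ) ≤ L := Nat.lt_succ_iff.1 t.2.1.2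
  have hk : (t.2.2 : ℕ) ≤ L := Nat.lt_succ_iff.1 t.2.2.2
  have h1 := NDr_degX (sg S.p) S.a (t.1 : ℕ) L hi
  have h2 := NDr_degX (sg S.r) S.b (t.2.1 : ℕ) L hj
  have h3 : (Nn κ S ^ (t.2.2 : ℕ) * Dn S ^ (L - (t.2.2 : ℕ))).natDegree ≤ L * (2 * (S.a + S.b)) := by
    refine natDegree_mul_le.trans ?_
    have h4 : (Nn κ S ^ (t.2.2 : ℕ)).natDegree ≤ (t.2.2 : ℕ) * (2 * (S.a + S.b)) :=
      natDegree_pow_le.trans (Nat.mul_le_mul le_rfl (nn_deg κ S))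
    have h5 : (Dn S ^ (L - (t.2.2 : ℕ))).natDegree ≤ (L - (t.2.2 : ℕ)) * (2 * (S.a + S.b)) :=
      natDegree_pow_le.trans (Nat.mul_le_mul le_rfl (dn_deg S))
    calc _ ≤ (t.2.2 : ℕ) * (2 * (S.a + S.b)) + (L - (t.2.2 : ℕ)) * (2 * (S.a + S.b)) :=
          Nat.add_le_add h4 h5
      _ = L * (2 * (S.a + S.b)) := by
          rw [← Nat.add_mul, Nat.add_sub_cancel' hk]
  have h6 : (C (E t) * ((C (sg S.p) * (X : ℤ[X]) ^ S.a) ^ (t.1 : ℕ) *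
      (C (sg S.r) * X ^ S.b) ^ (t.2.1 : ℕ))).natDegree ≤ L * S.a + L * S.b := by
    refine (natDegree_C_mul_le _ _).trans ?_
    exact natDegree_mul_le.trans (Nat.add_le_add h1 h2)
  calc _ ≤ (L * S.a + L * S.b) + L * (2 * (S.a + S.b)) :=
        natDegree_mul_le.trans (Nat.add_le_add h6 h3)
    _ = 3 * L * (S.a + S.b) := by ring

theorem rn_ln (κ : ℤ) (S : Stg α z x) (L : ℕ) (E : Ix L → ℤ) :
    ln (Rn κ S L E) ≤ (∑ t, |E t|) * ((2 * |κ| + 3) * (S.a + S.b)) ^ L := by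
  have ha : (1 : ℤ) ≤ S.a := by exact_mod_cast S.ha
  have hb : (1 : ℤ) ≤ S.b := by exact_mod_cast S.hb
  have hκ := abs_nonneg κ
  set K : ℤ := (2 * |κ| + 3) * (S.a + S.b) with hK
  have hK2 : 2 ≤ K := by nlinarith
  have hK0 : 0 ≤ K := by linarith
  unfold Rn
  refine (ln_sum_le _ _).trans ?_
  rw [Finset.sum_mul]
  refine Finset.sum_le_sum fun t _ => ?_
  have hk : (t.2.2 : ℕ) ≤ L := Nat.lt_succ_iff.1 t.2.2.2
  have h1 := NDr_lnX (sg S.p) S.a (t.1 : ℕ) (sg_abs _)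
  have h2 := NDr_lnX (sg S.r) S.b (t.2.1 : ℕ) (sg_abs _)
  have h3 : ln (Nn κ S ^ (t.2.2 : ℕ) * Dn S ^ (L - (t.2.2 : ℕ))) ≤ K ^ L := by
    refine (ln_mul_le _ _).trans ?_
    have h4 : ln (Nn κ S ^ (t.2.2 : ℕ)) ≤ K ^ (t.2.2 : ℕ) :=
      (ln_pow_le _ _).trans (pow_le_pow_left₀ (ln_nonneg _) (nn_ln κ S) _)
    have h5 : ln (Dn S ^ (L - (t.2.2 : ℕ))) ≤ K ^ (L - (t.2.2 : ℕ)) :=
      (ln_pow_le _ _).trans (pow_le_pow_left₀ (ln_nonneg _) ((dn_ln S).trans hK2) _)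
    calc _ ≤ K ^ (t.2.2 : ℕ) * K ^ (L - (t.2.2 : ℕ)) :=
          mul_le_mul h4 h5 (ln_nonneg _) (pow_nonneg hK0 _)
      _ = K ^ L := by rw [← pow_add, Nat.add_sub_cancel' hk]
  have h6 : ln ((C (sg S.p) * (X : ℤ[X]) ^ S.a) ^ (t.1 : ℕ) * (C (sg S.r) * X ^ S.b) ^ (t.2.1 : ℕ)) ≤ 1 := by
    refine (ln_mul_le _ _).trans ?_
    calc _ ≤ (1 : ℤ) * 1 := mul_le_mul h1 h2 (ln_nonneg _) (by norm_num)
      _ = 1 := by norm_num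
  have h7 : ln (C (E t) * ((C (sg S.p) * (X : ℤ[X]) ^ S.a) ^ (t.1 : ℕ) *
      (C (sg S.r) * X ^ S.b) ^ (t.2.1 : ℕ))) ≤ |E t| := by
    refine (ln_mul_le _ _).trans ?_
    rw [ln_C]
    calc _ ≤ |E t| * 1 := mul_le_mul_of_nonneg_left h6 (abs_nonneg _)
      _ = |E t| := mul_one _
  exact (ln_mul_le _ _).trans (mul_le_mul h7 h3 (ln_nonneg _) (abs_nonneg _))

theorem rn_eq (κ : ℤ) (S : Stg α z x) (L : ℕ) (E : Ix L → ℤ) {g : ℂ}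
    (hg : aeval z (Dn S) * g = aeval z (Nn κ S)) :
    aeval z (Rn κ S L E) = aeval z (Dn S) ^ L * Ev L E S.X S.Y g := by
  unfold Rn Ev
  rw [map_sum, Finset.mul_sum]
  refine Finset.sum_congr rfl fun t _ => ?_
  have hk : (t.2.2 : ℕ) ≤ L := Nat.lt_succ_iff.1 t.2.2.2
  have hC : ∀ c : ℤ, aeval z (C c : ℤ[X]) = (c : ℂ) := fun c => by
    rw [aeval_C]; rfl
  have hD : aeval z (Dn S) ^ L = aeval z (Dn S) ^ (t.2.2 : ℕ) * aeval z (Dn S) ^ (L - (t.2.2 : ℕ)) := by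
    rw [← pow_add, Nat.add_sub_cancel' hk]
  simp only [map_mul, map_pow, aeval_X, hC]
  rw [← hg, hD, mul_pow]
  unfold Stg.X Stg.Y
  ring

end Pool.Agent.TRN
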