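import Pool.Agent.TRN.BiA
import Pool.Agent.TRN.BiB
import Pool.Agent.TRN.BiC

set_option autoImplicit false

/-!
# TRN-Non: a fixed polynomial does not vanish at the points `(X_n, Y_n)`

PLAN. `ev2_sum`: `R(X, Y) = ∑ r_{st} X ^ s Y ^ t` over a finite set; `J` = the finite set of the `(s, t)` with `r_{st} ≠ 0`, `(s1, t1) ∈ J`. `|r_{st}| ≥ 1` on `J`; let `H = ∑ |r_{st}|`.
For pairs `(s, t) ≠ (s', t')` in `J` the absolute difference of the weights `s a_n + t b_n` tends to infinity (`hinf` for `i = s - s'`, `j = t - t'`); choose `D` with `H * ρ ^ D ≤ 1 / 2`. Eventually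
all these differences are `≥ D`. For such `n` let `(s0, t0) ∈ J` have the least weight `W0` (`Finset.exists_min_image`); all other weights are `≥ W0 + D`, so
`‖R(X, Y)‖ ≥ ρ ^ W0 - H ρ ^ (W0 + D) ≥ ρ ^ W0 / 2 ≥ ρ ^ (s1 a_n + t1 b_n) / 2`.
-/

namespace Pool.Agent.TRN

open Polynomial Filter Topology

theorem non (R : Polynomial (Polynomial ℤ)) {s1 t1 : ℕ} (h : (R.coeff t1).coeff s1 ≠ 0) {ρ : ℝ} (hρ0 : 0 < ρ)
    (hρ1 : ρ < 1) {a b : ℕ → ℕ} {X Y : ℕ → ℂ} (hX : ∀ n, ‖X n‖ = ρ ^ a n) (hY : ∀ n, ‖Y n‖ = ρ ^ b n)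
    (hinf : ∀ i j : ℤ, (i ≠ 0 ∨ j ≠ 0) → Tendsto (fun n => |(i : ℝ) * a n + j * b n|) atTop atTop) :
    ∀ᶠ n in atTop, ρ ^ (s1 * a n + t1 * b n) / 2 ≤ ‖ev2 (X n) (Y n) R‖ := by
  classical
  obtain ⟨N, hN, hsum⟩ := ev2_sum R
  set r : ℕ × ℕ → ℤ := fun p => (R.coeff p.2).coeff p.1 with hr
  set J : Finset (ℕ × ℕ) := ((Finset.range N) ×ˢ (Finset.range N)).filter (fun p => r p ≠ 0) with hJ
  have h1J : (s1, t1) ∈ J := by
    rw [hJ, Finset.mem_filter, Finset.mem_product, Finset.mem_range, Finset.mem_range]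
    refine ⟨⟨?_, ?_⟩, h⟩
    · by_contra hcon
      exact h (hN s1 t1 (Or.inl (not_lt.1 hcon)))
    · by_contra hcon
      exact h (hN s1 t1 (Or.inr (not_lt.1 hcon)))
  set W : ℕ → ℕ × ℕ → ℕ := fun n p => p.1 * a n + p.2 * b n with hW
  have hnorm : ∀ n (p : ℕ × ℕ), ‖((r p : ℤ) : ℂ) * (X n ^ p.1 * Y n ^ p.2)‖ =
      |(r p : ℝ)| * ρ ^ W n p := by
    intro n p
    rw [norm_mul, norm_mul, norm_pow, norm_pow, hX, hY, ← pow_mul, ← pow_mul, ← pow_add,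
      Complex.norm_intCast]
    simp only [hW]
    rw [mul_comm (a n), mul_comm (b n)]
  have hev : ∀ n, ev2 (X n) (Y n) R = ∑ p ∈ J, ((r p : ℤ) : ℂ) * (X n ^ p.1 * Y n ^ p.2) := by
    intro n
    rw [hsum, hJ, Finset.sum_filter_of_ne, Finset.sum_product_right]
    intro p _ hp hr0
    apply hp
    rw [hr0]
    simp
  set H : ℝ := ∑ p ∈ J, |(r p : ℝ)| with hH
  have hH0 : 0 ≤ H := Finset.sum_nonneg fun p _ => abs_nonneg _
  obtain ⟨D, hD⟩ : ∃ D : ℕ, H * ρ ^ D ≤ 1 / 2 := by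
    have h1 : Tendsto (fun n : ℕ => H * ρ ^ n) atTop (𝓝 (H * 0)) :=
      (tendsto_pow_atTop_nhds_zero_of_lt_one hρ0.le hρ1).const_mul H
    rw [mul_zero] at h1
    have h2 : ∀ᶠ n : ℕ in atTop, H * ρ ^ n ≤ 1 / 2 :=
      (h1.eventually_lt_const (by norm_num : (0 : ℝ) < 1 / 2)).mono fun n hn => hn.le
    exact h2.exists
  have hgap : ∀ᶠ n in atTop, ∀ p ∈ J, ∀ q ∈ J, p ≠ q → (D : ℝ) ≤ |(W n p : ℝ) - W n q| := by
    rw [Filter.eventually_all_finset]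
    intro p _
    rw [Filter.eventually_all_finset]
    intro q _
    by_cases hpq : p = q
    · exact Filter.Eventually.of_forall fun n hne => absurd hpq hne
    · have hij : ((p.1 : ℤ) - q.1 ≠ 0 ∨ (p.2 : ℤ) - q.2 ≠ 0) := by
        by_contra hcon
        push Not at hcon
        apply hpq
        apply Prod.ext
        · have := hcon.1
          omega
        · have := hcon.2
          omega
      have h2 := (hinf _ _ hij).eventually_ge_atTop (D : ℝ)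
      refine h2.mono fun n hn _ => ?_
      refine hn.trans (le_of_eq ?_)
      congr 1
      simp only [hW]
      push_cast
      ring
  refine hgap.mono fun n hn => ?_
  obtain ⟨p0, hp0, hmin⟩ := Finset.exists_min_image J (W n) ⟨_, h1J⟩
  have hbig : ∀ q ∈ J.erase p0, W n p0 + D ≤ W n q := by
    intro q hq
    obtain ⟨hne, hqJ⟩ := Finset.mem_erase.1 hq
    have h1 := hn q hqJ p0 hp0 hne
    have h2 : (W n p0 : ℝ) ≤ W n q := by exact_mod_cast hmin q hqJ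
    rw [abs_of_nonneg (sub_nonneg.2 h2)] at h1
    have h3 : (W n p0 : ℝ) + D ≤ W n q := by linarith
    exact_mod_cast h3
  have hr0 : (1 : ℝ) ≤ |(r p0 : ℝ)| := by
    have h1 : r p0 ≠ 0 := (Finset.mem_filter.1 hp0).2
    have h2 : 1 ≤ |r p0| := Int.one_le_abs h1
    exact_mod_cast h2
  have hrest : ‖∑ p ∈ J.erase p0, ((r p : ℤ) : ℂ) * (X n ^ p.1 * Y n ^ p.2)‖ ≤
      ρ ^ W n p0 / 2 := by
    calc ‖∑ p ∈ J.erase p0, ((r p : ℤ) : ℂ) * (X n ^ p.1 * Y n ^ p.2)‖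
        ≤ ∑ p ∈ J.erase p0, |(r p : ℝ)| * ρ ^ (W n p0 + D) := by
          refine (norm_sum_le _ _).trans (Finset.sum_le_sum fun p hp => ?_)
          rw [hnorm]
          exact mul_le_mul_of_nonneg_left (pow_le_pow_of_le_one hρ0.le hρ1.le (hbig p hp))
            (abs_nonneg _)
      _ = (∑ p ∈ J.erase p0, |(r p : ℝ)|) * ρ ^ (W n p0 + D) := by rw [Finset.sum_mul]
      _ ≤ H * ρ ^ (W n p0 + D) := by
          refine mul_le_mul_of_nonneg_right ?_ (by positivity)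
          exact Finset.sum_le_sum_of_subset_of_nonneg (Finset.erase_subset _ _)
            fun p _ _ => abs_nonneg _
      _ = ρ ^ W n p0 * (H * ρ ^ D) := by rw [pow_add]; ring
      _ ≤ ρ ^ W n p0 * (1 / 2) := mul_le_mul_of_nonneg_left hD (by positivity)
      _ = ρ ^ W n p0 / 2 := by ring
  have hlead : ρ ^ W n p0 ≤ ‖((r p0 : ℤ) : ℂ) * (X n ^ p0.1 * Y n ^ p0.2)‖ := by
    rw [hnorm]
    exact le_mul_of_one_le_left (by positivity) hr0
  have hfin : ρ ^ W n p0 / 2 ≤ ‖ev2 (X n) (Y n) R‖ := by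
    rw [hev n, ← Finset.add_sum_erase J _ hp0]
    have h1 := norm_sub_le_norm_add (((r p0 : ℤ) : ℂ) * (X n ^ p0.1 * Y n ^ p0.2))
      (∑ p ∈ J.erase p0, ((r p : ℤ) : ℂ) * (X n ^ p.1 * Y n ^ p.2))
    linarith
  refine le_trans ?_ hfin
  have h2 : ρ ^ W n (s1, t1) ≤ ρ ^ W n p0 :=
    pow_le_pow_of_le_one hρ0.le hρ1.le (hmin _ h1J)
  have h3 : ρ ^ (s1 * a n + t1 * b n) = ρ ^ W n (s1, t1) := rfl
  rw [h3]
  linarith

end Pool.Agent.TRN
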