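import Pool.Agent.TRN.Defs

set_option autoImplicit false

/-!
# TRN-NumA: the growth comparison at the end of Mahler's method

PLAN. `L = m ^ 2 - 1`, `T = m ^ 3 - 1`; `T ≥ (m - 1) L`.. choose `m` with `ρ ^ (c T / 2) * C ^ (3 L d1)..`: precisely we need `ρ ^ (c / 2 * T) * C ^ (3 * L) < 1`, i.e. `c / 2 * T * log (1 / ρ) > 3 * L * log C`
(`T / L ≥ m - 1`). Then `q1 := ρ ^ (c / 2 * T) * C ^ (3 * L) < 1` and the inequality reads `K1 * C * K2 ^ d0 * (N ^ (L * d0)) * q1 ^ N < 1`, true for large `N` (`tendsto_pow_const_mul_const_pow_of_abs_lt_one`).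
(Here the factor `C ^ (3 * L * N + 1)` is `C * (C ^ (3 * L)) ^ N` and `ρ ^ (c / 2 * N * T)` is a real power.)
-/

namespace Pool.Agent.TRN

open Filter Topology

private theorem NumA_lt {C ρ c : ℝ} (hC : 1 ≤ C) (hρ0 : 0 < ρ) (hρ1 : ρ < 1) (hc : 0 < c) :
    ∃ L T : ℕ, 0 < T ∧ 0 < L ∧ T ^ 2 < (L + 1) ^ 3 ∧
      ρ ^ (c / 2 * (T : ℝ)) * C ^ (3 * L) < 1 := by
  have hC0 : 0 < C := lt_of_lt_of_le one_pos hC
  have hlC : 0 ≤ Real.log C := Real.log_nonneg hC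
  have hlρ : Real.log ρ < 0 := Real.log_neg hρ0 hρ1
  obtain ⟨n, hn⟩ := exists_nat_gt (6 * Real.log C / (c * (-Real.log ρ)))
  have hden : 0 < c * (-Real.log ρ) := mul_pos hc (neg_pos.mpr hlρ)
  rw [div_lt_iff₀ hden] at hn
  refine ⟨(n + 2) ^ 2 - 1, (n + 2) ^ 3 - 1, ?_, ?_, ?_, ?_⟩
  · have : 2 ^ 3 ≤ (n + 2) ^ 3 := Nat.pow_le_pow_left (by omega) 3
    omega
  · have : 2 ^ 2 ≤ (n + 2) ^ 2 := Nat.pow_le_pow_left (by omega) 2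
    omega
  · have h1 : 1 ≤ (n + 2) ^ 2 := Nat.one_le_pow _ _ (by omega)
    have h2 : 1 ≤ (n + 2) ^ 3 := Nat.one_le_pow _ _ (by omega)
    rw [Nat.sub_add_cancel h1]
    have h3 : (n + 2) ^ 3 - 1 < (n + 2) ^ 3 := by omega
    calc ((n + 2) ^ 3 - 1) ^ 2 < ((n + 2) ^ 3) ^ 2 := Nat.pow_lt_pow_left h3 (by omega)
      _ = ((n + 2) ^ 2) ^ 3 := by ring
  · have h1 : 1 ≤ (n + 2) ^ 2 := Nat.one_le_pow _ _ (by omega)
    have h2 : 1 ≤ (n + 2) ^ 3 := Nat.one_le_pow _ _ (by omega)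
    have hT : (((n + 2) ^ 3 - 1 : ℕ) : ℝ) = ((n : ℝ) + 2) ^ 3 - 1 := by
      rw [Nat.cast_sub h2]
      push_cast
      ring
    have hL : (((n + 2) ^ 2 - 1 : ℕ) : ℝ) = ((n : ℝ) + 2) ^ 2 - 1 := by
      rw [Nat.cast_sub h1]
      push_cast
      ring
    have hn0 : (0 : ℝ) ≤ n := Nat.cast_nonneg n
    rw [← Real.log_neg_iff (by positivity), Real.log_mul (by positivity) (by positivity),
      Real.log_rpow hρ0, Real.log_pow]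
    push_cast
    rw [hT, hL]
    have hL0 : 0 < ((n : ℝ) + 2) ^ 2 - 1 := by nlinarith
    have hTL : ((n : ℝ) + 1) * (((n : ℝ) + 2) ^ 2 - 1) ≤ ((n : ℝ) + 2) ^ 3 - 1 := by nlinarith
    have e1 : 6 * Real.log C < ((n : ℝ) + 1) * (c * (-Real.log ρ)) := by nlinarith
    have e2 : c * (-Real.log ρ) * (((n : ℝ) + 1) * (((n : ℝ) + 2) ^ 2 - 1)) ≤
        c * (-Real.log ρ) * (((n : ℝ) + 2) ^ 3 - 1) := mul_le_mul_of_nonneg_left hTL hden.le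
    have e3 := mul_lt_mul_of_pos_right e1 hL0
    nlinarith

theorem numA {C ρ c : ℝ} (hC : 1 ≤ C) (hρ0 : 0 < ρ) (hρ1 : ρ < 1) (hc : 0 < c) (d0 : ℕ) : ∃ L T : ℕ, 0 < T ∧ 0 < L ∧
    T ^ 2 < (L + 1) ^ 3 ∧ ∀ K1 K2 K3 : ℝ, ∀ᶠ N : ℕ in atTop,
      K1 * ρ ^ (c / 2 * N * T : ℝ) * (C ^ (3 * L * N + 1) * (K2 * (K3 * N) ^ L) ^ d0) < 1 := by
  have hC0 : 0 < C := lt_of_lt_of_le one_pos hC
  obtain ⟨L, T, hT, hL, hTL, hq⟩ := NumA_lt hC hρ0 hρ1 hc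
  refine ⟨L, T, hT, hL, hTL, fun K1 K2 K3 => ?_⟩
  have hq0 : 0 < ρ ^ (c / 2 * (T : ℝ)) * C ^ (3 * L) := by positivity
  have h1 := tendsto_pow_const_mul_const_pow_of_abs_lt_one (L * d0)
    (r := ρ ^ (c / 2 * (T : ℝ)) * C ^ (3 * L)) (by rw [abs_of_pos hq0]; exact hq)
  have h2 := h1.const_mul (K1 * C * K2 ^ d0 * K3 ^ (L * d0))
  rw [mul_zero] at h2
  filter_upwards [h2.eventually (gt_mem_nhds one_pos)] with N hN
  refine lt_of_eq_of_lt ?_ hN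
  have e1 : ρ ^ (c / 2 * N * T : ℝ) = (ρ ^ (c / 2 * (T : ℝ))) ^ N := by
    rw [← Real.rpow_natCast, ← Real.rpow_mul hρ0.le]
    congr 1
    ring
  rw [e1, mul_pow (K2) _ d0, ← pow_mul, mul_pow K3, mul_pow (ρ ^ (c / 2 * (T : ℝ))), ← pow_mul,
    pow_succ]
  ring

end Pool.Agent.TRN
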