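import Pool.Agent.TRN.Defs

set_option autoImplicit false

/-!
# TRN-Sie: the auxiliary polynomial

PLAN. `RM e L E T` depends linearly on `E`: the coefficient `(s, t)` is `∑ j : Ix L, E j * w j s t`, `w j s t` = the coefficient of `(C (X ^ j.1) * X ^ j.2.1) * GM e T ^ j.2.2`
(`Polynomial.finset_sum_coeff`, `coeff_C_mul`). Integer matrix with rows `Fin T × Fin T` and columns `Ix L`, `T ^ 2 < (L + 1) ^ 3` (`Fintype.card_prod`, `Fintype.card_fin`):
`Int.Matrix.exists_ne_zero_int_vec_norm_le` (Siegel's lemma in Mathlib; only `t ≠ 0` and `A *ᵥ t = 0` are needed) or linear algebra over `ℚ` and clearing denominators.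
-/

namespace Pool.Agent.TRN

open Polynomial

private noncomputable def Sie_w (e : ℕ → ℕ) (L T : ℕ) (j : Ix L) (s t : ℕ) : ℤ :=
  ((((C (X ^ (j.1 : ℕ)) * X ^ (j.2.1 : ℕ)) * GM e T ^ (j.2.2 : ℕ) : Polynomial (Polynomial ℤ))).coeff t).coeff s

private theorem Sie_coeff (e : ℕ → ℕ) (L T : ℕ) (E : Ix L → ℤ) (s t : ℕ) :
    ((RM e L E T).coeff t).coeff s = ∑ j : Ix L, Sie_w e L T j s t * E j := by
  unfold RM Sie_w
  rw [Polynomial.finsetSum_coeff, Polynomial.finsetSum_coeff]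
  refine Finset.sum_congr rfl fun j _ => ?_
  rw [mul_assoc, Polynomial.coeff_C_mul, Polynomial.coeff_C_mul, mul_comm]

theorem sie (e : ℕ → ℕ) {L T : ℕ} (hT : 0 < T) (hLT : T ^ 2 < (L + 1) ^ 3) :
    ∃ E : Ix L → ℤ, E ≠ 0 ∧ ∀ s t : ℕ, s < T → t < T → ((RM e L E T).coeff t).coeff s = 0 := by
  let A : Matrix (Fin T × Fin T) (Ix L) ℤ := fun p j => Sie_w e L T j (p.1 : ℕ) (p.2 : ℕ)
  have h1 : Fintype.card (Fin T × Fin T) < Fintype.card (Ix L) := by
    simp only [Fintype.card_prod, Fintype.card_fin]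
    nlinarith [hLT]
  have h2 : 0 < Fintype.card (Fin T × Fin T) := by
    simp only [Fintype.card_prod, Fintype.card_fin]
    positivity
  obtain ⟨E, hE, hA, -⟩ := Int.Matrix.exists_ne_zero_int_vec_norm_le A h1 h2
  refine ⟨E, hE, fun s t hs ht => ?_⟩
  rw [Sie_coeff]
  have h3 := congrFun hA (⟨s, hs⟩, ⟨t, ht⟩)
  simpa [Matrix.mulVec, dotProduct, A] using h3

end Pool.Agent.TRN
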