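import Pool.Agent.TRN.Phb

set_option autoImplicit false

/-!
# TRN-StgS: the step from a stage to the next one

`StgS_A`: degree and length of `A + e X ^ a B`. `StgS_pos`: the position after one step. `stg_step`: if `v < u` the new pair
is `(a + b, p + r)`, `(b, r)`, if `u < v` it is `(a, p)`, `(a + b, p + r)`; `u ≠ v` because `α` is irrational.
-/

namespace Pool.Agent.TRN

open Polynomial

private theorem StgS_A {A B : ℤ[X]} {a b : ℕ} (dA : A.natDegree ≤ a) (dB : B.natDegree ≤ b) (lA : ln A ≤ a)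
    (lB : ln B ≤ b) {e : ℤ} (he : |e| = 1) :
    (A + C e * X ^ a * B).natDegree ≤ a + b ∧ ln (A + C e * X ^ a * B) ≤ ((a + b : ℕ) : ℤ) := by
  constructor
  · refine (natDegree_add_le _ _).trans (max_le (by omega) ?_)
    refine natDegree_mul_le.trans ?_
    have h1 : (C e * X ^ a : ℤ[X]).natDegree ≤ a := natDegree_C_mul_X_pow_le e a
    omega
  · refine (ln_add_le _ _).trans ?_
    have h1 : ln (C e * X ^ a * B) ≤ ln (C e * X ^ a) * ln B := ln_mul_le _ _
    have h2 : ln (C e * X ^ a) ≤ 1 := by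
      have h4 := ln_mul_le (C e) (X ^ a)
      rwa [ln_C, ln_X_pow, he, one_mul] at h4
    have h3 := ln_nonneg B
    push_cast
    nlinarith

private theorem StgS_pos {α : ℝ} {z : ℂ} {x : ℝ} (S : Stg α z x) {w : ℝ} (hw : (S.r : ℝ) - S.b * α ≤ w) :
    ∃ (k' : ℕ) (P' : ℤ[X]) (e' : ℤ) (y' : ℝ), P'.natDegree ≤ k' ∧ ln P' ≤ k' ∧ (e' = 1 ∨ e' = -1) ∧
      Ph α z x = aeval z P' + e' * z ^ k' * Ph α z y' ∧
      ((S.y0 < w ∧ k' = S.k0 ∧ y' = S.y0) ∨ (w ≤ S.y0 ∧ k' = S.k0 + S.b ∧ y' = S.y0 - (S.r - S.b * α))) := by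
  rcases lt_or_ge S.y0 w with h | h
  · exact ⟨S.k0, S.Pr, S.ep, S.y0, S.dP, S.lP, S.hep, S.fP, Or.inl ⟨h, rfl, rfl⟩⟩
  · have he : |S.ep| = 1 := by
      rcases S.hep with h1 | h1 <;> rw [h1] <;> rfl
    obtain ⟨h1, h2⟩ := StgS_A S.dP S.dB S.lP S.lB he
    refine ⟨S.k0 + S.b, S.Pr + C S.ep * X ^ S.k0 * S.B, S.ep * sg S.r, S.y0 - (S.r - S.b * α), h1, h2, ?_, ?_,
      Or.inr ⟨h, rfl, rfl⟩⟩
    · rcases S.hep with h3 | h3 <;> rcases sg_cases S.r with h4 | h4 <;> rw [h3, h4] <;> norm_num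
    · have h3 := S.fP
      have h4 := S.fB S.y0 (hw.trans h) S.hy1
      rw [h3, h4]
      simp only [map_add, map_mul, map_pow, aeval_X, eq_intCast, map_intCast, Int.cast_mul]
      ring

theorem stg_step {α : ℝ} {z : ℂ} {x : ℝ} (hα : Irrational α) (S : Stg α z x) :
    ∃ S' : Stg α z x, S.a + S.b < S'.a + S'.b := by
  have hd := S.det
  have ha := S.ha
  have hb := S.hb
  have hu := S.hu
  have hv := S.hv
  obtain ⟨hA1, hA2⟩ := StgS_A S.dA S.dB S.lA S.lB (sg_abs S.p)
  have hAe : aeval z (S.A + C (sg S.p) * X ^ S.a * S.B) =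
      aeval z S.A + sg S.p * z ^ S.a * aeval z S.B := by
    simp only [map_add, map_mul, map_pow, aeval_X, eq_intCast, map_intCast]
  have hXY : ((sg (S.p + S.r) : ℤ) : ℂ) * z ^ (S.a + S.b) = (sg S.p * z ^ S.a) * (sg S.r * z ^ S.b) := by
    rw [sg_add, pow_add, Int.cast_mul]
    ring
  have hne : (S.a : ℝ) * α - S.p ≠ S.r - S.b * α := by
    intro h
    have h1 : ((S.a + S.b : ℕ) : ℝ) * α = ((S.p + S.r : ℤ) : ℝ) := by
      push_cast
      linarith
    have h2 : ((S.a + S.b : ℕ) : ℝ) ≠ 0 := by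
      have : S.a + S.b ≠ 0 := by omega
      exact_mod_cast this
    apply hα
    refine ⟨((S.p + S.r : ℤ) : ℚ) / ((S.a + S.b : ℕ) : ℚ), ?_⟩
    rw [Rat.cast_div, Rat.cast_intCast, Rat.cast_natCast, div_eq_iff h2, ← h1]
    ring
  have hcomb : ∀ y : ℝ, 0 ≤ y → y < S.r - S.b * α → S.r - S.b * α ≤ y + (S.a * α - S.p) →
      Ph α z y = aeval z (S.A + C (sg S.p) * X ^ S.a * S.B) + sg (S.p + S.r) * z ^ (S.a + S.b) *
        Ph α z (y + ((S.a * α - S.p) - (S.r - S.b * α))) := by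
    intro y h0 h1 h2
    rw [S.fA y h0 h1, S.fB (y + (S.a * α - S.p)) h2 (by linarith), hAe, hXY, add_sub_assoc]
    ring
  have hid := S.idn
  rcases lt_or_gt_of_ne hne with h | h
  · obtain ⟨k', P', e', y', hP1, hP2, he', hfP, hpos⟩ := StgS_pos S le_rfl
    have e1 : ((S.p + S.r : ℤ) : ℝ) - ((S.a + S.b : ℕ) : ℝ) * α =
        (S.r - S.b * α) - (S.a * α - S.p) := by
      push_cast
      ring
    refine ⟨{ a := S.a, b := S.a + S.b, k0 := k', p := S.p, r := S.p + S.r, A := S.A,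
              B := S.A + C (sg S.p) * X ^ S.a * S.B, Pr := P', ep := e', y0 := y',
              ha := ha, hb := by omega, det := ?_, hu := hu, hv := ?_, dA := S.dA, dB := hA1, dP := hP1,
              lA := S.lA, lB := hA2, lP := hP2, hep := he', hy0 := ?_, hy1 := ?_, ka := ?_, kb := ?_,
              fA := ?_, fB := ?_, idn := ?_, fP := hfP }, ?_⟩
    · push_cast
      linarith
    · rw [e1]
      linarith
    · have := S.hy0
      rcases hpos with ⟨h1, h2, h3⟩ | ⟨h1, h2, h3⟩ <;> linarith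
    · rw [e1]
      have := S.hy1
      rcases hpos with ⟨h1, h2, h3⟩ | ⟨h1, h2, h3⟩ <;> linarith
    · intro h4
      rcases hpos with ⟨h1, h2, h3⟩ | ⟨h1, h2, h3⟩
      · rw [h2]
        exact S.ka (by linarith)
      · exfalso
        have := S.hy1
        linarith
    · intro h4
      rcases hpos with ⟨h1, h2, h3⟩ | ⟨h1, h2, h3⟩
      · have := S.kb (by linarith)
        omega
      · have := S.ka (by linarith)
        omega
    · intro y h1 h2
      rw [e1] at h2
      exact S.fA y h1 (by linarith)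
    · intro y h1 h2
      rw [e1] at h1 h2
      rw [e1, hcomb y (by linarith) (by linarith) (by linarith)]
      have h3 : y - ((S.r - S.b * α) - (S.a * α - S.p)) = y + ((S.a * α - S.p) - (S.r - S.b * α)) := by ring
      rw [h3]
    · rw [hXY, hAe]
      have h1 : aeval z S.A * (1 - (sg S.p * z ^ S.a) * (sg S.r * z ^ S.b)) -
          (aeval z S.A + sg S.p * z ^ S.a * aeval z S.B) * (1 - sg S.p * z ^ S.a) =
          (sg S.p * z ^ S.a) * (aeval z S.A * (1 - sg S.r * z ^ S.b) - aeval z S.B * (1 - sg S.p * z ^ S.a)) := by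
        ring
      rw [h1, hid]
      ring
    · show S.a + S.b < S.a + (S.a + S.b)
      omega
  · obtain ⟨k', P', e', y', hP1, hP2, he', hfP, hpos⟩ := StgS_pos S h.le
    have e1 : ((S.a + S.b : ℕ) : ℝ) * α - ((S.p + S.r : ℤ) : ℝ) =
        (S.a * α - S.p) - (S.r - S.b * α) := by
      push_cast
      ring
    refine ⟨{ a := S.a + S.b, b := S.b, k0 := k', p := S.p + S.r, r := S.r,
              A := S.A + C (sg S.p) * X ^ S.a * S.B, B := S.B, Pr := P', ep := e', y0 := y',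
              ha := by omega, hb := hb, det := ?_, hu := ?_, hv := hv, dA := hA1, dB := S.dB, dP := hP1,
              lA := hA2, lB := S.lB, lP := hP2, hep := he', hy0 := ?_, hy1 := ?_, ka := ?_, kb := ?_,
              fA := ?_, fB := ?_, idn := ?_, fP := hfP }, ?_⟩
    · push_cast
      linarith
    · rw [e1]
      linarith
    · have := S.hy0
      rcases hpos with ⟨h1, h2, h3⟩ | ⟨h1, h2, h3⟩ <;> linarith
    · rw [e1]
      have := S.hy1
      rcases hpos with ⟨h1, h2, h3⟩ | ⟨h1, h2, h3⟩ <;> linarith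
    · intro h4
      rcases hpos with ⟨h1, h2, h3⟩ | ⟨h1, h2, h3⟩
      · have := S.kb h1
        omega
      · have := S.ka h1
        omega
    · intro h4
      rw [e1] at h4
      rcases hpos with ⟨h1, h2, h3⟩ | ⟨h1, h2, h3⟩
      · rw [h2]
        exact S.kb h1
      · exfalso
        linarith
    · intro y h1 h2
      rw [e1, hcomb y h1 h2 (by linarith)]
    · intro y h1 h2
      rw [e1] at h2
      exact S.fB y h1 (by linarith)
    · rw [hXY, hAe]
      have h1 : (aeval z S.A + sg S.p * z ^ S.a * aeval z S.B) * (1 - sg S.r * z ^ S.b) -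
          aeval z S.B * (1 - (sg S.p * z ^ S.a) * (sg S.r * z ^ S.b)) =
          aeval z S.A * (1 - sg S.r * z ^ S.b) - aeval z S.B * (1 - sg S.p * z ^ S.a) := by
        ring
      rw [h1, hid]
    · show S.a + S.b < (S.a + S.b) + S.b
      omega

theorem stg_ex {α : ℝ} {z : ℂ} {x : ℝ} (hα : Irrational α) (hα0 : 0 < α) (hα1 : α < 1) (hx0 : 0 ≤ x) (hx1 : x < 1)
    (hz : ‖z‖ < 1) (N : ℕ) : ∃ S : Stg α z x, N ≤ S.a + S.b := by
  induction N with
  | zero =>
    obtain ⟨S, hS⟩ := stg_base (x := x) hα0 hα1 hx0 hx1 hz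
    exact ⟨S, by omega⟩
  | succ N ih =>
    obtain ⟨S, hS⟩ := ih
    obtain ⟨S', hS'⟩ := stg_step hα S
    exact ⟨S', by omega⟩

end Pool.Agent.TRN
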