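import Pool.Agent.TRN.Defs

set_option autoImplicit false

/-!
# TRN-Gen: generalised polynomials with irrational exponents

PLAN. `gen`: put `y = exp t`: `∑ F (i, j) * exp ((j - β i) t) = 0` for all real `t`. The maps `t ↦ exp (μ t)` are homomorphisms `Multiplicative ℝ →* ℝ`, distinct for distinct `μ`
(compare `t = 1`: `exp` is injective), and the numbers `j - β i` are distinct since `β` is irrational; so all `F (i, j) = 0` by independence of characters
(`linearIndependent_monoidHom`). (Or: the term with the largest exponent dominates as `y → ∞`.)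
-/

namespace Pool.Agent.TRN

open Polynomial

private noncomputable def Gen_chi (μ : ℝ) : Multiplicative ℝ →* ℝ where
  toFun t := Real.exp (Multiplicative.toAdd t * μ)
  map_one' := by simp
  map_mul' a b := by rw [toAdd_mul, add_mul, Real.exp_add]

private lemma Gen_inj {β : ℝ} (hβ : Irrational β) (L : ℕ) :
    Function.Injective (fun t : Fin (L + 1) × Fin (L + 1) =>
      Gen_chi (((t.2 : ℕ) : ℝ) - β * ((t.1 : ℕ) : ℝ))) := by
  intro s t hst
  have h1 := DFunLike.congr_fun hst (Multiplicative.ofAdd (1 : ℝ))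
  simp only [Gen_chi, MonoidHom.coe_mk, OneHom.coe_mk, toAdd_ofAdd, one_mul] at h1
  have h2 := Real.exp_injective h1
  have h3 : s.1 = t.1 := by
    by_contra hne
    apply hβ
    refine ⟨(((s.2 : ℕ) : ℚ) - ((t.2 : ℕ) : ℚ)) / (((s.1 : ℕ) : ℚ) - ((t.1 : ℕ) : ℚ)), ?_⟩
    have hne' : ((s.1 : ℕ) : ℝ) - ((t.1 : ℕ) : ℝ) ≠ 0 := by
      intro h0
      apply hne
      have h4 : ((s.1 : ℕ) : ℝ) = ((t.1 : ℕ) : ℝ) := by linarith
      exact Fin.ext (by exact_mod_cast h4)
    push_cast
    rw [div_eq_iff hne']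
    linarith
  have h5 : s.2 = t.2 := by
    rw [h3] at h2
    have h4 : ((s.2 : ℕ) : ℝ) = ((t.2 : ℕ) : ℝ) := by linarith
    exact Fin.ext (by exact_mod_cast h4)
  exact Prod.ext h3 h5

theorem gen {β : ℝ} (hβ : Irrational β) (L : ℕ) (F : Fin (L + 1) × Fin (L + 1) → ℝ)
    (h : ∀ y : ℝ, 0 < y → ∑ t, F t * y ^ (((t.2 : ℕ) : ℝ) - β * ((t.1 : ℕ) : ℝ)) = 0) : F = 0 := by
  have hli := (linearIndependent_monoidHom (Multiplicative ℝ) ℝ).comp _ (Gen_inj hβ L)
  rw [Fintype.linearIndependent_iff] at hli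
  funext t
  refine hli F ?_ t
  funext x
  have h1 := h (Real.exp (Multiplicative.toAdd x)) (Real.exp_pos _)
  simp only [← Real.exp_mul] at h1
  simpa [Gen_chi] using h1

end Pool.Agent.TRN
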