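import Pool.Agent.TRN.AnaB
import Pool.Agent.TRN.Gen

set_option autoImplicit false

/-!
# TRN-Trg: the two-variable series is transcendental

PLAN. By contradiction with `ana`. For real `y > 0`, `0 < w < r0 = y ^ (-β)`: `g = ∑' w ^ i y ^ e i` is real, `≥ K'' ∑ (w y ^ β) ^ i = K'' / (1 - w y ^ β)` with `K'' = min y y⁻¹ ^ K > 0`
(`hK`), so `g → ∞` as `w → r0` from the left. Let `d` be the largest `k` such that some `E (i, j, k) ≠ 0` (`Finset.exists_max_image`). Divide `Ev = 0` by `g ^ d`: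
`P_d(w, y) = - ∑_{k < d} P_k(w, y) g ^ (k - d) → 0` for `w → r0`, `P_k(w, y) = ∑_{i, j} E (i, j, k) w ^ i y ^ j` (continuous in `w`), so `P_d(r0, y) = 0`:
`∑ E (i, j, d) y ^ (j - β i) = 0` for all `y > 0`, and `gen` gives `E (i, j, d) = 0` for all `i, j`, a contradiction.
-/

namespace Pool.Agent.TRN

open Polynomial Filter Topology

/-- the real series -/
private noncomputable def Trg_g (e : ℕ → ℕ) (y w : ℝ) : ℝ := ∑' i : ℕ, w ^ i * y ^ e i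

private theorem Trg_low {e : ℕ → ℕ} {β K : ℝ} (hK : ∀ i : ℕ, |(e i : ℝ) - i * β| ≤ K) {y : ℝ} (hy : 0 < y) (i : ℕ) :
    min (y ^ K) (y ^ (-K)) * (y ^ β) ^ i ≤ y ^ e i := by
  have h1 := abs_le.1 (hK i)
  have h2 : y ^ e i = y ^ ((e i : ℝ) - i * β) * (y ^ β) ^ i := by
    rw [← Real.rpow_natCast y (e i), ← Real.rpow_natCast (y ^ β) i, ← Real.rpow_mul hy.le,
      ← Real.rpow_add hy]
    congr 1
    ring
  rw [h2]
  apply mul_le_mul_of_nonneg_right _ (by positivity)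
  rcases le_total 1 y with h | h
  · exact (min_le_right _ _).trans (Real.rpow_le_rpow_of_exponent_le h (by linarith [h1.1]))
  · exact (min_le_left _ _).trans (Real.rpow_le_rpow_of_exponent_ge hy h (by linarith [h1.2]))

private theorem Trg_summable {e : ℕ → ℕ} {β K : ℝ} (hK : ∀ i : ℕ, |(e i : ℝ) - i * β| ≤ K) {y : ℝ} (hy : 0 < y)
    {w : ℝ} (hw0 : 0 ≤ w) (hw : w < y ^ (-β)) : Summable fun i : ℕ => w ^ i * y ^ e i := by
  have h1 : ‖(w : ℂ)‖ < y ^ (-β) := by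
    rw [Complex.norm_real, Real.norm_of_nonneg hw0]
    exact hw
  have h2 := gs_summable hK hy h1
  have h3 : (fun i : ℕ => (w : ℂ) ^ i * (y : ℂ) ^ e i) = fun i : ℕ => ((w ^ i * y ^ e i : ℝ) : ℂ) := by
    funext i
    push_cast
    rfl
  rw [h3] at h2
  exact Complex.summable_ofReal.1 h2

private theorem Trg_ge {e : ℕ → ℕ} {β K : ℝ} (hK : ∀ i : ℕ, |(e i : ℝ) - i * β| ≤ K) {y : ℝ} (hy : 0 < y)
    {w : ℝ} (hw0 : 0 ≤ w) (hw : w < y ^ (-β)) :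
    min (y ^ K) (y ^ (-K)) * (1 - w * y ^ β)⁻¹ ≤ Trg_g e y w := by
  have hyb : 0 < y ^ β := Real.rpow_pos_of_pos hy β
  have h1 : w * y ^ β < 1 := by
    calc w * y ^ β < y ^ (-β) * y ^ β := mul_lt_mul_of_pos_right hw hyb
      _ = 1 := by
        rw [← Real.rpow_add hy, neg_add_cancel, Real.rpow_zero]
  have h0 : 0 ≤ w * y ^ β := mul_nonneg hw0 hyb.le
  rw [← tsum_geometric_of_lt_one h0 h1, ← tsum_mul_left]
  unfold Trg_g
  refine Summable.tsum_le_tsum (fun i => ?_) ((summable_geometric_of_lt_one h0 h1).mul_left _)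
    (Trg_summable hK hy hw0 hw)
  calc min (y ^ K) (y ^ (-K)) * (w * y ^ β) ^ i = w ^ i * (min (y ^ K) (y ^ (-K)) * (y ^ β) ^ i) := by
        rw [mul_pow]
        ring
    _ ≤ _ := mul_le_mul_of_nonneg_left (Trg_low hK hy i) (by positivity)

private theorem Trg_top {e : ℕ → ℕ} {β K : ℝ} (hK : ∀ i : ℕ, |(e i : ℝ) - i * β| ≤ K) {y : ℝ} (hy : 0 < y) :
    Tendsto (fun w => Trg_g e y w) (𝓝[<] (y ^ (-β))) atTop := by
  have hr : 0 < y ^ (-β) := Real.rpow_pos_of_pos hy _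
  have hyb : 0 < y ^ β := Real.rpow_pos_of_pos hy β
  have hone : y ^ (-β) * y ^ β = 1 := by
    rw [← Real.rpow_add hy, neg_add_cancel, Real.rpow_zero]
  have hc : 0 < min (y ^ K) (y ^ (-K)) := lt_min (Real.rpow_pos_of_pos hy _) (Real.rpow_pos_of_pos hy _)
  have h1 : Tendsto (fun w : ℝ => 1 - w * y ^ β) (𝓝[<] (y ^ (-β))) (𝓝[>] 0) := by
    rw [tendsto_nhdsWithin_iff]
    constructor
    · have h2 : Tendsto (fun w : ℝ => 1 - w * y ^ β) (𝓝 (y ^ (-β))) (𝓝 (1 - y ^ (-β) * y ^ β)) :=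
        Continuous.tendsto (by fun_prop) _
      rw [hone, sub_self] at h2
      exact h2.mono_left nhdsWithin_le_nhds
    · filter_upwards [self_mem_nhdsWithin] with w hw
      have hw' : w < y ^ (-β) := hw
      have h3 : w * y ^ β < y ^ (-β) * y ^ β := mul_lt_mul_of_pos_right hw' hyb
      rw [hone] at h3
      exact sub_pos.2 h3
  have h2 : Tendsto (fun w : ℝ => min (y ^ K) (y ^ (-K)) * (1 - w * y ^ β)⁻¹) (𝓝[<] (y ^ (-β))) atTop :=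
    (tendsto_inv_nhdsGT_zero.comp h1).const_mul_atTop hc
  refine tendsto_atTop_mono' _ ?_ h2
  filter_upwards [Ioo_mem_nhdsLT hr] with w hw
  exact Trg_ge hK hy hw.1.le hw.2

private theorem Trg_real {e : ℕ → ℕ} {β K : ℝ} (hK : ∀ i : ℕ, |(e i : ℝ) - i * β| ≤ K) {L : ℕ} {E : Ix L → ℤ}
    (h : ∀ s t : ℕ, ((RM e L E s).coeff t).coeff s = 0) {y : ℝ} (hy : 0 < y) {w : ℝ} (hw0 : 0 ≤ w)
    (hw : w < y ^ (-β)) :
    ∑ t : Ix L, (E t : ℝ) * (w ^ (t.1 : ℕ) * y ^ (t.2.1 : ℕ)) * Trg_g e y w ^ (t.2.2 : ℕ) = 0 := by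
  have h1 : ‖(w : ℂ)‖ < y ^ (-β) := by
    rw [Complex.norm_real, Real.norm_of_nonneg hw0]
    exact hw
  have h2 := ana hK h hy h1
  have h3 : (∑' i : ℕ, (w : ℂ) ^ i * (y : ℂ) ^ e i) = ((Trg_g e y w : ℝ) : ℂ) := by
    unfold Trg_g
    rw [Complex.ofReal_tsum]
    congr 1
    funext i
    push_cast
    rfl
  rw [h3] at h2
  unfold Ev at h2
  have h4 : ((∑ t : Ix L, (E t : ℝ) * (w ^ (t.1 : ℕ) * y ^ (t.2.1 : ℕ)) * Trg_g e y w ^ (t.2.2 : ℕ) : ℝ) : ℂ) = 0 := by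
    rw [← h2]
    push_cast
    rfl
  exact_mod_cast h4

private theorem Trg_lim {e : ℕ → ℕ} {β K : ℝ} (hK : ∀ i : ℕ, |(e i : ℝ) - i * β| ≤ K) {L : ℕ} {E : Ix L → ℤ}
    (h : ∀ s t : ℕ, ((RM e L E s).coeff t).coeff s = 0) (d : ℕ) (hd : ∀ t : Ix L, d < (t.2.2 : ℕ) → E t = 0)
    {y : ℝ} (hy : 0 < y) :
    ∑ t : Ix L, (E t : ℝ) * ((y ^ (-β)) ^ (t.1 : ℕ) * y ^ (t.2.1 : ℕ)) * 0 ^ (d - (t.2.2 : ℕ)) = 0 := by
  have hr : 0 < y ^ (-β) := Real.rpow_pos_of_pos hy _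
  have htop := Trg_top hK hy
  have hlim : Tendsto (fun w : ℝ => ∑ t : Ix L, (E t : ℝ) * (w ^ (t.1 : ℕ) * y ^ (t.2.1 : ℕ)) *
      (Trg_g e y w)⁻¹ ^ (d - (t.2.2 : ℕ))) (𝓝[<] (y ^ (-β)))
      (𝓝 (∑ t : Ix L, (E t : ℝ) * ((y ^ (-β)) ^ (t.1 : ℕ) * y ^ (t.2.1 : ℕ)) * 0 ^ (d - (t.2.2 : ℕ)))) := by
    refine tendsto_finsetSum _ fun t _ => ?_
    refine Tendsto.mul ?_ ((tendsto_inv_atTop_zero.comp htop).pow _)
    have h2 : Tendsto (fun w : ℝ => (E t : ℝ) * (w ^ (t.1 : ℕ) * y ^ (t.2.1 : ℕ))) (𝓝 (y ^ (-β)))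
        (𝓝 ((E t : ℝ) * ((y ^ (-β)) ^ (t.1 : ℕ) * y ^ (t.2.1 : ℕ)))) :=
      Continuous.tendsto (by fun_prop) _
    exact h2.mono_left nhdsWithin_le_nhds
  have hzero : Tendsto (fun w : ℝ => ∑ t : Ix L, (E t : ℝ) * (w ^ (t.1 : ℕ) * y ^ (t.2.1 : ℕ)) *
      (Trg_g e y w)⁻¹ ^ (d - (t.2.2 : ℕ))) (𝓝[<] (y ^ (-β))) (𝓝 0) := by
    refine tendsto_const_nhds.congr' ?_
    filter_upwards [Ioo_mem_nhdsLT hr, htop.eventually_gt_atTop 0] with w hw hg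
    have h2 := Trg_real hK h hy hw.1.le hw.2
    have h3 : ∑ t : Ix L, (E t : ℝ) * (w ^ (t.1 : ℕ) * y ^ (t.2.1 : ℕ)) * (Trg_g e y w)⁻¹ ^ (d - (t.2.2 : ℕ)) =
        (Trg_g e y w)⁻¹ ^ d * ∑ t : Ix L, (E t : ℝ) * (w ^ (t.1 : ℕ) * y ^ (t.2.1 : ℕ)) *
          Trg_g e y w ^ (t.2.2 : ℕ) := by
      rw [Finset.mul_sum]
      refine Finset.sum_congr rfl fun t _ => ?_
      by_cases ht : d < (t.2.2 : ℕ)
      · rw [hd t ht]
        simp
      · have h4 : (Trg_g e y w)⁻¹ ^ d * Trg_g e y w ^ (t.2.2 : ℕ) =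
            (Trg_g e y w)⁻¹ ^ (d - (t.2.2 : ℕ)) := by
          have h5 : d = (d - (t.2.2 : ℕ)) + (t.2.2 : ℕ) := by omega
          conv_lhs => rw [h5, pow_add, mul_assoc, ← mul_pow, inv_mul_cancel₀ hg.ne', one_pow, mul_one]
        rw [← h4]
        ring
    rw [h3, h2, mul_zero]
  exact tendsto_nhds_unique hlim hzero

theorem trg {e : ℕ → ℕ} {β K : ℝ} (hβ : Irrational β) (hK : ∀ i : ℕ, |(e i : ℝ) - i * β| ≤ K) {L : ℕ} {E : Ix L → ℤ}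
    (hE : E ≠ 0) : ∃ s t : ℕ, ((RM e L E s).coeff t).coeff s ≠ 0 := by
  by_contra hcon
  push Not at hcon
  obtain ⟨t0, ht0⟩ : ∃ t, E t ≠ 0 := by
    by_contra h
    push Not at h
    exact hE (funext h)
  obtain ⟨t1, ht1, hmax⟩ := Finset.exists_max_image (Finset.univ.filter fun t : Ix L => E t ≠ 0)
    (fun t => (t.2.2 : ℕ)) ⟨t0, Finset.mem_filter.2 ⟨Finset.mem_univ _, ht0⟩⟩
  have ht1' := (Finset.mem_filter.1 ht1).2
  have hd : ∀ t : Ix L, (t1.2.2 : ℕ) < (t.2.2 : ℕ) → E t = 0 := by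
    intro t ht
    by_contra h
    have := hmax t (Finset.mem_filter.2 ⟨Finset.mem_univ _, h⟩)
    omega
  have hF := gen hβ L (fun q : Fin (L + 1) × Fin (L + 1) => ∑ k : Fin (L + 1), (E (q.1, q.2, k) : ℝ) *
    0 ^ ((t1.2.2 : ℕ) - (k : ℕ))) (by
      intro y hy
      have h1 := Trg_lim hK hcon (t1.2.2 : ℕ) hd hy
      refine Eq.trans ?_ h1
      rw [Fintype.sum_prod_type, Fintype.sum_prod_type]
      refine Finset.sum_congr rfl fun i _ => ?_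
      rw [Fintype.sum_prod_type]
      refine Finset.sum_congr rfl fun j _ => ?_
      rw [Finset.sum_mul]
      refine Finset.sum_congr rfl fun k _ => ?_
      have h2 : (y ^ (-β)) ^ (i : ℕ) * y ^ (j : ℕ) = y ^ (((j : ℕ) : ℝ) - β * ((i : ℕ) : ℝ)) := by
        rw [← Real.rpow_natCast (y ^ (-β)), ← Real.rpow_natCast y, ← Real.rpow_mul hy.le,
          ← Real.rpow_add hy]
        congr 1
        ring
      rw [← h2]
      ring)
  have h3 := congrFun hF (t1.1, t1.2.1)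
  have h4 : ∑ k : Fin (L + 1), (E (t1.1, t1.2.1, k) : ℝ) * 0 ^ ((t1.2.2 : ℕ) - (k : ℕ)) = (E t1 : ℝ) := by
    rw [Finset.sum_eq_single t1.2.2]
    · rw [Nat.sub_self, pow_zero, mul_one]
    · intro k _ hk
      rcases lt_or_gt_of_ne (fun h => hk (Fin.ext h) : (k : ℕ) ≠ (t1.2.2 : ℕ)) with h | h
      · rw [zero_pow (by omega), mul_zero]
      · rw [hd (t1.1, t1.2.1, k) h]
        simp
    · intro h
      exact absurd (Finset.mem_univ _) h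
  have h5 : (E t1 : ℝ) = 0 := by
    rw [← h4]
    exact h3
  exact ht1' (by exact_mod_cast h5)

end Pool.Agent.TRN
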