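import Pool.Agent.TRN.Liou
import Pool.Agent.TRN.StgS
import Pool.Agent.TRN.Gfp
import Pool.Agent.TRN.NDr
import Pool.Agent.TRN.Limb
import Pool.Agent.TRN.Sie
import Pool.Agent.TRN.Trg
import Pool.Agent.TRN.App
import Pool.Agent.TRN.Non
import Pool.Agent.TRN.NumA

set_option autoImplicit false

/-!
# TRN-CaseI: badly approximable slope

PLAN (part I, case I of the paper proof). Suppose `Ph α z x = κ`. `C, d0` from `liou`, `ρ = ‖z‖`. `numA` gives `L, T`. `S n` with `n ≤ a + b` (`stg_ex`, `choose`), `U, e, β` (`lim_ex`), `E` (`sie e`),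
`(s1, t1)` (`trg`), `M` with `s1 ≤ M` and `(M + 1) * c > s1 + t1`; `K` from `upp`, `K'` from `app e L E M`, `non` for `R = RM e L E M` (coefficient `(s1, t1)` nonzero by `rm_coeff`), `a n = (S n).a`, `b n = (S n).b`
(`norm_X`, `norm_Y`, `inf_ab`). Put `l n = ρ ^ min a b`, `l n → 0` (`inf_min`), `‖X‖, ‖Y‖ ≤ l n`. `U`-eventually (finitely many `i`): the exponents agree for `i ≤ max T M`, and (`hU.top`) all `atTop`-eventual
facts hold. `S.g = ∑' X ^ i Y ^ ⌊..⌋₊` by definition (`Gf`).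
Nonvanishing: `‖Ev .. g‖ ≥ ρ ^ (s1 a + t1 b) / 2 - K' l ^ (M + 1)`; `max a b ≤ min a b / c`, so `ρ ^ (s1 a + t1 b) ≥ l ^ ((s1 + t1) / c)` (real power) and `K' l ^ (M + 1) < ρ ^ (s1 a + t1 b) / 2` eventually since
`M + 1 > (s1 + t1) / c` and `l → 0`. So `Ev ≠ 0`, `aeval z (Rn κ S L E) ≠ 0` (`rn_eq`, `nd_eq`, `dn_ne`).
Liouville with `N = 3 * L * (a + b)`: `1 ≤ ‖aeval z Rn‖ * (C ^ (3 L (a + b) + 1) * (ln Rn) ^ d0)`, `‖aeval z Rn‖ ≤ 2 ^ L * K * l ^ T ≤ 2 ^ L * K * ρ ^ (c / 2 * (a + b) * T)` (`ba_min`), `rn_ln`; contradiction to `numA`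
with the number `N = a + b`, which tends to infinity along `U`. (`numA` is a statement about all large `N`.)
-/

namespace Pool.Agent.TRN

open Polynomial Filter Topology

private theorem CaseI_small {ρ c : ℝ} (hρ0 : 0 < ρ) (hρ1 : ρ < 1) (hc0 : 0 < c) {s1 t1 M : ℕ}
    (hM : ((s1 : ℝ) + t1) / c < M + 1) (K' : ℝ) {a b : ℕ → ℕ} (hca : ∀ n, c * a n ≤ b n) (hcb : ∀ n, c * b n ≤ a n)
    (hm : Tendsto (fun n => min (a n) (b n)) atTop atTop) :
    ∀ᶠ n in atTop, K' * (ρ ^ (min (a n) (b n))) ^ (M + 1) < ρ ^ (s1 * a n + t1 * b n) / 2 := by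
  set w : ℝ := ((s1 : ℝ) + t1) / c with hw
  have hw1 : 0 < (M : ℝ) + 1 - w := by linarith
  set q1 : ℝ := ρ ^ ((M : ℝ) + 1 - w) with hq1
  have hq0 : 0 < q1 := Real.rpow_pos_of_pos hρ0 _
  have hq2 : q1 < 1 := Real.rpow_lt_one hρ0.le hρ1 hw1
  have h1 : Tendsto (fun n => K' * q1 ^ (min (a n) (b n))) atTop (𝓝 0) := by
    have h2 := ((tendsto_pow_atTop_nhds_zero_of_lt_one hq0.le hq2).comp hm).const_mul K'
    simpa using h2
  filter_upwards [h1.eventually_lt_const (show (0 : ℝ) < 1 / 2 by norm_num)] with n hn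
  set m := min (a n) (b n) with hmd
  have ha : (a n : ℝ) ≤ m / c := by
    rw [le_div_iff₀ hc0]
    rcases le_total (a n) (b n) with h | h
    · rw [hmd, min_eq_left h]
      have hc1 : c * a n ≤ b n := hca n
      have : (a n : ℝ) * c ≤ a n := by
        by_contra hcon
        push Not at hcon
        have h3 : (0 : ℝ) < a n := by
          rcases Nat.eq_zero_or_pos (a n) with h0 | h0
          · rw [h0] at hcon
            norm_num at hcon
          · exact_mod_cast h0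
        have h4 : 1 < c := by
          by_contra h5
          push Not at h5
          nlinarith
        have h6 := hcb n
        have h7 : (b n : ℝ) < c * b n := by
          have h8 : (0 : ℝ) < b n := by
            have : (a n : ℝ) ≤ b n := by exact_mod_cast h
            linarith
          nlinarith
        have h9 : (a n : ℝ) ≤ b n := by exact_mod_cast h
        linarith
      exact this
    · rw [hmd, min_eq_right h, mul_comm]
      exact hca n
  have hb : (b n : ℝ) ≤ m / c := by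
    rw [le_div_iff₀ hc0]
    rcases le_total (a n) (b n) with h | h
    · rw [hmd, min_eq_left h, mul_comm]
      exact hcb n
    · rw [hmd, min_eq_right h]
      have : (b n : ℝ) * c ≤ b n := by
        by_contra hcon
        push Not at hcon
        have h3 : (0 : ℝ) < b n := by
          rcases Nat.eq_zero_or_pos (b n) with h0 | h0
          · rw [h0] at hcon
            norm_num at hcon
          · exact_mod_cast h0
        have h4 : 1 < c := by
          by_contra h5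
          push Not at h5
          nlinarith
        have h6 := hca n
        have h9 : (b n : ℝ) ≤ a n := by exact_mod_cast h
        have h7 : (a n : ℝ) < c * a n := by
          have h8 : (0 : ℝ) < a n := by linarith
          nlinarith
        linarith
      exact this
  have h2 : ((s1 * a n + t1 * b n : ℕ) : ℝ) ≤ w * m := by
    push_cast
    have h3 : (s1 : ℝ) * a n ≤ s1 * (m / c) := mul_le_mul_of_nonneg_left ha (Nat.cast_nonneg _)
    have h4 : (t1 : ℝ) * b n ≤ t1 * (m / c) := mul_le_mul_of_nonneg_left hb (Nat.cast_nonneg _)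
    calc (s1 : ℝ) * a n + t1 * b n ≤ s1 * (m / c) + t1 * (m / c) := add_le_add h3 h4
      _ = w * m := by
        rw [hw]
        ring
  have h3 : ρ ^ (w * m) ≤ ρ ^ (s1 * a n + t1 * b n) := by
    rw [← Real.rpow_natCast ρ (s1 * a n + t1 * b n)]
    exact Real.rpow_le_rpow_of_exponent_ge hρ0 hρ1.le h2
  have h4 : (ρ ^ m) ^ (M + 1) = q1 ^ m * ρ ^ (w * m) := by
    rw [hq1, ← Real.rpow_natCast (ρ ^ ((M : ℝ) + 1 - w)) m, ← Real.rpow_mul hρ0.le, ← Real.rpow_add hρ0, ← pow_mul,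
      ← Real.rpow_natCast ρ (m * (M + 1))]
    congr 1
    push_cast
    ring
  have h5 : 0 < ρ ^ (w * m) := Real.rpow_pos_of_pos hρ0 _
  calc K' * (ρ ^ m) ^ (M + 1) = (K' * q1 ^ m) * ρ ^ (w * m) := by
        rw [h4]
        ring
    _ < 1 / 2 * ρ ^ (w * m) := mul_lt_mul_of_pos_right hn h5
    _ ≤ 1 / 2 * ρ ^ (s1 * a n + t1 * b n) := mul_le_mul_of_nonneg_left h3 (by norm_num)
    _ = _ := by ring

theorem caseI {α c : ℝ} {z : ℂ} {x : ℝ} (hα : Irrational α) (hα0 : 0 < α) (hα1 : α < 1) (hx0 : 0 ≤ x) (hx1 : x < 1)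
    (hz0 : z ≠ 0) (hz : ‖z‖ < 1) (hza : IsAlgebraic ℚ z) (hB : BA α c) (κ : ℤ) : Ph α z x ≠ κ := by
  intro hκ
  obtain ⟨C, d0, hC, hLi⟩ := liou hza
  have hρ0 : 0 < ‖z‖ := norm_pos_iff.2 hz0
  have hc0 := hB.1
  obtain ⟨L, T, hT, hL0, hTL, hnum⟩ := numA hC hρ0 hz hc0 d0
  choose S hS using (fun n => stg_ex (x := x) hα hα0 hα1 hx0 hx1 hz n)
  obtain ⟨U, e, β, hU⟩ := lim_ex hB S
  obtain ⟨E, hE, hvan⟩ := sie e hT hTL
  obtain ⟨K0, hK0⟩ := hU.bd
  obtain ⟨s1, t1, hst⟩ := trg hU.irr hK0 hE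
  obtain ⟨M1, hM1⟩ := exists_nat_gt (((s1 : ℝ) + t1) / c)
  set M : ℕ := max M1 s1 with hM
  have hM2 : ((s1 : ℝ) + t1) / c < M + 1 := by
    have h1 : (M1 : ℝ) ≤ M := by exact_mod_cast le_max_left M1 s1
    linarith
  have hsM : s1 ≤ M := le_max_right _ _
  obtain ⟨K, hK, hupp⟩ := upp e L E T hvan
  obtain ⟨K', hK', happ⟩ := app e L E M
  have hst' : ((RM e L E M).coeff t1).coeff s1 ≠ 0 := by
    rw [rm_coeff e L E hsM le_rfl t1]
    exact hst
  have hnon := non (RM e L E M) hst' hρ0 hz (a := fun n => (S n).a) (b := fun n => (S n).b)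
    (X := fun n => (S n).X) (Y := fun n => (S n).Y) (fun n => norm_X (S n)) (fun n => norm_Y (S n))
    (fun i j hij => inf_ab hB hS hij)
  have hmin := inf_min hB hS
  have hl : Tendsto (fun n => ‖z‖ ^ (min (S n).a (S n).b)) atTop (𝓝 0) :=
    (tendsto_pow_atTop_nhds_zero_of_lt_one hρ0.le hz).comp hmin
  have e1 : ∀ᶠ n in atTop, ‖z‖ ^ (min (S n).a (S n).b) < 1 / 2 :=
    hl.eventually_lt_const (by norm_num)
  have e2 := CaseI_small hρ0 hz hc0 hM2 K' (a := fun n => (S n).a) (b := fun n => (S n).b)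
    (fun n => (ba_bounds hB (S n)).2.2.2.2.2.1) (fun n => (ba_bounds hB (S n)).2.2.2.2.1) hmin
  have hab : Tendsto (fun n => (S n).a + (S n).b) atTop atTop := tendsto_atTop_mono hS tendsto_id
  have e3 := hab.eventually (hnum (2 ^ L * K) ((∑ t, |E t| : ℤ) : ℝ) ((2 * |κ| + 3 : ℤ) : ℝ))
  have e4 : ∀ᶠ n in (U : Filter ℕ), ∀ i ∈ Finset.range (max T M + 1),
      ⌊((S n).y0 + i * (S n).u) / (S n).v⌋₊ = e i :=
    (Filter.eventually_all_finset _).2 fun i _ => hU.ev i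
  have f1 : ∀ᶠ n in (U : Filter ℕ), ‖z‖ ^ (s1 * (S n).a + t1 * (S n).b) / 2 ≤
      ‖ev2 (S n).X (S n).Y (RM e L E M)‖ := Filter.Eventually.filter_mono hU.top hnon
  have f2 := Filter.Eventually.filter_mono hU.top e1
  have f3 := Filter.Eventually.filter_mono hU.top e2
  have f4 := Filter.Eventually.filter_mono hU.top e3
  obtain ⟨n, hn1, hn2, hn3, hn4, hn5⟩ := (f1.and (f2.and (f3.and (f4.and e4)))).exists
  clear e1 e2 e3 e4 f1 f2 f3 f4 hnon hnum
  set l : ℝ := ‖z‖ ^ (min (S n).a (S n).b) with hldef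
  have hl0 : 0 ≤ l := by positivity
  have hX : ‖(S n).X‖ ≤ l := by
    rw [norm_X]
    exact pow_le_pow_of_le_one hρ0.le hz.le (min_le_left _ _)
  have hY : ‖(S n).Y‖ ≤ l := by
    rw [norm_Y]
    exact pow_le_pow_of_le_one hρ0.le hz.le (min_le_right _ _)
  have hup := hupp (fun i => ⌊((S n).y0 + i * (S n).u) / (S n).v⌋₊) (S n).X (S n).Y l
    (fun i hi => hn5 i (Finset.mem_range.2 (by have := le_max_left T M; omega))) hl0 hn2.le hX hY
  have hap := happ (fun i => ⌊((S n).y0 + i * (S n).u) / (S n).v⌋₊) (S n).X (S n).Y l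
    (fun i hi => hn5 i (Finset.mem_range.2 (by have := le_max_right T M; omega))) hl0 hn2.le hX hY
  have hg : (∑' i : ℕ, (S n).X ^ i * (S n).Y ^ ⌊((S n).y0 + i * (S n).u) / (S n).v⌋₊) = (S n).g := rfl
  rw [hg] at hup hap
  have hne : Ev L E (S n).X (S n).Y (S n).g ≠ 0 := by
    intro h0
    rw [h0, zero_sub, norm_neg] at hap
    linarith
  have hDn := dn_ne hz0 (S n)
  have hnd := nd_eq hz (S n) hκ
  have hR := rn_eq κ (S n) L E hnd
  have hRne : aeval z (Rn κ (S n) L E) ≠ 0 := by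
    rw [hR]
    exact mul_ne_zero (pow_ne_zero _ hDn) hne
  have hfin := hLi (3 * L * ((S n).a + (S n).b)) (Rn κ (S n) L E) (rn_deg κ (S n) L E) hRne
  have hRle : ‖aeval z (Rn κ (S n) L E)‖ ≤ 2 ^ L * K * ‖z‖ ^ (c / 2 * ((S n).a + (S n).b : ℕ) * T : ℝ) := by
    rw [hR, norm_mul, norm_pow]
    have h1 : ‖aeval z (Dn (S n))‖ ^ L ≤ 2 ^ L := pow_le_pow_left₀ (norm_nonneg _) (dn_norm hz.le (S n)) L
    have h2 : l ^ T ≤ ‖z‖ ^ (c / 2 * ((S n).a + (S n).b : ℕ) * T : ℝ) := by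
      rw [hldef, ← pow_mul, ← Real.rpow_natCast]
      apply Real.rpow_le_rpow_of_exponent_ge hρ0 hz.le
      push_cast
      have h3 := ba_min hB (S n)
      push_cast at h3
      exact mul_le_mul_of_nonneg_right h3 (Nat.cast_nonneg _)
    calc ‖aeval z (Dn (S n))‖ ^ L * ‖Ev L E (S n).X (S n).Y (S n).g‖ ≤ 2 ^ L * (K * l ^ T) :=
          mul_le_mul h1 hup (norm_nonneg _) (by positivity)
      _ ≤ 2 ^ L * (K * ‖z‖ ^ (c / 2 * ((S n).a + (S n).b : ℕ) * T : ℝ)) :=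
          mul_le_mul_of_nonneg_left (mul_le_mul_of_nonneg_left h2 hK) (by positivity)
      _ = _ := by ring
  have hln : ((ln (Rn κ (S n) L E) : ℤ) : ℝ) ≤
      ((∑ t, |E t| : ℤ) : ℝ) * (((2 * |κ| + 3 : ℤ) : ℝ) * ((S n).a + (S n).b : ℕ)) ^ L := by
    have h1 := rn_ln κ (S n) L E
    have h2 : ((ln (Rn κ (S n) L E) : ℤ) : ℝ) ≤
        (((∑ t, |E t|) * ((2 * |κ| + 3) * ((S n).a + (S n).b)) ^ L : ℤ) : ℝ) := by exact_mod_cast h1
    refine h2.trans (le_of_eq ?_)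
    push_cast
    ring
  have hln0 : (0 : ℝ) ≤ ((ln (Rn κ (S n) L E) : ℤ) : ℝ) := by exact_mod_cast ln_nonneg _
  have hC0 : (0 : ℝ) ≤ C := zero_le_one.trans hC
  have h1 : C ^ (3 * L * ((S n).a + (S n).b) + 1) * ((ln (Rn κ (S n) L E) : ℤ) : ℝ) ^ d0 ≤
      C ^ (3 * L * ((S n).a + (S n).b) + 1) * (((∑ t, |E t| : ℤ) : ℝ) *
        (((2 * |κ| + 3 : ℤ) : ℝ) * ((S n).a + (S n).b : ℕ)) ^ L) ^ d0 :=
    mul_le_mul_of_nonneg_left (pow_le_pow_left₀ hln0 hln d0) (by positivity)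
  have h2 : 0 ≤ C ^ (3 * L * ((S n).a + (S n).b) + 1) * ((ln (Rn κ (S n) L E) : ℤ) : ℝ) ^ d0 := by positivity
  have h3 := mul_le_mul hRle h1 h2 (by positivity)
  linarith

end Pool.Agent.TRN
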