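import Mathlib

set_option autoImplicit false

/-!
# TRN: definitions

PROJECT TRN (MP_5dd2d4_an): every non-real point `q` of the Mandelbrot set of linear pairs of minimal modulus is
transcendental, and `arg q / π` is irrational. Paper proof: /team-store/trn_proof.md.
-/

namespace Pool.Agent.TRN

open Polynomial

/-- the length of an integer polynomial: the sum of the absolute values of its coefficients -/
noncomputable def ln (R : ℤ[X]) : ℤ := ∑ i ∈ R.support, |R.coeff i|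

/-- `(-1)^m` -/
def sg (m : ℤ) : ℤ := if Even m then 1 else -1

/-- `∑ (-1)^⌊k α + y⌋ z^k` -/
noncomputable def Ph (α : ℝ) (z : ℂ) (y : ℝ) : ℂ := ∑' k : ℕ, (sg ⌊(k : ℝ) * α + y⌋ : ℂ) * z ^ k

/-- A stage of the induction: unimodular pair `(a, p)`, `(b, r)`, block polynomials `A`, `B`, and the position `y0`
of the first visit `k0 ≥ 0` of the orbit of `x`. -/
structure Stg (α : ℝ) (z : ℂ) (x : ℝ) where
  a : ℕ
  b : ℕ
  k0 : ℕ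
  p : ℤ
  r : ℤ
  A : ℤ[X]
  B : ℤ[X]
  Pr : ℤ[X]
  ep : ℤ
  y0 : ℝ
  ha : 1 ≤ a
  hb : 1 ≤ b
  det : (a : ℤ) * r - b * p = 1
  hu : 0 < (a : ℝ) * α - p
  hv : 0 < (r : ℝ) - b * α
  dA : A.natDegree ≤ a
  dB : B.natDegree ≤ b
  dP : Pr.natDegree ≤ k0
  lA : ln A ≤ a
  lB : ln B ≤ b
  lP : ln Pr ≤ k0
  hep : ep = 1 ∨ ep = -1
  hy0 : 0 ≤ y0
  hy1 : y0 < ((a : ℝ) * α - p) + (r - b * α)
  ka : (a : ℝ) * α - p ≤ y0 → k0 < a
  kb : y0 < (a : ℝ) * α - p → k0 < b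
  fA : ∀ y : ℝ, 0 ≤ y → y < r - b * α →
    Ph α z y = aeval z A + sg p * z ^ a * Ph α z (y + (a * α - p))
  fB : ∀ y : ℝ, r - b * α ≤ y → y < ((a : ℝ) * α - p) + (r - b * α) →
    Ph α z y = aeval z B + sg r * z ^ b * Ph α z (y - (r - b * α))
  idn : aeval z A * (1 - sg r * z ^ b) - aeval z B * (1 - sg p * z ^ a) = -2 * (sg r * z ^ b)
  fP : Ph α z x = aeval z Pr + ep * z ^ k0 * Ph α z y0

section
variable {α : ℝ} {z : ℂ} {x : ℝ} (S : Stg α z x)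

/-- `u = a α - p` -/
def Stg.u : ℝ := (S.a : ℝ) * α - S.p

/-- `v = r - b α` -/
def Stg.v : ℝ := (S.r : ℝ) - S.b * α

/-- `X = (-1)^p z^a` -/
noncomputable def Stg.X : ℂ := sg S.p * z ^ S.a

/-- `Y = (-1)^r z^b` -/
noncomputable def Stg.Y : ℂ := sg S.r * z ^ S.b

end

/-- `∑ X^i Y^⌊(y + i u) / v⌋` -/
noncomputable def Gf (u v y : ℝ) (X Y : ℂ) : ℂ := ∑' i : ℕ, X ^ i * Y ^ ⌊(y + i * u) / v⌋₊

section
variable {α : ℝ} {z : ℂ} {x : ℝ}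

/-- the value of the two-variable series of a stage at `(X, Y)` -/
noncomputable def Stg.g (S : Stg α z x) : ℂ := Gf S.u S.v S.y0 S.X S.Y

/-- denominator of `S.g` -/
noncomputable def Dn (S : Stg α z x) : ℤ[X] := C (2 * (S.ep * sg S.r)) * X ^ (S.b + S.k0)

/-- numerator of `S.g`, if `Ph α z x = κ` -/
noncomputable def Nn (κ : ℤ) (S : Stg α z x) : ℤ[X] :=
  C S.ep * X ^ S.k0 * S.B - (1 - C (sg S.r) * X ^ S.b) * (C κ - S.Pr)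

end

/-- badly approximable with constant `c` -/
def BA (α c : ℝ) : Prop := 0 < c ∧ c ≤ 1 ∧ ∀ (Q : ℕ) (P : ℤ), 1 ≤ Q → c ≤ Q * |Q * α - P|

/-- indices of the auxiliary polynomial `E(X, Y, G)` -/
abbrev Ix (L : ℕ) := Fin (L + 1) × Fin (L + 1) × Fin (L + 1)

/-- the truncated series `∑_{i ≤ M} X^i Y^(e i)`; a polynomial in `Y` (outer variable) with coefficients in `ℤ[X]` -/
noncomputable def GM (e : ℕ → ℕ) (M : ℕ) : Polynomial (Polynomial ℤ) :=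
  ∑ i ∈ Finset.range (M + 1), C (X ^ i) * X ^ e i

/-- `E(X, Y, G_M)` -/
noncomputable def RM (e : ℕ → ℕ) (L : ℕ) (E : Ix L → ℤ) (M : ℕ) : Polynomial (Polynomial ℤ) :=
  ∑ t : Ix L, C (C (E t)) * (C (X ^ (t.1 : ℕ)) * X ^ (t.2.1 : ℕ)) * GM e M ^ (t.2.2 : ℕ)

/-- evaluation of a polynomial of two variables at `(X, Y) = (x, y)` -/
noncomputable def ev2 (x y : ℂ) : Polynomial (Polynomial ℤ) →+* ℂ :=
  Polynomial.eval₂RingHom ((Polynomial.aeval x : ℤ[X] →ₐ[ℤ] ℂ) : ℤ[X] →+* ℂ) y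

/-- `E(x, y, g)` -/
noncomputable def Ev (L : ℕ) (E : Ix L → ℤ) (x y g : ℂ) : ℂ :=
  ∑ t : Ix L, (E t : ℂ) * (x ^ (t.1 : ℕ) * y ^ (t.2.1 : ℕ)) * g ^ (t.2.2 : ℕ)

/-- `D^L E(X, Y, g)` as a polynomial in `z` -/
noncomputable def Rn {α : ℝ} {z : ℂ} {x : ℝ} (κ : ℤ) (S : Stg α z x) (L : ℕ) (E : Ix L → ℤ) : ℤ[X] :=
  ∑ t : Ix L, C (E t) * ((C (sg S.p) * X ^ S.a) ^ (t.1 : ℕ) * (C (sg S.r) * X ^ S.b) ^ (t.2.1 : ℕ)) *
    (Nn κ S ^ (t.2.2 : ℕ) * Dn S ^ (L - (t.2.2 : ℕ)))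

/-- `U`-limit data of a sequence of stages -/
structure Lim {α : ℝ} {z : ℂ} {x : ℝ} (S : ℕ → Stg α z x) (U : Ultrafilter ℕ) (e : ℕ → ℕ) (β : ℝ) : Prop where
  top : (U : Filter ℕ) ≤ Filter.atTop
  irr : Irrational β
  pos : 0 < β
  bd : ∃ K : ℝ, ∀ i : ℕ, |(e i : ℝ) - i * β| ≤ K
  ev : ∀ i : ℕ, ∀ᶠ n in (U : Filter ℕ), ⌊((S n).y0 + i * (S n).u) / (S n).v⌋₊ = e i

/-! ### The extremal series -/

/-- the first 131 signs of the extremal series -/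
def fc : List ℤ :=
  [
   1, -1, 1, 1, 1, -1, -1, -1, -1, 1, 1, 1, -1, -1, -1, 1, 1, 1, 1, -1,
   -1, -1, 1, 1, 1, -1, -1, -1, -1, 1, 1, 1, -1, -1, -1, -1, 1, 1, 1, -1,
   -1, -1, 1, 1, 1, 1, -1, -1, -1, 1, 1, 1, -1, -1, -1, -1, 1, 1, 1, -1,
   -1, -1, -1, 1, 1, 1, -1, -1, -1, 1, 1, 1, 1, -1, -1, -1, 1, 1, 1, -1,
   -1, -1, -1, 1, 1, 1, -1, -1, -1, 1, 1, 1, 1, -1, -1, -1, 1, 1, 1, 1,
   -1, -1, -1, 1, 1, 1, -1, -1, -1, -1, 1, 1, 1, -1, -1, -1, 1, 1, 1, 1,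
   -1, -1, -1, 1, 1, 1, 1, -1, -1, -1, 1]

/-- the real part of the centre of the localisation -/
noncomputable def X0 : ℝ := 3787770740171809057512705537849996244376 / 10 ^ 40

/-- the imaginary part of the centre of the localisation -/
noncomputable def Y0 : ℝ := 5104149407153344515486688916434272410818 / 10 ^ 40

/-- the moment `q f'(q)` -/
noncomputable def mo (d : ℕ → ℤ) (q : ℂ) : ℂ := ∑' j : ℕ, (j : ℂ) * d j * q ^ j

/-- what is known about a minimal point in the open first quadrant and its series -/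
structure Ext (q : ℂ) (d : ℕ → ℤ) : Prop where
  re : 0 < q.re
  im : 0 < q.im
  lo : (635606390391455492692046961203 : ℝ) / 10 ^ 30 < ‖q‖
  up : ‖q‖ < (635606390391455492692046961204 : ℝ) / 10 ^ 30
  d0 : d 0 = 1
  pm : ∀ k, d k = 1 ∨ d k = -1
  van : HasSum (fun k => (d k : ℂ) * q ^ k) 0
  sgn : ∀ k, 1 ≤ k → 0 < (d k : ℝ) * (mo d q / q ^ k).re
  fst : ∀ k, k ≤ 130 → d k = fc.getD k 0
  loc : |q.re - X0| < 1 / 10 ^ 28 ∧ |q.im - Y0| < 1 / 10 ^ 28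
  oth : ∀ w : ℂ, w.im ≠ 0 → ‖w‖ = ‖q‖ → HasSum (fun k => (d k : ℂ) * w ^ k) 0 →
    |w.re - X0| < 1 / 10 ^ 28 ∧ |(|w.im| - Y0)| < 1 / 10 ^ 28

/-- the polynomial `P(z) = 1 + ∑_{1 ≤ k < n} d_k z^k - 2 s z^n` -/
noncomputable def Pn (d : ℕ → ℤ) (n : ℕ) (s : ℤ) : ℤ[X] :=
  1 + ∑ k ∈ Finset.Ico 1 n, C (d k) * X ^ k - C (2 * s) * X ^ n

/-- the reciprocal polynomial of `P` -/
noncomputable def Qn (d : ℕ → ℤ) (n : ℕ) (s : ℤ) : ℤ[X] :=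
  X ^ n + ∑ k ∈ Finset.Ico 1 n, C (d k) * X ^ (n - k) - C (2 * s)

end Pool.Agent.TRN
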