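import Pool.Agent.TRN.Defs

set_option autoImplicit false

/-!
# TRN-Fib: products over embeddings of a tower
-/

namespace Pool.Agent.TRN

open Polynomial

theorem fib {F K : Type} [Field F] [NumberField F] [Field K] [NumberField K] [Algebra F K] [IsScalarTower ℚ F K]
    (f : (F →ₐ[ℚ] ℂ) → ℝ) :
    ∏ φ : K →ₐ[ℚ] ℂ, f (φ.comp (IsScalarTower.toAlgHom ℚ F K)) = (∏ ψ : F →ₐ[ℚ] ℂ, f ψ) ^ Module.finrank F K := by
  have : FiniteDimensional F K := FiniteDimensional.right ℚ F K
  have : Algebra.IsSeparable F K := Algebra.isSeparable_tower_top_of_isSeparable ℚ F K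
  rw [Fintype.prod_equiv algHomEquivSigma
    (fun φ : K →ₐ[ℚ] ℂ => f (φ.comp (IsScalarTower.toAlgHom ℚ F K))) (fun σ => f σ.1) (fun φ => rfl),
    ← Finset.univ_sigma_univ, Finset.prod_sigma, ← Finset.prod_pow]
  refine Finset.prod_congr rfl fun σ _ => ?_
  let : Algebra F ℂ := σ.toRingHom.toAlgebra
  simp only [Finset.prod_const]
  congr
  exact AlgHom.card F K ℂ

theorem deg_min {F K : Type} [Field F] [NumberField F] [Field K] [NumberField K] [Algebra F K] [IsScalarTower ℚ F K]
    {x : K} (hx : IntermediateField.adjoin ℚ {x} = ⊤) : (minpoly F x).natDegree = Module.finrank F K := by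
  have : FiniteDimensional F K := FiniteDimensional.right ℚ F K
  have hint : IsIntegral F x := Algebra.IsIntegral.isIntegral x
  have htop : IntermediateField.adjoin F {x} = ⊤ := by
    rw [eq_top_iff]
    intro y _
    have hy : y ∈ IntermediateField.adjoin ℚ {x} := by
      rw [hx]
      exact IntermediateField.mem_top
    have hle : IntermediateField.adjoin ℚ {x} ≤
        (IntermediateField.adjoin F {x}).restrictScalars ℚ := by
      rw [IntermediateField.adjoin_le_iff]
      intro z hz
      exact IntermediateField.subset_adjoin F {x} hz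
    exact hle hy
  rw [← IntermediateField.adjoin.finrank hint, htop, IntermediateField.finrank_top']

end Pool.Agent.TRN
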