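import Pool.Agent.TRN.Phb

set_option autoImplicit false

/-!
# TRN-Gfa: the two-variable series

The series `Gf u v y X Y = ∑ X^i Y^⌊(y + i u) / v⌋`: the two functional equations `gf_lt` (peel off the first term when `y < v`)
and `gf_ge` (lower every exponent by one when `v ≤ y`), the bound by the geometric series, and the norms of `X`, `Y` of a stage.
-/

namespace Pool.Agent.TRN

open Polynomial

private theorem Gfa_nrm {u v y : ℝ} {X Y : ℂ} (hY : ‖Y‖ ≤ 1) (i : ℕ) :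
    ‖X ^ i * Y ^ ⌊(y + i * u) / v⌋₊‖ ≤ ‖X‖ ^ i := by
  rw [norm_mul, norm_pow, norm_pow]
  exact mul_le_of_le_one_right (pow_nonneg (norm_nonneg X) i) (pow_le_one₀ (norm_nonneg Y) hY)

private theorem Gfa_sum {u v y : ℝ} {X Y : ℂ} (hX : ‖X‖ < 1) (hY : ‖Y‖ ≤ 1) :
    Summable fun i : ℕ => X ^ i * Y ^ ⌊(y + i * u) / v⌋₊ :=
  Summable.of_norm_bounded (g := fun i : ℕ => ‖X‖ ^ i)
    (summable_geometric_of_lt_one (norm_nonneg X) hX) (fun i => Gfa_nrm hY i)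

theorem gf_lt {u v y : ℝ} {X Y : ℂ} (hv : 0 < v) (hy : 0 ≤ y) (hyv : y < v) (hX : ‖X‖ < 1) (hY : ‖Y‖ ≤ 1) :
    Gf u v y X Y = 1 + X * Gf u v (y + u) X Y := by
  unfold Gf
  rw [(Gfa_sum hX hY).tsum_eq_zero_add, ← tsum_mul_left]
  congr 1
  · have h0 : ⌊(y + ((0 : ℕ) : ℝ) * u) / v⌋₊ = 0 := by
      rw [Nat.cast_zero, zero_mul, add_zero, Nat.floor_eq_zero, div_lt_one hv]
      exact hyv
    rw [h0, pow_zero, pow_zero, mul_one]
  · refine tsum_congr fun k => ?_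
    have h : y + ((k + 1 : ℕ) : ℝ) * u = y + u + (k : ℝ) * u := by push_cast; ring
    rw [h, pow_succ]
    ring

theorem gf_ge {u v y : ℝ} {X Y : ℂ} (hu : 0 ≤ u) (hv : 0 < v) (hyv : v ≤ y) :
    Gf u v y X Y = Y * Gf u v (y - v) X Y := by
  unfold Gf
  rw [← tsum_mul_left]
  refine tsum_congr fun k => ?_
  have h0 : 0 ≤ (y - v + (k : ℝ) * u) / v :=
    div_nonneg (add_nonneg (sub_nonneg.mpr hyv) (mul_nonneg (Nat.cast_nonneg k) hu)) hv.le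
  have h1 : (y + (k : ℝ) * u) / v = (y - v + (k : ℝ) * u) / v + 1 := by
    field_simp
    ring
  rw [h1, Nat.floor_add_one h0, pow_succ]
  ring

theorem gf_bound {u v y : ℝ} {X Y : ℂ} (hX : ‖X‖ < 1) (hY : ‖Y‖ ≤ 1) : ‖Gf u v y X Y‖ ≤ 1 / (1 - ‖X‖) := by
  rw [one_div]
  unfold Gf
  exact tsum_of_norm_bounded (hasSum_geometric_of_lt_one (norm_nonneg X) hX) (fun i => Gfa_nrm hY i)

theorem norm_X {α : ℝ} {z : ℂ} {x : ℝ} (S : Stg α z x) : ‖S.X‖ = ‖z‖ ^ S.a := by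
  unfold Stg.X
  rw [norm_mul, sg_norm, one_mul, norm_pow]

theorem norm_Y {α : ℝ} {z : ℂ} {x : ℝ} (S : Stg α z x) : ‖S.Y‖ = ‖z‖ ^ S.b := by
  unfold Stg.Y
  rw [norm_mul, sg_norm, one_mul, norm_pow]

end Pool.Agent.TRN
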