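import Pool.Agent.TRN.Lnb

set_option autoImplicit false

/-!
# TRN-Liou: Liouville's inequality

PLAN. Let `K = ℚ⟮z⟯` (number field, `IsAlgebraic`), `d0 = finrank ℚ K`. There is a positive integer `A0` with `A0 * z` integral over `ℤ`
(`exists_integral_multiple`). For `natDegree R ≤ N` the number `y = A0 ^ N * R(z)` is integral (`∑ c_i A0 ^ (N - i) (A0 z) ^ i`), and if it is not `0` its norm to `ℚ` is
a nonzero integer, so `1 ≤ ∏_σ ‖σ y‖` over the `d0` embeddings `σ : K →ₐ[ℚ] ℂ` (`Algebra.norm_eq_prod_embeddings`, `Algebra.isIntegral_norm`,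
integers of `ℚ` are in `ℤ`). One of the embeddings is the inclusion; for every embedding `‖σ y‖ ≤ A0 ^ N * ln R * max 1 ‖σ z‖ ^ N` (`norm_aeval_le'`).
So `‖R(z)‖ ≥ 1 / (A0 ^ N * (A0 ^ N * ln R * H ^ N) ^ (d0 - 1))` with `H = ∏ max 1 ‖σ z‖`; note `ln R ≥ 1` (`R ≠ 0`), so the exponent `d0` may replace `d0 - 1`.
(An elementary proof with the resultant of `R` and the minimal polynomial of `z` over `ℤ` is also fine.)
-/

namespace Pool.Agent.TRN

open Polynomial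

private theorem Liou_int {K : Type} [Field K] (g : K) {a : ℤ} (ha : IsIntegral ℤ ((a : K) * g)) {N : ℕ} {R : ℤ[X]}
    (hN : R.natDegree ≤ N) : IsIntegral ℤ ((a : K) ^ N * aeval g R) := by
  rw [aeval_eq_sum_range, Finset.mul_sum]
  refine IsIntegral.sum _ fun i hi => ?_
  rw [Finset.mem_range] at hi
  have h : (a : K) ^ N * (R.coeff i • g ^ i) = ((R.coeff i * a ^ (N - i) : ℤ) : K) * ((a : K) * g) ^ i := by
    have h1 : N = (N - i) + i := by omega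
    conv_lhs => rw [h1]
    rw [zsmul_eq_mul, pow_add, mul_pow]
    push_cast
    ring
  rw [h]
  refine IsIntegral.mul ?_ (ha.pow i)
  exact isIntegral_algebraMap (R := ℤ) (A := K) (x := R.coeff i * a ^ (N - i))

private theorem Liou_norm {K : Type} [Field K] [Algebra ℚ K] [FiniteDimensional ℚ K] {y : K} (hy : IsIntegral ℤ y)
    (h0 : y ≠ 0) : 1 ≤ ∏ σ : K →ₐ[ℚ] ℂ, ‖σ y‖ := by
  have h1 : IsIntegral ℤ (Algebra.norm ℚ y) := Algebra.isIntegral_norm ℚ hy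
  obtain ⟨m, hm⟩ := IsIntegrallyClosed.isIntegral_iff.1 h1
  have h2 : Algebra.norm ℚ y ≠ 0 := Algebra.norm_ne_zero_iff.2 h0
  have h3 : m ≠ 0 := by
    rintro rfl
    rw [map_zero] at hm
    exact h2 hm.symm
  rw [← norm_prod, ← Algebra.norm_eq_prod_embeddings ℚ ℂ y, ← hm]
  have h4 : (algebraMap ℚ ℂ) ((algebraMap ℤ ℚ) m) = (m : ℂ) := by simp
  rw [h4, Complex.norm_intCast]
  exact_mod_cast Int.one_le_abs h3

private theorem Liou_one_le_ln {z : ℂ} {R : ℤ[X]} (h : aeval z R ≠ 0) : (1 : ℝ) ≤ (ln R : ℝ) := by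
  have h1 := norm_aeval_le' z R (le_refl _)
  have h2 : 0 < ‖aeval z R‖ := norm_pos_iff.2 h
  have h3 : (0 : ℝ) < max 1 ‖z‖ ^ R.natDegree := pow_pos (lt_of_lt_of_le one_pos (le_max_left _ _)) _
  have h4 : 0 < (ln R : ℝ) := by
    by_contra hc
    push Not at hc
    have := mul_nonpos_of_nonpos_of_nonneg hc h3.le
    linarith
  have h5 : 0 < ln R := by exact_mod_cast h4
  exact_mod_cast (by omega : 1 ≤ ln R)

theorem liou {z : ℂ} (hz : IsAlgebraic ℚ z) : ∃ (C : ℝ) (d0 : ℕ), 1 ≤ C ∧ ∀ (N : ℕ) (R : ℤ[X]), R.natDegree ≤ N →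
    aeval z R ≠ 0 → 1 ≤ ‖aeval z R‖ * (C ^ (N + 1) * (ln R : ℝ) ^ d0) := by
  classical
  have : FiniteDimensional ℚ (IntermediateField.adjoin ℚ {z}) :=
    IntermediateField.adjoin.finiteDimensional hz.isIntegral
  let g : IntermediateField.adjoin ℚ {z} := IntermediateField.AdjoinSimple.gen ℚ z
  let σ0 : IntermediateField.adjoin ℚ {z} →ₐ[ℚ] ℂ := (IntermediateField.adjoin ℚ {z}).val
  have hg : σ0 g = z := IntermediateField.AdjoinSimple.coe_gen ℚ z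
  have hgalg : IsAlgebraic ℤ g := by
    have h1 : IsAlgebraic ℚ g := Algebra.IsAlgebraic.isAlgebraic g
    exact (IsFractionRing.isAlgebraic_iff ℤ ℚ _).2 h1
  obtain ⟨a, ha0, ha⟩ := hgalg.exists_integral_multiple
  rw [zsmul_eq_mul] at ha
  have haC : (1 : ℝ) ≤ |(a : ℝ)| := by exact_mod_cast Int.one_le_abs ha0
  obtain ⟨H, hH1, hH⟩ : ∃ H : ℝ, 1 ≤ H ∧ ∀ σ : IntermediateField.adjoin ℚ {z} →ₐ[ℚ] ℂ,
      |(a : ℝ)| * max 1 ‖σ g‖ ≤ H := by
    refine ⟨1 + ∑ σ : IntermediateField.adjoin ℚ {z} →ₐ[ℚ] ℂ, |(a : ℝ)| * max 1 ‖σ g‖, ?_, fun σ => ?_⟩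
    · have : 0 ≤ ∑ σ : IntermediateField.adjoin ℚ {z} →ₐ[ℚ] ℂ, |(a : ℝ)| * max 1 ‖σ g‖ :=
        Finset.sum_nonneg fun σ _ => by positivity
      linarith
    · have : |(a : ℝ)| * max 1 ‖σ g‖ ≤
          ∑ σ : IntermediateField.adjoin ℚ {z} →ₐ[ℚ] ℂ, |(a : ℝ)| * max 1 ‖σ g‖ :=
        Finset.single_le_sum (f := fun σ : IntermediateField.adjoin ℚ {z} →ₐ[ℚ] ℂ => |(a : ℝ)| * max 1 ‖σ g‖)
          (fun τ _ => by positivity) (Finset.mem_univ σ)
      linarith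
  refine ⟨H ^ ((Finset.univ.erase σ0).card + 1), (Finset.univ.erase σ0).card, one_le_pow₀ hH1, ?_⟩
  intro N R hN hR
  set L : ℝ := (ln R : ℝ) with hL
  have hL1 : 1 ≤ L := Liou_one_le_ln hR
  set y : IntermediateField.adjoin ℚ {z} := ((a : ℤ) : IntermediateField.adjoin ℚ {z}) ^ N * aeval g R with hy
  have hyint : IsIntegral ℤ y := Liou_int g ha hN
  have hσ : ∀ σ : IntermediateField.adjoin ℚ {z} →ₐ[ℚ] ℂ, σ y = (a : ℂ) ^ N * aeval (σ g) R := by
    intro σ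
    have h1 : σ (aeval g R) = aeval (σ g) R := by
      rw [aeval_eq_sum_range, aeval_eq_sum_range, map_sum]
      refine Finset.sum_congr rfl fun i _ => ?_
      rw [zsmul_eq_mul, zsmul_eq_mul, map_mul, map_pow, map_intCast]
    rw [hy, map_mul, map_pow, map_intCast, h1]
  have haC0 : (a : ℂ) ≠ 0 := by exact_mod_cast ha0
  have hy0 : y ≠ 0 := by
    intro h
    have h1 := hσ σ0
    rw [h, map_zero, hg] at h1
    exact mul_ne_zero (pow_ne_zero _ haC0) hR h1.symm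
  have hprod := Liou_norm hyint hy0
  have hb : ∀ σ : IntermediateField.adjoin ℚ {z} →ₐ[ℚ] ℂ, ‖σ y‖ ≤ H ^ N * L := by
    intro σ
    have h1 := norm_aeval_le' (σ g) R hN
    rw [hσ σ, norm_mul, norm_pow, Complex.norm_intCast]
    have h2 : (|(a : ℝ)| * max 1 ‖σ g‖) ^ N ≤ H ^ N := pow_le_pow_left₀ (by positivity) (hH σ) N
    rw [mul_pow] at h2
    calc |(a : ℝ)| ^ N * ‖aeval (σ g) R‖ ≤ |(a : ℝ)| ^ N * (L * max 1 ‖σ g‖ ^ N) :=
          mul_le_mul_of_nonneg_left h1 (by positivity)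
      _ = (|(a : ℝ)| ^ N * max 1 ‖σ g‖ ^ N) * L := by ring
      _ ≤ H ^ N * L := mul_le_mul_of_nonneg_right h2 (by linarith)
  have h0 : ‖σ0 y‖ ≤ H ^ N * ‖aeval z R‖ := by
    rw [hσ σ0, hg, norm_mul, norm_pow, Complex.norm_intCast]
    have h2 : |(a : ℝ)| ≤ H := by
      refine le_trans ?_ (hH σ0)
      have : (1 : ℝ) ≤ max 1 ‖σ0 g‖ := le_max_left _ _
      nlinarith
    exact mul_le_mul_of_nonneg_right (pow_le_pow_left₀ (abs_nonneg _) h2 N) (norm_nonneg _)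
  rw [← Finset.mul_prod_erase Finset.univ _ (Finset.mem_univ σ0)] at hprod
  have hrest : ∏ σ ∈ Finset.univ.erase σ0, ‖σ y‖ ≤ (H ^ N * L) ^ (Finset.univ.erase σ0).card := by
    rw [← Finset.prod_const]
    exact Finset.prod_le_prod (fun _ _ => norm_nonneg _) fun σ _ => hb σ
  set c := (Finset.univ.erase σ0).card with hc
  have hHpos : 0 < H := by linarith
  calc (1 : ℝ) ≤ ‖σ0 y‖ * ∏ σ ∈ Finset.univ.erase σ0, ‖σ y‖ := hprod
    _ ≤ (H ^ N * ‖aeval z R‖) * (H ^ N * L) ^ c :=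
        mul_le_mul h0 hrest (Finset.prod_nonneg fun _ _ => norm_nonneg _) (by positivity)
    _ = ‖aeval z R‖ * ((H ^ (c + 1)) ^ N * L ^ c) := by
        rw [mul_pow, ← pow_mul, ← pow_mul]
        have : H ^ ((c + 1) * N) = H ^ N * H ^ (N * c) := by rw [← pow_add]; congr 1; ring
        rw [this]; ring
    _ ≤ ‖aeval z R‖ * ((H ^ (c + 1)) ^ (N + 1) * L ^ c) := by
        refine mul_le_mul_of_nonneg_left (mul_le_mul_of_nonneg_right ?_ (by positivity)) (norm_nonneg _)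
        exact pow_le_pow_right₀ (one_le_pow₀ hH1) (Nat.le_succ N)

end Pool.Agent.TRN
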