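import Pool.Agent.TRN.Defs

set_option autoImplicit false

/-!
# TRN-Lnb: the length of integer polynomials

PLAN. `ln_eq`: enlarge the support (`Finset.sum_subset`). `ln_add_le`: both sums over `range (max + 1)` by `ln_eq`. `ln_mul_le`: write `R * S` as
`∑ i ∈ R.support, C (R.coeff i) * X ^ i * S` (`Polynomial.as_sum_support_C_mul_X_pow`), `ln_sum_le`, `ln_C_mul`, `ln_X_pow_mul`; or
`|coeff (R * S) n| ≤ ∑ antidiagonal |..| |..|` and `Finset.sum_comm`. `norm_aeval_le`: `aeval_eq_sum_range`, triangle inequality, `‖z‖ ^ i ≤ 1`.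
`sg`: parity.
-/

namespace Pool.Agent.TRN

open Polynomial

theorem ln_eq (R : ℤ[X]) {N : ℕ} (hN : R.natDegree < N) : ln R = ∑ i ∈ Finset.range N, |R.coeff i| := by
  unfold ln
  refine Finset.sum_subset (fun i hi => ?_) (fun i _ hi => ?_)
  · exact Finset.mem_range.2 (lt_of_le_of_lt (le_natDegree_of_mem_supp i hi) hN)
  · rw [notMem_support_iff.1 hi, abs_zero]

theorem ln_nonneg (R : ℤ[X]) : 0 ≤ ln R := Finset.sum_nonneg fun _ _ => abs_nonneg _

theorem ln_zero : ln 0 = 0 := by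
  simp [ln]

theorem ln_neg (R : ℤ[X]) : ln (-R) = ln R := by
  simp [ln]

theorem ln_add_le (R S : ℤ[X]) : ln (R + S) ≤ ln R + ln S := by
  have h := natDegree_add_le R S
  have h1 := le_max_iff.1 h
  rw [ln_eq (R + S) (N := R.natDegree + S.natDegree + 1) (by omega),
    ln_eq R (N := R.natDegree + S.natDegree + 1) (by omega),
    ln_eq S (N := R.natDegree + S.natDegree + 1) (by omega), ← Finset.sum_add_distrib]
  refine Finset.sum_le_sum fun i _ => ?_
  rw [coeff_add]
  exact abs_add_le _ _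

theorem ln_sub_le (R S : ℤ[X]) : ln (R - S) ≤ ln R + ln S := by
  rw [sub_eq_add_neg, ← ln_neg S]
  exact ln_add_le _ _

theorem ln_sum_le {ι : Type} (s : Finset ι) (f : ι → ℤ[X]) : ln (∑ i ∈ s, f i) ≤ ∑ i ∈ s, ln (f i) := by
  classical
  induction s using Finset.induction_on with
  | empty => simp [ln_zero]
  | insert a s ha ih =>
    rw [Finset.sum_insert ha, Finset.sum_insert ha]
    exact (ln_add_le _ _).trans (by linarith)

theorem ln_C (c : ℤ) : ln (C c) = |c| := by
  rw [ln_eq (C c) (N := 1) (by rw [natDegree_C]; norm_num)]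
  simp

theorem ln_one : ln 1 = 1 := by
  have h := ln_C 1
  rw [map_one, abs_one] at h
  exact h

theorem ln_X_pow (n : ℕ) : ln (X ^ n) = 1 := by
  rw [ln_eq (X ^ n) (N := n + 1) (by rw [natDegree_X_pow]; omega), Finset.sum_range_succ,
    Finset.sum_eq_zero, coeff_X_pow_self, abs_one, zero_add]
  intro i hi
  rw [Finset.mem_range] at hi
  rw [coeff_X_pow, if_neg (by omega), abs_zero]

private theorem Lnb_C_mul (a : ℤ) (S : ℤ[X]) : ln (C a * S) = |a| * ln S := by
  have h := natDegree_C_mul_le a S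
  rw [ln_eq (C a * S) (N := S.natDegree + 1) (by omega), ln_eq S (N := S.natDegree + 1) (by omega),
    Finset.mul_sum]
  refine Finset.sum_congr rfl fun i _ => ?_
  rw [coeff_C_mul, abs_mul]

private theorem Lnb_X_pow_mul (i : ℕ) (S : ℤ[X]) : ln (X ^ i * S) = ln S := by
  have h : (X ^ i * S).natDegree ≤ i + S.natDegree := by
    refine natDegree_mul_le.trans ?_
    rw [natDegree_X_pow]
  rw [ln_eq (X ^ i * S) (N := i + (S.natDegree + 1)) (by omega),
    ln_eq S (N := S.natDegree + 1) (by omega), Finset.sum_range_add, Finset.sum_eq_zero, zero_add]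
  · refine Finset.sum_congr rfl fun m _ => ?_
    rw [coeff_X_pow_mul', if_pos (by omega), Nat.add_sub_cancel_left]
  · intro n hn
    rw [Finset.mem_range] at hn
    rw [coeff_X_pow_mul', if_neg (by omega), abs_zero]

theorem ln_mul_le (R S : ℤ[X]) : ln (R * S) ≤ ln R * ln S := by
  have h1 : R * S = ∑ i ∈ Finset.range (R.natDegree + 1), C (R.coeff i) * (X ^ i * S) := by
    conv_lhs => rw [R.as_sum_range_C_mul_X_pow, Finset.sum_mul]
    exact Finset.sum_congr rfl fun i _ => by rw [mul_assoc]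
  rw [h1]
  refine (ln_sum_le _ _).trans (le_of_eq ?_)
  rw [ln_eq R (N := R.natDegree + 1) (by omega), Finset.sum_mul]
  refine Finset.sum_congr rfl fun i _ => ?_
  rw [Lnb_C_mul, Lnb_X_pow_mul]

theorem ln_pow_le (R : ℤ[X]) (n : ℕ) : ln (R ^ n) ≤ ln R ^ n := by
  induction n with
  | zero => rw [pow_zero, pow_zero, ln_one]
  | succ n ih =>
    rw [pow_succ, pow_succ]
    exact (ln_mul_le _ _).trans (mul_le_mul_of_nonneg_right ih (ln_nonneg R))

private theorem Lnb_aeval (z : ℂ) (R : ℤ[X]) {N : ℕ} (hN : R.natDegree ≤ N) :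
    ‖aeval z R‖ ≤ (ln R : ℝ) * max 1 ‖z‖ ^ N := by
  rw [aeval_eq_sum_range, ln_eq R (N := R.natDegree + 1) (by omega)]
  refine (norm_sum_le _ _).trans ?_
  push_cast
  rw [Finset.sum_mul]
  refine Finset.sum_le_sum fun i hi => ?_
  rw [Finset.mem_range] at hi
  rw [zsmul_eq_mul, norm_mul, norm_pow, Complex.norm_intCast]
  have h1 : ‖z‖ ^ i ≤ max 1 ‖z‖ ^ N :=
    (pow_le_pow_left₀ (norm_nonneg _) (le_max_right 1 ‖z‖) i).trans
      (pow_le_pow_right₀ (le_max_left 1 ‖z‖) (by omega))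
  exact mul_le_mul_of_nonneg_left h1 (abs_nonneg _)

theorem norm_aeval_le {z : ℂ} (hz : ‖z‖ ≤ 1) (R : ℤ[X]) : ‖aeval z R‖ ≤ (ln R : ℝ) := by
  have h := Lnb_aeval z R (le_refl R.natDegree)
  rwa [max_eq_left hz, one_pow, mul_one] at h

/-- general bound -/
theorem norm_aeval_le' (z : ℂ) (R : ℤ[X]) {N : ℕ} (hN : R.natDegree ≤ N) :
    ‖aeval z R‖ ≤ (ln R : ℝ) * max 1 ‖z‖ ^ N := Lnb_aeval z R hN

theorem sg_add (m n : ℤ) : sg (m + n) = sg m * sg n := by
  unfold sg
  by_cases hm : Even m <;> by_cases hn : Even n <;> simp [Int.even_add, hm, hn]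

theorem sg_cases (m : ℤ) : sg m = 1 ∨ sg m = -1 := by
  unfold sg
  split_ifs
  · exact Or.inl rfl
  · exact Or.inr rfl

theorem sg_mul_self (m : ℤ) : sg m * sg m = 1 := by
  rcases sg_cases m with h | h <;> rw [h] <;> norm_num

theorem sg_norm (m : ℤ) : ‖(sg m : ℂ)‖ = 1 := by
  rcases sg_cases m with h | h <;> rw [h] <;> simp

theorem sg_abs (m : ℤ) : |sg m| = 1 := by
  rcases sg_cases m with h | h <;> rw [h] <;> simp

end Pool.Agent.TRN
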