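import Pool.Agent.TRN.Defs

set_option autoImplicit false

/-!
# TRN-MahA: values and divisors

PLAN. `eval_le`: `P = ∏ (X - r)` over the roots (`IsAlgClosed.splits`), `‖z - r‖ ≤ 2 max 1 ‖z‖ max 1 ‖r‖`, `mahlerMeasure_eq_leadingCoeff_mul_prod_roots`.
`mahler_dvd`: `P = A * B` monic, `mahlerMeasure_mul`, the Mahler measure of a monic polynomial is `≥ 1` (same formula).
`prod_emb`: the values `φ x` are distinct (`hx`: an embedding is determined by the image of `x`) and are roots of `Q`; so `∏ (X - C (φ x)) ∣ Q.map` (`Finset.prod_X_sub_C_dvd..` / `Polynomial.prod_multiset_X_sub_C_dvd`, distinct roots), `mahlerMeasure_X_sub_C`, `mahler_dvd`.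
`prod_sub`: the polynomials `(minpoly F x).map ψ` divide `Q.map` (`minpoly.dvd` over `F`, map by `ψ`); they are pairwise coprime: a common root `w` of those of `ψ ≠ ψ'`: take `a ∈ F` with `ψ a ≠ ψ' a` and `T ∈ ℚ[X]` with `aeval x T = algebraMap F K a`
(`hx`, `IntermediateField.mem_adjoin_simple_iff`/`Algebra.adjoin_singleton`, `K` algebraic); `minpoly F x ∣ T.map - C a` over `F`, so `T(w) = ψ a` and `T(w) = ψ' a`. So the product divides `Q.map` (`Finset.prod_dvd_of_coprime`).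
-/

namespace Pool.Agent.TRN

open Polynomial

private theorem MahA_one (z r : ℂ) : ‖z - r‖ ≤ 2 * max 1 ‖z‖ * max 1 ‖r‖ := by
  have h1 : ‖z - r‖ ≤ ‖z‖ + ‖r‖ := norm_sub_le z r
  have h2 : (1 : ℝ) ≤ max 1 ‖z‖ := le_max_left _ _
  have h3 : (1 : ℝ) ≤ max 1 ‖r‖ := le_max_left _ _
  have h4 : ‖z‖ ≤ max 1 ‖z‖ := le_max_right _ _
  have h5 : ‖r‖ ≤ max 1 ‖r‖ := le_max_right _ _
  nlinarith [mul_nonneg (sub_nonneg.2 h2) (sub_nonneg.2 h3)]

private theorem MahA_ms (s : Multiset ℂ) (z : ℂ) :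
    ‖(s.map fun r => z - r).prod‖ ≤
      2 ^ s.card * max 1 ‖z‖ ^ s.card * (s.map fun r => max 1 ‖r‖).prod := by
  induction s using Multiset.induction_on with
  | empty => simp
  | cons a s ih =>
    simp only [Multiset.map_cons, Multiset.prod_cons, Multiset.card_cons, norm_mul]
    have h1 := MahA_one z a
    have h2 : (0 : ℝ) ≤ 2 * max 1 ‖z‖ * max 1 ‖a‖ := by positivity
    calc ‖z - a‖ * ‖(s.map fun r => z - r).prod‖
        ≤ (2 * max 1 ‖z‖ * max 1 ‖a‖) *
          (2 ^ s.card * max 1 ‖z‖ ^ s.card * (s.map fun r => max 1 ‖r‖).prod) :=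
          mul_le_mul h1 ih (norm_nonneg _) h2
      _ = 2 ^ (s.card + 1) * max 1 ‖z‖ ^ (s.card + 1) *
          (max 1 ‖a‖ * (s.map fun r => max 1 ‖r‖).prod) := by ring

theorem eval_le {P : ℂ[X]} (hP : P.Monic) (z : ℂ) :
    ‖P.eval z‖ ≤ 2 ^ P.natDegree * max 1 ‖z‖ ^ P.natDegree * P.mahlerMeasure := by
  have hs := IsAlgClosed.splits P
  have h1 : P.natDegree = P.roots.card := hs.natDegree_eq_card_roots
  have h2 : P.mahlerMeasure = (P.roots.map fun r => max 1 ‖r‖).prod := by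
    rw [mahlerMeasure_eq_leadingCoeff_mul_prod_roots, hP.leadingCoeff]
    simp
  have h3 : P.eval z = (P.roots.map fun r => z - r).prod := by
    have h4 := hs.eq_prod_roots_of_monic hP
    conv_lhs => rw [h4]
    rw [eval_multiset_prod, Multiset.map_map]
    congr 1
    apply Multiset.map_congr rfl
    intro r _
    simp
  rw [h3, h1, h2]
  exact MahA_ms P.roots z

theorem mahler_dvd {P R : ℂ[X]} (hP : P.Monic) (hR : R.Monic) (h : R ∣ P) : R.mahlerMeasure ≤ P.mahlerMeasure := by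
  obtain ⟨B, rfl⟩ := h
  have hB : B.Monic := hR.of_mul_monic_left hP
  rw [mahlerMeasure_mul]
  have h1 : 1 ≤ B.mahlerMeasure := by
    have h2 := leadingCoeff_le_mahlerMeasure B
    rw [hB.leadingCoeff] at h2
    simpa using h2
  have h2 := R.mahlerMeasure_nonneg
  nlinarith

end Pool.Agent.TRN
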