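import Pool.Agent.TRN.MahA

set_option autoImplicit false

/-!
# TRN-MahB: the embeddings of the whole field

The values `φ x` are distinct roots of `Q`, so `∏ (X - φ x)` divides `Q`; `mahler_dvd`.
-/

namespace Pool.Agent.TRN

open Polynomial

private theorem MahB_prod {ι : Type} (s : Finset ι) (f : ι → ℂ) :
    (∏ i ∈ s, (X - C (f i))).mahlerMeasure = ∏ i ∈ s, max 1 ‖f i‖ := by
  classical
  induction s using Finset.induction_on with
  | empty => simp
  | insert i s hi ih =>
    rw [Finset.prod_insert hi, Finset.prod_insert hi, mahlerMeasure_mul, mahlerMeasure_X_sub_C, ih]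

theorem prod_emb {K : Type} [Field K] [NumberField K] {x : K} (hx : IntermediateField.adjoin ℚ {x} = ⊤) {Q : ℤ[X]}
    (hQ : Q.Monic) (hQx : aeval x Q = 0) :
    ∏ φ : K →ₐ[ℚ] ℂ, max 1 ‖φ x‖ ≤ (Q.map (Int.castRingHom ℂ)).mahlerMeasure := by
  have hinj : Function.Injective (fun φ : K →ₐ[ℚ] ℂ => φ x) := by
    intro φ ψ h
    have hint : IsIntegral ℚ x := Algebra.IsIntegral.isIntegral x
    have h1 : Algebra.adjoin ℚ {x} = ⊤ := by
      rw [← IntermediateField.adjoin_simple_toSubalgebra_of_isAlgebraic hint.isAlgebraic, hx,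
        IntermediateField.top_toSubalgebra]
    refine AlgHom.ext_of_adjoin_eq_top h1 ?_
    intro y hy
    rw [Set.mem_singleton_iff] at hy
    rw [hy]
    exact h
  rw [← MahB_prod Finset.univ (fun φ : K →ₐ[ℚ] ℂ => φ x)]
  refine mahler_dvd (hQ.map _) (monic_prod_of_monic _ _ fun φ _ => monic_X_sub_C _) ?_
  refine Finset.prod_dvd_of_coprime (fun φ _ ψ _ h => pairwise_coprime_X_sub_C hinj h) fun φ _ => ?_
  rw [dvd_iff_isRoot, IsRoot.def, eval_map]
  have h2 : aeval (φ x) Q = 0 := by
    have h3 : (φ.restrictScalars ℤ) (aeval x Q) = aeval ((φ.restrictScalars ℤ) x) Q :=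
      (Polynomial.aeval_algHom_apply (φ.restrictScalars ℤ) x Q).symm
    rw [hQx, map_zero] at h3
    exact h3.symm
  rw [aeval_def] at h2
  exact h2

end Pool.Agent.TRN
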