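import Pool.Agent.TRN.MahA

set_option autoImplicit false

/-!
# TRN-MahC: the relative minimal polynomials

PLAN. `eval_le`: `P = ∏ (X - r)` over the roots (`IsAlgClosed.splits`), `‖z - r‖ ≤ 2 max 1 ‖z‖ max 1 ‖r‖`, `mahlerMeasure_eq_leadingCoeff_mul_prod_roots`.
`mahler_dvd`: `P = A * B` monic, `mahlerMeasure_mul`, the Mahler measure of a monic polynomial is `≥ 1` (same formula).
`prod_emb`: the values `φ x` are distinct (`hx`: an embedding is determined by the image of `x`) and are roots of `Q`; so `∏ (X - C (φ x)) ∣ Q.map` (`Finset.prod_X_sub_C_dvd..` / `Polynomial.prod_multiset_X_sub_C_dvd`, distinct roots), `mahlerMeasure_X_sub_C`, `mahler_dvd`.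
`prod_sub`: the polynomials `(minpoly F x).map ψ` divide `Q.map` (`minpoly.dvd` over `F`, map by `ψ`); they are pairwise coprime: a common root `w` of those of `ψ ≠ ψ'`: take `a ∈ F` with `ψ a ≠ ψ' a` and `T ∈ ℚ[X]` with `aeval x T = algebraMap F K a`
(`hx`, `IntermediateField.mem_adjoin_simple_iff`/`Algebra.adjoin_singleton`, `K` algebraic); `minpoly F x ∣ T.map - C a` over `F`, so `T(w) = ψ a` and `T(w) = ψ' a`. So the product divides `Q.map` (`Finset.prod_dvd_of_coprime`).
-/

namespace Pool.Agent.TRN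

open Polynomial

private theorem MahC_prod {ι : Type} (s : Finset ι) (f : ι → ℂ[X]) :
    (∏ i ∈ s, f i).mahlerMeasure = ∏ i ∈ s, (f i).mahlerMeasure := by
  classical
  induction s using Finset.induction_on with
  | empty => simp
  | insert i s hi ih =>
    rw [Finset.prod_insert hi, Finset.prod_insert hi, mahlerMeasure_mul, ih]

theorem prod_sub {F K : Type} [Field F] [NumberField F] [Field K] [NumberField K] [Algebra F K] {x : K}
    (hx : IntermediateField.adjoin ℚ {x} = ⊤) {Q : ℤ[X]} (hQ : Q.Monic) (hQx : aeval x Q = 0) :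
    ∏ ψ : F →ₐ[ℚ] ℂ, ((minpoly F x).map (ψ : F →+* ℂ)).mahlerMeasure ≤
      (Q.map (Int.castRingHom ℂ)).mahlerMeasure := by
  have hint : IsIntegral ℚ x := Algebra.IsIntegral.isIntegral x
  have h1 : Algebra.adjoin ℚ {x} = ⊤ := by
    rw [← IntermediateField.adjoin_simple_toSubalgebra_of_isAlgebraic hint.isAlgebraic, hx,
      IntermediateField.top_toSubalgebra]
  have hiF : IsIntegral F x := hint.tower_top
  have hmon : (minpoly F x).Monic := minpoly.monic hiF
  rw [← MahC_prod Finset.univ (fun ψ : F →ₐ[ℚ] ℂ => (minpoly F x).map (ψ : F →+* ℂ))]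
  refine mahler_dvd (hQ.map _) (monic_prod_of_monic _ _ fun ψ _ => hmon.map _) ?_
  refine Finset.prod_dvd_of_coprime (fun ψ _ χ _ h => ?_) fun ψ _ => ?_
  · show IsCoprime ((minpoly F x).map (ψ : F →+* ℂ)) ((minpoly F x).map (χ : F →+* ℂ))
    rw [Polynomial.isCoprime_iff_aeval_ne_zero_of_isAlgClosed ℂ ℂ]
    intro w
    by_contra hcon
    push Not at hcon
    obtain ⟨h2, h3⟩ := hcon
    obtain ⟨a, ha⟩ := DFunLike.exists_ne h
    have h4 : algebraMap F K a ∈ Algebra.adjoin ℚ {x} := by rw [h1]; exact Algebra.mem_top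
    rw [Algebra.adjoin_singleton_eq_range_aeval] at h4
    obtain ⟨T, hT⟩ := h4
    have hT' : aeval x T = algebraMap F K a := hT
    have h5 : minpoly F x ∣ T.map (algebraMap ℚ F) - C a := by
      apply minpoly.dvd
      rw [map_sub, aeval_map_algebraMap, aeval_C, hT', sub_self]
    have key : ∀ θ : F →ₐ[ℚ] ℂ, aeval w ((minpoly F x).map (θ : F →+* ℂ)) = 0 → aeval w T = θ a := by
      intro θ h0
      have h6 : (minpoly F x).map (θ : F →+* ℂ) ∣ (T.map (algebraMap ℚ F) - C a).map (θ : F →+* ℂ) :=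
        Polynomial.map_dvd _ h5
      obtain ⟨R, hR⟩ := h6
      have h7 : aeval w ((T.map (algebraMap ℚ F) - C a).map (θ : F →+* ℂ)) = 0 := by
        rw [hR, map_mul, h0, zero_mul]
      rw [Polynomial.map_sub, Polynomial.map_map, Polynomial.map_C, map_sub, aeval_C] at h7
      have h8 : ((θ : F →+* ℂ).comp (algebraMap ℚ F)) = algebraMap ℚ ℂ :=
        Subsingleton.elim _ _
      rw [h8, aeval_map_algebraMap] at h7
      have h9 := sub_eq_zero.1 h7
      exact h9
    apply ha
    rw [← key ψ h2, ← key χ h3]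
  · show (minpoly F x).map (ψ : F →+* ℂ) ∣ Q.map (Int.castRingHom ℂ)
    have h2 : minpoly F x ∣ Q.map (algebraMap ℤ F) := by
      apply minpoly.dvd
      rw [aeval_map_algebraMap, hQx]
    have h3 := Polynomial.map_dvd (ψ : F →+* ℂ) h2
    rw [Polynomial.map_map] at h3
    have h4 : ((ψ : F →+* ℂ).comp (algebraMap ℤ F)) = Int.castRingHom ℂ := RingHom.ext_int _ _
    rwa [h4] at h3

end Pool.Agent.TRN
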