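import Pool.Agent.TRN.Phb

set_option autoImplicit false

/-!
# TRN-MisA: mismatches, gaps

PLAN. `δ = |Q α - P| > 0` (`α` irrational). `mm_cases`: both signs are `± 1`. `mm_floor`: if `⌊(k + Q) α + x⌋ = ⌊k α + x⌋ + P` then `Mm = 0` (`sg_add`). Otherwise, with `f = k α + x`, `(k + Q) α + x = f + P + (Q α - P)`:
if `Q α - P = δ > 0` there is an integer `m` with `f < m ≤ f + δ`; if `Q α - P = - δ` there is an integer `m` with `f - δ < m ≤ f`... (so `m` is within `δ` of `f`, on a fixed side, half-open).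
`mm_gap`: for `k < k'` both nonzero: with `h = k' - k` and the difference `m'` of the two integers, `|h α - m'| < δ`. If `Q m' ≠ h P`, `1 ≤ |Q m' - h P| = |Q (m' - h α) + h (Q α - P)| ≤ Q δ + h δ`. If `Q m' = h P` then
`Q ∣ h` (`IsCoprime`), `h = j Q`, `m' = j P`, `j ≥ 1`, `|h α - m'| = j δ ≥ δ`, a contradiction.
`mm_inf`: the fractional parts of `k α + x`, `k ≥ K`, are dense: there is `k ≥ K` with `Int.fract (k α + x)` in `(1 - δ, 1)` (if `Q α - P > 0`), resp. in `(0, δ)`; for these the floor changes (`δ < 1` is needed: if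
`δ ≥ 1` use `hδ`). Density: e.g. the pigeonhole argument, or `AddCircle` results (`dense_addSubgroupClosure_pair_iff`, `AddCircle.denseRange_zsmul..`, `Irrational`); a forward orbit of a compact group rotation is dense since the closure
of a sub-semigroup of a compact group is a group.
`mm_id`: split the sum `∑_{k} s_k z^k` at `Q` (`Summable.sum_add_tsum_nat_add`), `tsum_mul_left`, `Summable.tsum_sub`.
-/

namespace Pool.Agent.TRN

open Polynomial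

/-- the coefficient of `z^(k + Q)` in `(1 - (-1)^P z^Q) Ph` -/
noncomputable def Mm (α x : ℝ) (Q : ℕ) (P : ℤ) (k : ℕ) : ℤ :=
  sg ⌊((k + Q : ℕ) : ℝ) * α + x⌋ - sg P * sg ⌊(k : ℝ) * α + x⌋

/-- the polynomial of the first `Q` signs -/
noncomputable def Rq (α x : ℝ) (Q : ℕ) : ℤ[X] := ∑ k ∈ Finset.range Q, C (sg ⌊(k : ℝ) * α + x⌋) * X ^ k

theorem mm_cases (α x : ℝ) (Q : ℕ) (P : ℤ) (k : ℕ) : Mm α x Q P k = 0 ∨ Mm α x Q P k = 2 ∨ Mm α x Q P k = -2 := by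
  unfold Mm
  rcases sg_cases ⌊((k + Q : ℕ) : ℝ) * α + x⌋ with h1 | h1 <;> rcases sg_cases P with h2 | h2 <;>
    rcases sg_cases ⌊(k : ℝ) * α + x⌋ with h3 | h3 <;> rw [h1, h2, h3] <;> norm_num

/-- a mismatch is a change of the floor -/
private theorem MisA_ne {α x : ℝ} {Q : ℕ} {P : ℤ} {k : ℕ} (h : Mm α x Q P k ≠ 0) :
    ⌊(k : ℝ) * α + x + (Q * α - P)⌋ ≠ ⌊(k : ℝ) * α + x⌋ := by
  intro he
  apply h
  have h1 : ((k + Q : ℕ) : ℝ) * α + x = (k : ℝ) * α + x + (Q * α - P) + P := by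
    push_cast
    ring
  unfold Mm
  rw [h1, Int.floor_add_intCast, he, sg_add]
  ring

private theorem MisA_pos {α x : ℝ} {Q : ℕ} {P : ℤ} {k : ℕ} (h : Mm α x Q P k ≠ 0) (hD : 0 < (Q : ℝ) * α - P) :
    ∃ m : ℤ, 0 < (m : ℝ) - ((k : ℝ) * α + x) ∧ (m : ℝ) - ((k : ℝ) * α + x) ≤ Q * α - P := by
  have h1 := MisA_ne h
  have h2 : ⌊(k : ℝ) * α + x⌋ ≤ ⌊(k : ℝ) * α + x + (Q * α - P)⌋ := Int.floor_le_floor (by linarith)
  have h3 : ⌊(k : ℝ) * α + x⌋ + 1 ≤ ⌊(k : ℝ) * α + x + (Q * α - P)⌋ := by omega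
  have h4 : ((⌊(k : ℝ) * α + x⌋ : ℤ) : ℝ) + 1 ≤ (⌊(k : ℝ) * α + x + (Q * α - P)⌋ : ℤ) := by exact_mod_cast h3
  have h5 := Int.lt_floor_add_one ((k : ℝ) * α + x)
  have h6 := Int.floor_le ((k : ℝ) * α + x + (Q * α - P))
  exact ⟨⌊(k : ℝ) * α + x + (Q * α - P)⌋, by linarith, by linarith⟩

private theorem MisA_neg {α x : ℝ} {Q : ℕ} {P : ℤ} {k : ℕ} (h : Mm α x Q P k ≠ 0) (hD : (Q : ℝ) * α - P < 0) :
    ∃ m : ℤ, (Q : ℝ) * α - P < (m : ℝ) - ((k : ℝ) * α + x) ∧ (m : ℝ) - ((k : ℝ) * α + x) ≤ 0 := by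
  have h1 := MisA_ne h
  have h2 : ⌊(k : ℝ) * α + x + (Q * α - P)⌋ ≤ ⌊(k : ℝ) * α + x⌋ := Int.floor_le_floor (by linarith)
  have h3 : ⌊(k : ℝ) * α + x + (Q * α - P)⌋ + 1 ≤ ⌊(k : ℝ) * α + x⌋ := by omega
  have h4 : ((⌊(k : ℝ) * α + x + (Q * α - P)⌋ : ℤ) : ℝ) + 1 ≤ (⌊(k : ℝ) * α + x⌋ : ℤ) := by exact_mod_cast h3
  have h5 := Int.lt_floor_add_one ((k : ℝ) * α + x + (Q * α - P))
  have h6 := Int.floor_le ((k : ℝ) * α + x)
  exact ⟨⌊(k : ℝ) * α + x⌋, by linarith, by linarith⟩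

private theorem MisA_alg {α : ℝ} {Q : ℕ} {P : ℤ} (hQ : 1 ≤ Q) (hc : IsCoprime (Q : ℤ) P) {h : ℕ} (hh : 1 ≤ h) {M : ℤ}
    (hM : |(M : ℝ) - h * α| < |(Q : ℝ) * α - P|) : 1 ≤ ((Q : ℝ) + h) * |Q * α - P| := by
  by_cases he : (Q : ℤ) * M = h * P
  · exfalso
    have h1 : (Q : ℤ) ∣ h := by
      have h2 : (Q : ℤ) ∣ h * P := ⟨M, he.symm⟩
      exact hc.dvd_of_dvd_mul_right h2
    obtain ⟨j, hj⟩ := h1
    have hQ0 : (Q : ℤ) ≠ 0 := by omega
    have hM' : M = j * P := by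
      have h3 : (Q : ℤ) * M = Q * (j * P) := by rw [he, hj]; ring
      exact mul_left_cancel₀ hQ0 h3
    have hj1 : 1 ≤ j := by
      by_contra hcon
      have h4 : j ≤ 0 := by omega
      have h5 : (Q : ℤ) * j ≤ 0 := mul_nonpos_of_nonneg_of_nonpos (by omega) h4
      omega
    have e1 : (h : ℝ) = Q * j := by exact_mod_cast hj
    have e2 : (M : ℝ) = j * P := by exact_mod_cast hM'
    have e3 : (M : ℝ) - h * α = -(j * (Q * α - P)) := by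
      rw [e1, e2]
      ring
    have hj' : (1 : ℝ) ≤ j := by exact_mod_cast hj1
    rw [e3, abs_neg, abs_mul, abs_of_pos (by linarith : (0 : ℝ) < j)] at hM
    nlinarith [abs_nonneg ((Q : ℝ) * α - P)]
  · have h1 : (1 : ℝ) ≤ |(Q : ℝ) * M - h * P| := by
      have h2 : (1 : ℤ) ≤ |(Q : ℤ) * M - h * P| := Int.one_le_abs (sub_ne_zero.2 he)
      exact_mod_cast h2
    have h3 : (Q : ℝ) * M - h * P = Q * (M - h * α) + h * (Q * α - P) := by ring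
    have h4 : |(Q : ℝ) * M - h * P| ≤ Q * |(M : ℝ) - h * α| + h * |Q * α - P| := by
      rw [h3]
      refine (abs_add_le _ _).trans (le_of_eq ?_)
      rw [abs_mul, abs_mul, Nat.abs_cast, Nat.abs_cast]
    have h5 : (Q : ℝ) * |(M : ℝ) - h * α| ≤ Q * |Q * α - P| :=
      mul_le_mul_of_nonneg_left hM.le (Nat.cast_nonneg Q)
    linarith

theorem mm_gap {α x : ℝ} (hα : Irrational α) {Q : ℕ} {P : ℤ} (hQ : 1 ≤ Q) (hc : IsCoprime (Q : ℤ) P) {k k' : ℕ}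
    (hk : k < k') (h1 : Mm α x Q P k ≠ 0) (h2 : Mm α x Q P k' ≠ 0) :
    1 ≤ ((Q : ℝ) + ((k' : ℝ) - k)) * |Q * α - P| := by
  have hne : (Q : ℝ) * α - P ≠ 0 := by
    intro h
    have h3 : Irrational ((Q : ℝ) * α) := hα.natCast_mul (by omega)
    exact h3 ⟨(P : ℚ), by
      rw [Rat.cast_intCast]
      linarith⟩
  obtain ⟨h, rfl⟩ := Nat.exists_eq_add_of_lt hk
  have e1 : ((k + h + 1 : ℕ) : ℝ) - k = ((h + 1 : ℕ) : ℝ) := by
    push_cast
    ring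
  rw [e1]
  have e2 : ((k + h + 1 : ℕ) : ℝ) * α = (k : ℝ) * α + ((h + 1 : ℕ) : ℝ) * α := by
    push_cast
    ring
  rcases lt_or_gt_of_ne hne with hD | hD
  · obtain ⟨m, hm1, hm2⟩ := MisA_neg h1 hD
    obtain ⟨m', hm1', hm2'⟩ := MisA_neg h2 hD
    rw [e2] at hm1' hm2'
    refine MisA_alg hQ hc (h := h + 1) (by omega) (M := m' - m) ?_
    rw [abs_of_neg hD, abs_lt, Int.cast_sub]
    constructor <;> linarith
  · obtain ⟨m, hm1, hm2⟩ := MisA_pos h1 hD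
    obtain ⟨m', hm1', hm2'⟩ := MisA_pos h2 hD
    rw [e2] at hm1' hm2'
    refine MisA_alg hQ hc (h := h + 1) (by omega) (M := m' - m) ?_
    rw [abs_of_pos hD, abs_lt, Int.cast_sub]
    constructor <;> linarith

theorem rq_deg (α x : ℝ) (Q : ℕ) : (Rq α x Q).natDegree ≤ Q := by
  unfold Rq
  refine natDegree_sum_le_of_forall_le _ _ (fun k hk => ?_)
  rw [Finset.mem_range] at hk
  exact (natDegree_C_mul_X_pow_le _ _).trans hk.le

theorem rq_ln (α x : ℝ) (Q : ℕ) : ln (Rq α x Q) ≤ Q := by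
  unfold Rq
  refine (ln_sum_le _ _).trans ?_
  have h : ∀ k ∈ Finset.range Q, ln (C (sg ⌊(k : ℝ) * α + x⌋) * X ^ k) ≤ 1 := by
    intro k _
    refine (ln_mul_le _ _).trans ?_
    rw [ln_C, ln_X_pow, mul_one, sg_abs]
  refine (Finset.sum_le_sum h).trans ?_
  simp

end Pool.Agent.TRN
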