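import Pool.Agent.TRN.Lnb

set_option autoImplicit false

/-!
# TRN-NDa: denominator and numerator

PLAN. `k0_le`: `S.ka`, `S.kb`. `natDegree_mul_le`, `natDegree_sub_le`, `natDegree_C_mul_le`, `natDegree_pow_le`, `natDegree_sum_le_of_forall_le`; `ln_mul_le`, `ln_sub_le`, `ln_C`,
`ln_X_pow`, `sg_abs`, `S.lB`, `S.lP`. With `K = (2 * |κ| + 3) * (a + b)`: `ln (Nn) ≤ b + 2 (|κ| + k0) ≤ K`, `ln Dn ≤ 2 ≤ K` (`a + b ≥ 2`).
`rn_ln`: each summand has length `≤ |E t| * 1 * 1 * K ^ k * K ^ (L - k)`. `rn_eq`: `aeval` of a sum; `D ^ L * g ^ k = (D g) ^ k * D ^ (L - k)`, `k ≤ L` (`Fin`).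
-/

namespace Pool.Agent.TRN

open Polynomial

variable {α : ℝ} {z : ℂ} {x : ℝ}

theorem k0_le (S : Stg α z x) : S.k0 ≤ S.a + S.b := by
  rcases le_or_gt ((S.a : ℝ) * α - S.p) S.y0 with h | h
  · have := S.ka h
    omega
  · have := S.kb h
    omega

theorem dn_deg (S : Stg α z x) : (Dn S).natDegree ≤ 2 * (S.a + S.b) := by
  unfold Dn
  have h1 := natDegree_C_mul_le (2 * (S.ep * sg S.r)) ((X : ℤ[X]) ^ (S.b + S.k0))
  rw [natDegree_X_pow] at h1
  have h2 := k0_le S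
  rcases le_or_gt ((S.a : ℝ) * α - S.p) S.y0 with h | h
  · have := S.ka h
    omega
  · have := S.kb h
    omega

private theorem NDa_ep (S : Stg α z x) : |S.ep| = 1 := by
  rcases S.hep with h | h <;> rw [h] <;> simp

private theorem NDa_cs (S : Stg α z x) : |2 * (S.ep * sg S.r)| = 2 := by
  rw [abs_mul, abs_mul, NDa_ep, sg_abs]
  norm_num

theorem dn_ln (S : Stg α z x) : ln (Dn S) ≤ 2 := by
  unfold Dn
  refine (ln_mul_le _ _).trans ?_
  rw [ln_C, ln_X_pow, NDa_cs]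
  norm_num

theorem nn_deg (κ : ℤ) (S : Stg α z x) : (Nn κ S).natDegree ≤ 2 * (S.a + S.b) := by
  unfold Nn
  have hk : S.b + S.k0 ≤ 2 * (S.a + S.b) := by
    rcases le_or_gt ((S.a : ℝ) * α - S.p) S.y0 with h | h
    · have := S.ka h
      omega
    · have := S.kb h
      omega
  refine (natDegree_sub_le _ _).trans (max_le ?_ ?_)
  · refine natDegree_mul_le.trans ?_
    have h1 := natDegree_C_mul_le S.ep ((X : ℤ[X]) ^ S.k0)
    rw [natDegree_X_pow] at h1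
    have h2 := S.dB
    omega
  · refine natDegree_mul_le.trans ?_
    have h1 : (1 - C (sg S.r) * (X : ℤ[X]) ^ S.b).natDegree ≤ S.b := by
      refine (natDegree_sub_le _ _).trans (max_le ?_ ?_)
      · simp
      · have h3 := natDegree_C_mul_le (sg S.r) ((X : ℤ[X]) ^ S.b)
        rwa [natDegree_X_pow] at h3
    have h2 : (C κ - S.Pr).natDegree ≤ S.k0 := by
      refine (natDegree_sub_le _ _).trans (max_le ?_ S.dP)
      rw [natDegree_C]
      exact Nat.zero_le _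
    omega

theorem nn_ln (κ : ℤ) (S : Stg α z x) : ln (Nn κ S) ≤ (2 * |κ| + 3) * (S.a + S.b) := by
  unfold Nn
  have h1 : ln (C S.ep * X ^ S.k0 * S.B) ≤ S.b := by
    refine (ln_mul_le _ _).trans ?_
    have h2 : ln (C S.ep * (X : ℤ[X]) ^ S.k0) ≤ 1 := by
      refine (ln_mul_le _ _).trans ?_
      rw [ln_C, ln_X_pow, NDa_ep]
      norm_num
    calc ln (C S.ep * (X : ℤ[X]) ^ S.k0) * ln S.B ≤ 1 * ln S.B :=
          mul_le_mul_of_nonneg_right h2 (ln_nonneg _)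
      _ = ln S.B := one_mul _
      _ ≤ S.b := S.lB
  have h3 : ln (1 - C (sg S.r) * (X : ℤ[X]) ^ S.b) ≤ 2 := by
    refine (ln_sub_le _ _).trans ?_
    have h4 : ln (C (sg S.r) * (X : ℤ[X]) ^ S.b) ≤ 1 := by
      refine (ln_mul_le _ _).trans ?_
      rw [ln_C, ln_X_pow, sg_abs]
      norm_num
    have h5 := ln_one
    linarith
  have h6 : ln (C κ - S.Pr) ≤ |κ| + S.k0 := by
    refine (ln_sub_le _ _).trans ?_
    rw [ln_C]
    have := S.lP
    linarith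
  have h7 : ln ((1 - C (sg S.r) * (X : ℤ[X]) ^ S.b) * (C κ - S.Pr)) ≤ 2 * (|κ| + S.k0) := by
    refine (ln_mul_le _ _).trans ?_
    refine (mul_le_mul_of_nonneg_right h3 (ln_nonneg _)).trans ?_
    exact mul_le_mul_of_nonneg_left h6 (by norm_num)
  have h8 := ln_sub_le (C S.ep * X ^ S.k0 * S.B) ((1 - C (sg S.r) * X ^ S.b) * (C κ - S.Pr))
  have hk : (S.k0 : ℤ) ≤ S.a + S.b := by exact_mod_cast k0_le S
  have ha : (1 : ℤ) ≤ S.a := by exact_mod_cast S.ha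
  have hb : (1 : ℤ) ≤ S.b := by exact_mod_cast S.hb
  have hκ := abs_nonneg κ
  nlinarith [mul_nonneg hκ (show (0 : ℤ) ≤ (S.a : ℤ) + S.b - 1 by linarith)]

theorem dn_ne (hz : z ≠ 0) (S : Stg α z x) : aeval z (Dn S) ≠ 0 := by
  unfold Dn
  rw [map_mul, map_pow, aeval_X, aeval_C]
  refine mul_ne_zero ?_ (pow_ne_zero _ hz)
  have h := NDa_cs S
  have h2 : (2 * (S.ep * sg S.r)) ≠ 0 := by
    intro h3
    rw [h3] at h
    norm_num at h
  intro h4
  apply h2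
  have h5 : ((2 * (S.ep * sg S.r) : ℤ) : ℂ) = 0 := h4
  exact_mod_cast h5

theorem dn_norm (hz : ‖z‖ ≤ 1) (S : Stg α z x) : ‖aeval z (Dn S)‖ ≤ 2 := by
  refine (norm_aeval_le hz (Dn S)).trans ?_
  exact_mod_cast dn_ln S

end Pool.Agent.TRN
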