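import Pool.Agent.TRN.MahB
import Pool.Agent.TRN.MahC
import Pool.Agent.TRN.Fib

set_option autoImplicit false

/-!
# TRN-NrmU: upper bound for the norm

Proof. `Algebra.norm_eq_prod_embeddings ℚ ℂ`: `|N(y)| = ∏ ‖φ y‖`, `y = aeval (x ^ p) (B.map τ)`, `B = minpoly F x`. `φ y = ((B.map τ).map ψ).eval (φ x ^ p)`, `ψ = φ|F`, and `(B.map τ).map ψ = B.map (ψ ∘ τ)` is monic of degree `e0 = finrank F K` (`deg_min`).
`eval_le`: `‖φ y‖ ≤ 2 ^ e0 * (max 1 ‖φ x‖ ^ p) ^ e0 * f ψ` with `f ψ = mahlerMeasure (B.map (ψ ∘ τ))`, and `max 1 ‖φ x ^ p‖ ≤ max 1 ‖φ x‖ ^ p`. Product over `φ`: number of embeddings = `finrank ℚ K` (`AlgHom.card`), `prod_emb`, `fib`;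
`∏ ψ, f ψ = ∏ ψ, mahlerMeasure (B.map ψ)` (`Fintype.prod_bijective` for `ψ ↦ ψ.comp τ`), `prod_sub`.
-/

namespace Pool.Agent.TRN

open Polynomial

/-- composition with `τ` permutes the embeddings -/
private noncomputable def NrmU_eq {F : Type} [Field F] [NumberField F] (τ : F ≃ₐ[ℚ] F) : (F →ₐ[ℚ] ℂ) ≃ (F →ₐ[ℚ] ℂ) where
  toFun ψ := ψ.comp (τ : F →ₐ[ℚ] F)
  invFun ψ := ψ.comp (τ.symm : F →ₐ[ℚ] F)
  left_inv ψ := by
    ext a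
    show ψ (τ (τ.symm a)) = ψ a
    rw [AlgEquiv.apply_symm_apply]
  right_inv ψ := by
    ext a
    show ψ (τ.symm (τ a)) = ψ a
    rw [AlgEquiv.symm_apply_apply]

private theorem NrmU_apply {F K : Type} [Field F] [NumberField F] [Field K] [NumberField K] [Algebra F K]
    [IsScalarTower ℚ F K] (τ : F ≃ₐ[ℚ] F) (B : F[X]) (a : K) (φ : K →ₐ[ℚ] ℂ) :
    φ (aeval a (B.map (τ : F →+* F))) =
      (B.map ((((φ.comp (IsScalarTower.toAlgHom ℚ F K)).comp (τ : F →ₐ[ℚ] F) : F →ₐ[ℚ] ℂ)) : F →+* ℂ)).eval (φ a) := by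
  rw [aeval_def, eval₂_map, eval_map]
  have h := hom_eval₂ B ((algebraMap F K).comp (τ : F →+* F)) (φ : K →+* ℂ) a
  exact h

private theorem NrmU_max (r : ℝ) (hr : 0 ≤ r) (p : ℕ) : max 1 (r ^ p) ≤ max 1 r ^ p := by
  refine max_le ?_ ?_
  · exact one_le_pow₀ (le_max_left _ _)
  · exact pow_le_pow_left₀ hr (le_max_right _ _) p

theorem norm_up {F K : Type} [Field F] [NumberField F] [Field K] [NumberField K] [Algebra F K] [IsScalarTower ℚ F K]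
    (τ : F ≃ₐ[ℚ] F) (p : ℕ) {x : K} (hx : IntermediateField.adjoin ℚ {x} = ⊤) {Q : ℤ[X]} (hQ : Q.Monic)
    (hQx : aeval x Q = 0) :
    |((Algebra.norm ℚ (aeval (x ^ p) ((minpoly F x).map (τ : F →+* F))) : ℚ) : ℝ)| ≤
      2 ^ (Module.finrank F K * Module.finrank ℚ K) *
        (Q.map (Int.castRingHom ℂ)).mahlerMeasure ^ ((p + 1) * Module.finrank F K) := by
  classical
  set B : F[X] := minpoly F x with hB
  set e : ℕ := Module.finrank F K with he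
  set M : ℝ := (Q.map (Int.castRingHom ℂ)).mahlerMeasure with hM
  have hxF : IsIntegral F x := IsIntegral.of_finite F x
  have hBm : B.Monic := minpoly.monic hxF
  have hBd : B.natDegree = e := deg_min hx
  let f : (F →ₐ[ℚ] ℂ) → ℝ := fun ψ => (B.map ((ψ.comp (τ : F →ₐ[ℚ] F) : F →ₐ[ℚ] ℂ) : F →+* ℂ)).mahlerMeasure
  have hf0 : ∀ ψ, 0 ≤ f ψ := fun ψ => mahlerMeasure_nonneg _
  have h1 : |((Algebra.norm ℚ (aeval (x ^ p) (B.map (τ : F →+* F))) : ℚ) : ℝ)| =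
      ∏ φ : K →ₐ[ℚ] ℂ, ‖φ (aeval (x ^ p) (B.map (τ : F →+* F)))‖ := by
    rw [← norm_prod, ← Algebra.norm_eq_prod_embeddings ℚ ℂ, eq_ratCast, ← Complex.ofReal_ratCast, Complex.norm_real,
      Real.norm_eq_abs]
  rw [h1]
  have h2 : ∀ φ : K →ₐ[ℚ] ℂ, ‖φ (aeval (x ^ p) (B.map (τ : F →+* F)))‖ ≤
      2 ^ e * (max 1 ‖φ x‖ ^ p) ^ e * f (φ.comp (IsScalarTower.toAlgHom ℚ F K)) := by
    intro φ
    rw [NrmU_apply]
    have h3 := eval_le (hBm.map (((φ.comp (IsScalarTower.toAlgHom ℚ F K)).comp (τ : F →ₐ[ℚ] F) : F →ₐ[ℚ] ℂ) : F →+* ℂ))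
      (φ (x ^ p))
    rw [hBm.natDegree_map, hBd] at h3
    refine h3.trans ?_
    refine mul_le_mul_of_nonneg_right ?_ (hf0 _)
    refine mul_le_mul_of_nonneg_left ?_ (by positivity)
    refine pow_le_pow_left₀ (by positivity) ?_ e
    rw [map_pow, norm_pow]
    exact NrmU_max _ (norm_nonneg _) p
  have h3 : ∏ φ : K →ₐ[ℚ] ℂ, ‖φ (aeval (x ^ p) (B.map (τ : F →+* F)))‖ ≤
      ∏ φ : K →ₐ[ℚ] ℂ, (2 ^ e * (max 1 ‖φ x‖ ^ p) ^ e * f (φ.comp (IsScalarTower.toAlgHom ℚ F K))) :=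
    Finset.prod_le_prod (fun φ _ => norm_nonneg _) fun φ _ => h2 φ
  refine h3.trans ?_
  have hcard : Fintype.card (K →ₐ[ℚ] ℂ) = Module.finrank ℚ K := AlgHom.card ℚ K ℂ
  rw [Finset.prod_mul_distrib, Finset.prod_mul_distrib, Finset.prod_const, Finset.card_univ, hcard, ← pow_mul, fib f]
  have h4 : ∏ φ : K →ₐ[ℚ] ℂ, (max 1 ‖φ x‖ ^ p) ^ e ≤ M ^ (p * e) := by
    rw [Finset.prod_pow, Finset.prod_pow, ← pow_mul]
    exact pow_le_pow_left₀ (Finset.prod_nonneg fun φ _ => by positivity) (prod_emb hx hQ hQx) _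
  have h5 : ∏ ψ : F →ₐ[ℚ] ℂ, f ψ ≤ M := by
    have h6 : ∏ ψ : F →ₐ[ℚ] ℂ, f ψ = ∏ ψ : F →ₐ[ℚ] ℂ, (B.map (ψ : F →+* ℂ)).mahlerMeasure :=
      Fintype.prod_equiv (NrmU_eq τ) _ _ fun ψ => rfl
    rw [h6]
    exact prod_sub hx hQ hQx
  have h0 : 0 ≤ ∏ ψ : F →ₐ[ℚ] ℂ, f ψ := Finset.prod_nonneg fun ψ _ => hf0 ψ
  have hM0 : 0 ≤ M := mahlerMeasure_nonneg _
  calc (2 ^ (e * Module.finrank ℚ K) * ∏ φ : K →ₐ[ℚ] ℂ, (max 1 ‖φ x‖ ^ p) ^ e) * (∏ ψ : F →ₐ[ℚ] ℂ, f ψ) ^ e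
      ≤ 2 ^ (e * Module.finrank ℚ K) * M ^ (p * e) * M ^ e := by
        gcongr
    _ = 2 ^ (e * Module.finrank ℚ K) * M ^ ((p + 1) * e) := by
        rw [mul_assoc, ← pow_add]
        congr 2
        ring

end Pool.Agent.TRN
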