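import Pool.Agent.TRN.SgA

set_option autoImplicit false

/-!
# TRN-PerA: periodicity of the signs

PLAN. `per_data`: `q ^ n` is real and nonzero: `q ^ n = s ‖q‖ ^ n`, `s = ± 1`. `sgn` for `k` and `k + n`: `mo / q ^ (k + n) = (mo / q ^ k) / (s ‖q‖ ^ n)`; signs `± 1` (`pm`). `d n`: `sgn n` and `re_mo`.
`per_poly`: `(1 - s w ^ n) * ∑ d_k w^k`: the coefficient of `w^k` is `d k` for `k < n`, `d n - s = -2 s` for `k = n`, `d k - s d (k - n) = 0` for `k > n` (`Summable.sum_add_tsum_nat_add`).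
`qn_*`: leading term `X ^ n`, all other terms have degree `< n` (`1 ≤ k`, constant). `qn_mahler`: `Polynomial.mahlerMeasure_le_sqrt_sum_sq_norm_coeff`, coefficients: `1` at `n`, `± 1` at `1 .. n - 1`, `± 2` at `0`.
-/

namespace Pool.Agent.TRN

open Polynomial

private theorem PerA_sign {a b s : ℤ} (ha : a = 1 ∨ a = -1) (hb : b = 1 ∨ b = -1) (hs : s = 1 ∨ s = -1) {r : ℝ}
    (h1 : 0 < (a : ℝ) * (s * r)) (h2 : 0 < (b : ℝ) * r) : a = s * b := by
  rcases ha with rfl | rfl <;> rcases hb with rfl | rfl <;> rcases hs with rfl | rfl <;> norm_num at h1 h2 ⊢ <;>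
    linarith

theorem per_data {q : ℂ} {d : ℕ → ℤ} (h : Ext q d) {n : ℕ} (hn : 1 ≤ n) (hr : (q ^ n).im = 0) :
    ∃ s : ℤ, (s = 1 ∨ s = -1) ∧ q ^ n = s * (‖q‖ : ℂ) ^ n ∧ (∀ k, 1 ≤ k → d (k + n) = s * d k) ∧ d n = -s := by
  have hq : 0 < ‖q‖ := lt_trans (by norm_num) h.lo
  have hR : 0 < ‖q‖ ^ n := pow_pos hq n
  have h1 : q ^ n = (((q ^ n).re : ℝ) : ℂ) := by
    apply Complex.ext
    · simp
    · simpa using hr
  have h2 : |(q ^ n).re| = ‖q‖ ^ n := by
    rw [← norm_pow, h1]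
    simp
  obtain ⟨s, hs, hsR⟩ : ∃ s : ℤ, (s = 1 ∨ s = -1) ∧ (q ^ n).re = s * ‖q‖ ^ n := by
    rcases abs_choice (q ^ n).re with h3 | h3
    · refine ⟨1, Or.inl rfl, ?_⟩
      rw [← h2, h3]
      simp
    · refine ⟨-1, Or.inr rfl, ?_⟩
      rw [← h2, h3]
      simp
  have hs2 : (s : ℝ) * s = 1 := by
    rcases hs with rfl | rfl <;> norm_num
  have hs0 : (s : ℝ) ≠ 0 := by
    intro h0
    rw [h0] at hs2
    norm_num at hs2
  have hqn : q ^ n = s * (‖q‖ : ℂ) ^ n := by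
    rw [h1, hsR]
    push_cast
    rfl
  have hq0 : q ≠ 0 := by
    intro h0
    rw [h0, norm_zero] at hq
    exact lt_irrefl _ hq
  have key : ∀ k : ℕ, (mo d q / q ^ (k + n)).re = s * ((mo d q / q ^ k).re / ‖q‖ ^ n) := by
    intro k
    have e1 : mo d q / q ^ (k + n) = (mo d q / q ^ k) * (((s * (‖q‖ ^ n)⁻¹ : ℝ)) : ℂ) := by
      rw [pow_add, hqn]
      have hsC : (s : ℂ) * s = 1 := by exact_mod_cast hs2
      have hsC0 : (s : ℂ) ≠ 0 := by exact_mod_cast hs0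
      have hRC : (‖q‖ : ℂ) ^ n ≠ 0 := by
        have := hR.ne'
        exact_mod_cast this
      have hk : q ^ k ≠ 0 := pow_ne_zero _ hq0
      push_cast
      field_simp
      linear_combination (-(mo d q)) * hsC
    rw [e1, Complex.re_mul_ofReal]
    ring
  refine ⟨s, hs, hqn, ?_, ?_⟩
  · intro k hk
    have e2 := h.sgn (k + n) (by omega)
    have e3 := h.sgn k hk
    rw [key k] at e2
    have e4 : 0 < (d k : ℝ) * ((mo d q / q ^ k).re / ‖q‖ ^ n) := by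
      rw [← mul_div_assoc]
      exact div_pos e3 hR
    exact PerA_sign (h.pm _) (h.pm _) hs e2 e4
  · have e2 := h.sgn n hn
    have e5 := key 0
    rw [zero_add, pow_zero, div_one] at e5
    rw [e5] at e2
    have e6 : 0 < ((-1 : ℤ) : ℝ) * ((mo d q).re / ‖q‖ ^ n) := by
      have e7 : (mo d q).re / ‖q‖ ^ n < 0 := div_neg_of_neg_of_pos (re_mo h) hR
      push_cast
      linarith
    rw [PerA_sign (h.pm _) (Or.inr rfl) hs e2 e6]
    ring

end Pool.Agent.TRN
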