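import Pool.Agent.TRN.Lnb

set_option autoImplicit false

/-!
# TRN-Phb: basic facts about `Ph`, the first stage

PLAN. `ph_summable`: norm `‖z‖ ^ k` (`sg_norm`), geometric series. `ph_bound`: `tsum_of_norm_bounded`. `ph_shift`: `Summable.tsum_eq_zero_add`;
`((k + 1 : ℕ) : ℝ) * α + y = k * α + (y + α)`. `ph_int`: `Int.floor_add_intCast`, `sg_add`. `stg_base`: `a = b = 1`, `k0 = 0`, `p = 0`, `r = 1`,
`A = B = 1`, `Pr = 0`, `ep = 1`, `y0 = x`. `fA`: `⌊y⌋ = 0`, `ph_shift`. `fB`: `y + α = (y - (1 - α)) + 1`, `ph_int`, `sg 1 = -1`.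
-/

namespace Pool.Agent.TRN

open Polynomial

theorem ph_summable {α : ℝ} {z : ℂ} (hz : ‖z‖ < 1) (y : ℝ) :
    Summable fun k : ℕ => (sg ⌊(k : ℝ) * α + y⌋ : ℂ) * z ^ k := by
  refine Summable.of_norm_bounded (g := fun k : ℕ => ‖z‖ ^ k)
    (summable_geometric_of_lt_one (norm_nonneg z) hz) (fun k => ?_)
  rw [norm_mul, sg_norm, one_mul, norm_pow]

theorem ph_bound {α : ℝ} {z : ℂ} (hz : ‖z‖ < 1) (y : ℝ) : ‖Ph α z y‖ ≤ 1 / (1 - ‖z‖) := by
  rw [one_div]
  unfold Ph
  refine tsum_of_norm_bounded (hasSum_geometric_of_lt_one (norm_nonneg z) hz) (fun k => ?_)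
  rw [norm_mul, sg_norm, one_mul, norm_pow]

theorem ph_shift {α : ℝ} {z : ℂ} (hz : ‖z‖ < 1) (y : ℝ) : Ph α z y = sg ⌊y⌋ + z * Ph α z (y + α) := by
  unfold Ph
  rw [(ph_summable hz y).tsum_eq_zero_add, ← tsum_mul_left]
  congr 1
  · rw [Nat.cast_zero, zero_mul, zero_add, pow_zero, mul_one]
  · refine tsum_congr fun k => ?_
    have h : ((k + 1 : ℕ) : ℝ) * α + y = (k : ℝ) * α + (y + α) := by push_cast; ring
    rw [h, pow_succ]
    ring

theorem ph_int (α : ℝ) (z : ℂ) (y : ℝ) (m : ℤ) : Ph α z (y + m) = sg m * Ph α z y := by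
  unfold Ph
  rw [← tsum_mul_left]
  refine tsum_congr fun k => ?_
  have h : (k : ℝ) * α + (y + m) = ((k : ℝ) * α + y) + (m : ℤ) := by ring
  rw [h, Int.floor_add_intCast, sg_add]
  push_cast
  ring

private theorem Phb_sg0 : sg 0 = 1 := by
  unfold sg
  rw [if_pos (by decide)]

private theorem Phb_sg1 : sg 1 = -1 := by
  unfold sg
  rw [if_neg (by decide)]

theorem stg_base {α : ℝ} {z : ℂ} {x : ℝ} (hα0 : 0 < α) (hα1 : α < 1) (hx0 : 0 ≤ x) (hx1 : x < 1) (hz : ‖z‖ < 1) :
    ∃ S : Stg α z x, 2 ≤ S.a + S.b := by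
  refine ⟨{ a := 1, b := 1, k0 := 0, p := 0, r := 1, A := 1, B := 1, Pr := 0, ep := 1, y0 := x,
            ha := le_refl 1, hb := le_refl 1, det := by norm_num,
            hu := by push_cast; linarith, hv := by push_cast; linarith,
            dA := by rw [natDegree_one]; exact Nat.zero_le 1,
            dB := by rw [natDegree_one]; exact Nat.zero_le 1,
            dP := by rw [natDegree_zero],
            lA := by rw [ln_one]; norm_num,
            lB := by rw [ln_one]; norm_num,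
            lP := by rw [ln_zero]; norm_num,
            hep := Or.inl rfl, hy0 := hx0,
            hy1 := by push_cast; linarith,
            ka := fun _ => Nat.one_pos, kb := fun _ => Nat.one_pos,
            fA := fun y h0 h1 => ?_, fB := fun y h0 h1 => ?_, idn := ?_, fP := ?_ }, le_refl 2⟩
  · push_cast at h1
    have hf : ⌊y⌋ = 0 := by
      rw [Int.floor_eq_zero_iff, Set.mem_Ico]
      exact ⟨h0, by linarith⟩
    have h2 : y + (((1 : ℕ) : ℝ) * α - ((0 : ℤ) : ℝ)) = y + α := by push_cast; ring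
    rw [ph_shift hz y, hf, Phb_sg0, map_one, pow_one, h2]
    push_cast
    ring
  · push_cast at h0 h1
    have hf : ⌊y⌋ = 0 := by
      rw [Int.floor_eq_zero_iff, Set.mem_Ico]
      exact ⟨by linarith, by linarith⟩
    have h2 : y + α = (y - (((1 : ℤ) : ℝ) - ((1 : ℕ) : ℝ) * α)) + ((1 : ℤ) : ℝ) := by
      push_cast; ring
    rw [ph_shift hz y, hf, h2, ph_int, Phb_sg0, Phb_sg1, map_one, pow_one]
    push_cast
    ring
  · rw [Phb_sg0, Phb_sg1, map_one, pow_one]
    push_cast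
    ring
  · rw [map_zero, pow_zero]
    push_cast
    ring

end Pool.Agent.TRN
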