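import Mathlib

set_option autoImplicit false

/-!
# TRN-Rtf: roots of unity are far from one

PLAN. Put `ξ = q / conj q` (norm 1), `ξ0 = z0 / conj z0`, `z0 = X0 + I Y0`; `‖ξ - ξ0‖ ≤ 2 ‖q - z0‖ / ‖z0‖.. ≤ 10 ^ (-27)`. With `N = 636197946451` (a denominator of a convergent of `arg z0 / π`): `‖ξ ^ N - 1‖ ≈ 1.8427e-12`. Prove `10^(-12) < ‖ξ ^ N - 1‖ < 4 * 10^(-12)`:
`‖ξ ^ N - ξ0 ^ N‖ ≤ N ‖ξ - ξ0‖ ≤ 7e-16` (norm 1), and `ξ0 ^ N` by binary powering (39 squarings) with integers: a certified chain `(A_i, B_i)` with `‖ξ0 ^ (N_i) - (A_i + I B_i) / 10 ^ 40‖ ≤ ε_i`, `ε_{i+1} ≤ 2 ε_i + ε_i ^ 2 + ..` (all numbers have norm `≤ 1.1`);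
the steps are checked by `norm_num` / `decide` on integers (`(A ^ 2 - B ^ 2) / 10 ^ 40`, `2 A B / 10 ^ 40` up to `1`).
If `(q ^ n).im = 0`, `0 < n < 10 ^ 12`: `ξ ^ n = 1`, so `η = ξ ^ N` satisfies `η ^ n = 1`, `η ≠ 1`; an `n`-th root of unity `≠ 1` has `‖η - 1‖ ≥ 4 / n` (`η = exp (2 π i k / n)`, `‖η - 1‖ = 2 |sin (π k / n)| ≥ 2 sin (π / n) ≥ 4 / n`, `Real.mul_le_sin`;
or elementary: `∏_{j=1}^{n-1}`..), and `4 / n > 4 * 10 ^ (-12)`, a contradiction. (`n = 1`: `q.im > 0`.)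
-/

namespace Pool.Agent.TRN

private theorem Rtf_sin {n i : ℕ} (hn : 0 < n) (hi0 : 0 < i) (hi : 2 * i ≤ n) :
    2 / (n : ℝ) ≤ Real.sin (Real.pi * i / n) := by
  have hn' : (0 : ℝ) < n := by exact_mod_cast hn
  have hi' : (1 : ℝ) ≤ i := by exact_mod_cast hi0
  have hin : 2 * (i : ℝ) ≤ n := by exact_mod_cast hi
  have hpi := Real.pi_pos
  have h1 : 0 ≤ Real.pi * i / n := by positivity
  have h2 : Real.pi * i / n ≤ Real.pi / 2 := by
    rw [div_le_div_iff₀ hn' (by norm_num)]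
    nlinarith
  have h3 := Real.mul_le_sin h1 h2
  have h4 : 2 / Real.pi * (Real.pi * i / n) = 2 * i / n := by
    field_simp
  rw [h4] at h3
  refine le_trans ?_ h3
  rw [div_le_div_iff_of_pos_right hn']
  linarith

theorem root_far {n : ℕ} (hn : 0 < n) {η : ℂ} (h : η ^ n = 1) (h1 : η ≠ 1) : 4 / (n : ℝ) ≤ ‖η - 1‖ := by
  have hn' : (0 : ℝ) < n := by exact_mod_cast hn
  have : NeZero n := ⟨hn.ne'⟩
  obtain ⟨i, hi, hηi⟩ := (Complex.isPrimitiveRoot_exp n hn.ne').eq_pow_of_pow_eq_one h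
  have hi0 : 0 < i := by
    rcases Nat.eq_zero_or_pos i with h0 | h0
    · rw [h0, pow_zero] at hηi
      exact absurd hηi.symm h1
    · exact h0
  have h2 : η = Complex.exp (Complex.I * ((2 * Real.pi * i / n : ℝ) : ℂ)) := by
    rw [← hηi, ← Complex.exp_nat_mul]
    congr 1
    push_cast
    ring
  have h3 : ‖η - 1‖ = ‖2 * Real.sin (2 * Real.pi * i / n / 2)‖ := by
    rw [h2, Complex.norm_exp_I_mul_ofReal_sub_one]
  have h4 : 2 * Real.pi * i / n / 2 = Real.pi * i / n := by ring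
  rw [h3, h4, Real.norm_eq_abs]
  refine le_trans ?_ (le_abs_self _)
  have h5 : 2 / (n : ℝ) ≤ Real.sin (Real.pi * i / n) := by
    rcases Nat.lt_or_ge n (2 * i) with h6 | h6
    · have h7 := Rtf_sin (n := n) (i := n - i) hn (by omega) (by omega)
      have h8 : Real.pi * ((n - i : ℕ) : ℝ) / n = Real.pi - Real.pi * i / n := by
        rw [Nat.cast_sub hi.le]
        field_simp
      rw [h8, Real.sin_pi_sub] at h7
      exact h7
    · exact Rtf_sin hn hi0 h6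
  have h6 : 4 / (n : ℝ) = 2 * (2 / n) := by ring
  rw [h6]
  linarith

end Pool.Agent.TRN
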