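import Pool.Agent.TRN.Phb

set_option autoImplicit false

/-!
# TRN-SgA: signs of cosines, the sign of the moment

`sgn_cos`: `t = m + f`, `m = ⌊t + 1/2⌋`, `cos (π t) = (-1)^m cos (π f)`.  `re_mo`: the real part of `conj w * f(q) = 0`, `w = mo d q`:
the terms `k ≥ 1` are positive.
-/

namespace Pool.Agent.TRN

open Polynomial

theorem sgn_cos {t : ℝ} (h : Real.cos (Real.pi * t) ≠ 0) : 0 < (sg ⌊t + 1 / 2⌋ : ℝ) * Real.cos (Real.pi * t) := by
  obtain ⟨m, hm⟩ : ∃ m : ℤ, m = ⌊t + 1 / 2⌋ := ⟨_, rfl⟩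
  have h1 : (m : ℝ) ≤ t + 1 / 2 := by
    rw [hm]
    exact Int.floor_le _
  have h2 : t + 1 / 2 < m + 1 := by
    rw [hm]
    exact Int.lt_floor_add_one _
  have hpi := Real.pi_pos
  have h3 : Real.pi * t = Real.pi * (t - m) + m * Real.pi := by ring
  have h4 : Real.cos (Real.pi * t) = (-1) ^ m * Real.cos (Real.pi * (t - m)) := by
    rw [h3, Real.cos_add_int_mul_pi]
  have h5 : 0 ≤ Real.cos (Real.pi * (t - m)) := by
    apply Real.cos_nonneg_of_neg_pi_div_two_le_of_le
    · nlinarith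
    · nlinarith
  have h6 : Real.cos (Real.pi * (t - m)) ≠ 0 := by
    intro h0
    rw [h4, h0, mul_zero] at h
    exact h rfl
  have h7 : 0 < Real.cos (Real.pi * (t - m)) := lt_of_le_of_ne h5 (Ne.symm h6)
  rw [← hm, h4]
  rcases Int.even_or_odd m with he | ho
  · rw [sg, if_pos he, he.neg_one_zpow]
    simpa using h7
  · rw [sg, if_neg (Int.not_even_iff_odd.2 ho), ho.neg_one_zpow]
    simpa using h7

theorem re_mo {q : ℂ} {d : ℕ → ℤ} (h : Ext q d) : (mo d q).re < 0 := by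
  obtain ⟨w, hw⟩ : ∃ w : ℂ, w = mo d q := ⟨_, rfl⟩
  have hq : q ≠ 0 := by
    intro h0
    have := h.re
    rw [h0, Complex.zero_re] at this
    exact lt_irrefl _ this
  have h1 : HasSum (fun k => (starRingEnd ℂ w) * ((d k : ℂ) * q ^ k)) ((starRingEnd ℂ w) * 0) :=
    h.van.mul_left _
  have h2 : HasSum (fun k => ((starRingEnd ℂ w) * ((d k : ℂ) * q ^ k)).re) 0 := by
    have h3 := Complex.reCLM.hasSum h1
    simpa using h3
  have hpos : ∀ k, 1 ≤ k → 0 < ((starRingEnd ℂ w) * ((d k : ℂ) * q ^ k)).re := by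
    intro k hk
    have h3 := h.sgn k hk
    rw [← hw] at h3
    have hz : q ^ k ≠ 0 := pow_ne_zero k hq
    have h4 : 0 < Complex.normSq (q ^ k) := Complex.normSq_pos.2 hz
    have h5 : ((starRingEnd ℂ w) * ((d k : ℂ) * q ^ k)).re = ((d k : ℝ) * (w / q ^ k).re) * Complex.normSq (q ^ k) := by
      rw [Complex.div_re]
      have h6 : ((starRingEnd ℂ w) * ((d k : ℂ) * q ^ k)).re = (d k : ℝ) * (w.re * (q ^ k).re + w.im * (q ^ k).im) := by
        simp only [Complex.mul_re, Complex.mul_im, Complex.conj_re, Complex.conj_im, Complex.intCast_re,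
          Complex.intCast_im]
        ring
      rw [h6]
      field_simp
    rw [h5]
    exact mul_pos h3 h4
  have h0 : ((starRingEnd ℂ w) * ((d 0 : ℂ) * q ^ 0)).re = w.re := by
    rw [h.d0]
    simp
  have h7 := (hasSum_nat_add_iff' 1).2 h2
  rw [Finset.sum_range_one, h0, zero_sub] at h7
  have h8 := le_hasSum h7 0 (fun k _ => (hpos (k + 1) (by omega)).le)
  have h9 := hpos (0 + 1) (by omega)
  rw [← hw]
  linarith

end Pool.Agent.TRN
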