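import Pool.Agent.TRN.Defs

set_option autoImplicit false

/-!
# TRN-ZerR: no real zeros

PLAN. `zer_real`: `f(r) > 0.9` for `r = ‖q‖ = 0.6356..`, `f(-‖q‖) > 1.9`: the first 30 terms by rational arithmetic (`fst`, `fc`), the tail `∑_{k ≥ 30} r^k ≤ r^30 / (1 - r) < 1e-5` (numerical values: `f(r) = 0.978`, `f(-r) = 1.982`; the error
from `r` is negligible; interval bounds `0.63560639 < r < 0.6356064`).
`zer_inj`: if `w ≠ q`, `0 = ∑_{k ≥ 1} d_k (w ^ k - q ^ k) / (w - q) = ∑_{k ≥ 1} d_k ∑_{i + j = k - 1} w ^ i q ^ j`. Each inner sum differs from `k z0 ^ (k - 1)`, `z0 = X0 + I Y0`, by at most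
`k (k - 1) (0.64) ^ (k - 2) * 4 / 10 ^ 28` (or use a crude bound), and `∑_{k ≥ 30} k 0.64 ^ (k - 1) < 0.001`; so `0 = ∑_{1 ≤ k < 30} d_k k z0 ^ (k - 1) + O(0.002)`, but that sum has imaginary part `> 4` (numerically `f'(z0) = -1.6253 + 4.3753 I`):
compute the powers of `z0` to a few digits only (intervals; e.g. `z0` replaced by `0.378777 + 0.510415 I` with error `1e-6`).
-/

namespace Pool.Agent.TRN

open Polynomial

private theorem ZerR_norm {q : ℂ} {d : ℕ → ℤ} (h : Ext q d) {r : ℝ} (hr : |r| = ‖q‖) (k : ℕ) :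
    ‖(d k : ℂ) * (r : ℂ) ^ k‖ = ‖q‖ ^ k := by
  rw [norm_mul, norm_pow, Complex.norm_real, Real.norm_eq_abs, hr]
  rcases h.pm k with h1 | h1
  · rw [h1]; simp
  · rw [h1]; simp

theorem zer_real {q : ℂ} {d : ℕ → ℤ} (h : Ext q d) {r : ℝ} (hr : |r| = ‖q‖) :
    ¬ HasSum (fun k => (d k : ℂ) * (r : ℂ) ^ k) 0 := by
  intro hs
  have h1 : ‖q‖ < 64 / 100 := h.up.trans (by norm_num)
  have h0 : 0 ≤ ‖q‖ := norm_nonneg q
  have hd0 : d 0 = 1 := h.d0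
  have hd1 : d 1 = -1 := by
    rw [h.fst 1 (by norm_num)]; rfl
  have hd2 : d 2 = 1 := by
    rw [h.fst 2 (by norm_num)]; rfl
  have h2 := (hasSum_nat_add_iff' 3).mpr hs
  have h3 : HasSum (fun n => ‖q‖ ^ 3 * ‖q‖ ^ n) (‖q‖ ^ 3 * (1 - ‖q‖)⁻¹) :=
    (hasSum_geometric_of_lt_one h0 (by linarith)).mul_left _
  have h4 := h2.norm_le_of_bounded h3 (fun n => by
    rw [ZerR_norm h hr, pow_add, mul_comm])
  have e : (0 : ℂ) - ∑ i ∈ Finset.range 3, (d i : ℂ) * (r : ℂ) ^ i = ((-(1 - r + r ^ 2) : ℝ) : ℂ) := by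
    rw [Finset.sum_range_succ, Finset.sum_range_succ, Finset.sum_range_one, hd0, hd1, hd2]
    push_cast
    ring
  rw [e, Complex.norm_real, Real.norm_eq_abs, abs_neg] at h4
  have h5 : 1 - r + r ^ 2 ≤ |1 - r + r ^ 2| := le_abs_self _
  have h6 : r ≤ ‖q‖ := hr ▸ le_abs_self r
  have h7 : r ^ 2 = ‖q‖ ^ 2 := by rw [← hr, sq_abs]
  have h8 : 1 - ‖q‖ + ‖q‖ ^ 2 ≤ ‖q‖ ^ 3 * (1 - ‖q‖)⁻¹ := by
    rw [h7] at h4 h5
    linarith
  have h9 : 0 < 1 - ‖q‖ := by linarith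
  rw [← div_eq_mul_inv, le_div_iff₀ h9] at h8
  nlinarith [sq_nonneg (‖q‖ - 64 / 100), mul_nonneg h0 h0, mul_nonneg h0 (sub_nonneg.2 h1.le),
    mul_nonneg (mul_nonneg h0 h0) (sub_nonneg.2 h1.le)]

end Pool.Agent.TRN
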